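import Pool.Agent.P.MP_849d05_an.AbStep

set_option autoImplicit false
set_option linter.unusedSectionVars false

open scoped ComplexConjugate Topology
open Finset MeasureTheory Filter

namespace Pool.Agent.P.MP_849d05_an.Ab

theorem ae_PS (J : ℕ) : ∀ᵐ S ∂PS, ∃ j, J ≤ j ∧ S j = true := by
  rw [ae_iff, ← measureReal_eq_zero_iff (measure_ne_top _ _)]
  refine le_antisymm (le_of_forall_pos_le_add fun ε hε => ?_) measureReal_nonneg
  obtain ⟨n, hn⟩ := exists_nat_ge (((J : ℝ) + 1) / ε)
  refine (measureReal_mono fun S hS => ?_).trans ((PS_false J n).le.trans ?_)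
  · exact fun j hj => Bool.eq_false_iff.2 fun h => hS ⟨j, (mem_Ico.1 hj).1, h⟩
  · rw [zero_add, div_le_comm₀ (by positivity) hε]
    linarith [(Nat.cast_nonneg J : (0 : ℝ) ≤ J)]

theorem normSq_sub_one {u : ℂ} (hu : ‖u‖ = 1) : ‖u - 1‖ ^ 2 = 2 - 2 * u.re := by
  have h : u.re * u.re + u.im * u.im = 1 := by
    rw [← Complex.normSq_apply, Complex.normSq_eq_norm_sq, hu, one_pow]
  rw [← Complex.normSq_eq_norm_sq, Complex.normSq_apply]
  simp only [Complex.sub_re, Complex.one_re, Complex.sub_im, Complex.one_im]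
  linarith

variable {Γ : Type} [AddCommGroup Γ] [Countable Γ] [DecidableEq Γ]

namespace Tree

variable (T : Tree Γ)

theorem exists_joint : ∃ L : Measure (Kd Γ × T.Om), IsFiniteMeasure L ∧
    ∀ (g : Γ) (h : T.Om → ℂ), Continuous h →
      ∫ p, chi g p.1 * h p.2 ∂L = ∫ ω, h ω * T.lim g ω ∂(PS.prod (hm T.X)) := by
  have hc : ∀ (g : Γ) (h : T.Om → ℂ), Continuous h →
      Continuous fun p : Kd Γ × T.Om => chi g p.1 * h p.2 := fun g h hh =>
    ((continuous_chi g).comp continuous_fst).mul (hh.comp continuous_snd)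
  have key : ∀ (I : ℕ) (g : Γ) (h : T.Om → ℂ), Continuous h → ∫ p, chi g p.1 * h p.2
      ∂(((haar Γ).prod (PS.prod (hm T.X))).withDensity fun p => ENNReal.ofReal (T.den I p.2 p.1)) =
      ∫ ω, h ω * T.rr I g ω ∂(PS.prod (hm T.X)) := fun I g h hh => by
    rw [integral_withDensity_re (T.continuous_den I).aemeasurable fun p => T.den_nonneg I _ _]
    refine (integral_prod_symm _ (integrable_cts ((hc g h hh).mul
        (Complex.continuous_ofReal.comp (T.continuous_den I))) _)).trans
      (integral_congr_ae (Eventually.of_forall fun ω => ?_))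
    simp only [rr, ← integral_const_mul]
    exact integral_congr_ae (Eventually.of_forall fun y => by
      simp only [Pi.mul_apply, Function.comp]
      ring)
  obtain ⟨L, hL, h⟩ := exists_limit atTop (fun I => ((haar Γ).prod (PS.prod (hm T.X))).withDensity
    fun p => ENNReal.ofReal (T.den I p.2 p.1)) 1 fun I => by
      have := isFiniteMeasure_withDensity_ofReal
        (integrable_cts (T.continuous_den I) ((haar Γ).prod (PS.prod (hm T.X)))).2
      have h1 := key I 0 (fun _ => 1) continuous_const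
      simp only [chi_zero_left, mul_one, integral_const, rr_one, probReal_univ, Complex.real_smul,
        Complex.ofReal_one, Complex.ofReal_eq_one] at h1
      rw [← ofReal_measureReal (measure_ne_top _ _), h1]
      simp
  refine ⟨L, hL, fun g ψ hψ => h _ _ (hc g ψ hψ) (tendsto_const_nhds.congr' ?_)⟩
  filter_upwards [T.eventually_rr g] with I hI
  simp only [key I g ψ hψ, hI]

theorem exists_mu : ∃ μ : Measure (Kd Γ), IsFiniteMeasure μ ∧ (∀ g, T.ff g = ∫ y, chi g y ∂μ) ∧
    ∀ J, μ (⋃ j, ⋃ _ : J ≤ j, dg Γ ⁻¹' T.EE j 1)ᶜ = 0 := by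
  obtain ⟨L, hL, h⟩ := T.exists_joint
  have c0 : ∀ j, Continuous fun ω : T.Om => ind ω.1 j := fun j =>
    (continuous_ind j).comp continuous_fst
  have c1 : ∀ j, Continuous fun ω : T.Om => (ind ω.1 j : ℂ) := fun j =>
    Complex.continuous_ofReal.comp (c0 j)
  have c2 : ∀ i, Continuous fun p : Kd Γ × T.Om => p.1 - T.pt p.2.2 i := fun i =>
    continuous_fst.sub ((T.continuous_pt i).comp (continuous_snd.comp continuous_snd))
  have h1 : ∀ i, ∀ g ∈ T.G i, ∫ p, ind p.2.1 (cl i) * ‖chi g (p.1 - T.pt p.2.2 i) - 1‖ ^ 2 ∂L =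
      (2 - 2 * cB (T.B i) (-g)) * ∫ ω, ind ω.1 (cl i) ∂(PS.prod (hm T.X)) := fun i g hg => by
    have c3 : Continuous fun ω : T.Om => ind ω.1 (cl i) * conj (chi g (T.pt ω.2 i)) :=
      (c1 _).mul (Complex.continuous_conj.comp ((continuous_chi g).comp
        ((T.continuous_pt i).comp continuous_snd)))
    have e1 := h 0 _ (c1 (cl i))
    have e2 := h g _ c3
    have e3 : ∀ ω : T.Om, ind ω.1 (cl i) * conj (chi g (T.pt ω.2 i)) * T.lim g ω =
        cB (T.B i) (-g) * ind ω.1 (cl i) := fun ω => by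
      have h0 : g + -g ∈ T.W i := by rw [add_neg_cancel]; exact T.zero_mem_W i
      rw [T.lim_eq ((T.Ws i g).2 ⟨_, (T.lev i).sub g hg, h0⟩), T.rr_step ((T.lev i).sub g hg) h0,
        add_neg_cancel, rr_one, chi_neg_left, Complex.conj_conj]
      rcases Bool.eq_false_or_eq_true (ω.1 (cl i)) with h | h
      · rw [ind_true h]
        push_cast
        linear_combination cB (T.B i) (-g) * conj_mul_chi g (T.pt ω.2 i)
      · simp [ind_false h]
    simp only [lim_one, chi_zero_left, mul_one, one_mul, e3, integral_const_mul,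
      integral_complex_ofReal] at e1 e2
    have i1 : Integrable (fun p : Kd Γ × T.Om => ind p.2.1 (cl i)) L :=
      integrable_cts ((c0 (cl i)).comp continuous_snd) L
    have i2 : Integrable (fun p : Kd Γ × T.Om =>
        chi g p.1 * (ind p.2.1 (cl i) * conj (chi g (T.pt p.2.2 i)))) L :=
      integrable_cts (((continuous_chi g).comp continuous_fst).mul (c3.comp continuous_snd)) L
    have e4 := integral_re i2
    rw [e2, ← Complex.ofReal_mul, RCLike.re_to_complex, Complex.ofReal_re] at e4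
    rw [sub_mul, mul_assoc, ← e4, ← Complex.ofReal_injective e1, ← integral_const_mul,
      ← integral_const_mul, ← integral_sub (i1.const_mul 2) (i2.re.const_mul 2)]
    refine integral_congr_ae (Eventually.of_forall fun p => ?_)
    simp only [normSq_sub_one (norm_chi _ _), RCLike.re_to_complex, mul_left_comm (chi g p.1),
      Complex.re_ofReal_mul]
    rw [sub_eq_add_neg p.1, chi_add_right, chi_neg_right]
    ring
  have h2 : ∀ i, L {p | 1 ≤ ind p.2.1 (cl i) * tf (T.G i) (T.w i) (p.1 - T.pt p.2.2 i)} ≤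
      ENNReal.ofReal ((1 / 2) ^ i) := fun i => by
    have h3 := mul_meas_ge_le_integral_of_nonneg (μ := L)
      (f := fun p => ind p.2.1 (cl i) * tf (T.G i) (T.w i) (p.1 - T.pt p.2.2 i))
      (Eventually.of_forall fun p => mul_nonneg (ind_nonneg _ _) (tf_nonneg _ (T.lev i).w0 _))
      (integrable_cts (((c0 _).comp continuous_snd).mul ((continuous_tf _ _).comp (c2 i))) _) 1
    have i1 : ∀ g, Integrable (fun p : Kd Γ × T.Om =>
        ind p.2.1 (cl i) * ‖chi g (p.1 - T.pt p.2.2 i) - 1‖ ^ 2) L := fun g =>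
      integrable_cts (((c0 _).comp continuous_snd).mul
        ((((continuous_chi g).comp (c2 i)).sub continuous_const).norm.pow 2)) L
    have h4 : ∫ ω, ind ω.1 (cl i) ∂(PS.prod (hm T.X)) ≤ 1 :=
      (integral_mono (integrable_cts (c0 _) _) (integrable_const 1)
        fun ω => ind_le_one _ _).trans (by simp)
    have h5 : 0 ≤ ∫ ω, ind ω.1 (cl i) ∂(PS.prod (hm T.X)) :=
      integral_nonneg fun ω => ind_nonneg _ _
    rw [← ofReal_measureReal (measure_ne_top _ _)]
    refine ENNReal.ofReal_le_ofReal (((one_mul _).symm.trans_le h3).trans ?_)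
    simp only [tf, mul_left_comm _ (T.w i), mul_sum _ _ (ind _ _)]
    rw [integral_const_mul, integral_finsetSum _ fun g _ => i1 g, sum_congr rfl (h1 i), ← sum_mul,
      ← mul_assoc]
    exact (mul_le_mul_of_nonneg_right (T.lev i).conc h5).trans
      (mul_le_of_le_one_right (by positivity) h4)
  have h3 := ae_eventually_notMem (ne_top_of_le_ne_top
    summable_geometric_two.tsum_ofReal_ne_top (ENNReal.tsum_le_tsum h2))
  have hm : Measurable fun p : Kd Γ × T.Om => p.2.1 := measurable_snd.fst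
  have h4 : L.map (fun p => p.2.1) = PS := by
    refine ext_of_forall_integral_eq_of_IsFiniteMeasure fun f => ?_
    have e := h 0 _ (Complex.continuous_ofReal.comp (f.continuous.comp continuous_fst))
    simp only [lim_one, chi_zero_left, mul_one, one_mul, Function.comp,
      integral_complex_ofReal] at e
    rw [integral_map hm.aemeasurable f.continuous.aestronglyMeasurable,
      Complex.ofReal_injective e, integral_fun_fst, probReal_univ, one_smul]
  refine ⟨L.map Prod.fst, inferInstance, fun g => ?_, fun J => ?_⟩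
  · have e := h g (fun _ => 1) continuous_const
    simp only [mul_one, one_mul] at e
    rw [integral_map measurable_fst.aemeasurable (continuous_chi g).aestronglyMeasurable, e,
      integral_prod _ (integrable_cts (T.continuous_lim g) _)]
    rfl
  · rw [Measure.map_apply measurable_fst (MeasurableSet.iUnion fun j => MeasurableSet.iUnion
      fun _ => measurable_dg (T.measurableSet_EE j 1)).compl]
    refine measure_eq_zero_iff_ae_notMem.2 ?_
    filter_upwards [h3, ae_of_ae_map hm.aemeasurable (h4 ▸ ae_PS J)] with p hp ⟨j, hj, hS⟩ hn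
    refine hn (Set.mem_iUnion₂.2 ⟨j, hj, fun _ => p.2.2, T.mem_NN (C := 1) (hp.mono ?_)⟩)
    rintro i hi rfl
    rw [ind_true hS, one_mul, not_le] at hi
    simpa [dg] using hi.le

theorem far {u : Γ → ℂ} (hu : u ∈ FSa Γ) {n : ℕ} (hn : 0 < n) {κ : Kd Γ → ℂ}
    (hκ : Integrable κ (haar Γ)) (he : ∀ g, u g ^ n = ∫ x, chi g x * κ x ∂(haar Γ)) :
    ∃ a : Γ →₀ ℂ, (∀ x, ‖∑ g ∈ a.support, a g * chi g x‖ ≤ 2) ∧
      1 / 2 ≤ ‖∑ g ∈ a.support, a g * (T.ff g - u g)‖ := by
  obtain ⟨k, rfl⟩ := Nat.exists_eq_succ_of_ne_zero hn.ne'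
  obtain ⟨ρ, h, hρ, hi, hne, hrep⟩ := exists_rep hu
  obtain ⟨μ, hμ, h1, h2⟩ := T.exists_mu
  have hV : MeasurableSet (⋃ j, ⋃ _ : 4 * (k + 1) ≤ j, dg Γ ⁻¹' T.EE j 1) :=
    MeasurableSet.iUnion fun j => MeasurableSet.iUnion fun _ =>
      measurable_dg (T.measurableSet_EE j 1)
  have h3 : ρ (⋃ j, ⋃ _ : 4 * (k + 1) ≤ j, dg Γ ⁻¹' T.EE j 1) = 0 :=
    measure_iUnion_null fun j => measure_iUnion_null fun hj =>
      T.null_EE hi hne k hκ (fun g => by rw [← hrep, he]) hj
  have h4 : μ.real Set.univ = 1 := by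
    have := h1 0
    simp only [ff, rho_one, chi_zero_left, integral_const, probReal_univ, Complex.real_smul,
      mul_one] at this
    exact (Complex.ofReal_injective this).symm
  obtain ⟨U, hUV, hU, h5⟩ := hV.exists_lt_isClosed_of_ne_top (μ := μ) (measure_ne_top _ _)
    (r := ENNReal.ofReal (3 / 4)) (by
      rw [measure_congr (ae_eq_univ.2 (h2 _)), ← ofReal_measureReal (measure_ne_top _ _), h4]
      exact (ENNReal.ofReal_lt_ofReal_iff one_pos).2 (by norm_num))
  have i1 : Integrable (fun _ : Kd Γ => (1 : ℂ)) μ := integrable_const _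
  have h6 := ((tendsto_appr measurable_id i1 hU).sub (tendsto_appr measurable_id hi hU)).norm
  rw [Set.preimage_id, setIntegral_measure_zero _ (measure_mono_null hUV h3), sub_zero,
    setIntegral_const, Complex.real_smul, mul_one, Complex.norm_real,
    Real.norm_of_nonneg measureReal_nonneg] at h6
  obtain ⟨N, hN⟩ := (h6.eventually (lt_mem_nhds
    ((ENNReal.ofReal_lt_iff_lt_toReal (by norm_num) (measure_ne_top _ _)).1 h5))).exists
  have hA : 0 ≤ ∫ y, ‖h y‖ ∂ρ := integral_nonneg fun _ => norm_nonneg _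
  obtain ⟨a, ha⟩ := exists_trig (appr hU N) (ε := 1 / (4 * (1 + ∫ y, ‖h y‖ ∂ρ))) (by positivity)
  have h7 : 1 / (4 * (1 + ∫ y, ‖h y‖ ∂ρ)) * (1 + ∫ y, ‖h y‖ ∂ρ) = 1 / 4 := by field_simp
  have h8 : 0 ≤ 1 / (4 * (1 + ∫ y, ‖h y‖ ∂ρ)) * ∫ y, ‖h y‖ ∂ρ := by positivity
  refine ⟨a, fun x => ?_, ?_⟩
  · have := norm_sub_norm_le (∑ g ∈ a.support, a g * chi g x) (appr hU N x)
    linarith [ha x, norm_appr_le hU N x]
  · have n1 := norm_cts_sub measurable_id i1 (trig a.support a) _ ha
    have n2 := norm_cts_sub measurable_id hi (trig a.support a) _ ha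
    simp only [trig, ContinuousMap.coe_mk] at n1 n2
    rw [integral_trig measurable_id i1] at n1
    rw [integral_trig measurable_id hi] at n2
    simp only [id, mul_one, ← h1, ← hrep, norm_one, integral_const, h4, smul_eq_mul] at n1 n2 hN
    simp only [mul_sub, sum_sub_distrib]
    have n3 := norm_sub_le_norm_sub_add_norm_sub (∫ y, appr hU N y ∂μ - ∫ y, appr hU N y * h y ∂ρ)
      (∑ g ∈ a.support, a g * T.ff g - ∑ g ∈ a.support, a g * u g) 0
    have n4 := norm_sub_le (∑ g ∈ a.support, a g * T.ff g - ∫ y, appr hU N y ∂μ)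
      (∑ g ∈ a.support, a g * u g - ∫ y, appr hU N y * h y ∂ρ)
    rw [sub_zero, sub_zero, norm_sub_rev _ (_ - _ : ℂ), sub_sub_sub_comm] at n3
    linarith

end Tree

end Pool.Agent.P.MP_849d05_an.Ab
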