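import Mathlib

set_option autoImplicit false
set_option linter.unusedSectionVars false

open scoped ComplexConjugate ComplexOrder ENNReal NNReal Topology BoundedContinuousFunction
open Filter MeasureTheory

namespace Pool.Agent.P.MP_849d05_an.Ab

variable {Γ : Type} [AddCommGroup Γ]

variable (Γ) in
/-- The dual group of the discrete abelian group `Γ`. -/
def dual : AddSubgroup (Γ → UnitAddCircle) where
  carrier := {x | ∀ g h, x (g + h) = x g + x h}
  zero_mem' := fun _ _ => by simp
  add_mem' := fun {a b} ha hb g h => by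
    simp only [Pi.add_apply, ha g h, hb g h]
    abel
  neg_mem' := fun {a} ha g h => by
    simp only [Pi.neg_apply, ha g h]
    abel

theorem isClosed_dual : IsClosed (dual Γ : Set (Γ → UnitAddCircle)) := by
  have : (dual Γ : Set (Γ → UnitAddCircle)) = ⋂ g, ⋂ h, {x | x (g + h) = x g + x h} := by
    ext x
    simp only [Set.mem_iInter]
    rfl
  rw [this]
  exact isClosed_iInter fun g => isClosed_iInter fun h =>
    isClosed_eq (continuous_apply _) ((continuous_apply g).add (continuous_apply h))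

variable (Γ) in
abbrev Kd : Type := ↥(dual Γ)

instance : CompactSpace (Kd Γ) := isCompact_iff_compactSpace.1 isClosed_dual.isCompact

/-- The pairing of the group with its dual. -/
noncomputable def chi (g : Γ) (x : Kd Γ) : ℂ := (AddCircle.toCircle (x.1 g) : Circle)

theorem chi_add_left (g h : Γ) (x : Kd Γ) : chi (g + h) x = chi g x * chi h x := by
  rw [chi, x.2 g h, AddCircle.toCircle_add, Circle.coe_mul]
  rfl

theorem chi_add_right (g : Γ) (x y : Kd Γ) : chi g (x + y) = chi g x * chi g y := by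
  rw [chi, chi, chi, ← Circle.coe_mul, ← AddCircle.toCircle_add]
  rfl

theorem norm_chi (g : Γ) (x : Kd Γ) : ‖chi g x‖ = 1 := Circle.norm_coe _

theorem chi_ne_zero (g : Γ) (x : Kd Γ) : chi g x ≠ 0 := Circle.coe_ne_zero _

@[simp] theorem chi_zero_left (x : Kd Γ) : chi (0 : Γ) x = 1 := by
  have := chi_add_left (0 : Γ) 0 x
  rw [add_zero] at this
  exact (mul_eq_left₀ (chi_ne_zero 0 x)).1 this.symm

@[simp] theorem chi_zero_right (g : Γ) : chi g (0 : Kd Γ) = 1 := by
  have := chi_add_right g (0 : Kd Γ) 0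
  rw [add_zero] at this
  exact (mul_eq_left₀ (chi_ne_zero g 0)).1 this.symm

theorem conj_mul_chi (g : Γ) (x : Kd Γ) : conj (chi g x) * chi g x = 1 := by
  rw [Complex.conj_mul', norm_chi]
  simp

theorem chi_neg_left (g : Γ) (x : Kd Γ) : chi (-g) x = conj (chi g x) := by
  refine mul_right_cancel₀ (chi_ne_zero g x) ?_
  rw [← chi_add_left, neg_add_cancel, chi_zero_left, conj_mul_chi]

theorem chi_neg_right (g : Γ) (x : Kd Γ) : chi g (-x) = conj (chi g x) := by
  refine mul_right_cancel₀ (chi_ne_zero g x) ?_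
  rw [← chi_add_right, neg_add_cancel, chi_zero_right, conj_mul_chi]

theorem chi_sum_right {ι : Type} (g : Γ) (s : Finset ι) (x : ι → Kd Γ) :
    chi g (∑ i ∈ s, x i) = ∏ i ∈ s, chi g (x i) := by
  classical
  induction s using Finset.induction_on with
  | empty => simp
  | insert a s ha ih => rw [Finset.sum_insert ha, Finset.prod_insert ha, chi_add_right, ih]

theorem chi_nsmul (n : ℕ) (g : Γ) (x : Kd Γ) : chi (n • g) x = chi g (n • x) := by
  induction n with
  | zero => simp
  | succ n ih => rw [succ_nsmul, succ_nsmul, chi_add_left, chi_add_right, ih]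

theorem chi_zsmul (n : ℤ) (g : Γ) (x : Kd Γ) : chi (n • g) x = chi g (n • x) := by
  obtain ⟨m, rfl | rfl⟩ := n.eq_nat_or_neg
  · rw [natCast_zsmul, natCast_zsmul, chi_nsmul]
  · rw [neg_zsmul, neg_zsmul, natCast_zsmul, natCast_zsmul, chi_neg_left, chi_neg_right, chi_nsmul]

theorem continuous_chi (g : Γ) : Continuous (chi g) :=
  continuous_subtype_val.comp (AddCircle.continuous_toCircle.comp
    ((continuous_apply g).comp continuous_subtype_val))

theorem eq_of_chi {x y : Kd Γ} (h : ∀ g, chi g x = chi g y) : x = y :=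
  Subtype.ext (funext fun g => AddCircle.injective_toCircle one_ne_zero (Subtype.ext (h g)))

theorem exists_chi_ne_one {g : Γ} (hg : g ≠ 0) : ∃ x : Kd Γ, chi g x ≠ 1 := by
  obtain ⟨c, hc⟩ := CharacterModule.exists_character_apply_ne_zero_of_ne_zero hg
  let φ : AddCircle (1 : ℚ) →+ UnitAddCircle :=
    QuotientAddGroup.map _ _ (Rat.castHom ℝ).toAddMonoidHom (by
      rintro _ ⟨n, rfl⟩
      exact ⟨n, by simp⟩)
  have hφ : ∀ q, φ q = 0 → q = 0 := by
    intro q hq
    induction q using QuotientAddGroup.induction_on with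
    | H q =>
      have h1 : ((q : ℝ) : UnitAddCircle) = 0 := hq
      obtain ⟨n, hn⟩ := (QuotientAddGroup.eq_zero_iff _).1 h1
      refine (QuotientAddGroup.eq_zero_iff _).2 ⟨n, ?_⟩
      simp only [zsmul_eq_mul, mul_one] at hn ⊢
      exact_mod_cast hn
  refine ⟨⟨fun a => φ (c a), fun a b => by simp only [map_add]⟩, fun h => hc (hφ _ ?_)⟩
  refine AddCircle.injective_toCircle one_ne_zero ?_
  rw [AddCircle.toCircle_zero]
  exact Subtype.ext h

/-- A nontrivial character integrates to zero against an invariant measure. -/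
theorem integral_char_zero {Y : Type} [AddGroup Y] [MeasurableSpace Y] [MeasurableAdd Y]
    (μ : Measure Y) [μ.IsAddLeftInvariant] (ψ : Y → ℂ) (y : Y) (c : ℂ)
    (h : ∀ x, ψ (y + x) = c * ψ x) (hc : c ≠ 1) : ∫ x, ψ x ∂μ = 0 := by
  have h1 := integral_add_left_eq_self (μ := μ) ψ y
  simp only [h, integral_const_mul] at h1
  by_contra h0
  exact hc ((mul_eq_right₀ h0).1 h1)

/-- The characters as continuous maps. -/
noncomputable def chiC (g : Γ) : C(Kd Γ, ℂ) := ⟨chi g, continuous_chi g⟩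

theorem dense_span : (Submodule.span ℂ (Set.range (chiC (Γ := Γ)))).topologicalClosure = ⊤ := by
  let A : StarSubalgebra ℂ C(Kd Γ, ℂ) :=
    { toSubalgebra := Algebra.adjoin ℂ (Set.range chiC)
      star_mem' := by
        change Algebra.adjoin ℂ (Set.range (chiC (Γ := Γ))) ≤
          star (Algebra.adjoin ℂ (Set.range (chiC (Γ := Γ))))
        refine Algebra.adjoin_le ?_
        rintro - ⟨n, rfl⟩
        exact Algebra.subset_adjoin ⟨-n, ContinuousMap.ext fun x => chi_neg_left n x⟩ }
  have h1 : Subalgebra.toSubmodule A.toSubalgebra = Submodule.span ℂ (Set.range chiC) := by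
    apply Algebra.adjoin_eq_span_of_subset
    refine Set.Subset.trans ?_ Submodule.subset_span
    intro x hx
    refine Submonoid.closure_induction (fun _ => id) ⟨0, ?_⟩ ?_ hx
    · exact ContinuousMap.ext fun z => chi_zero_left z
    · rintro - - - - ⟨m, rfl⟩ ⟨n, rfl⟩
      exact ⟨m + n, ContinuousMap.ext fun z => chi_add_left m n z⟩
  have h2 : A.SeparatesPoints := by
    intro x y hxy
    obtain ⟨g, hg⟩ : ∃ g, chi g x ≠ chi g y := by
      by_contra h
      push Not at h
      exact hxy (eq_of_chi h)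
    exact ⟨_, ⟨chiC g, Algebra.subset_adjoin ⟨g, rfl⟩, rfl⟩, hg⟩
  rw [← h1]
  exact congr_arg (Subalgebra.toSubmodule <| StarSubalgebra.toSubalgebra ·)
    (ContinuousMap.starSubalgebra_topologicalClosure_eq_top_of_separatesPoints A h2)

theorem exists_trig (ψ : C(Kd Γ, ℂ)) {ε : ℝ} (hε : 0 < ε) :
    ∃ a : Γ →₀ ℂ, ∀ x, ‖(∑ g ∈ a.support, a g * chi g x) - ψ x‖ ≤ ε := by
  have h1 : ψ ∈ closure (Submodule.span ℂ (Set.range (chiC (Γ := Γ))) : Set C(Kd Γ, ℂ)) := by
    rw [← Submodule.topologicalClosure_coe, dense_span]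
    trivial
  obtain ⟨b, hb, h2⟩ := Metric.mem_closure_iff.1 h1 ε hε
  obtain ⟨a, rfl⟩ := Finsupp.mem_span_range_iff_exists_finsupp.1 hb
  refine ⟨a, fun x => ?_⟩
  have h3 := (ContinuousMap.dist_apply_le_dist (f := ψ) (g := a.sum fun i c => c • chiC i) x).trans
    h2.le
  rw [dist_comm, dist_eq_norm] at h3
  simpa [Finsupp.sum, chiC] using h3

/-- Limits of probability measures on a compact space. -/
theorem exists_limit {Y ι : Type} [TopologicalSpace Y] [CompactSpace Y] [T2Space Y]
    [MeasurableSpace Y] [BorelSpace Y] (l : Filter ι) [l.NeBot] (μ : ι → Measure Y) (C : ℝ≥0)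
    (hμ : ∀ i, μ i Set.univ ≤ C) :
    ∃ ρ : Measure Y, IsFiniteMeasure ρ ∧ ∀ (ψ : Y → ℂ) (c : ℂ), Continuous ψ →
      Tendsto (fun i => ∫ y, ψ y ∂(μ i)) l (𝓝 c) → ∫ y, ψ y ∂ρ = c := by
  let ν : ι → FiniteMeasure Y := fun i => ⟨μ i, ⟨(hμ i).trans_lt ENNReal.coe_lt_top⟩⟩
  have hmass : ∀ i, ν i ∈ {μ : FiniteMeasure Y | μ.mass ≤ C} := fun i => by
    change (ν i).mass ≤ C
    rw [← ENNReal.coe_le_coe, FiniteMeasure.ennreal_mass]
    exact hμ i
  let U : Ultrafilter ι := Ultrafilter.of l
  have hU : (U : Filter ι) ≤ l := Ultrafilter.of_le _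
  obtain ⟨ρ, -, hρ⟩ :=
    (isCompact_setOfPred_finiteMeasure_le_of_compactSpace Y C).ultrafilter_le_nhds'
      (U.map ν) (Ultrafilter.mem_map.2 (Filter.univ_mem' hmass))
  refine ⟨ρ, inferInstance, fun ψ c hψ hc => ?_⟩
  have ht : Tendsto ν U (𝓝 ρ) := hρ
  have h1 := (FiniteMeasure.tendsto_iff_forall_integral_rclike_tendsto ℂ).1 ht
    (BoundedContinuousFunction.mkOfCompact ⟨ψ, hψ⟩)
  exact tendsto_nhds_unique h1 (hc.mono_left hU)

theorem integrable_cts {Y E : Type} [TopologicalSpace Y] [CompactSpace Y] [MeasurableSpace Y]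
    [OpensMeasurableSpace Y] [NormedAddCommGroup E] [SecondCountableTopology E] {ψ : Y → E}
    (hψ : Continuous ψ) (μ : Measure Y) [IsFiniteMeasure μ] : Integrable ψ μ :=
  hψ.integrable_of_hasCompactSupport (HasCompactSupport.of_compactSpace _)

variable [Countable Γ]

instance : TopologicalSpace.PseudoMetrizableSpace (Kd Γ) :=
  Topology.IsInducing.subtypeVal.pseudoMetrizableSpace

theorem measurable_chi (g : Γ) : Measurable (chi g) := (continuous_chi g).measurable

variable (Γ) in
noncomputable def haar : Measure (Kd Γ) := Measure.addHaarMeasure ⊤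

instance : IsProbabilityMeasure (haar Γ) :=
  ⟨by simpa [haar] using Measure.addHaarMeasure_self (G := Kd Γ) (K₀ := ⊤)⟩

instance : (haar Γ).IsAddHaarMeasure := by unfold haar; infer_instance

theorem integrable_chi (g : Γ) (μ : Measure (Kd Γ)) [IsFiniteMeasure μ] :
    Integrable (chi g) μ := integrable_cts (continuous_chi g) μ

open Classical in
theorem integral_chi_haar (g : Γ) : ∫ x, chi g x ∂(haar Γ) = if g = 0 then 1 else 0 := by
  split_ifs with hg
  · subst hg
    simp
  · obtain ⟨y, hy⟩ := exists_chi_ne_one hg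
    exact integral_char_zero _ _ y _ (chi_add_right g y) hy

theorem integrable_bdd_mul {Y : Type} [MeasurableSpace Y] {P : Measure Y} {s : Y → Kd Γ}
    (hs : Measurable s) {H : Y → ℂ} (hH : Integrable H P) {ψ : Kd Γ → ℂ} (hψ : Measurable ψ)
    {C : ℝ} (hC : ∀ x, ‖ψ x‖ ≤ C) : Integrable (fun y => ψ (s y) * H y) P :=
  hH.bdd_mul (hψ.comp hs).aestronglyMeasurable (Eventually.of_forall fun y => hC (s y))

theorem integrable_chi_mul {Y : Type} [MeasurableSpace Y] {P : Measure Y} {s : Y → Kd Γ}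
    (hs : Measurable s) {H : Y → ℂ} (hH : Integrable H P) (g : Γ) :
    Integrable (fun y => chi g (s y) * H y) P :=
  integrable_bdd_mul hs hH (measurable_chi g) fun x => (norm_chi g x).le

theorem integral_trig {Y : Type} [MeasurableSpace Y] {P : Measure Y} {s : Y → Kd Γ}
    (hs : Measurable s) {H : Y → ℂ} (hH : Integrable H P) (F : Finset Γ) (a : Γ → ℂ) :
    ∫ y, (∑ g ∈ F, a g * chi g (s y)) * H y ∂P = ∑ g ∈ F, a g * ∫ y, chi g (s y) * H y ∂P := by
  simp_rw [Finset.sum_mul, mul_assoc]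
  rw [integral_finsetSum _ fun g _ => (integrable_chi_mul hs hH g).const_mul _]
  simp_rw [integral_const_mul]

theorem norm_cts_sub {Y : Type} [MeasurableSpace Y] {P : Measure Y} {s : Y → Kd Γ}
    (hs : Measurable s) {H : Y → ℂ} (hH : Integrable H P) (φ ψ : C(Kd Γ, ℂ)) {ε : ℝ}
    (h : ∀ x, ‖φ x - ψ x‖ ≤ ε) :
    ‖∫ y, φ (s y) * H y ∂P - ∫ y, ψ (s y) * H y ∂P‖ ≤ ε * ∫ y, ‖H y‖ ∂P := by
  rw [← integral_sub (integrable_bdd_mul hs hH φ.continuous.measurable φ.norm_coe_le_norm)
    (integrable_bdd_mul hs hH ψ.continuous.measurable ψ.norm_coe_le_norm), ← integral_const_mul]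
  refine norm_integral_le_of_norm_le (hH.norm.const_mul _) (Eventually.of_forall fun y => ?_)
  rw [← sub_mul, norm_mul]
  exact mul_le_mul_of_nonneg_right (h _) (norm_nonneg _)

/-- The trigonometric polynomial with coefficients `a`. -/
noncomputable def trig (F : Finset Γ) (a : Γ → ℂ) : C(Kd Γ, ℂ) :=
  ⟨fun x => ∑ g ∈ F, a g * chi g x,
    continuous_finsetSum _ fun g _ => (continuous_chi g).const_mul _⟩

theorem uniq_cts {Y Y' : Type} [MeasurableSpace Y] [MeasurableSpace Y']
    {P : Measure Y} {P' : Measure Y'} {s : Y → Kd Γ} {s' : Y' → Kd Γ}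
    (hs : Measurable s) (hs' : Measurable s') {H : Y → ℂ} {H' : Y' → ℂ}
    (hH : Integrable H P) (hH' : Integrable H' P')
    (h : ∀ g, ∫ y, chi g (s y) * H y ∂P = ∫ y, chi g (s' y) * H' y ∂P') (ψ : C(Kd Γ, ℂ)) :
    ∫ y, ψ (s y) * H y ∂P = ∫ y, ψ (s' y) * H' y ∂P' := by
  have hA : 0 ≤ ∫ y, ‖H y‖ ∂P := integral_nonneg fun _ => norm_nonneg _
  have hB : 0 ≤ ∫ y, ‖H' y‖ ∂P' := integral_nonneg fun _ => norm_nonneg _
  refine eq_of_forall_dist_le fun ε hε => ?_
  obtain ⟨a, ha⟩ := exists_trig ψ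
    (ε := ε / (∫ y, ‖H y‖ ∂P + ∫ y, ‖H' y‖ ∂P' + 1)) (by positivity)
  have h1 := norm_cts_sub hs hH (trig a.support a) ψ ha
  have h2 := norm_cts_sub hs' hH' (trig a.support a) ψ ha
  have h3 : ∫ y, trig a.support a (s y) * H y ∂P = ∫ y, trig a.support a (s' y) * H' y ∂P' := by
    simp only [trig, ContinuousMap.coe_mk]
    rw [integral_trig hs hH, integral_trig hs' hH']
    simp only [h]
  rw [h3] at h1
  rw [← dist_eq_norm] at h1 h2
  refine (dist_triangle_left _ _ _).trans ((add_le_add h1 h2).trans ?_)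
  rw [← mul_add, div_mul_eq_mul_div, div_le_iff₀ (by positivity)]
  exact mul_le_mul_of_nonneg_left (by linarith) hε.le

/-- The approximations of the indicator function of a closed set. -/
noncomputable def appr {U : Set (Kd Γ)} (hU : IsClosed U) (n : ℕ) : C(Kd Γ, ℂ) :=
  ⟨fun x => ((hU.apprSeq n x : ℝ) : ℂ),
    Complex.continuous_ofReal.comp (NNReal.continuous_coe.comp (hU.apprSeq n).continuous)⟩

theorem norm_appr_le {U : Set (Kd Γ)} (hU : IsClosed U) (n : ℕ) (x : Kd Γ) :
    ‖appr hU n x‖ ≤ 1 := by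
  simp only [appr, ContinuousMap.coe_mk, Complex.norm_real, Real.norm_eq_abs, NNReal.abs_eq]
  exact_mod_cast HasOuterApproxClosed.apprSeq_apply_le_one hU n x

theorem tendsto_appr {Y : Type} [MeasurableSpace Y] {P : Measure Y} {s : Y → Kd Γ}
    (hs : Measurable s) {H : Y → ℂ} (hH : Integrable H P) {U : Set (Kd Γ)} (hU : IsClosed U) :
    Tendsto (fun n => ∫ y, appr hU n (s y) * H y ∂P) atTop (𝓝 (∫ y in s ⁻¹' U, H y ∂P)) := by
  rw [← integral_indicator (hs hU.measurableSet)]
  refine tendsto_integral_of_dominated_convergence (fun y => ‖H y‖)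
    (fun n => (integrable_bdd_mul hs hH (appr hU n).continuous.measurable
      (norm_appr_le hU n)).aestronglyMeasurable) hH.norm
    (fun n => Eventually.of_forall fun y => ?_) (Eventually.of_forall fun y => ?_)
  · rw [norm_mul]
    exact mul_le_of_le_one_left (norm_nonneg _) (norm_appr_le hU n _)
  · have h1 := tendsto_pi_nhds.1 (HasOuterApproxClosed.tendsto_apprSeq hU) (s y)
    have h2 := ((Complex.continuous_ofReal.comp NNReal.continuous_coe).tendsto _).comp h1
    have h3 := h2.mul_const (H y)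
    by_cases hy : s y ∈ U
    · rw [Set.indicator_of_mem hy] at h3
      rw [Set.indicator_of_mem (by exact hy)]
      simpa [appr] using h3
    · rw [Set.indicator_of_notMem hy] at h3
      rw [Set.indicator_of_notMem (by exact hy)]
      simpa [appr] using h3

theorem uniq {Y Y' : Type} [MeasurableSpace Y] [MeasurableSpace Y']
    {P : Measure Y} {P' : Measure Y'} {s : Y → Kd Γ} {s' : Y' → Kd Γ}
    (hs : Measurable s) (hs' : Measurable s') {H : Y → ℂ} {H' : Y' → ℂ}
    (hH : Integrable H P) (hH' : Integrable H' P')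
    (h : ∀ g, ∫ y, chi g (s y) * H y ∂P = ∫ y, chi g (s' y) * H' y ∂P')
    (T : Set (Kd Γ)) (hT : MeasurableSet T) :
    ∫ y in s ⁻¹' T, H y ∂P = ∫ y in s' ⁻¹' T, H' y ∂P' := by
  refine MeasurableSpace.induction_on_inter
    (C := fun T _ => ∫ y in s ⁻¹' T, H y ∂P = ∫ y in s' ⁻¹' T, H' y ∂P')
    (BorelSpace.measurable_eq.trans borel_eq_generateFrom_isClosed) isPiSystem_isClosed
    ?_ ?_ ?_ ?_ T hT
  · simp
  · intro T hT
    refine tendsto_nhds_unique (tendsto_appr hs hH hT) ?_
    simp only [uniq_cts hs hs' hH hH' h]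
    exact tendsto_appr hs' hH' hT
  · intro T hT ih
    have h0 := h 0
    simp only [chi_zero_left, one_mul] at h0
    have e1 := integral_add_compl (hs hT) hH
    have e2 := integral_add_compl (hs' hT) hH'
    rw [Set.preimage_compl, Set.preimage_compl]
    linear_combination e1 - e2 + h0 - ih
  · intro f hd hm ih
    rw [Set.preimage_iUnion, Set.preimage_iUnion,
      integral_iUnion (fun i => hs (hm i)) (fun i j hij => (hd hij).preimage s) hH.integrableOn,
      integral_iUnion (fun i => hs' (hm i)) (fun i j hij => (hd hij).preimage s') hH'.integrableOn]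
    exact tsum_congr ih

theorem ae_zero_of_chi {ρ : Measure (Kd Γ)} {h : Kd Γ → ℂ} (hh : Integrable h ρ)
    (h0 : ∀ g, ∫ x, chi g x * h x ∂ρ = 0) : h =ᵐ[ρ] 0 := by
  refine hh.ae_eq_zero_of_forall_setIntegral_eq_zero fun T hT _ => ?_
  have := uniq (P := ρ) (P' := ρ) measurable_id measurable_id hh (H' := 0) (integrable_zero _ _ _)
    (fun g => by simpa using h0 g) T hT
  simpa using this

end Pool.Agent.P.MP_849d05_an.Ab
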