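import Pool.Agent.P.MP_849d05_an.AbOrth

set_option autoImplicit false
set_option linter.unusedSectionVars false

open scoped ComplexConjugate
open Finset

namespace Pool.Agent.P.MP_849d05_an.Ab

variable {Γ : Type} [AddCommGroup Γ] [DecidableEq Γ]

/-- The test function of a level. -/
noncomputable def tf (G : Finset Γ) (w : ℝ) (y : Kd Γ) : ℝ := w * ∑ g ∈ G, ‖chi g y - 1‖ ^ 2

/-- The difference set. -/
def dif (B : Finset Γ) : Finset Γ := (B ×ˢ B).image fun p => -p.1 + p.2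

/-- The Fourier coefficients of the Fejer kernel of `B`. -/
noncomputable def cB (B : Finset Γ) (a : Γ) : ℝ :=
  (#{p ∈ B ×ˢ B | -p.1 + p.2 = a} : ℝ) / #B

/-- The frequencies of one level. -/
structure Frame (W : Finset Γ) (k i X : ℕ) (C : ℝ) (B B' G : Finset Γ) (w : ℝ) : Prop where
  ne : B.Nonempty
  card : (#B : ℝ) ≤ C * X ^ 2
  card' : X ≤ #B'
  w0 : 0 ≤ w
  dis : ∀ a ∈ dif B, ∀ a' ∈ dif B, a - a' ∈ W → a = a'
  sub : ∀ g ∈ G, -g ∈ dif B
  conc : w * ∑ g ∈ G, (2 - 2 * cB B (-g)) ≤ (1 / 2) ^ i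
  near : ∀ y, tf G w y ≤ i → ∀ b ∈ B', ‖chi b y - 1‖ ≤ 1 / 2
  inj : ∀ n : ℤ, |n| ≤ k →
    (∀ g ∈ G, n • g = 0) ∨ ∀ b ∈ B', ∀ b' ∈ B', n • b = n • b' → b = b'

theorem mem_dif {B : Finset Γ} {a : Γ} : a ∈ dif B ↔ ∃ u ∈ B, ∃ v ∈ B, -u + v = a := by
  simp only [dif, mem_image, mem_product, Prod.exists]
  exact ⟨fun ⟨u, v, h, e⟩ => ⟨u, h.1, v, h.2, e⟩, fun ⟨u, hu, v, hv, e⟩ => ⟨u, v, ⟨hu, hv⟩, e⟩⟩

theorem norm_mul_sub_one {u v : ℂ} (hu : ‖u‖ = 1) : ‖u * v - 1‖ ≤ ‖u - 1‖ + ‖v - 1‖ := by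
  have : u * v - 1 = (u - 1) + u * (v - 1) := by ring
  rw [this]
  refine (norm_add_le _ _).trans ?_
  rw [norm_mul, hu, one_mul]

theorem norm_chi_nsmul (g : Γ) (y : Kd Γ) (a : ℕ) : ‖chi (a • g) y - 1‖ ≤ a * ‖chi g y - 1‖ := by
  induction a with
  | zero => simp
  | succ a ih =>
    rw [succ_nsmul, chi_add_left]
    refine (norm_mul_sub_one (norm_chi _ _)).trans ?_
    push_cast
    linarith

theorem exists_free (h : ∀ e : ℕ, 0 < e → ∃ x : Γ, e • x ≠ 0) (W : Finset Γ) (L : ℕ) :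
    ∃ g : Γ, ∀ a : ℤ, a ≠ 0 → |a| ≤ L → a • g ∉ W := by
  by_contra hc
  push Not at hc
  have h1 : (Set.range fun g : Γ => L.factorial • g).Finite := by
    refine ((Finset.Icc (-(L.factorial : ℤ)) L.factorial ×ˢ W).image
      fun p => p.1 • p.2).finite_toSet.subset ?_
    rintro _ ⟨g, rfl⟩
    obtain ⟨a, h0, h1, h2⟩ := hc g
    have h3 : a ∣ (L.factorial : ℤ) := by
      rw [← Int.natAbs_dvd]
      exact Int.natCast_dvd_natCast.2 (Nat.dvd_factorial (Int.natAbs_pos.2 h0)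
        (by rw [← Int.natCast_natAbs] at h1; exact_mod_cast h1))
    obtain ⟨m, hm⟩ := h3
    have h4 : |m| ≤ (L.factorial : ℤ) :=
      Int.le_of_dvd (by exact_mod_cast L.factorial_pos) ((abs_dvd _ _).2 ⟨a, by rw [hm, mul_comm]⟩)
    refine mem_coe.2 (mem_image.2 ⟨(m, a • g), mem_product.2 ⟨mem_Icc.2 (abs_le.1 h4), h2⟩, ?_⟩)
    simp only [smul_smul]
    rw [mul_comm, ← hm, natCast_zsmul]
  let A : AddSubgroup Γ := (nsmulAddMonoidHom L.factorial : Γ →+ Γ).range
  have : Finite A := h1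
  obtain ⟨x, hx⟩ := h (Nat.card A * L.factorial) (Nat.mul_pos Nat.card_pos L.factorial_pos)
  apply hx
  rw [mul_nsmul']
  exact congrArg Subtype.val (card_nsmul_eq_zero' (x := (⟨_, x, rfl⟩ : A)))

theorem frame_free (h : ∀ e : ℕ, 0 < e → ∃ x : Γ, e • x ≠ 0) (W : Finset Γ) (k i X : ℕ)
    (hX : 0 < X) : ∃ B B' G w, Frame W k i X (8 * (i + 1) * 2 ^ i + 1) B B' G w := by
  obtain ⟨L, hL⟩ : ∃ L, L + 1 = 8 * (i + 1) * 2 ^ i * X ^ 2 + 1 := ⟨_, rfl⟩
  have hL' : (L : ℝ) = 8 * (i + 1) * 2 ^ i * X ^ 2 := by exact_mod_cast Nat.succ_injective hL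
  have hX' : (1 : ℝ) ≤ X := by exact_mod_cast hX
  have hL0 : 0 < L := by
    have : (0 : ℝ) < L := by rw [hL']; positivity
    exact_mod_cast this
  obtain ⟨g, hg⟩ := exists_free h (insert 0 W) (2 * (L + 1) + (k + 1) * X)
  have hz : ∀ a : ℤ, |a| ≤ (2 * (L + 1) + (k + 1) * X : ℕ) → a • g ∈ insert 0 W → a = 0 :=
    fun a h1 h2 => by_contra fun h0 => hg a h0 h1 h2
  have hinj : ∀ n a b : ℕ, n ≤ 2 * (L + 1) + (k + 1) * X → a < n → b < n → a • g = b • g →
      a = b := by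
    intro n a b hn ha hb e
    have := hz ((a : ℤ) - b) (by rw [abs_le]; constructor <;> omega)
      (by rw [sub_zsmul, natCast_zsmul, natCast_zsmul, e]; simp)
    omega
  have hcard : ∀ n, n ≤ 2 * (L + 1) + (k + 1) * X →
      #((range n).image fun a : ℕ => a • g) = n := fun n hn => by
    rw [card_image_of_injOn fun a ha b hb e =>
      hinj n a b hn (mem_range.1 ha) (mem_range.1 hb) e, card_range]
  have hXle : X ≤ 2 * (L + 1) + (k + 1) * X := by nlinarith
  have hmem : ∀ a < L, ((a + 1) • g, a • g) ∈ {p ∈ ((range (L + 1)).image fun a : ℕ => a • g) ×ˢ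
      ((range (L + 1)).image fun a : ℕ => a • g) | -p.1 + p.2 = -g} := fun a ha =>
    mem_filter.2 ⟨mem_product.2 ⟨mem_image_of_mem _ (mem_range.2 (by omega)),
      mem_image_of_mem _ (mem_range.2 (by omega))⟩, by simp only [succ_nsmul]; abel⟩
  refine ⟨(range (L + 1)).image fun a : ℕ => a • g, (range X).image fun a : ℕ => a • g, {g},
    4 * (i + 1) * X ^ 2, (nonempty_range_add_one).image _, ?_, (hcard X hXle).ge, by positivity,
    ?_, ?_, ?_, ?_, ?_⟩
  · rw [hcard _ (by omega)]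
    push_cast
    nlinarith
  · intro a ha a' ha' hw
    simp only [mem_dif, mem_image, mem_range, exists_exists_and_eq_and] at ha ha'
    obtain ⟨u, hu, v, hv, rfl⟩ := ha
    obtain ⟨u', hu', v', hv', rfl⟩ := ha'
    have e : -(u • g) + v • g - (-(u' • g) + v' • g) = ((v : ℤ) - u - v' + u') • g := by
      simp only [add_zsmul, sub_zsmul, natCast_zsmul]
      abel
    have := hz ((v : ℤ) - u - v' + u') (by rw [abs_le]; constructor <;> omega)
      (e ▸ mem_insert_of_mem hw)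
    rwa [this, zero_zsmul, sub_eq_zero] at e
  · intro g' hg'
    rw [mem_singleton.1 hg']
    exact mem_image.2 ⟨_, (mem_filter.1 (hmem 0 hL0)).1, (mem_filter.1 (hmem 0 hL0)).2⟩
  · have h1 := card_le_card_of_injOn (s := range L) (fun a : ℕ => ((a + 1) • g, a • g))
      (fun a ha => mem_coe.2 (hmem a (mem_range.1 ha))) fun a ha b hb e =>
        hinj L a b (by omega) (mem_range.1 ha) (mem_range.1 hb) (congrArg Prod.snd e)
    rw [card_range] at h1
    have h2 : (L : ℝ) / (L + 1) ≤ cB ((range (L + 1)).image fun a : ℕ => a • g) (-g) := by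
      rw [cB, hcard _ (by omega)]
      push_cast
      exact div_le_div_of_nonneg_right (by exact_mod_cast h1) (by positivity)
    have h3 : 2 - 2 * ((L : ℝ) / (L + 1)) = 2 / (L + 1) := by field_simp; ring
    rw [sum_singleton]
    refine (mul_le_mul_of_nonneg_left (show _ ≤ 2 / ((L : ℝ) + 1) by linarith)
      (by positivity)).trans ?_
    rw [one_div, inv_pow, ← mul_div_assoc, div_le_iff₀ (by positivity),
      le_inv_mul_iff₀ (by positivity), hL']
    nlinarith
  · intro y hy b hb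
    obtain ⟨a, ha, rfl⟩ := mem_image.1 hb
    have ha' : (a : ℝ) ≤ X := by exact_mod_cast (mem_range.1 ha).le
    rw [tf, sum_singleton] at hy
    have h1 : (X * ‖chi g y - 1‖) ^ 2 ≤ (1 / 2) ^ 2 := by
      have h2 : (0 : ℝ) < 4 * (i + 1) := by positivity
      refine le_of_mul_le_mul_left ?_ h2
      nlinarith
    refine (norm_chi_nsmul g y a).trans ((mul_le_mul_of_nonneg_right ha' (norm_nonneg _)).trans ?_)
    exact (pow_le_pow_iff_left₀ (by positivity) (by norm_num) two_ne_zero).1 h1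
  · intro n hn
    rcases eq_or_ne n 0 with rfl | h0
    · exact Or.inl fun _ _ => zero_zsmul _
    · refine Or.inr fun b hb b' hb' e => ?_
      obtain ⟨a, ha, rfl⟩ := mem_image.1 hb
      obtain ⟨a', ha', rfl⟩ := mem_image.1 hb'
      have h1 : |(a : ℤ) - a'| ≤ X := by
        have := mem_range.1 ha
        have := mem_range.1 ha'
        rw [abs_le]
        constructor <;> omega
      have := hz (n * ((a : ℤ) - a')) (by
        rw [abs_mul]
        refine (mul_le_mul hn h1 (abs_nonneg _) (by positivity)).trans ?_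
        push_cast
        nlinarith) (by
        rw [mul_zsmul, sub_zsmul, natCast_zsmul, natCast_zsmul, ← sub_eq_add_neg, zsmul_sub, e]
        simp)
      have h2 : a = a' := by
        have := (mul_eq_zero.1 this).resolve_left h0
        omega
      rw [h2]

theorem eq_zero_of_prime {p : ℕ} (hp : p.Prime) {x : Γ} (hx : p • x = 0) {n : ℤ}
    (hn : ¬ (p : ℤ) ∣ n) (h : n • x = 0) : x = 0 := by
  rcases (Nat.dvd_prime hp).1 (addOrderOf_dvd_of_nsmul_eq_zero hx) with h1 | h1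
  · exact AddMonoid.addOrderOf_eq_one_iff.1 h1
  · exact absurd (h1 ▸ addOrderOf_dvd_iff_zsmul_eq_zero.2 h) hn

theorem exists_prime [Infinite Γ] {e : ℕ} (he : 0 < e) (h : ∀ x : Γ, e • x = 0) :
    ∃ p : ℕ, p.Prime ∧ {x : Γ | p • x = 0}.Infinite := by
  by_contra hc
  push Not at hc
  have key : ∀ n : ℕ, n ≠ 0 → {x : Γ | n • x = 0}.Finite := by
    intro n
    induction n using induction_on_primes with
    | zero => exact fun h => absurd rfl h
    | one => exact fun _ => (Set.finite_singleton 0).subset fun x hx => by simpa using hx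
    | prime_mul p m hp ih =>
      intro hm
      have h1 := ih (right_ne_zero_of_mul hm)
      refine (h1.biUnion (t := fun y => {x : Γ | p • x = y}) fun y _ => ?_).subset fun x hx =>
        Set.mem_biUnion (x := p • x) (by rw [Set.mem_ofPred_eq, ← mul_nsmul]; exact hx) rfl
      rcases Set.eq_empty_or_nonempty {x : Γ | p • x = y} with h0 | ⟨x₀, h0⟩
      · rw [h0]
        exact Set.finite_empty
      · refine ((hc p hp).image fun x => x + x₀).subset fun x hx => ⟨x - x₀, ?_, by simp⟩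
        rw [Set.mem_ofPred_eq, nsmul_sub, hx, h0, sub_self]
  exact Set.infinite_univ ((key e he.ne').subset fun x _ => h x)

theorem exists_block {p : ℕ} (hp : p.Prime) (hV : {x : Γ | p • x = 0}.Infinite) (W : Finset Γ)
    (X : ℕ) : ∃ B : Finset Γ, 0 ∈ B ∧ (∀ a ∈ B, ∀ b ∈ B, a - b ∈ B) ∧ (∀ a ∈ B, p • a = 0) ∧
      (∀ a ∈ B, a ∈ W → a = 0) ∧ X + 1 ≤ #B ∧ #B ≤ p * (X + 1) := by
  induction X with
  | zero => exact ⟨{0}, by simp, by simp, by simp, by simp, by simp, by simpa using hp.one_le⟩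
  | succ X ih =>
    obtain ⟨B, h0, h1, h2, h3, h4, h5⟩ := ih
    by_cases h6 : X + 1 + 1 ≤ #B
    · exact ⟨B, h0, h1, h2, h3, h6, h5.trans (Nat.mul_le_mul_left _ (by omega))⟩
    have hfin : (⋃ q ∈ (Finset.Ioo 0 p ×ˢ (B ×ˢ insert 0 W) : Finset (ℕ × Γ × Γ)),
        {v : Γ | p • v = 0 ∧ q.1 • v + q.2.1 = q.2.2}).Finite := by
      refine (Finset.finite_toSet _).biUnion fun q hq => Set.Subsingleton.finite ?_
      intro v hv v' hv'
      have h7 := mem_Ioo.1 (mem_product.1 hq).1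
      refine sub_eq_zero.1 (eq_zero_of_prime hp (n := q.1) (by rw [nsmul_sub, hv.1, hv'.1, sub_self])
        (fun hd => absurd (Nat.le_of_dvd h7.1 (Int.natCast_dvd_natCast.1 hd)) (by omega)) ?_)
      rw [natCast_zsmul, nsmul_sub, sub_eq_zero]
      exact add_right_cancel (hv.2.trans hv'.2.symm)
    obtain ⟨v, hv, hv'⟩ := hV.exists_notMem_finite hfin
    have hv0 : p • v = 0 := hv
    have hv1 : ∀ a, 0 < a → a < p → ∀ b ∈ B, a • v + b ∉ insert 0 W := fun a h7 h8 b hb h9 =>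
      hv' (Set.mem_biUnion (x := (a, b, a • v + b)) (mem_coe.2 (mem_product.2
        ⟨mem_Ioo.2 ⟨h7, h8⟩, mem_product.2 ⟨hb, h9⟩⟩)) ⟨hv0, rfl⟩)
    have hm : ∀ a < p, ∀ b ∈ B, a • v + b ∈ (range p ×ˢ B).image fun q => q.1 • v + q.2 :=
      fun a ha b hb => mem_image.2 ⟨(a, b), mem_product.2 ⟨mem_range.2 ha, hb⟩, rfl⟩
    refine ⟨(range p ×ˢ B).image fun q => q.1 • v + q.2, by simpa using hm 0 hp.pos 0 h0,
      ?_, ?_, ?_, ?_, ?_⟩
    · intro x hx y hy
      obtain ⟨⟨a, b⟩, hq, rfl⟩ := mem_image.1 hx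
      obtain ⟨⟨a', b'⟩, hq', rfl⟩ := mem_image.1 hy
      obtain ⟨c, hc⟩ := Nat.exists_eq_add_of_le (mem_range.1 (mem_product.1 hq').1).le
      have h7 := hm _ (Nat.mod_lt (a + c) hp.pos) _
        (h1 _ (mem_product.1 hq).2 _ (mem_product.1 hq').2)
      have h8 : c • v = -(a' • v) := by
        rw [eq_neg_iff_add_eq_zero, add_comm, ← add_nsmul]
        exact (congrArg (· • v) hc).symm.trans hv0
      rw [← nsmul_eq_mod_nsmul _ hv0, add_nsmul, h8] at h7
      have e : a • v + b - (a' • v + b') = a • v + -(a' • v) + (b - b') := by abel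
      exact e ▸ h7
    · intro x hx
      obtain ⟨⟨a, b⟩, hq, rfl⟩ := mem_image.1 hx
      rw [nsmul_add, h2 _ (mem_product.1 hq).2, smul_comm, hv0, nsmul_zero, add_zero]
    · intro x hx hw
      obtain ⟨⟨a, b⟩, hq, rfl⟩ := mem_image.1 hx
      rcases Nat.eq_zero_or_pos a with rfl | ha
      · simp only [zero_nsmul, zero_add] at hw ⊢
        exact h3 _ (mem_product.1 hq).2 hw
      · exact absurd (mem_insert_of_mem hw)
          (hv1 a ha (mem_range.1 (mem_product.1 hq).1) _ (mem_product.1 hq).2)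
    · refine h4.trans_lt (card_lt_card ⟨fun b hb => by simpa using hm 0 hp.pos b hb, fun h => ?_⟩)
      have h7 : v ∈ B := h (by simpa using hm 1 hp.one_lt 0 h0)
      exact hv1 1 one_pos hp.one_lt _ (h1 0 h0 v h7) (by simp)
    · refine card_image_le.trans ?_
      rw [card_product, card_range]
      exact Nat.mul_le_mul_left _ (by omega)

theorem frame_prime {p : ℕ} (hp : p.Prime) (hV : {x : Γ | p • x = 0}.Infinite) (W : Finset Γ)
    (k i X : ℕ) (hX : 0 < X) : ∃ B B' G w, Frame W k i X p B B' G w := by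
  obtain ⟨X, rfl⟩ := Nat.exists_eq_succ_of_ne_zero hX.ne'
  obtain ⟨B, h0, h1, h2, h3, h4, h5⟩ := exists_block hp hV W X
  have hd : ∀ a ∈ dif B, a ∈ B := fun a ha => by
    obtain ⟨u, hu, v, hv, rfl⟩ := mem_dif.1 ha
    rw [neg_add_eq_sub]
    exact h1 v hv u hu
  refine ⟨B, B, B, 4 * (i + 1), ⟨0, h0⟩, ?_, h4, by positivity, ?_, ?_, ?_, ?_, ?_⟩
  · have : #B ≤ p * (X + 1) ^ 2 := h5.trans (Nat.mul_le_mul_left _ (by nlinarith))
    exact_mod_cast this
  · exact fun a ha a' ha' hw => sub_eq_zero.1 (h3 _ (h1 _ (hd a ha) _ (hd a' ha')) hw)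
  · exact fun g hg => mem_dif.2 ⟨g, hg, 0, h0, add_zero _⟩
  · refine le_trans (mul_nonpos_of_nonneg_of_nonpos (by positivity)
      (sum_nonpos fun g hg => ?_)) (by positivity)
    have h6 := card_le_card_of_injOn (s := B) (t := {p ∈ B ×ˢ B | -p.1 + p.2 = -g})
      (fun u => (u, u - g)) (fun u hu => mem_coe.2 (mem_filter.2
        ⟨mem_product.2 ⟨hu, h1 u hu g hg⟩, by simp only; abel⟩))
      fun u _ v _ e => congrArg Prod.fst e
    have h7 : 1 ≤ cB B (-g) := by
      rw [cB, one_le_div (by exact_mod_cast card_pos.2 ⟨0, h0⟩)]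
      exact_mod_cast h6
    linarith
  · intro y hy b hb
    have h6 := single_le_sum (f := fun g => ‖chi g y - 1‖ ^ 2) (fun _ _ => sq_nonneg _) hb
    have h7 : ‖chi b y - 1‖ ^ 2 ≤ (1 / 2) ^ 2 := by
      have h8 : (0 : ℝ) < 4 * (i + 1) := by positivity
      refine le_of_mul_le_mul_left ?_ h8
      have := mul_le_mul_of_nonneg_left h6 h8.le
      rw [tf] at hy
      linarith
    exact (pow_le_pow_iff_left₀ (by positivity) (by norm_num) two_ne_zero).1 h7
  · intro n _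
    by_cases hn : (p : ℤ) ∣ n
    · obtain ⟨m, rfl⟩ := hn
      exact Or.inl fun g hg => by rw [mul_comm, mul_zsmul, natCast_zsmul, h2 g hg, zsmul_zero]
    · exact Or.inr fun b hb b' hb' e => sub_eq_zero.1
        (eq_zero_of_prime hp (h2 _ (h1 b hb b' hb')) hn (by rw [zsmul_sub, e, sub_self]))

theorem exists_frame [Infinite Γ] (W : Finset Γ) (k i : ℕ) :
    ∃ C : ℝ, ∀ X : ℕ, 0 < X → ∃ B B' G w, Frame W k i X C B B' G w := by
  by_cases h : ∀ e : ℕ, 0 < e → ∃ x : Γ, e • x ≠ 0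
  · exact ⟨_, frame_free h W k i⟩
  · push Not at h
    obtain ⟨e, he, h⟩ := h
    obtain ⟨p, hp, hV⟩ := exists_prime he h
    exact ⟨_, frame_prime hp hV W k i⟩

end Pool.Agent.P.MP_849d05_an.Ab
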