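import Pool.Agent.P.MP_849d05_an.AbFrame

set_option autoImplicit false
set_option linter.unusedSectionVars false

open scoped ComplexConjugate
open Finset MeasureTheory Filter

namespace Pool.Agent.P.MP_849d05_an.Ab

section haar

variable (P : Type) [AddCommGroup P] [TopologicalSpace P] [IsTopologicalAddGroup P]
  [CompactSpace P] [MeasurableSpace P] [BorelSpace P]

/-- The invariant probability measure of a compact group. -/
noncomputable def hm : Measure P := Measure.addHaarMeasure ⊤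

instance : IsProbabilityMeasure (hm P) :=
  ⟨by simpa [hm] using Measure.addHaarMeasure_self (G := P) (K₀ := ⊤)⟩

instance : (hm P).IsAddHaarMeasure := by unfold hm; infer_instance

end haar

variable {Γ : Type} [AddCommGroup Γ] [Countable Γ]

instance : SecondCountableTopology (Kd Γ) := TopologicalSpace.Subtype.secondCountableTopology _

variable [DecidableEq Γ]

/-- The normalised square of a character sum. -/
noncomputable def zz (B : Finset Γ) (y : Kd Γ) : ℝ := 4 * ‖∑ b ∈ B, chi b y‖ ^ 2 / #B ^ 2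

theorem zz_nonneg (B : Finset Γ) (y : Kd Γ) : 0 ≤ zz B y := by unfold zz; positivity

theorem continuous_zz (B : Finset Γ) : Continuous (zz B) :=
  (((continuous_finsetSum _ fun b _ => continuous_chi b).norm.pow 2).const_mul 4).div_const _

theorem one_le_zz {B : Finset Γ} (hB : 0 < #B) {y : Kd Γ} (h : ∀ b ∈ B, ‖chi b y - 1‖ ≤ 1 / 2) :
    1 ≤ zz B y := by
  have h0 : (0 : ℝ) < #B := by exact_mod_cast hB
  have h1 : ‖∑ b ∈ B, (chi b y - 1)‖ ≤ #B * (1 / 2) :=
    (norm_sum_le _ _).trans ((sum_le_card_nsmul _ _ _ h).trans_eq (nsmul_eq_mul _ _))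
  have h2 := norm_sub_norm_le (#B : ℂ) (∑ b ∈ B, chi b y)
  rw [sum_sub_distrib, sum_const, nsmul_eq_mul, mul_one, norm_sub_rev] at h1
  rw [Complex.norm_natCast] at h2
  rw [zz, one_le_div (by positivity)]
  nlinarith [norm_nonneg (∑ b ∈ B, chi b y)]

theorem integral_zz {P : Type} [AddGroup P] [TopologicalSpace P] [CompactSpace P]
    [MeasurableSpace P] [BorelSpace P] [MeasurableAdd P] (μ : Measure P) [IsProbabilityMeasure μ]
    [μ.IsAddLeftInvariant] (B : Finset Γ) {z : P → Kd Γ} (hz : Continuous z) (n : ℤ)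
    (hn : ∀ x, ∃ y, ∀ θ, z (y + θ) = n • x + z θ)
    (hB : ∀ b ∈ B, ∀ b' ∈ B, n • b = n • b' → b = b') : ∫ θ, zz B (z θ) ∂μ = 4 / #B := by
  have hi : ∀ g, Integrable (fun θ => chi g (z θ)) μ := fun g =>
    integrable_cts ((continuous_chi g).comp hz) μ
  have h1 : ∫ θ, ‖∑ b ∈ B, chi b (z θ)‖ ^ 2 ∂μ = #B := by
    apply Complex.ofReal_injective
    rw [← integral_complex_ofReal]
    have e := fun θ => normSq_trig B (fun b => b) (fun _ => 1) (z θ)
    simp only [one_mul, map_one] at e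
    simp only [e]
    rw [integral_finsetSum _ fun b _ => integrable_finsetSum _ fun b' _ => hi _,
      Complex.ofReal_natCast, card_eq_sum_ones, Nat.cast_sum]
    refine sum_congr rfl fun b hb => ?_
    rw [integral_finsetSum _ fun b' _ => hi _, sum_eq_single_of_mem b hb]
    · simp
    · intro b' hb' hne
      obtain ⟨x, hx⟩ := exists_chi_ne_one (g := n • (-b + b')) fun h => hne (hB b' hb' b hb (by
        rw [zsmul_add, zsmul_neg', neg_zsmul, neg_add_eq_zero] at h
        exact h.symm))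
      obtain ⟨y, hy⟩ := hn x
      exact integral_char_zero μ _ y _ (fun θ => by rw [hy, chi_add_right, chi_zsmul]) hx
  simp only [zz]
  rw [integral_div, integral_const_mul, h1]
  rcases eq_or_ne (#B : ℝ) 0 with h0 | h0
  · simp [h0]
  · field_simp

theorem card_pairs {ι : Type} [Fintype ι] [DecidableEq ι] {D r : ℕ} (hι : Fintype.card ι = 2 * D)
    (hr : D ≤ r) : #{w ∈ Fintype.piFinset fun _ : ι => range r | ∀ s, ∃ s', s' ≠ s ∧ w s' = w s}
      ≤ r ^ D * D ^ (2 * D) := by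
  have h1 : {w ∈ Fintype.piFinset fun _ : ι => range r | ∀ s, ∃ s', s' ≠ s ∧ w s' = w s} ⊆
      (powersetCard D (range r)).biUnion fun I => Fintype.piFinset fun _ : ι => I := by
    intro w hw
    obtain ⟨h1, h2⟩ := mem_filter.1 hw
    have h3 := mul_card_image_le_card (f := w) univ 2 fun b hb => by
      obtain ⟨s, -, rfl⟩ := mem_image.1 hb
      obtain ⟨s', h3, h4⟩ := h2 s
      exact one_lt_card.2 ⟨s', by simpa using h4, s, by simp, h3⟩
    rw [card_univ, hι] at h3
    obtain ⟨I, h4, h5, h6⟩ := exists_subsuperset_card_eq (s := univ.image w) (t := range r) (n := D)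
      (image_subset_iff.2 fun s _ => Fintype.mem_piFinset.1 h1 s) (by omega) (by rwa [card_range])
    exact mem_biUnion.2 ⟨I, mem_powersetCard.2 ⟨h5, h6⟩,
      Fintype.mem_piFinset.2 fun s => h4 (mem_image_of_mem _ (mem_univ s))⟩
  refine (card_le_card h1).trans (card_biUnion_le.trans ?_)
  refine (sum_le_card_nsmul _ _ (D ^ (2 * D)) fun I hI => ?_).trans ?_
  · rw [Fintype.card_piFinset, prod_const, card_univ, hι, (mem_powersetCard.1 hI).2]
  · rw [card_powersetCard, card_range, smul_eq_mul]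
    exact Nat.mul_le_mul_right _ (Nat.choose_le_pow _ _)

theorem moment {a : Γ} (ha : a ≠ 0) (c : ℕ) {D r : ℕ} (hr : D ≤ r) :
    ∫ θ, ‖∑ t ∈ range r, chi a (θ (c + t))‖ ^ (2 * D) ∂(hm (ℕ → Kd Γ)) ≤ r ^ D * D ^ (2 * D) := by
  classical
  let σ : Fin D ⊕ Fin D → Γ := Sum.elim (fun _ => -a) fun _ => a
  have hσ : ∀ s, σ s ≠ 0 := by rintro (s | s) <;> simpa [σ] using ha
  have hc : ∀ w : Fin D ⊕ Fin D → ℕ, Continuous fun θ : ℕ → Kd Γ => ∏ s, chi (σ s) (θ (c + w s)) :=
    fun w => continuous_finsetProd _ fun s _ => (continuous_chi _).comp (continuous_apply _)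
  have e : ∀ θ : ℕ → Kd Γ, ((‖∑ t ∈ range r, chi a (θ (c + t))‖ ^ (2 * D) : ℝ) : ℂ) =
      ∑ w ∈ Fintype.piFinset fun _ => range r, ∏ s, chi (σ s) (θ (c + w s)) := fun θ => by
    rw [← prod_univ_sum (fun _ => range r) fun s t => chi (σ s) (θ (c + t)), Fintype.prod_sum_type]
    simp only [σ, Sum.elim_inl, Sum.elim_inr, prod_const, card_univ, Fintype.card_fin,
      chi_neg_left]
    rw [← map_sum, ← mul_pow, Complex.conj_mul', pow_mul]
    push_cast
    rfl
  refine (le_abs_self _).trans ?_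
  rw [← Real.norm_eq_abs, ← Complex.norm_real, ← integral_complex_ofReal]
  simp only [e]
  rw [integral_finsetSum _ fun w _ => integrable_cts (hc w) _,
    ← sum_filter_of_ne (p := fun w => ∀ s, ∃ s', s' ≠ s ∧ w s' = w s)]
  · refine (norm_sum_le _ _).trans ((sum_le_card_nsmul _ _ 1 fun w _ => ?_).trans ?_)
    · refine (norm_integral_le_of_norm_le_const (C := 1) (Eventually.of_forall fun θ => ?_)).trans
        (by simp)
      simp [norm_chi]
    · rw [nsmul_eq_mul, mul_one]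
      exact_mod_cast card_pairs (ι := Fin D ⊕ Fin D) (by simp [two_mul]) hr
  · intro w _ hw s
    by_contra hs
    push Not at hs
    obtain ⟨x, hx⟩ := exists_chi_ne_one (hσ s)
    refine hw (integral_char_zero _ _ (Pi.single (c + w s) x) _ (fun θ => ?_) hx)
    simp only [Pi.add_apply, chi_add_right, prod_mul_distrib]
    rw [prod_eq_single_of_mem s (mem_univ s), Pi.single_eq_same]
    intro s' _ h
    rw [Pi.single_eq_of_ne fun e => hs s' h (by omega), chi_zero_right]

theorem shift_comb {ι : Type} [Fintype ι] (u : ι → ℕ × ℤ) (t : ℕ) (x : Kd Γ) (θ : ℕ → Kd Γ) :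
    ∑ s, (u s).2 • (Pi.single t x + θ : ℕ → Kd Γ) (u s).1 =
      (∑ s, if (u s).1 = t then (u s).2 else 0) • x + ∑ s, (u s).2 • θ (u s).1 := by
  rw [sum_smul, ← sum_add_distrib]
  refine sum_congr rfl fun s _ => ?_
  rw [Pi.add_apply, zsmul_add, Pi.single_apply]
  split_ifs <;> simp

theorem exists_level [Infinite Γ] (W : Finset Γ) (k i M : ℕ) (hM : 0 < M) {ε : ℝ} (hε : 0 < ε) :
    ∃ (r X : ℕ) (C : ℝ) (B B' G : Finset Γ) (w : ℝ) (θ : ℕ → Kd Γ),
      Frame W k i X C B B' G w ∧ i < X ∧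
      ∑ h ∈ range M, ∑ a ∈ (dif B).erase 0,
        (‖∑ t ∈ range (r + 1), chi a (θ (h * (r + 1) + t))‖ / (r + 1)) ^ (2 * (4 * k + 1)) ≤ ε ∧
      ∀ l ≤ k, ∀ u : Fin l → ℕ × ℤ, (∀ s, u s ∈ range (M * (r + 1)) ×ˢ ({1, -1} : Finset ℤ)) →
        tf G w (∑ s, (u s).2 • θ (u s).1) ≤ i →
          ∀ t, ∀ g ∈ G, (∑ s, if (u s).1 = t then (u s).2 else 0) • g = 0 := by
  classical
  obtain ⟨C, hC⟩ := exists_frame W k i
  obtain ⟨D, hD⟩ : ∃ D, D = 4 * k + 1 := ⟨_, rfl⟩
  obtain ⟨c, hc⟩ : ∃ c, c = 9 * (k + 1) + i := ⟨_, rfl⟩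
  obtain ⟨r, hr⟩ := exists_nat_ge (2 * (M * C ^ 2 * c ^ 4 * (2 * M) ^ (4 * k) * D ^ (2 * D)) / ε + D)
  obtain ⟨R, hR⟩ : ∃ R, R = r + 1 := ⟨_, rfl⟩
  have hR0 : 0 < R := by omega
  have hR1 : (0 : ℝ) < R := by exact_mod_cast hR0
  have hQ : 0 ≤ 2 * (M * C ^ 2 * c ^ 4 * (2 * M) ^ (4 * k) * (D : ℝ) ^ (2 * D)) / ε := by positivity
  have hDR : D ≤ R := by
    have : (D : ℝ) ≤ r := by linarith
    have : D ≤ r := by exact_mod_cast this
    omega
  have hQR : 2 * (M * C ^ 2 * c ^ 4 * (2 * M) ^ (4 * k) * (D : ℝ) ^ (2 * D)) ≤ R * ε := by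
    rw [← div_le_iff₀ hε, hR]
    push_cast
    linarith [(Nat.cast_nonneg D : (0 : ℝ) ≤ D)]
  have hp : 1 ≤ (2 * (M * R)) ^ k := Nat.one_le_pow _ _ (by positivity)
  have hX : c ≤ c * (2 * (M * R)) ^ k := Nat.le_mul_of_pos_right _ hp
  obtain ⟨B, B', G, w, hF⟩ := hC (c * (2 * (M * R)) ^ k) (by omega)
  let T : (l : ℕ) → Finset (Fin l → ℕ × ℤ) := fun l =>
    {u ∈ Fintype.piFinset fun _ => range (M * R) ×ˢ ({1, -1} : Finset ℤ) |
      ¬ ∀ t, ∀ g ∈ G, (∑ s, if (u s).1 = t then (u s).2 else 0) • g = 0}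
  let Φ : (ℕ → Kd Γ) → ℝ := fun θ => ∑ h ∈ range M, ∑ a ∈ (dif B).erase 0,
    (‖∑ t ∈ range R, chi a (θ (h * R + t))‖ / R) ^ (2 * D)
  let Ψ : (ℕ → Kd Γ) → ℝ := fun θ =>
    ∑ l ∈ range (k + 1), ∑ u ∈ T l, zz B' (∑ s, (u s).2 • θ (u s).1)
  have c1 : ∀ (h : ℕ) (a : Γ), Continuous fun θ : ℕ → Kd Γ =>
      (‖∑ t ∈ range R, chi a (θ (h * R + t))‖ / R) ^ (2 * D) := fun h a =>
    ((continuous_finsetSum (range R) fun t _ =>
      (continuous_chi a).comp (continuous_apply (h * R + t))).norm.div_const _).pow _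
  have c2 : ∀ (l : ℕ) (u : Fin l → ℕ × ℤ), Continuous fun θ : ℕ → Kd Γ =>
      ∑ s, (u s).2 • θ (u s).1 := fun l u =>
    continuous_finsetSum _ fun s _ => (continuous_apply _).zsmul _
  have i1 := fun h a => integrable_cts (c1 h a) (hm (ℕ → Kd Γ))
  have i2 : ∀ (l : ℕ) (u : Fin l → ℕ × ℤ), Integrable (fun θ : ℕ → Kd Γ =>
      zz B' (∑ s, (u s).2 • θ (u s).1)) (hm (ℕ → Kd Γ)) :=
    fun l u => integrable_cts ((continuous_zz B').comp (c2 l u)) _
  have j1 : Integrable Φ (hm (ℕ → Kd Γ)) :=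
    integrable_finsetSum _ fun h _ => integrable_finsetSum _ fun a _ => i1 h a
  have j2 : Integrable Ψ (hm (ℕ → Kd Γ)) :=
    integrable_finsetSum _ fun l _ => integrable_finsetSum _ fun u _ => i2 l u
  have e1 : ∫ θ, Φ θ ∂(hm (ℕ → Kd Γ)) ≤ ε / 2 := by
    rw [integral_finsetSum _ fun h _ => integrable_finsetSum _ fun a _ => i1 h a]
    have h1 : (#((dif B).erase 0) : ℝ) ≤ (C * (c * (2 * (M * R)) ^ k) ^ 2) ^ 2 := by
      have h2 : #((dif B).erase 0) ≤ #B ^ 2 :=
        card_erase_le.trans (card_image_le.trans (by rw [card_product, sq]))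
      have h3 := hF.card
      push_cast at h3
      exact (Nat.cast_le.2 h2).trans (by
        push_cast
        exact pow_le_pow_left₀ (by positivity) h3 2)
    refine (sum_le_card_nsmul _ _ ((C * (c * (2 * (M * R)) ^ k) ^ 2) ^ 2 *
      (R ^ D * D ^ (2 * D) / R ^ (2 * D))) fun h _ => ?_).trans ?_
    · rw [integral_finsetSum _ fun a _ => i1 h a]
      refine (sum_le_card_nsmul _ _ (R ^ D * D ^ (2 * D) / R ^ (2 * D) : ℝ) fun a ha => ?_).trans ?_
      · simp only [div_pow]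
        rw [integral_div]
        exact div_le_div_of_nonneg_right (moment (ne_of_mem_erase ha) _ hDR) (by positivity)
      · rw [nsmul_eq_mul]
        exact mul_le_mul_of_nonneg_right h1 (by positivity)
    · rw [card_range, nsmul_eq_mul, ← mul_div_assoc, ← mul_div_assoc, div_le_div_iff₀
        (by positivity) two_pos]
      have h2 := mul_le_mul_of_nonneg_right hQR (show (0 : ℝ) ≤ R ^ (4 * k) * R ^ D by positivity)
      refine le_trans (le_of_eq (by ring)) (h2.trans (le_of_eq ?_))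
      rw [hD]
      ring
  have hB' : 0 < #B' := by have := hF.card'; omega
  have e2 : ∫ θ, Ψ θ ∂(hm (ℕ → Kd Γ)) ≤ 4 / 9 := by
    rw [integral_finsetSum _ fun l _ => integrable_finsetSum _ fun u _ => i2 l u]
    refine (sum_le_card_nsmul _ _ ((2 * (M * R)) ^ k * (4 / #B') : ℝ) fun l hl => ?_).trans ?_
    · rw [integral_finsetSum _ fun u _ => i2 l u]
      refine (sum_le_card_nsmul _ _ (4 / #B' : ℝ) fun u hu => ?_).trans ?_
      · obtain ⟨h1, h2⟩ := mem_filter.1 hu
        obtain ⟨t, h2⟩ := not_forall.1 h2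
        refine (integral_zz _ B' (c2 l u) _ (fun x => ⟨_, shift_comb u t x⟩)
          ((hF.inj _ ?_).resolve_left h2)).le
        refine (abs_sum_le_sum_abs _ _).trans ((sum_le_card_nsmul _ _ 1 fun s _ => ?_).trans ?_)
        · have := (mem_product.1 (Fintype.mem_piFinset.1 h1 s)).2
          simp only [mem_insert, mem_singleton] at this
          split_ifs
          · rcases this with h | h <;> simp [h]
          · simp
        · simpa using Nat.lt_succ_iff.1 (mem_range.1 hl)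
      · rw [nsmul_eq_mul]
        refine mul_le_mul_of_nonneg_right ?_ (by positivity)
        have h1 : #(T l) ≤ (2 * (M * R)) ^ k := by
          refine (card_filter_le _ _).trans ?_
          rw [Fintype.card_piFinset, prod_const, card_univ, Fintype.card_fin, card_product,
            card_range, card_pair (by norm_num), mul_comm _ 2]
          exact Nat.pow_le_pow_right (by positivity) (Nat.lt_succ_iff.1 (mem_range.1 hl))
        exact_mod_cast h1
    · have h1 : 9 * (k + 1) * (2 * (M * R)) ^ k ≤ #B' :=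
        (Nat.mul_le_mul_right _ (by omega)).trans hF.card'
      have h2 : (9 * (k + 1) * (2 * (M * R)) ^ k : ℝ) ≤ #B' := by exact_mod_cast h1
      rw [card_range, nsmul_eq_mul, ← mul_div_assoc, ← mul_div_assoc, div_le_div_iff₀
        (by exact_mod_cast hB') (by norm_num)]
      push_cast
      linarith
  obtain ⟨θ, hθ⟩ := exists_le_integral ((j1.div_const ε).add j2)
  simp only [Pi.add_apply] at hθ
  rw [integral_add (j1.div_const ε) j2, integral_div] at hθ
  have e3 : (∫ θ, Φ θ ∂(hm (ℕ → Kd Γ))) / ε ≤ 1 / 2 := by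
    rw [div_le_iff₀ hε]
    linarith
  have p1 : 0 ≤ Φ θ / ε :=
    div_nonneg (sum_nonneg fun _ _ => sum_nonneg fun _ _ => by positivity) hε.le
  have p2 : 0 ≤ Ψ θ := sum_nonneg fun _ _ => sum_nonneg fun _ _ => zz_nonneg _ _
  refine ⟨r, _, C, B, B', G, w, θ, hF, by omega, ?_, fun l hl u hu ht => ?_⟩
  · have : Φ θ / ε ≤ 1 := by linarith
    rw [div_le_one hε] at this
    simpa only [Φ, hR, hD, Nat.cast_add, Nat.cast_one] using this
  · by_contra h
    have h1 : u ∈ T l := mem_filter.2 ⟨Fintype.mem_piFinset.2 (hR ▸ hu), h⟩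
    have h2 := (single_le_sum (f := fun u : Fin l → ℕ × ℤ => zz B' (∑ s, (u s).2 • θ (u s).1))
      (fun _ _ => zz_nonneg _ _) h1).trans
      (single_le_sum (f := fun l => ∑ u ∈ T l, zz B' (∑ s, (u s).2 • θ (u s).1))
        (fun _ _ => sum_nonneg fun _ _ => zz_nonneg _ _) (mem_range.2 (Nat.lt_succ_of_le hl)))
    have h3 := one_le_zz hB' (hF.near _ ht)
    have h4 : Ψ θ < 1 := by linarith
    exact absurd (h3.trans h2) (not_le.2 h4)

end Pool.Agent.P.MP_849d05_an.Ab
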