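import Pool.Agent.P.MP_849d05_an.Defs
import Pool.Agent.P.MP_849d05_an.AbConc

set_option autoImplicit false
set_option linter.unusedSectionVars false

open scoped ComplexConjugate ComplexOrder ENNReal Topology InnerProductSpace
open Finset MeasureTheory Filter

namespace Pool.Agent.P.MP_849d05_an.Ab

variable {G : Type} [Group G]

theorem bdd_posDef {φ : G → ℂ} (h : IsPosDef G φ) (g : G) : ‖φ g‖ ≤ 2 * ‖φ 1‖ := by
  classical
  rcases eq_or_ne 1 g with rfl | hg
  · linarith [norm_nonneg (φ 1)]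
  have key : ∀ z : ℂ, 0 ≤ φ 1 + z * φ g + (conj z * φ g⁻¹ + conj z * z * φ 1) := fun z => by
    have := h {1, g} fun x => if x = 1 then 1 else z
    simpa [sum_pair hg, hg.symm] using this
  have h1 := Complex.nonneg_iff.1 (key 1)
  have h2 := Complex.nonneg_iff.1 (key (-1))
  have h3 := Complex.nonneg_iff.1 (key Complex.I)
  have h4 := Complex.nonneg_iff.1 (key (-Complex.I))
  simp at h1 h2 h3 h4
  have h5 := Complex.re_le_norm (φ 1)
  refine (Complex.norm_le_abs_re_add_abs_im _).trans ?_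
  have h6 : |(φ g).re| ≤ ‖φ 1‖ := abs_le.2 ⟨by linarith, by linarith⟩
  have h7 : |(φ g).im| ≤ ‖φ 1‖ := abs_le.2 ⟨by linarith, by linarith⟩
  linarith

theorem bdd_FS {u : G → ℂ} (hu : u ∈ FS G) : ∃ C : ℝ, ∀ g, ‖u g‖ ≤ C := by
  induction hu using Submodule.span_induction with
  | mem φ hφ => exact ⟨_, bdd_posDef hφ⟩
  | zero => exact ⟨0, fun g => by simp⟩
  | add a b _ _ ha hb =>
    exact ⟨_, fun g => (norm_add_le _ _).trans (add_le_add (ha.choose_spec g) (hb.choose_spec g))⟩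
  | smul c a _ ha =>
    exact ⟨_, fun g => (norm_mul_le _ _).trans
      (mul_le_mul_of_nonneg_left (ha.choose_spec g) (norm_nonneg c))⟩

theorem one_mem_FS : (1 : G → ℂ) ∈ FS G := Submodule.subset_span fun s c => by
  simp only [Pi.one_apply, mul_one]
  rw [← sum_mul_sum, ← map_sum, Complex.conj_mul']
  positivity

variable {Γ : Type} [AddCommGroup Γ] [Countable Γ] {j : Γ → G}

theorem inv_mul_j (hj : ∀ a b, j (a + b) = j a * j b) (a b : Γ) : (j a)⁻¹ * j b = j (-a + b) := by
  rw [inv_mul_eq_iff_eq_mul, ← hj, add_neg_cancel_left]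

theorem j_zero (hj : ∀ a b, j (a + b) = j a * j b) : j 0 = 1 := by
  simpa using (inv_mul_j hj 0 0).symm

/-- The image of the abelian group. -/
def img (hj : ∀ a b, j (a + b) = j a * j b) : Subgroup G where
  carrier := Set.range j
  one_mem' := ⟨0, j_zero hj⟩
  mul_mem' := fun ⟨a, ha⟩ ⟨b, hb⟩ => ⟨a + b, by rw [hj, ha, hb]⟩
  inv_mem' := fun ⟨a, ha⟩ => ⟨-a + 0, by rw [← inv_mul_j hj, j_zero hj, mul_one, ha]⟩

theorem exists_dec (hj : ∀ a b, j (a + b) = j a * j b) (g : G) :
    ∃ a, g = (g : G ⧸ img hj).out * j a := by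
  obtain ⟨h, e⟩ := QuotientGroup.mk_out_eq_mul (img hj) g
  obtain ⟨a, ha⟩ := h⁻¹.2
  exact ⟨a, by rw [e, ha, Subgroup.coe_inv, mul_inv_cancel_right]⟩

theorem posDef_extend (hj : ∀ a b, j (a + b) = j a * j b) (hi : Function.Injective j)
    {φ : Γ → ℂ} (hφ : PD φ) : IsPosDef G (Function.extend j φ 0) := by
  classical
  intro s c
  choose a ha using exists_dec hj
  obtain ⟨ρ, hρ, h⟩ := bochner hφ
  rw [← sum_fiberwise_of_maps_to (g := fun g : G => (g : G ⧸ img hj))
    fun g hg => mem_image_of_mem _ hg]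
  refine sum_nonneg fun q _ => le_of_le_of_eq
    (Complex.zero_le_real.2 (integral_nonneg fun x => sq_nonneg _))
    ((ft_sq ρ (s.filter fun g : G => (g : G ⧸ img hj) = q) a c).symm.trans (sum_congr rfl fun g hg => ?_))
  rw [sum_filter]
  refine sum_congr rfl fun k _ => ?_
  rw [← (mem_filter.1 hg).2]
  split_ifs with e
  · have e2 : g⁻¹ * k = j (-a g + a k) := by
      conv_lhs => rw [ha g, ha k, e, mul_inv_rev, mul_assoc, inv_mul_cancel_left, inv_mul_j hj]
    rw [← h, e2, hi.extend_apply]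
  · rw [Function.extend_apply' _ _ _ fun h => e (QuotientGroup.eq.2 h).symm, Pi.zero_apply,
      mul_zero]

theorem extend_mem (hj : ∀ a b, j (a + b) = j a * j b) (hi : Function.Injective j)
    {v : Γ → ℂ} (hv : v ∈ FSa Γ) : Function.extend j v 0 ∈ FS G := by
  have e : ∀ (v : Γ → ℂ) (u : G → ℂ), (∀ a, u (j a) = v a) → (∀ g, (¬ ∃ a, j a = g) → u g = 0) →
      Function.extend j v 0 = u := fun v u h1 h2 => funext fun g => by
    by_cases h : ∃ a, j a = g
    · obtain ⟨a, rfl⟩ := h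
      rw [hi.extend_apply, h1]
    · rw [Function.extend_apply' _ _ _ h, h2 g h, Pi.zero_apply]
  induction hv using Submodule.span_induction with
  | mem φ hφ => exact Submodule.subset_span (posDef_extend hj hi hφ)
  | zero =>
    rw [e 0 0 (fun _ => rfl) fun _ _ => rfl]
    exact Submodule.zero_mem _
  | add a b _ _ ha hb =>
    rw [e _ (Function.extend j a 0 + Function.extend j b 0)
      (fun x => by simp only [Pi.add_apply, hi.extend_apply])
      fun g h => by simp only [Pi.add_apply, Function.extend_apply' _ _ _ h, Pi.zero_apply,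
        add_zero]]
    exact Submodule.add_mem _ ha hb
  | smul c a _ ha =>
    rw [e _ (c • Function.extend j a 0) (fun x => by simp only [Pi.smul_apply, hi.extend_apply])
      fun g h => by simp only [Pi.smul_apply, Function.extend_apply' _ _ _ h, Pi.zero_apply,
        smul_zero]]
    exact Submodule.smul_mem _ c ha

theorem restrict_mem (hj : ∀ a b, j (a + b) = j a * j b) (hi : Function.Injective j)
    {u : G → ℂ} (hu : u ∈ FS G) : (fun a => u (j a)) ∈ FSa Γ := by
  induction hu using Submodule.span_induction with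
  | mem φ hφ =>
    refine PD.mem fun s c => ?_
    simpa only [sum_map, Function.Embedding.coeFn_mk, hi.extend_apply, inv_mul_j hj] using
      hφ (s.map ⟨j, hi⟩) (Function.extend j c 0)
  | zero => exact Submodule.zero_mem _
  | add a b _ _ ha hb => exact Submodule.add_mem _ ha hb
  | smul c a _ ha => exact Submodule.smul_mem _ c ha

theorem restrict_FA (hj : ∀ a b, j (a + b) = j a * j b) (hi : Function.Injective j)
    {u : G → ℂ} (hu : u ∈ FA G) : ∃ κ : Kd Γ → ℂ, Integrable κ (haar Γ) ∧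
      ∀ a, u (j a) = ∫ x, chi a x * κ x ∂(haar Γ) := by
  obtain ⟨ξ, η, hξ, hη, he⟩ := hu
  let E : (G ⧸ img hj) × Γ ≃ G := Equiv.ofBijective (fun p => j p.2 * p.1.out⁻¹) ⟨by
    rintro ⟨q, a⟩ ⟨q', a'⟩ e
    have h1 : q = q' := by
      rw [← q.out_eq, ← q'.out_eq]
      refine QuotientGroup.eq.2 ⟨-a + a', ?_⟩
      rw [← inv_mul_j hj, inv_mul_eq_iff_eq_mul, ← mul_assoc]
      exact (congrArg (· * q'.out) e ▸ (inv_mul_cancel_right _ _).symm :)
    subst h1
    exact Prod.ext rfl (hi (mul_right_cancel e)), fun g => by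
    obtain ⟨a, ha⟩ := exists_dec hj g⁻¹
    refine ⟨((g⁻¹ : G), -a + 0), ?_⟩
    simp only
    rw [← inv_mul_j hj, j_zero hj, mul_one, ← mul_inv_rev, ← ha, inv_inv]⟩
  have hl : ∀ ζ : G → ℂ, (Summable fun h => ‖ζ h‖ ^ 2) → ∃ v : G ⧸ img hj → lp (fun _ : Γ => ℂ) 2,
      (∀ q b, v q b = ζ (E (q, b))) ∧ Summable fun q => ‖v q‖ ^ 2 := fun ζ hζ => by
    have h1 : Summable fun p => ‖ζ (E p)‖ ^ 2 := E.summable_iff.2 hζ
    let v : G ⧸ img hj → lp (fun _ : Γ => ℂ) 2 := fun q =>
      ⟨fun b => ζ (E (q, b)), memℓp_gen (by simpa using h1.prod_factor q)⟩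
    refine ⟨v, fun _ _ => rfl, h1.prod.congr fun q => ?_⟩
    have h2 := lp.norm_rpow_eq_tsum (p := 2) (by simp) (v q)
    simp only [ENNReal.toReal_ofNat, Real.rpow_ofNat] at h2
    exact h2.symm
  obtain ⟨v, hv, sv⟩ := hl ξ hξ
  obtain ⟨w, hw, sw⟩ := hl η hη
  choose k hk hb hp using fun q => plancherel (v q) (w q)
  have hs : Summable fun q => (hk q).toL1 _ :=
    Summable.of_norm_bounded ((sv.add sw).div_const 2) fun q => by
      rw [L1.norm_of_fun_eq_integral_norm]
      simpa using hb q 1 one_pos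
  refine ⟨_, L1.integrable_coeFn (∑' q, (hk q).toL1 _), fun a => ?_⟩
  let Λ := (ContinuousLinearMap.mul ℂ ℂ).lpPairing (haar Γ) ∞ 1
    (ContinuousMap.toLp ∞ (haar Γ) ℂ (chiC a))
  have hΛ : ∀ K, Λ K = ∫ x, chi a x * K x ∂(haar Γ) := fun K => by
    refine (ContinuousLinearMap.lpPairing_eq_integral _ _ _).trans (integral_congr_ae ?_)
    filter_upwards [ContinuousMap.coeFn_toLp (p := ∞) (𝕜 := ℂ) (haar Γ) (chiC a)] with x hx
    rw [hx]
    rfl
  have h1 : Summable fun h => ξ ((j a)⁻¹ * h) * conj (η h) :=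
    Summable.of_norm_bounded (((Equiv.mulLeft (j a)⁻¹).summable_iff.2 hξ).add hη) fun h => by
      rw [norm_mul, Complex.norm_conj]
      simp only [Function.comp, Equiv.coe_mulLeft]
      nlinarith [sq_nonneg (‖ξ ((j a)⁻¹ * h)‖ - ‖η h‖), norm_nonneg (ξ ((j a)⁻¹ * h)),
        norm_nonneg (η h)]
  rw [← hΛ, Λ.map_tsum hs, he, ← E.tsum_eq]
  refine (E.summable_iff.2 h1).tsum_prod.trans (tsum_congr fun q => ?_)
  rw [hΛ, integral_congr_ae (g := fun x => chi a x * k q x)
    ((hk q).coeFn_toL1.mono fun x hx => by simp only [hx]), ← hp]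
  refine tsum_congr fun b => ?_
  rw [hv, hw]
  exact congrArg (fun g => ξ g * conj (η (E (q, b))))
    ((mul_assoc _ _ _).symm.trans (congrArg (· * q.out⁻¹) (inv_mul_j hj a b)))

theorem mem_cstarBall (hj : ∀ a b, j (a + b) = j a * j b) (hi : Function.Injective j)
    (a : Γ →₀ ℂ) (ha : ∀ x, ‖∑ g ∈ a.support, a g * chi g x‖ ≤ 1) :
    a.embDomain ⟨j, hi⟩ ∈ cstarBall G := by
  intro H _ _ _ π v
  rw [Finsupp.sum_embDomain]
  have h2 : ∀ (s : Finset Γ) (c : Γ → ℂ),
      ∑ g ∈ s, ∑ h ∈ s, conj (c g) * c h * ⟪v, π (j (-g + h)) v⟫_ℂ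
        = ((‖∑ g ∈ s, c g • π (j g) v‖ ^ 2 : ℝ) : ℂ) := by
    intro s c
    have e : ∀ w : H, ((‖w‖ ^ 2 : ℝ) : ℂ) = ⟪w, w⟫_ℂ := fun w => by
      rw [inner_self_eq_norm_sq_to_K]
      push_cast
      rfl
    rw [e, sum_inner]
    refine sum_congr rfl fun g _ => ?_
    rw [inner_sum]
    refine sum_congr rfl fun h _ => ?_
    have e2 : π (j g) (π (j (-g + h)) v) = π (j h) v := by
      change (π (j g) * π (j (-g + h))) v = _
      rw [← map_mul, ← hj, add_neg_cancel_left]
    rw [inner_smul_left, inner_smul_right, ← e2, (π (j g)).inner_map_map, mul_assoc]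
  obtain ⟨ρ, hρ, h4⟩ := bochner (φ := fun g => ⟪v, π (j g) v⟫_ℂ) fun s c => by
    rw [h2]
    exact Complex.zero_le_real.2 (sq_nonneg _)
  have h5 := h2 a.support a
  simp only [h4] at h5
  rw [ft_sq ρ a.support (fun g => g) a] at h5
  have h7 : ρ.real Set.univ = ‖v‖ ^ 2 := by
    have := h4 0
    simp only [j_zero hj, map_one, LinearIsometryEquiv.coe_one, id, inner_self_eq_norm_sq_to_K,
      chi_zero_left, integral_const, Complex.real_smul, mul_one] at this
    apply Complex.ofReal_injective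
    rw [← this]
    push_cast
    rfl
  have h8 : ∫ x, ‖∑ i ∈ a.support, a i * chi i x‖ ^ 2 ∂ρ ≤ ‖v‖ ^ 2 := by
    refine (le_abs_self _).trans ?_
    rw [← Real.norm_eq_abs, ← h7]
    refine (norm_integral_le_of_norm_le_const (C := 1) (Eventually.of_forall fun x => ?_)).trans
      (by simp)
    rw [norm_pow, norm_norm]
    exact pow_le_one₀ (norm_nonneg _) (ha x)
  rw [Complex.ofReal_injective h5] at h8
  exact (pow_le_pow_iff_left₀ (norm_nonneg _) (norm_nonneg _) two_ne_zero).1 h8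

theorem mem_zafran [Infinite Γ] (hj : ∀ a b, j (a + b) = j a * j b) (hi : Function.Injective j)
    {f : Γ → ℂ} (hB : f ∈ FSa Γ) (hf : Quasi f) : Function.extend j f 0 ∈ zafran G := by
  have : Infinite G := Infinite.of_injective j hi
  have ht : Tendsto (Function.extend j f 0) cofinite (𝓝 0) := by
    refine Metric.tendsto_nhds.2 fun ε hε => eventually_cofinite.2
      (((eventually_cofinite.1 (Metric.tendsto_nhds.1 hf.tendsto ε hε)).image j).subset
        fun g hg => ?_)
    by_cases h : ∃ a, j a = g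
    · obtain ⟨a, rfl⟩ := h
      exact ⟨a, by simpa only [Set.mem_ofPred_eq, hi.extend_apply] using hg, rfl⟩
    · exact absurd (by simpa [Function.extend_apply' _ _ _ h] using hε) hg
  refine ⟨extend_mem hj hi hB, ht, Set.ext fun z => ⟨fun hz => by_contra fun hc => hz ?_, ?_⟩⟩
  · have h0 : z ≠ 0 := fun h => hc (h ▸ mem_closure_of_tendsto ht
      (Eventually.of_forall fun g => Set.mem_range_self g))
    obtain ⟨v, hv, h⟩ := hf.inv hB h0 fun a e => hc (subset_closure
      ⟨j a, (hi.extend_apply _ _ _).trans (sub_eq_zero.1 e).symm⟩)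
    refine ⟨_, Submodule.add_mem _ (extend_mem hj hi hv) (Submodule.smul_mem _ z⁻¹
      (Submodule.sub_mem _ one_mem_FS (extend_mem hj hi PD.one.mem))), fun g => ?_⟩
    by_cases hg : ∃ a, j a = g
    · obtain ⟨a, rfl⟩ := hg
      simpa [hi.extend_apply] using h a
    · simp [Function.extend_apply' _ _ _ hg, h0]
  · rintro hz ⟨u, hu, h⟩
    obtain ⟨C, hC⟩ := bdd_FS hu
    have hC0 : 0 ≤ C := (norm_nonneg _).trans (hC 1)
    obtain ⟨_, ⟨g, rfl⟩, h1⟩ := Metric.mem_closure_iff.1 hz (1 / (C + 1)) (by positivity)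
    have h2 := congrArg norm (h g)
    rw [dist_eq_norm, lt_div_iff₀ (by positivity)] at h1
    rw [norm_mul, norm_one] at h2
    nlinarith [hC g, norm_nonneg (z - Function.extend j f 0 g)]

theorem transfer [Infinite Γ] (hj : ∀ a b, j (a + b) = j a * j b) (hi : Function.Injective j) :
    ∃ f ∈ zafran G, f ∉ closureFS G (radFA G) := by
  classical
  obtain ⟨T⟩ := exists_tree (Γ := Γ)
  refine ⟨_, mem_zafran hj hi T.pd_ff.mem T.quasi_ff, fun h => ?_⟩
  obtain ⟨u, ⟨hB, n, hn, hA⟩, h1⟩ := h.2 (ENNReal.ofReal (1 / 4)) (by simp)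
  obtain ⟨κ, hκ, he⟩ := restrict_FA hj hi hA
  obtain ⟨a, h2, h3⟩ := T.far (restrict_mem hj hi hB) hn hκ he
  have e : ∀ φ : Γ → ℂ, ‖∑ g ∈ ((2 : ℂ)⁻¹ • a).support, ((2 : ℂ)⁻¹ • a) g * φ g‖ =
      2⁻¹ * ‖∑ g ∈ a.support, a g * φ g‖ := fun φ => by
    simp only [Finsupp.support_smul_eq (inv_ne_zero (two_ne_zero' ℂ)), Finsupp.smul_apply,
      smul_eq_mul, mul_assoc, ← mul_sum, norm_mul, norm_inv, Complex.norm_ofNat]
  refine absurd h1 (not_lt.2 (le_iSup₂_of_le _ (mem_cstarBall hj hi ((2 : ℂ)⁻¹ • a) fun x => by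
    rw [e]
    linarith [h2 x]) ?_))
  rw [Finsupp.sum_embDomain, ← ofReal_norm, Finsupp.sum, e]
  simp only [Function.Embedding.coeFn_mk, Pi.sub_apply, hi.extend_apply]
  exact ENNReal.ofReal_le_ofReal (by linarith)

theorem main (A : Subgroup G) (hA : (A : Set G).Infinite) (hc : ∀ a ∈ A, ∀ b ∈ A, a * b = b * a) :
    ∃ f ∈ zafran G, f ∉ closureFS G (radFA G) := by
  let _ : CommGroup A := { (inferInstance : Group A) with
    mul_comm := fun a b => Subtype.ext (hc a a.2 b b.2) }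
  have : Infinite (Additive A) := hA.to_subtype
  let s := Infinite.natEmbedding (Additive A)
  have : Infinite (Submodule.span ℤ (Set.range s)) :=
    ((Set.infinite_range_of_injective s.injective).mono Submodule.subset_span).to_subtype
  exact transfer (Γ := Submodule.span ℤ (Set.range s)) (j := fun a => (a.1.toMul : A))
    (fun _ _ => rfl) fun a b e => Subtype.ext (Additive.toMul.injective (Subtype.ext e))

end Pool.Agent.P.MP_849d05_an.Ab
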