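import Mathlib

set_option autoImplicit false

open scoped ENNReal Topology
open Filter MeasureTheory

namespace Pool.Agent.P.MP_849d05_an

variable {H : Type} [AddCommGroup H] [MeasurableSpace H] [MeasurableAdd₂ H]

/-- The measure `ρ` vanishes on every translate of `A`. -/
def Kills (ρ : Measure H) (A : Set H) : Prop := ∀ c, ρ {y | c + y ∈ A} = 0

/-- Two different translates of `B` meet inside countably many translates of `A`. -/
def Step (A B : Set H) : Prop :=
  ∀ c c', c ≠ c' → ∃ D : Set H, D.Countable ∧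
    ∀ y, c + y ∈ B → c' + y ∈ B → ∃ d ∈ D, d + y ∈ A

theorem measurableSet_tr {A : Set H} (hA : MeasurableSet A) (c : H) :
    MeasurableSet {y | c + y ∈ A} := measurable_const_add c hA

theorem Kills.countable {ρ : Measure H} [SFinite ρ] {A B : Set H} (h : Kills ρ A)
    (hB : MeasurableSet B) (hs : Step A B) : {c | 0 < ρ {y | c + y ∈ B}}.Countable := by
  refine Measure.countable_meas_pos_of_disjoint_iUnion₀
    (fun c => (measurableSet_tr hB c).nullMeasurableSet) fun c c' hne => ?_
  obtain ⟨D, hD, hsub⟩ := hs c c' hne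
  refine measure_mono_null (t := ⋃ d ∈ D, {y | d + y ∈ A}) ?_
    ((measure_biUnion_null_iff hD).2 fun d _ => h d)
  rintro y ⟨h1, h2⟩
  obtain ⟨d, hd, h3⟩ := hsub y h1 h2
  exact Set.mem_biUnion hd h3

theorem conv_tr (ρ τ : Measure H) [SFinite ρ] [SFinite τ] {B : Set H} (hB : MeasurableSet B)
    (c : H) : (ρ ∗ τ) {y | c + y ∈ B} = ∫⁻ z, ρ {y | (c + z) + y ∈ B} ∂τ := by
  rw [Measure.conv, Measure.map_apply measurable_add (measurableSet_tr hB c),
    Measure.prod_apply_symm (measurable_add (measurableSet_tr hB c))]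
  refine lintegral_congr fun z => ?_
  congr 1
  ext y
  simp only [Set.mem_preimage, Set.mem_ofPred_eq]
  rw [show c + (y + z) = c + z + y by abel]

theorem Kills.conv_any {ρ : Measure H} [SFinite ρ] {A : Set H} (h : Kills ρ A)
    (hA : MeasurableSet A) (τ : Measure H) [SFinite τ] : Kills (ρ ∗ τ) A := by
  intro c
  rw [conv_tr ρ τ hA]
  simp [h (c + _)]

theorem Kills.conv {ρ : Measure H} [SFinite ρ] {A B : Set H} (h : Kills ρ A)
    (hB : MeasurableSet B) (hs : Step A B) (τ : Measure H) [SFinite τ] [NullSingletonClass τ] :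
    Kills (ρ ∗ τ) B := by
  intro c
  rw [conv_tr ρ τ hB]
  have hc := (h.countable hB hs).preimage (f := fun z => c + z) (add_right_injective c)
  have h0 := hc.measure_zero τ
  rw [← lintegral_zero (μ := τ)]
  refine lintegral_congr_ae ?_
  filter_upwards [measure_eq_zero_iff_ae_notMem.1 h0] with z hz
  simpa using hz

/-- The law of a sum of `k` independent points. -/
noncomputable def sumLaw (τ : Measure H) (k : ℕ) : Measure H :=
  (Measure.pi fun _ : Fin k => τ).map fun y => ∑ i, y i

theorem measurable_sum_fin (k : ℕ) : Measurable fun y : Fin k → H => ∑ i, y i :=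
  Finset.measurable_sum _ fun i _ => measurable_pi_apply i

instance (τ : Measure H) [IsFiniteMeasure τ] (k : ℕ) : IsFiniteMeasure (sumLaw τ k) := by
  unfold sumLaw; infer_instance

theorem pi_split (τ : Measure H) [IsFiniteMeasure τ] (k : ℕ) (i : Fin (k + 1)) {W A : Set H}
    (hA : MeasurableSet A) :
    (Measure.pi fun _ : Fin (k + 1) => τ) {y | y i ∈ W ∧ ∑ j, y j ∈ A}
      = ((τ.restrict W) ∗ sumLaw τ k) A := by
  have hm : Measurable fun p : H × (Fin k → H) => p.1 + ∑ j, p.2 j :=
    measurable_fst.add ((measurable_sum_fin k).comp measurable_snd)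
  have h1 : ((τ.restrict W) ∗ sumLaw τ k) A
      = ((τ.restrict W).prod (Measure.pi fun _ : Fin k => τ))
          ((fun p : H × (Fin k → H) => p.1 + ∑ j, p.2 j) ⁻¹' A) := by
    rw [Measure.conv, sumLaw, ← Measure.map_id (μ := τ.restrict W),
      Measure.map_prod_map _ _ measurable_id (measurable_sum_fin k),
      Measure.map_map measurable_add (measurable_id.prodMap (measurable_sum_fin k)),
      Measure.map_id, Measure.map_apply _ hA]
    · rfl
    · exact hm
  rw [h1, Measure.restrict_prod_eq_prod_univ, Measure.restrict_apply (hm hA),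
    ← (measurePreserving_piFinSuccAbove (fun _ : Fin (k + 1) => τ) i).measure_preimage_equiv]
  congr 1
  ext y
  simp only [Set.mem_ofPred_eq, Set.mem_preimage, Set.mem_inter_iff, Set.mem_prod, Set.mem_univ,
    and_true, MeasurableEquiv.piFinSuccAbove_apply, Fin.insertNthEquiv_symm_apply]
  rw [Fin.sum_univ_succAbove y i, and_comm]
  rfl

theorem sumLaw_succ (τ : Measure H) [IsFiniteMeasure τ] (k : ℕ) :
    sumLaw τ (k + 1) = τ ∗ sumLaw τ k := by
  ext A hA
  have := pi_split τ k 0 (W := Set.univ) hA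
  rw [Measure.restrict_univ] at this
  rw [← this, sumLaw, Measure.map_apply (measurable_sum_fin _) hA]
  congr 1
  ext y; simp

theorem sumLaw_zero (τ : Measure H) [IsFiniteMeasure τ] : sumLaw τ 0 = Measure.dirac 0 := by
  ext A hA
  rw [sumLaw, Measure.map_apply (measurable_sum_fin _) hA, Measure.dirac_apply' _ hA]
  by_cases h : (0 : H) ∈ A
  · have : (fun y : Fin 0 → H => ∑ i, y i) ⁻¹' A = Set.univ := by ext y; simpa using h
    rw [this, Measure.pi_univ]; simp [h]
  · have : (fun y : Fin 0 → H => ∑ i, y i) ⁻¹' A = ∅ := by ext y; simpa using h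
    rw [this]; simp [h]

theorem Kills.sumLaw (τ : Measure H) [IsFiniteMeasure τ] [NullSingletonClass τ] (E : ℕ → Set H)
    (hE : ∀ k, MeasurableSet (E k)) (k : ℕ) :
    ∀ (a : ℕ) (ρ : Measure H) [IsFiniteMeasure ρ], Kills ρ (E a) →
      (∀ j, j < a + k → Step (E j) (E (j + 1))) → Kills (ρ ∗ sumLaw τ k) (E (a + k)) := by
  induction k with
  | zero => intro a ρ _ h _; rw [sumLaw_zero, Measure.conv_dirac_zero]; exact h
  | succ k ih =>
    intro a ρ _ h hs
    rw [sumLaw_succ, ← Measure.conv_assoc]
    have := ih (a + 1) (ρ ∗ τ) (h.conv (hE _) (hs a (by omega)) τ) fun j hj => hs j (by omega)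
    rwa [show a + 1 + k = a + (k + 1) by omega] at this

/-- The union of the translates of `A` by the elements of `C`. -/
def trUnion (C A : Set H) : Set H := ⋃ c ∈ C, {y | c + y ∈ A}

theorem measurableSet_trUnion {C A : Set H} (hC : C.Countable) (hA : MeasurableSet A) :
    MeasurableSet (trUnion C A) :=
  MeasurableSet.biUnion hC fun c _ => measurableSet_tr hA c

omit [MeasurableAdd₂ H] in
theorem Kills.trUnion {ρ : Measure H} {C A : Set H} (h : Kills ρ A) (hC : C.Countable) :
    ρ (trUnion C A) = 0 :=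
  (measure_biUnion_null_iff hC).2 fun c _ => h c

theorem kills_restrict_compl (τ : Measure H) {C A : Set H} (hA : MeasurableSet A)
    (hC : {c | 0 < τ {y | c + y ∈ A}} ⊆ C) : Kills (τ.restrict (trUnion C A)ᶜ) A := by
  intro c
  rw [Measure.restrict_apply (measurableSet_tr hA c)]
  by_cases hc : c ∈ C
  · have : {y | c + y ∈ A} ∩ (trUnion C A)ᶜ = ∅ := by
      ext y
      simp only [Set.mem_inter_iff, Set.mem_compl_iff, Set.mem_empty_iff_false, iff_false, not_and,
        not_not]
      intro hy
      exact Set.mem_biUnion hc hy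
    rw [this, measure_empty]
  · have : τ {y | c + y ∈ A} = 0 := by
      by_contra h0
      exact hc (hC (pos_iff_ne_zero.2 h0))
    exact measure_mono_null Set.inter_subset_left this

theorem ae_eq_sum (τ : Measure H) [IsFiniteMeasure τ] (k : ℕ) {C A B : Set H}
    (hC : C.Countable) (hB : MeasurableSet B)
    (hsum : ∀ y : Fin (k + 1) → H, (∀ i, y i ∈ A) → ∑ i, y i ∈ B)
    (hk : Kills ((τ.restrict (trUnion C A)ᶜ) ∗ sumLaw τ k) B) :
    ∃ D : Set H, D.Countable ∧
      ∀ᵐ y ∂(Measure.pi fun _ : Fin (k + 1) => τ),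
        (∀ i, y i ∈ trUnion C A) ↔ ∑ i, y i ∈ trUnion D B := by
  have hD : (Set.range fun c : Fin (k + 1) → C => ∑ i, (c i : H)).Countable := by
    have := hC.to_subtype
    exact Set.countable_range _
  refine ⟨_, hD, ?_⟩
  have h1 : ∀ᵐ y ∂(Measure.pi fun _ : Fin (k + 1) => τ), ∀ i,
      ∀ d ∈ (Set.range fun c : Fin (k + 1) → C => ∑ i, (c i : H)),
        ¬ (y i ∈ (trUnion C A)ᶜ ∧ ∑ j, y j ∈ {w | d + w ∈ B}) := by
    rw [ae_all_iff]
    intro i
    rw [ae_ball_iff hD]
    intro d _
    have := pi_split τ k i (W := (trUnion C A)ᶜ) (measurableSet_tr hB d)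
    rw [hk d] at this
    exact measure_eq_zero_iff_ae_notMem.1 this
  filter_upwards [h1] with y hy
  constructor
  · intro h
    have h2 : ∀ i, ∃ c : C, (c : H) + y i ∈ A := by
      intro i
      obtain ⟨c, hc, h3⟩ := Set.mem_iUnion₂.1 (h i)
      exact ⟨⟨c, hc⟩, h3⟩
    choose c hc using h2
    refine Set.mem_biUnion (Set.mem_range_self c) ?_
    have := hsum _ hc
    rwa [Finset.sum_add_distrib] at this
  · intro h i
    obtain ⟨d, hd, h3⟩ := Set.mem_iUnion₂.1 h
    by_contra h4
    exact hy i d hd ⟨h4, h3⟩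

theorem Kills.of_invariant (m : Measure H) [IsFiniteMeasure m] [m.IsAddLeftInvariant]
    [Uncountable H] {A B : Set H} (h : Kills m A) (hB : MeasurableSet B) (hs : Step A B) :
    Kills m B := by
  intro c
  by_contra h0
  have hc := h.countable hB hs
  have : {c | 0 < m {y | c + y ∈ B}} = Set.univ := by
    ext c'
    simp only [Set.mem_ofPred_eq, Set.mem_univ, iff_true]
    have e1 : m {y | c' + y ∈ B} = m B := measure_preimage_add m c' B
    have e2 : m {y | c + y ∈ B} = m B := measure_preimage_add m c B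
    rw [e1, ← e2]
    exact pos_iff_ne_zero.2 h0
  rw [this] at hc
  exact Set.not_countable_univ hc

omit [MeasurableSpace H] [MeasurableAdd₂ H] in
theorem step_empty_zero : Step (∅ : Set H) {0} := by
  intro c c' hne
  refine ⟨∅, Set.countable_empty, fun y h1 h2 => ?_⟩
  exact absurd (add_right_cancel (h1.trans h2.symm)) hne

omit [MeasurableAdd₂ H] in
theorem kills_empty (ρ : Measure H) : Kills ρ ∅ := by
  intro c; simp

end Pool.Agent.P.MP_849d05_an
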