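import Pool.Agent.P.MP_849d05_an.AbSmall
import Pool.Agent.P.MP_849d05_an.Sumset

set_option autoImplicit false
set_option linter.unusedSectionVars false

open scoped ComplexConjugate ComplexOrder ENNReal NNReal Topology
open Filter MeasureTheory

namespace Pool.Agent.P.MP_849d05_an.Ab

section sumset

variable {H : Type} [AddCommGroup H] [MeasurableSpace H] [MeasurableAdd₂ H] {N : AddSubgroup H}

/-- Two translates of `B`, different modulo `N`, meet inside countably many translates of `A`. -/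
def StepN (N : AddSubgroup H) (A B : Set H) : Prop :=
  ∀ c c', c - c' ∉ N → ∃ D : Set H, D.Countable ∧
    ∀ y, c + y ∈ B → c' + y ∈ B → ∃ d ∈ D, d + y ∈ A

/-- `B` is invariant under `N`. -/
def InvN (N : AddSubgroup H) (B : Set H) : Prop := ∀ n ∈ N, ∀ y ∈ B, n + y ∈ B

theorem InvN.subset {B : Set H} (h : InvN N B) {c c' : H} (hc : c - c' ∈ N) :
    {y | c' + y ∈ B} ⊆ {y | c + y ∈ B} := fun y hy => by
  have := h _ hc _ hy
  rwa [← add_assoc, sub_add_cancel] at this

theorem invN_self : InvN N N := fun _ hn _ hy => N.add_mem hn hy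

theorem stepN_empty : StepN N ∅ N := fun c c' h =>
  ⟨∅, Set.countable_empty, fun y h1 h2 => absurd (by simpa using N.sub_mem h1 h2) h⟩

theorem kills_countable {ρ : Measure H} [SFinite ρ] {A B : Set H} (h : Kills ρ A)
    (hB : MeasurableSet B) (hi : InvN N B) (hs : StepN N A B) :
    ∃ C : Set H, C.Countable ∧ ∀ c, 0 < ρ {y | c + y ∈ B} → ∃ c₀ ∈ C, c - c₀ ∈ N := by
  have h1 : {q : H ⧸ N | 0 < ρ {y | q.out + y ∈ B}}.Countable := by
    refine Measure.countable_meas_pos_of_disjoint_iUnion₀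
      (fun q => (measurableSet_tr hB q.out).nullMeasurableSet) fun q q' hne => ?_
    obtain ⟨D, hD, hsub⟩ := hs q.out q'.out fun hm => hne (by
      rw [← q.out_eq, ← q'.out_eq]
      exact QuotientAddGroup.eq_iff_sub_mem.2 hm)
    refine measure_mono_null (t := ⋃ d ∈ D, {y | d + y ∈ A}) ?_
      ((measure_biUnion_null_iff hD).2 fun d _ => h d)
    rintro y ⟨h1, h2⟩
    obtain ⟨d, hd, h3⟩ := hsub y h1 h2
    exact Set.mem_biUnion hd h3
  refine ⟨_, h1.image Quotient.out, fun c hc => ?_⟩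
  have h2 : (c : H ⧸ N).out - c ∈ N := QuotientAddGroup.eq_iff_sub_mem.1 (Quotient.out_eq _)
  exact ⟨_, ⟨(c : H ⧸ N), hc.trans_le (measure_mono (hi.subset h2)), rfl⟩,
    by simpa using N.neg_mem h2⟩

theorem kills_conv {ρ : Measure H} [SFinite ρ] {A B : Set H} (h : Kills ρ A)
    (hB : MeasurableSet B) (hi : InvN N B) (hs : StepN N A B) (τ : Measure H) [SFinite τ]
    (hτ : Kills τ N) : Kills (ρ ∗ τ) B := by
  intro c
  rw [conv_tr ρ τ hB]
  obtain ⟨C, hC, h1⟩ := kills_countable h hB hi hs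
  have h0 : τ (⋃ c₀ ∈ C, {z | (c - c₀) + z ∈ N}) = 0 :=
    (measure_biUnion_null_iff hC).2 fun c₀ _ => hτ _
  rw [← lintegral_zero (μ := τ)]
  refine lintegral_congr_ae ?_
  filter_upwards [measure_eq_zero_iff_ae_notMem.1 h0] with z hz
  by_contra hc
  obtain ⟨c₀, h2, h3⟩ := h1 _ (pos_iff_ne_zero.2 hc)
  exact hz (Set.mem_biUnion h2 (by rwa [Set.mem_ofPred_eq, sub_add_eq_add_sub]))

theorem kills_sumLaw (τ : Measure H) [IsFiniteMeasure τ] (hτ : Kills τ N) (E : ℕ → Set H)
    (hE : ∀ k, MeasurableSet (E k)) (hi : ∀ k, InvN N (E k)) (k : ℕ) :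
    ∀ (a : ℕ) (ρ : Measure H) [IsFiniteMeasure ρ], Kills ρ (E a) →
      (∀ j, j < a + k → StepN N (E j) (E (j + 1))) → Kills (ρ ∗ sumLaw τ k) (E (a + k)) := by
  induction k with
  | zero => intro a ρ _ h _; rw [sumLaw_zero, Measure.conv_dirac_zero]; exact h
  | succ k ih =>
    intro a ρ _ h hs
    rw [sumLaw_succ, ← Measure.conv_assoc]
    have := ih (a + 1) (ρ ∗ τ) (kills_conv h (hE _) (hi _) (hs a (by omega)) τ hτ)
      fun j hj => hs j (by omega)
    rwa [show a + 1 + k = a + (k + 1) by omega] at this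

theorem kills_compl (τ : Measure H) {C A : Set H} (hA : MeasurableSet A) (hi : InvN N A)
    (hC : ∀ c, 0 < τ {y | c + y ∈ A} → ∃ c₀ ∈ C, c - c₀ ∈ N) :
    Kills (τ.restrict (trUnion C A)ᶜ) A := by
  intro c
  rw [Measure.restrict_apply (measurableSet_tr hA c)]
  rcases eq_or_ne (τ {y | c + y ∈ A}) 0 with h0 | h0
  · exact measure_mono_null Set.inter_subset_left h0
  · obtain ⟨c₀, h1, h2⟩ := hC c (pos_iff_ne_zero.2 h0)
    have : {y | c + y ∈ A} ∩ (trUnion C A)ᶜ = ∅ :=
      Set.eq_empty_of_forall_notMem fun y hy => hy.2 (Set.mem_biUnion h1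
        (hi.subset (by simpa using N.neg_mem h2) hy.1))
    rw [this, measure_empty]

theorem kills_of_null {τ : Measure H} {C A : Set H} (hi : InvN N A)
    (hC : ∀ c, 0 < τ {y | c + y ∈ A} → ∃ c₀ ∈ C, c - c₀ ∈ N) (h0 : τ (trUnion C A) = 0) :
    Kills τ A := by
  intro c
  by_contra hc
  obtain ⟨c₀, h1, h2⟩ := hC c (pos_iff_ne_zero.2 hc)
  exact hc (measure_mono_null (fun y hy => Set.mem_biUnion h1
    (hi.subset (by simpa using N.neg_mem h2) hy)) h0)

end sumset

variable {Γ : Type} [AddCommGroup Γ] [Countable Γ]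

theorem exists_rep_aux {u : Γ → ℂ} (hu : u ∈ FSa Γ) :
    ∃ (ρ : Measure (Kd Γ)) (h : Kd Γ → ℂ), IsFiniteMeasure ρ ∧ Integrable h ρ ∧
      ∀ g, u g = ∫ x, chi g x * h x ∂ρ := by
  induction hu using Submodule.span_induction with
  | mem φ hφ =>
    obtain ⟨ρ, hρ, h⟩ := bochner hφ
    exact ⟨ρ, fun _ => 1, hρ, integrable_const _, fun g => by simpa using h g⟩
  | zero => exact ⟨0, 0, inferInstance, integrable_zero_measure, fun g => by simp⟩
  | add a b _ _ ha hb =>
    obtain ⟨ρ, h, hρ, hi, he⟩ := ha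
    obtain ⟨ρ', h', hρ', hi', he'⟩ := hb
    have a1 : ρ ≪ ρ + ρ' := Measure.AbsolutelyContinuous.rfl.add_right _
    have a2 : ρ' ≪ ρ + ρ' := Measure.AbsolutelyContinuous.rfl.add_right' _
    have : SigmaFinite (ρ + ρ') := IsFiniteMeasure.toSigmaFinite _
    have : SigmaFinite ρ := IsFiniteMeasure.toSigmaFinite _
    have : SigmaFinite ρ' := IsFiniteMeasure.toSigmaFinite _
    have i1 := (integrable_rnDeriv_smul_iff a1).2 hi
    have i2 := (integrable_rnDeriv_smul_iff a2).2 hi'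
    refine ⟨ρ + ρ', _, inferInstance, i1.add i2, fun g => ?_⟩
    have j1 : Integrable (fun x => chi g x * ((ρ.rnDeriv (ρ + ρ') x).toReal • h x)) (ρ + ρ') :=
      integrable_chi_mul measurable_id i1 g
    have j2 : Integrable (fun x => chi g x * ((ρ'.rnDeriv (ρ + ρ') x).toReal • h' x)) (ρ + ρ') :=
      integrable_chi_mul measurable_id i2 g
    simp only [Pi.add_apply, mul_add]
    rw [integral_add j1 j2, he, he', ← integral_rnDeriv_smul a1, ← integral_rnDeriv_smul a2]
    simp only [mul_smul_comm]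
  | smul c a _ ha =>
    obtain ⟨ρ, h, hρ, hi, he⟩ := ha
    refine ⟨ρ, fun x => c * h x, hρ, hi.const_mul c, fun g => ?_⟩
    rw [Pi.smul_apply, he, smul_eq_mul, ← integral_const_mul]
    refine integral_congr_ae (Eventually.of_forall fun x => ?_)
    simp only; ring

theorem exists_rep {u : Γ → ℂ} (hu : u ∈ FSa Γ) :
    ∃ (ρ : Measure (Kd Γ)) (h : Kd Γ → ℂ), IsFiniteMeasure ρ ∧ Integrable h ρ ∧
      (∀ᵐ x ∂ρ, h x ≠ 0) ∧ ∀ g, u g = ∫ x, chi g x * h x ∂ρ := by
  obtain ⟨ρ, h, hρ, hi, he⟩ := exists_rep_aux hu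
  have hm := hi.aestronglyMeasurable.stronglyMeasurable_mk.measurable
  have hae := hi.aestronglyMeasurable.ae_eq_mk
  set h' := hi.aestronglyMeasurable.mk h
  have hS : MeasurableSet {x | h' x ≠ 0} := (hm (measurableSet_singleton 0)).compl
  refine ⟨ρ.restrict {x | h' x ≠ 0}, h', inferInstance, (hi.congr hae).restrict,
    ae_restrict_mem hS, fun g => ?_⟩
  rw [setIntegral_eq_integral_of_forall_compl_eq_zero, he]
  · refine integral_congr_ae ?_
    filter_upwards [hae] with x hx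
    rw [hx]
  · intro x hx
    have : h' x = 0 := by simpa using hx
    simp [this]

variable {H : Type} [AddCommGroup H] [MeasurableSpace H] [MeasurableAdd₂ H] {N : AddSubgroup H}

theorem null_of_ae_eq (π : Kd Γ →+ H) (hπ : Measurable π) {ρ : Measure (Kd Γ)}
    [IsFiniteMeasure ρ] {h : Kd Γ → ℂ} (hi : Integrable h ρ) (hne : ∀ᵐ x ∂ρ, h x ≠ 0) (k : ℕ)
    {κ : Kd Γ → ℂ} (hκ : Integrable κ (haar Γ))
    (he : ∀ g, (∫ x, chi g x * h x ∂ρ) ^ (k + 1) = ∫ x, chi g x * κ x ∂(haar Γ))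
    {S T : Set H} (hS : MeasurableSet S) (hT : MeasurableSet T) (hT0 : (haar Γ).map π T = 0)
    (hae : ∀ᵐ y ∂(Measure.pi fun _ : Fin (k + 1) => ρ.map π), (∀ i, y i ∈ S) ↔ ∑ i, y i ∈ T) :
    ρ.map π S = 0 := by
  rw [Measure.map_apply hπ hT] at hT0
  rw [Measure.map_apply hπ hS]
  have hae' : ∀ᵐ y ∂(Measure.pi fun _ : Fin (k + 1) => ρ),
      (∀ i, π (y i) ∈ S) ↔ π (∑ i, y i) ∈ T := by
    have hmp := measurePreserving_pi (fun _ : Fin (k + 1) => ρ) (fun _ => ρ.map π)
      (f := fun _ => π) (fun _ => ⟨hπ, rfl⟩)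
    filter_upwards [hmp.quasiMeasurePreserving.ae hae] with y hy
    rw [map_sum]; exact hy
  have h0 : ∀ g₀, ∫ x, chi g₀ x * h x ∂(ρ.restrict (π ⁻¹' S)) = 0 := by
    intro g₀
    have hi' : Integrable (fun x => chi g₀ x * h x) ρ := integrable_chi_mul measurable_id hi g₀
    have hH : Integrable (fun y : Fin (k + 1) → Kd Γ => ∏ i, chi g₀ (y i) * h (y i))
        (Measure.pi fun _ => ρ) :=
      Integrable.fintype_prod (f := fun _ x => chi g₀ x * h x) fun _ => hi'
    have hu := uniq (P := Measure.pi fun _ : Fin (k + 1) => ρ) (P' := haar Γ)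
      (measurable_sum_fin (k + 1)) measurable_id hH (integrable_chi_mul measurable_id hκ g₀)
      (fun g => by
        have e1 := integral_fintype_prod_eq_pow (ι := Fin (k + 1)) (μ := ρ)
          (fun x => chi (g + g₀) x * h x)
        rw [Fintype.card_fin, he] at e1
        simp only [id, ← mul_assoc, ← chi_add_left]
        rw [← e1]
        refine integral_congr_ae (Eventually.of_forall fun y => ?_)
        simp only [chi_sum_right, ← Finset.prod_mul_distrib, chi_add_left, mul_assoc])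
      (π ⁻¹' T) (hπ hT)
    rw [Set.preimage_id, setIntegral_measure_zero _ hT0,
      ← integral_indicator (measurable_sum_fin (k + 1) (hπ hT))] at hu
    have e2 := integral_fintype_prod_eq_pow (ι := Fin (k + 1)) (μ := ρ)
      ((π ⁻¹' S).indicator fun x => chi g₀ x * h x)
    rw [Fintype.card_fin, integral_indicator (hπ hS)] at e2
    have e3 : (∫ x in π ⁻¹' S, chi g₀ x * h x ∂ρ) ^ (k + 1) = 0 := by
      rw [← e2, ← hu]
      refine integral_congr_ae ?_
      filter_upwards [hae'] with y hy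
      by_cases hy1 : ∀ i, π (y i) ∈ S
      · rw [Set.indicator_of_mem (by exact hy.1 hy1)]
        exact Finset.prod_congr rfl fun i _ => Set.indicator_of_mem (by exact hy1 i) _
      · rw [Set.indicator_of_notMem (by exact fun h => hy1 (hy.2 h))]
        push Not at hy1
        obtain ⟨i, hi⟩ := hy1
        exact Finset.prod_eq_zero (Finset.mem_univ i) (Set.indicator_of_notMem (by exact hi) _)
    exact pow_eq_zero_iff (Nat.succ_ne_zero k) |>.1 e3
  have h1 := ae_zero_of_chi hi.restrict h0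
  have h2 : ∀ᵐ x ∂(ρ.restrict (π ⁻¹' S)), False := by
    filter_upwards [h1, ae_restrict_of_ae hne] with x hx hx'
    exact hx' hx
  rw [eventually_false_iff_eq_bot, ae_eq_bot] at h2
  exact Measure.restrict_eq_zero.1 h2

theorem conv_haar (π : Kd Γ →+ H) (hπ : Measurable π) {B : Set H} (hB : MeasurableSet B) (c : H) :
    ((haar Γ).map π ∗ (haar Γ).map π) {y | c + y ∈ B} = (haar Γ).map π {y | c + y ∈ B} := by
  rw [← Measure.map_conv_addMonoidHom π hπ, Measure.map_apply hπ (measurableSet_tr hB c),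
    Measure.map_apply hπ (measurableSet_tr hB c)]
  have h := conv_tr (haar Γ) (haar Γ) (hπ (measurableSet_tr hB c)) 0
  simp only [zero_add, Set.ofPred_mem_eq] at h
  rw [h]
  refine (lintegral_congr fun z => measure_preimage_add (haar Γ) z _).trans ?_
  simp

theorem orth (π : Kd Γ →+ H) (hπ : Measurable π) (hm0 : Kills ((haar Γ).map π) N)
    {ρ : Measure (Kd Γ)} [IsFiniteMeasure ρ] {h : Kd Γ → ℂ} (hi : Integrable h ρ)
    (hne : ∀ᵐ x ∂ρ, h x ≠ 0) (k : ℕ) {κ : Kd Γ → ℂ} (hκ : Integrable κ (haar Γ))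
    (he : ∀ g, (∫ x, chi g x * h x ∂ρ) ^ (k + 1) = ∫ x, chi g x * κ x ∂(haar Γ))
    (E : ℕ → Set H) (hE : ∀ j, MeasurableSet (E j)) (hI : ∀ j, InvN N (E j)) (hE0 : E 0 = N)
    (hstep : ∀ j, j < k + 1 → StepN N (E j) (E (j + 1)))
    (hsum : ∀ y : Fin (k + 1) → H, (∀ i, y i ∈ E 1) → ∑ i, y i ∈ E (k + 1)) :
    ρ (π ⁻¹' E 1) = 0 := by
  have hN : MeasurableSet (N : Set H) := hE0 ▸ hE 0
  have hmj : ∀ j, j ≤ k + 1 → Kills ((haar Γ).map π) (E j) := by
    intro j
    induction j with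
    | zero => intro _; rw [hE0]; exact hm0
    | succ j ih =>
      intro hj c
      rw [← conv_haar π hπ (hE _)]
      exact kills_conv (ih (by omega)) (hE _) (hI _) (hstep j (by omega)) _ hm0 c
  obtain ⟨C0, hC0, hc0⟩ := kills_countable (kills_empty (ρ.map π)) hN invN_self stepN_empty
  obtain ⟨D0, hD0, hae0⟩ := ae_eq_sum (ρ.map π) k (A := N) (B := N) hC0 hN
    (fun y hy => N.sum_mem fun i _ => hy i) ((kills_compl _ hN invN_self hc0).conv_any hN _)
  have hk0 : Kills (ρ.map π) N := kills_of_null invN_self hc0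
    (null_of_ae_eq π hπ hi hne k hκ he (measurableSet_trUnion hC0 hN)
      (measurableSet_trUnion hD0 hN) (hm0.trUnion hD0) hae0)
  obtain ⟨C1, hC1, hc1⟩ := kills_countable hk0 (hE 1) (hI 1) (hE0 ▸ hstep 0 (by omega))
  have hk1 := kills_sumLaw (ρ.map π) hk0 E hE hI k 1 _
    (kills_compl (ρ.map π) (hE 1) (hI 1) hc1) (fun j hj => hstep j (by omega))
  rw [add_comm 1 k] at hk1
  obtain ⟨D1, hD1, hae1⟩ := ae_eq_sum (ρ.map π) k hC1 (hE (k + 1)) hsum hk1
  have hk2 := kills_of_null (hI 1) hc1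
    (null_of_ae_eq π hπ hi hne k hκ he (measurableSet_trUnion hC1 (hE 1))
      (measurableSet_trUnion hD1 (hE (k + 1))) ((hmj _ le_rfl).trUnion hD1) hae1) 0
  simp only [zero_add, Set.ofPred_mem_eq] at hk2
  rwa [Measure.map_apply hπ (hE 1)] at hk2

end Pool.Agent.P.MP_849d05_an.Ab
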