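import Pool.Agent.P.MP_849d05_an.AbDual

set_option autoImplicit false
set_option linter.unusedSectionVars false

open scoped ComplexConjugate ComplexOrder ENNReal NNReal Topology InnerProductSpace
open Filter MeasureTheory

namespace Pool.Agent.P.MP_849d05_an.Ab

variable {Γ : Type} [AddCommGroup Γ]

/-- Positive definite functions on the additive group `Γ`. -/
def PD (φ : Γ → ℂ) : Prop :=
  ∀ (s : Finset Γ) (c : Γ → ℂ), 0 ≤ ∑ g ∈ s, ∑ h ∈ s, conj (c g) * c h * φ (-g + h)

theorem normSq_trig {ι : Type} (s : Finset ι) (g : ι → Γ) (c : ι → ℂ) (x : Kd Γ) :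
    ((‖∑ i ∈ s, c i * chi (g i) x‖ ^ 2 : ℝ) : ℂ) =
      ∑ i ∈ s, ∑ j ∈ s, conj (c i) * c j * chi (-g i + g j) x := by
  push_cast
  rw [← Complex.conj_mul', map_sum, Finset.sum_mul_sum]
  refine Finset.sum_congr rfl fun i _ => Finset.sum_congr rfl fun j _ => ?_
  rw [map_mul, chi_add_left, chi_neg_left]
  ring

variable [Countable Γ]

theorem integral_withDensity_re {Y : Type} [MeasurableSpace Y] {P : Measure Y} {w : Y → ℝ}
    (hw : AEMeasurable w P) (h0 : ∀ y, 0 ≤ w y) (ψ : Y → ℂ) :
    ∫ y, ψ y ∂(P.withDensity fun y => ENNReal.ofReal (w y)) = ∫ y, ψ y * w y ∂P := by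
  rw [integral_withDensity_eq_integral_toReal_smul₀ hw.ennreal_ofReal
    (Eventually.of_forall fun _ => ENNReal.ofReal_lt_top)]
  refine integral_congr_ae (Eventually.of_forall fun y => ?_)
  simp only [ENNReal.toReal_ofReal (h0 y), Complex.real_smul]
  ring

theorem integral_sum_sum {ι : Type} (μ : Measure (Kd Γ)) [IsFiniteMeasure μ] (s : Finset ι)
    (c : ι → ι → ℂ) (g : ι → ι → Γ) :
    ∫ x, ∑ i ∈ s, ∑ j ∈ s, c i j * chi (g i j) x ∂μ =
      ∑ i ∈ s, ∑ j ∈ s, c i j * ∫ x, chi (g i j) x ∂μ := by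
  rw [integral_finsetSum _ fun i _ => integrable_finsetSum _ fun j _ =>
    (integrable_chi _ μ).const_mul _]
  refine Finset.sum_congr rfl fun i _ => ?_
  rw [integral_finsetSum _ fun j _ => (integrable_chi _ μ).const_mul _]
  simp_rw [integral_const_mul]

/-- Trigonometric approximate identities. -/
theorem exists_kernel (s : Finset Γ) {ε : ℝ} (hε : 0 < ε) :
    ∃ (F : Finset Γ) (a : Γ → ℂ), ∫ x, ‖trig F a x‖ ^ 2 ∂(haar Γ) = 1 ∧
      ∀ g ∈ s, ‖∫ x, chi g x * ((‖trig F a x‖ ^ 2 : ℝ) : ℂ) ∂(haar Γ) - 1‖ ≤ 2 * ε := by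
  let u : Kd Γ → ℝ := fun x => max 0 (1 - (∑ g ∈ s, ‖chi g x - 1‖) / ε)
  have hu : Continuous u := continuous_const.max (continuous_const.sub
    ((continuous_finsetSum _ fun g _ => ((continuous_chi g).sub continuous_const).norm).div_const _))
  have hO : IsOpen {x | 1 / 2 < u x} := isOpen_lt continuous_const hu
  have hm : 0 < (haar Γ).real {x | 1 / 2 < u x} :=
    ENNReal.toReal_pos (hO.measure_ne_zero _ ⟨0, by simp [u]; norm_num⟩) (measure_ne_top _ _)
  set m := (haar Γ).real {x | 1 / 2 < u x}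
  obtain ⟨η, hη0, hη1, hη2⟩ : ∃ η : ℝ, 0 < η ∧ η ≤ 1 / 4 ∧ η ≤ ε * m / 8 :=
    ⟨min (1 / 4) (ε * m / 8), by positivity, min_le_left _ _, min_le_right _ _⟩
  obtain ⟨a, ha⟩ := exists_trig ⟨fun x => (u x : ℂ), Complex.continuous_ofReal.comp hu⟩ hη0
  replace ha : ∀ x, ‖trig a.support a x - (u x : ℂ)‖ ≤ η := ha
  have hc : Continuous fun x => ‖trig a.support a x‖ ^ 2 := (trig a.support a).continuous.norm.pow 2
  set Z := ∫ x, ‖trig a.support a x‖ ^ 2 ∂(haar Γ) with hZ
  have hZ1 : m / 16 ≤ Z := by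
    have h1 := setIntegral_ge_of_const_le_real (μ := haar Γ) (c := 1 / 16)
      (f := fun x => ‖trig a.support a x‖ ^ 2) hO.measurableSet (measure_ne_top _ _)
      (fun x hx => by
        have h2 := norm_sub_norm_le ((u x : ℝ) : ℂ) (trig a.support a x)
        rw [norm_sub_rev, Complex.norm_real, Real.norm_of_nonneg (le_max_left _ _)] at h2
        have h3 := ha x
        have h4 : 1 / 2 < u x := hx
        have h5 : 1 / 4 ≤ ‖trig a.support a x‖ := by
          change u x - _ ≤ _ at h2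
          linarith
        nlinarith) (integrable_cts hc _).integrableOn
    have h2 := setIntegral_le_integral (μ := haar Γ) (s := {x | 1 / 2 < u x})
      (integrable_cts hc _) (Eventually.of_forall fun x => by positivity)
    change 1 / 16 * m ≤ _ at h1
    linarith
  have hZ0 : 0 < Z := by linarith
  have hs : ∀ x, ‖trig a.support (fun g => ((√Z : ℝ) : ℂ)⁻¹ * a g) x‖ ^ 2 =
      Z⁻¹ * ‖trig a.support a x‖ ^ 2 := by
    intro x
    simp only [trig, ContinuousMap.coe_mk, mul_assoc, ← Finset.mul_sum, norm_mul, norm_inv,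
      Complex.norm_real, mul_pow, inv_pow, Real.norm_eq_abs, sq_abs, Real.sq_sqrt hZ0.le]
  refine ⟨a.support, fun g => ((√Z : ℝ) : ℂ)⁻¹ * a g, ?_, fun g hg => ?_⟩
  · simp only [hs]
    rw [integral_const_mul, inv_mul_cancel₀ hZ0.ne']
  · simp only [hs]
    have hc' : Continuous fun x => ((Z⁻¹ * ‖trig a.support a x‖ ^ 2 : ℝ) : ℂ) :=
      Complex.continuous_ofReal.comp (hc.const_mul _)
    have e : (1 : ℂ) = ∫ x, ((Z⁻¹ * ‖trig a.support a x‖ ^ 2 : ℝ) : ℂ) ∂(haar Γ) := by
      rw [integral_complex_ofReal, integral_const_mul, inv_mul_cancel₀ hZ0.ne', Complex.ofReal_one]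
    have hc2 : Continuous fun x => chi g x * ((Z⁻¹ * ‖trig a.support a x‖ ^ 2 : ℝ) : ℂ) :=
      (continuous_chi g).mul hc'
    rw [e, ← integral_sub (integrable_cts hc2 _) (integrable_cts hc' _)]
    have hb : ∀ x, ‖chi g x * ((Z⁻¹ * ‖trig a.support a x‖ ^ 2 : ℝ) : ℂ) -
        ((Z⁻¹ * ‖trig a.support a x‖ ^ 2 : ℝ) : ℂ)‖ ≤
        Z⁻¹ * (ε * ‖trig a.support a x‖ ^ 2 + 2 * η ^ 2) := by
      intro x
      rw [← sub_one_mul, norm_mul, Complex.norm_real, Real.norm_of_nonneg (by positivity),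
        mul_left_comm]
      refine mul_le_mul_of_nonneg_left ?_ (by positivity)
      by_cases h1 : ‖chi g x - 1‖ ≤ ε
      · have := mul_le_mul_of_nonneg_right h1 (sq_nonneg ‖trig a.support a x‖)
        nlinarith [sq_nonneg η]
      · have h2 : u x = 0 := by
          refine max_eq_left ?_
          have := Finset.single_le_sum (f := fun g => ‖chi g x - 1‖) (fun _ _ => norm_nonneg _) hg
          rw [sub_nonpos, le_div_iff₀ hε]
          linarith
        have h3 := ha x
        rw [h2, Complex.ofReal_zero, sub_zero] at h3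
        have h4 : ‖chi g x - 1‖ ≤ 2 := (norm_sub_le _ _).trans (by rw [norm_chi]; norm_num)
        have h5 := pow_le_pow_left₀ (norm_nonneg _) h3 2
        have h6 := mul_le_mul h4 h5 (by positivity) (by norm_num)
        have h7 : 0 ≤ ε * ‖trig a.support a x‖ ^ 2 := by positivity
        linarith
    refine (norm_integral_le_of_norm_le (integrable_cts
      (((hc.const_mul ε).add continuous_const).const_mul Z⁻¹) _) (Eventually.of_forall hb)).trans ?_
    rw [integral_const_mul]
    simp only [Pi.add_apply]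
    rw [integral_add (integrable_cts (hc.const_mul ε) _) (integrable_const _), integral_const_mul,
      ← hZ, integral_const, probReal_univ, one_smul, inv_mul_le_iff₀ hZ0]
    have h8 : η ^ 2 ≤ 1 / 4 * (ε * m / 8) := by
      rw [sq]
      exact mul_le_mul hη1 hη2 hη0.le (by norm_num)
    have h9 := mul_le_mul_of_nonneg_left hZ1 hε.le
    nlinarith

theorem bochner {φ : Γ → ℂ} (hφ : PD φ) :
    ∃ ρ : Measure (Kd Γ), IsFiniteMeasure ρ ∧ ∀ g, φ g = ∫ x, chi g x ∂ρ := by
  classical
  have hk : ∀ p : Finset Γ × ℕ, _ := fun p =>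
    exists_kernel (p.1.image fun g => -g) (ε := 1 / ((p.2 : ℝ) + 1)) (by positivity)
  choose F a h1 h2 using hk
  let d : Finset Γ × ℕ → Kd Γ → ℂ := fun p x => ∑ u ∈ F p, ∑ v ∈ F p,
    conj (a p u) * a p v * φ (-u + v) * chi (-(-u + v)) x
  have hd0 : ∀ p x, 0 ≤ d p x := fun p x => by
    refine (hφ (F p) fun u => a p u * chi (-u) x).trans_eq ?_
    refine Finset.sum_congr rfl fun u _ => Finset.sum_congr rfl fun v _ => ?_
    simp only [neg_add, chi_add_left, chi_neg_left, map_mul]
    ring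
  have hdc : ∀ p, Continuous (d p) := fun p => continuous_finsetSum _ fun u _ =>
    continuous_finsetSum _ fun v _ => (continuous_chi _).const_mul _
  have hre : ∀ p x, (((d p x).re : ℝ) : ℂ) = d p x := fun p x =>
    Complex.ext (by simp) (by simpa using (Complex.nonneg_iff.1 (hd0 p x)).2)
  let μ : Finset Γ × ℕ → Measure (Kd Γ) := fun p =>
    (haar Γ).withDensity fun x => ENNReal.ofReal (d p x).re
  have hμ : ∀ p g, ∫ x, chi g x ∂(μ p) =
      φ g * ∫ x, chi (-g) x * ((‖trig (F p) (a p) x‖ ^ 2 : ℝ) : ℂ) ∂(haar Γ) := by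
    intro p g
    rw [integral_withDensity_re (w := fun x => (d p x).re)
      (Complex.continuous_re.comp (hdc p)).measurable.aemeasurable
      (fun x => (Complex.nonneg_iff.1 (hd0 p x)).1)]
    simp only [hre, trig, ContinuousMap.coe_mk, normSq_trig (F p) (fun g => g) (a p), d,
      Finset.mul_sum, mul_left_comm (chi _ _), ← chi_add_left]
    rw [integral_sum_sum, integral_sum_sum]
    simp only [Finset.mul_sum, integral_chi_haar]
    refine Finset.sum_congr rfl fun u _ => Finset.sum_congr rfl fun v _ => ?_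
    by_cases h : -u + v = g
    · simp [h, mul_comm]
    · rw [if_neg fun h' => h (add_neg_eq_zero.1 h').symm,
        if_neg fun h' => h (neg_add_eq_zero.1 h').symm]
      simp
  have hfin : ∀ p, IsFiniteMeasure (μ p) := fun p =>
    isFiniteMeasure_withDensity_ofReal (integrable_cts (Complex.continuous_re.comp (hdc p)) _).2
  obtain ⟨ρ, hρ, h3⟩ := exists_limit atTop μ (φ 0).re.toNNReal fun p => by
    have h := hμ p 0
    simp only [neg_zero, chi_zero_left, one_mul, integral_complex_ofReal, h1, integral_const,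
      Complex.real_smul, mul_one, Complex.ofReal_one] at h
    rw [← h, Complex.ofReal_re]
    exact (ofReal_measureReal (measure_ne_top _ _)).ge
  refine ⟨ρ, hρ, fun g => (h3 _ _ (continuous_chi g) ?_).symm⟩
  simp only [hμ]
  have h4 : Tendsto (fun p : Finset Γ × ℕ =>
      ∫ x, chi (-g) x * ((‖trig (F p) (a p) x‖ ^ 2 : ℝ) : ℂ) ∂(haar Γ)) atTop (𝓝 1) := by
    rw [tendsto_iff_norm_sub_tendsto_zero]
    have h5 : Tendsto (fun p : Finset Γ × ℕ => 2 * (1 / ((p.2 : ℝ) + 1))) atTop (𝓝 (2 * 0)) := by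
      refine (tendsto_one_div_add_atTop_nhds_zero_nat.comp ?_).const_mul 2
      rw [← prod_atTop_atTop_eq]
      exact tendsto_snd
    rw [mul_zero] at h5
    refine squeeze_zero' (Eventually.of_forall fun _ => norm_nonneg _) ?_ h5
    filter_upwards [eventually_ge_atTop (({g}, 0) : Finset Γ × ℕ)] with p hp
    exact h2 p _ (Finset.mem_image_of_mem _ (hp.1 (Finset.mem_singleton_self g)))
  simpa using h4.const_mul (φ g)

theorem ft_sq (ρ : Measure (Kd Γ)) [IsFiniteMeasure ρ] {ι : Type} (s : Finset ι)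
    (g : ι → Γ) (c : ι → ℂ) :
    ∑ i ∈ s, ∑ j ∈ s, conj (c i) * c j * ∫ x, chi (-g i + g j) x ∂ρ
      = ((∫ x, ‖∑ i ∈ s, c i * chi (g i) x‖ ^ 2 ∂ρ : ℝ) : ℂ) := by
  rw [← integral_complex_ofReal, ← integral_sum_sum]
  simp only [normSq_trig]

theorem PD.of_measure (ρ : Measure (Kd Γ)) [IsFiniteMeasure ρ] :
    PD (fun g => ∫ x, chi g x ∂ρ) := by
  intro s c
  rw [ft_sq ρ s (fun g => g) c]
  exact_mod_cast integral_nonneg fun x => by positivity

theorem PD.of_integral {Y : Type} [MeasurableSpace Y] (P : Measure Y) {s : Y → Kd Γ}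
    (hs : Measurable s) {w : Y → ℝ} (hw : Integrable w P) (h0 : ∀ y, 0 ≤ w y) :
    PD (fun g => ∫ y, chi g (s y) * w y ∂P) := by
  have := isFiniteMeasure_withDensity_ofReal hw.2
  have h := PD.of_measure ((P.withDensity fun y => ENNReal.ofReal (w y)).map s)
  have e : (fun g => ∫ y, chi g (s y) * w y ∂P) = fun g =>
      ∫ x, chi g x ∂((P.withDensity fun y => ENNReal.ofReal (w y)).map s) := funext fun g => by
    rw [integral_map hs.aemeasurable (measurable_chi g).aestronglyMeasurable,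
      integral_withDensity_re hw.aemeasurable h0]
  rwa [e]

theorem PD.norm_le {φ : Γ → ℂ} (hφ : PD φ) (g : Γ) : ‖φ g‖ ≤ (φ 0).re := by
  obtain ⟨ρ, hρ, h⟩ := bochner hφ
  rw [h g, h 0]
  simp only [chi_zero_left, integral_const, Complex.real_smul, mul_one, Complex.ofReal_re]
  exact (norm_integral_le_of_norm_le_const (C := 1)
    (Eventually.of_forall fun x => (norm_chi g x).le)).trans (by simp)

theorem PD.re_zero_nonneg {φ : Γ → ℂ} (hφ : PD φ) : 0 ≤ (φ 0).re :=
  (norm_nonneg _).trans (hφ.norm_le 0)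

theorem PD.im_zero {φ : Γ → ℂ} (hφ : PD φ) : (φ 0).im = 0 := by
  have := hφ {0} fun _ => 1
  simp only [Finset.sum_singleton, map_one, one_mul, neg_zero, add_zero] at this
  exact (Complex.nonneg_iff.1 this).2.symm

theorem PD.add {φ ψ : Γ → ℂ} (hφ : PD φ) (hψ : PD ψ) : PD (φ + ψ) := by
  intro s c
  have := add_nonneg (hφ s c) (hψ s c)
  simpa only [Pi.add_apply, mul_add, Finset.sum_add_distrib] using this

theorem PD.smul {φ : Γ → ℂ} (hφ : PD φ) {t : ℝ} (ht : 0 ≤ t) :
    PD (fun g => (t : ℂ) * φ g) := by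
  intro s c
  refine (mul_nonneg (show (0 : ℂ) ≤ t by exact_mod_cast ht) (hφ s c)).trans_eq ?_
  simp only [Finset.mul_sum]
  exact Finset.sum_congr rfl fun _ _ => Finset.sum_congr rfl fun _ _ => by ring

theorem PD.zero : PD (0 : Γ → ℂ) := by
  intro s c
  simp

theorem PD.one : PD (1 : Γ → ℂ) := by
  intro s c
  simp only [Pi.one_apply, mul_one]
  rw [← Finset.sum_mul_sum, ← map_sum, Complex.conj_mul']
  positivity

/-- An average of positive definite functions is positive definite. -/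
theorem PD.integral {Y : Type} [MeasurableSpace Y] (P : Measure Y) {φ : Y → Γ → ℂ}
    (hφ : ∀ y, PD (φ y)) (hi : ∀ g, Integrable (fun y => φ y g) P) :
    PD (fun g => ∫ y, φ y g ∂P) := by
  intro s c
  simp only [← integral_const_mul]
  rw [Finset.sum_congr rfl fun g _ => (integral_finsetSum s fun h _ => (hi _).const_mul _).symm,
    ← integral_finsetSum s fun g _ => integrable_finsetSum s fun h _ => (hi _).const_mul _]
  exact integral_nonneg fun y => hφ y s c

theorem PD.mul {φ ψ : Γ → ℂ} (hφ : PD φ) (hψ : PD ψ) : PD (φ * ψ) := by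
  obtain ⟨ρ, hρ, h⟩ := bochner hφ
  have e : φ * ψ = fun g => ∫ x, chi g x * ψ g ∂ρ := funext fun g => by
    rw [integral_mul_const, ← h, Pi.mul_apply]
  rw [e]
  refine PD.integral ρ (φ := fun x g => chi g x * ψ g) (fun x s c => ?_)
    fun g => (integrable_chi g ρ).mul_const _
  refine (hψ s fun g => c g * chi g x).trans_eq ?_
  refine Finset.sum_congr rfl fun _ _ => Finset.sum_congr rfl fun _ _ => ?_
  simp only [map_mul, chi_add_left, chi_neg_left]
  ring

theorem PD.prod {ι : Type} (s : Finset ι) {φ : ι → Γ → ℂ} (hφ : ∀ i ∈ s, PD (φ i)) :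
    PD (fun g => ∏ i ∈ s, φ i g) := by
  classical
  induction s using Finset.induction_on with
  | empty => simp only [Finset.prod_empty]; exact PD.one
  | insert a s ha ih =>
    simp only [Finset.prod_insert ha]
    exact (hφ a (Finset.mem_insert_self _ _)).mul
      (ih fun i hi => hφ i (Finset.mem_insert_of_mem hi))

theorem PD.sum {ι : Type} (s : Finset ι) {φ : ι → Γ → ℂ} (hφ : ∀ i ∈ s, PD (φ i)) :
    PD (fun g => ∑ i ∈ s, φ i g) := by
  classical
  induction s using Finset.induction_on with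
  | empty => simp only [Finset.sum_empty]; exact PD.zero
  | insert a s ha ih =>
    simp only [Finset.sum_insert ha]
    exact (hφ a (Finset.mem_insert_self _ _)).add
      (ih fun i hi => hφ i (Finset.mem_insert_of_mem hi))

theorem PD.of_tendsto {ι : Type} {l : Filter ι} [l.NeBot] {φ : ι → Γ → ℂ} {ψ : Γ → ℂ}
    (hφ : ∀ᶠ i in l, PD (φ i)) (h : ∀ g, Tendsto (fun i => φ i g) l (𝓝 (ψ g))) : PD ψ := by
  intro s c
  refine ge_of_tendsto (x := l)
    (f := fun i => ∑ g ∈ s, ∑ k ∈ s, conj (c g) * c k * φ i (-g + k)) ?_ ?_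
  · exact tendsto_finsetSum _ fun g _ => tendsto_finsetSum _ fun k _ => (h _).const_mul _
  · filter_upwards [hφ] with i hi using hi s c

noncomputable def chiL (g : Γ) : Lp ℂ 2 (haar Γ) := ContinuousMap.toLp 2 (haar Γ) ℂ (chiC g)

theorem chiL_ae (g : Γ) : chiL g =ᵐ[haar Γ] chi g :=
  ContinuousMap.coeFn_toLp (p := 2) (𝕜 := ℂ) (haar Γ) (chiC g)

theorem orthonormal_chiL : Orthonormal ℂ (chiL (Γ := Γ)) := by
  classical
  rw [orthonormal_iff_ite]
  intro g h
  unfold chiL
  rw [ContinuousMap.inner_toLp]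
  simp only [chiC, ContinuousMap.coe_mk, ← chi_neg_left, ← chi_add_left, integral_chi_haar,
    add_neg_eq_zero, eq_comm]

noncomputable def planch : lp (fun _ : Γ => ℂ) 2 →ₗᵢ[ℂ] Lp ℂ 2 (haar Γ) :=
  (orthonormal_chiL (Γ := Γ)).orthogonalFamily.linearIsometry

theorem hasSum_planch (ξ : lp (fun _ : Γ => ℂ) 2) :
    HasSum (fun h => ξ h • chiL h) (planch ξ) := by
  have := (orthonormal_chiL (Γ := Γ)).orthogonalFamily.hasSum_linearIsometry ξ
  simp only [LinearIsometry.toSpanSingleton_apply] at this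
  exact this

theorem inner_planch_chiL (η : lp (fun _ : Γ => ℂ) 2) (k : Γ) :
    ⟪planch η, chiL k⟫_ℂ = conj (η k) := by
  classical
  have h1 : planch (lp.single 2 k (1 : ℂ)) = chiL k := by
    unfold planch
    rw [OrthogonalFamily.linearIsometry_apply_single]
    simp
  rw [← h1, LinearIsometry.inner_map_map, lp.inner_single_right]
  simp

theorem integral_norm_sq_L2 (X : Lp ℂ 2 (haar Γ)) : ∫ x, ‖X x‖ ^ 2 ∂(haar Γ) = ‖X‖ ^ 2 := by
  have h := L2.inner_def (𝕜 := ℂ) X X
  simp only [inner_self_eq_norm_sq_to_K] at h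
  apply Complex.ofReal_injective
  rw [← integral_complex_ofReal]
  push_cast
  exact h.symm

theorem plancherel (ξ η : lp (fun _ : Γ => ℂ) 2) :
    ∃ k : Kd Γ → ℂ, Integrable k (haar Γ) ∧
      (∀ t : ℝ, 0 < t → ∫ x, ‖k x‖ ∂(haar Γ) ≤ (t * ‖ξ‖ ^ 2 + ‖η‖ ^ 2 / t) / 2) ∧
      ∀ g, ∑' h, ξ (-g + h) * conj (η h) = ∫ x, chi g x * k x ∂(haar Γ) := by
  have hint : Integrable (fun x => planch ξ x * conj (planch η x)) (haar Γ) := by
    have := L2.integrable_inner (𝕜 := ℂ) (planch η) (planch ξ)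
    simpa using this
  refine ⟨fun x => planch ξ x * conj (planch η x), hint, fun t ht => ?_, fun g => ?_⟩
  · have h1 := integral_norm_sq_L2 (planch ξ)
    have h2 := integral_norm_sq_L2 (planch η)
    rw [LinearIsometry.norm_map] at h1 h2
    have i1 : Integrable (fun x => ‖planch ξ x‖ ^ 2) (haar Γ) :=
      (Lp.memLp (planch ξ)).integrable_norm_pow (by norm_num)
    have i2 : Integrable (fun x => ‖planch η x‖ ^ 2) (haar Γ) :=
      (Lp.memLp (planch η)).integrable_norm_pow (by norm_num)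
    rw [← h1, ← h2, ← integral_const_mul, ← integral_div, ← integral_add (i1.const_mul _)
      (i2.div_const _), ← integral_div]
    refine integral_mono hint.norm (((i1.const_mul _).add (i2.div_const _)).div_const _)
      fun x => ?_
    simp only [norm_mul, RCLike.norm_conj]
    set a := ‖planch ξ x‖
    set b := ‖planch η x‖
    have : 0 ≤ (t * a - b) ^ 2 / t := by positivity
    have e : (t * a - b) ^ 2 / t = t * a ^ 2 + b ^ 2 / t - 2 * (a * b) := by
      field_simp; ring
    linarith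
  · have hm : MemLp (fun x => chi (-g) x * planch η x) 2 (haar Γ) := by
      refine (Lp.memLp (planch η)).of_le
        ((measurable_chi (-g)).aestronglyMeasurable.mul (Lp.aestronglyMeasurable _))
        (Eventually.of_forall fun x => ?_)
      simp [norm_chi]
    have h1 : ⟪hm.toLp _, planch ξ⟫_ℂ
        = ∫ x, chi g x * (planch ξ x * conj (planch η x)) ∂(haar Γ) := by
      rw [L2.inner_def]
      refine integral_congr_ae ?_
      filter_upwards [hm.coeFn_toLp] with x hx
      rw [hx]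
      simp only [RCLike.inner_apply, map_mul, chi_neg_left, Complex.conj_conj]
      ring
    have h2 : ∀ h, ⟪hm.toLp _, chiL h⟫_ℂ = conj (η (g + h)) := by
      intro h
      rw [← inner_planch_chiL, L2.inner_def, L2.inner_def]
      refine integral_congr_ae ?_
      filter_upwards [hm.coeFn_toLp, chiL_ae h, chiL_ae (g + h)] with x hx h1 h2
      rw [hx, h1, h2]
      simp only [RCLike.inner_apply, map_mul, chi_neg_left, Complex.conj_conj, chi_add_left]
      ring
    have h3 := (hasSum_planch ξ).mapL (innerSL ℂ (hm.toLp _))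
    simp only [innerSL_apply_apply, inner_smul_right, h2, h1] at h3
    rw [← h3.tsum_eq, ← (Equiv.addLeft g).tsum_eq]
    refine tsum_congr fun h => ?_
    simp only [Equiv.coe_addLeft]
    rw [neg_add_cancel_left]

end Pool.Agent.P.MP_849d05_an.Ab
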