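import Pool.Agent.P.MP_849d05_an.AbRiesz

set_option autoImplicit false
set_option linter.unusedSectionVars false

open scoped ComplexConjugate
open Finset MeasureTheory Filter ProbabilityTheory

namespace Pool.Agent.P.MP_849d05_an.Ab

/-- The probability of a class. -/
noncomputable def pw (j : ℕ) : ℝ := ((j : ℝ) + 2)⁻¹

theorem pw_pos (j : ℕ) : 0 < pw j := by unfold pw; positivity

theorem pw_le_one (j : ℕ) : pw j ≤ 1 :=
  inv_le_one_of_one_le₀ (by linarith [(Nat.cast_nonneg j : (0 : ℝ) ≤ j)])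

theorem pw_anti {i j : ℕ} (h : i ≤ j) : pw j ≤ pw i :=
  inv_anti₀ (by positivity) (by linarith [(Nat.cast_le.2 h : (i : ℝ) ≤ j)])

theorem sum_pw_sq (n : ℕ) : ∑ j ∈ range n, pw j ^ 2 ≤ 1 - ((n : ℝ) + 1)⁻¹ := by
  induction n with
  | zero => simp
  | succ n ih =>
    have e : ((n : ℝ) + 1)⁻¹ - ((n : ℝ) + 1 + 1)⁻¹ = ((n : ℝ) + 1)⁻¹ * pw n := by
      unfold pw
      field_simp
      ring
    have h : pw n ≤ ((n : ℝ) + 1)⁻¹ := inv_anti₀ (by positivity) (by linarith)
    rw [sum_range_succ]
    push_cast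
    nlinarith [pw_pos n]

theorem sum_pw_pow (J m n : ℕ) : ∑ j ∈ range n, pw (J + j) ^ (m + 2) ≤ pw J ^ m := by
  refine (sum_le_sum (g := fun j => pw J ^ m * pw j ^ 2) fun j _ => ?_).trans ?_
  · rw [pow_add]
    exact mul_le_mul (pow_le_pow_left₀ (pw_pos _).le (pw_anti (by omega)) _)
      (pow_le_pow_left₀ (pw_pos _).le (pw_anti (by omega)) _) (sq_nonneg _)
      (pow_nonneg (pw_pos _).le _)
  · rw [← mul_sum]
    exact mul_le_of_le_one_right (pow_nonneg (pw_pos _).le _)
      ((sum_pw_sq n).trans (sub_le_self _ (by positivity)))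

theorem prod_one_sub_pw (a n : ℕ) :
    ∏ j ∈ Ico a (a + n), (1 - pw j) = ((a : ℝ) + 1) / (a + n + 1) := by
  induction n with
  | zero => rw [add_zero, Ico_self, prod_empty, Nat.cast_zero, add_zero, div_self (by positivity)]
  | succ n ih =>
    rw [← add_assoc, prod_Ico_succ_top (by omega), ih, pw]
    push_cast
    field_simp
    ring

/-- The law of one class. -/
noncomputable def ber (j : ℕ) : Measure Bool :=
  bernoulliMeasure true false ⟨pw j, (pw_pos j).le, pw_le_one j⟩

instance (j : ℕ) : IsProbabilityMeasure (ber j) := by unfold ber; infer_instance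

/-- The law of the set of chosen classes. -/
noncomputable def PS : Measure (ℕ → Bool) := Measure.infinitePi ber

instance : IsProbabilityMeasure PS := by unfold PS; infer_instance

theorem PS_true (j : ℕ) : PS {S | S j = true} = ENNReal.ofReal (pw j) := by
  have h := (measurePreserving_eval_infinitePi ber j).measure_preimage
    (s := {true}) (measurableSet_singleton _).nullMeasurableSet
  refine h.trans ?_
  rw [← ofReal_measureReal (measure_ne_top _ _), ber,
    bernoulliMeasure_real_apply_of_mem_of_notMem _ (measurableSet_singleton _) rfl (by simp)]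

theorem PS_false (a n : ℕ) :
    PS.real {S | ∀ j ∈ Ico a (a + n), S j = false} = ((a : ℝ) + 1) / (a + n + 1) := by
  have h := Measure.infinitePi_pi ber (s := Ico a (a + n)) (t := fun _ => {false})
    fun _ _ => measurableSet_singleton _
  rw [← prod_one_sub_pw]
  refine (congrArg ENNReal.toReal h).trans ((ENNReal.toReal_prod _ _).trans
    (prod_congr rfl fun j _ => ?_))
  exact bernoulliMeasure_real_apply_of_notMem_of_mem _ (measurableSet_singleton _) (by simp) rfl

/-- The tuples that all choose some late class. -/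
def Bad (J m : ℕ) : Set (Fin m → ℕ → Bool) := ⋃ n, Set.univ.pi fun _ => {S | S (J + n) = true}

theorem measurableSet_Bad (J m : ℕ) : MeasurableSet (Bad J m) :=
  MeasurableSet.iUnion fun n => MeasurableSet.univ_pi fun _ =>
    measurableSet_eq_fun (measurable_pi_apply (J + n)) measurable_const

theorem measure_Bad (J m : ℕ) :
    (Measure.pi fun _ : Fin (m + 2) => PS).real (Bad J (m + 2)) ≤ pw J ^ m := by
  refine ENNReal.toReal_le_of_le_ofReal (pow_nonneg (pw_pos _).le _)
    ((measure_iUnion_le _).trans (ENNReal.tsum_le_of_sum_range_le fun n => ?_))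
  simp only [Measure.pi_pi, PS_true, prod_const, card_univ, Fintype.card_fin,
    ← ENNReal.ofReal_pow (pw_pos _).le]
  rw [← ENNReal.ofReal_sum_of_nonneg fun _ _ => pow_nonneg (pw_pos _).le _]
  exact ENNReal.ofReal_le_ofReal (sum_pw_pow J m n)

variable {Γ : Type} [AddCommGroup Γ] [Countable Γ] [DecidableEq Γ]

namespace Tree

variable (T : Tree Γ)

/-- The function that gives the counterexample. -/
noncomputable def ff (g : Γ) : ℂ := ∫ S, T.rho g S ∂PS

theorem integrable_rho (g : Γ) : Integrable (T.rho g) PS :=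
  Integrable.of_bound (T.measurable_rho g).aestronglyMeasurable 1
    (Eventually.of_forall (T.norm_rho_le g))

theorem pd_ff : PD T.ff := PD.integral _ T.pd_rho T.integrable_rho

theorem memℓp_of_new {a : Γ → ℂ} (h0 : ‖a 0‖ ≤ 1) (h1 : ∀ g, (∀ I, g ∉ T.W I) → a g = 0)
    (h2 : ∀ I g b, b ∈ dif (T.B I) → g + b ∈ T.W I → g ∉ T.W I →
      ‖a g‖ ≤ T.η I b ^ (4 * cl I + 1)) : Memℓp a 2 := by
  have h3 : ∀ I, ∑ g ∈ T.W I, ‖a g‖ ^ 2 ≤ 3 - 2 * (1 / 2) ^ I := fun I => by
    induction I with
    | zero =>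
      rw [T.W0, sum_singleton]
      nlinarith [norm_nonneg (a 0)]
    | succ I ih =>
      have hp : ∀ b, 0 ≤ T.η I b ^ (2 * (4 * cl I + 1)) := fun b => by
        rw [pow_mul]
        positivity
      have h4 := sum_fiberwise_le_sum_of_sum_fiber_nonneg (t := T.W (I + 1) \ T.W I)
        (s := T.W I ×ˢ (dif (T.B I)).erase 0) (g := fun q => q.1 - q.2)
        (f := fun q => T.η I q.2 ^ (2 * (4 * cl I + 1))) fun _ _ => sum_nonneg fun _ _ => hp _
      have h5 := (T.lev I).mom
      rw [sum_product] at h4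
      simp only [sum_const, nsmul_eq_mul] at h4
      have h6 := (sum_le_sum (f := fun g => ‖a g‖ ^ 2) fun g hg => by
        obtain ⟨h6, h7⟩ := mem_sdiff.1 hg
        obtain ⟨b, hb, h8⟩ := (T.Ws I g).1 h6
        refine le_trans ?_ (single_le_sum (fun _ _ => hp _) (a := (g + b, b)) (mem_filter.2
          ⟨mem_product.2 ⟨h8, mem_erase.2 ⟨fun e => h7 ?_, hb⟩⟩, add_sub_cancel_right _ _⟩))
        · rw [mul_comm 2, pow_mul]
          exact pow_le_pow_left₀ (norm_nonneg _) (h2 I g b hb h8 h7) 2
        · rwa [show b = 0 from e, add_zero] at h8).trans h4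
      rw [← sum_sdiff (T.W_mono (Nat.le_succ I)), pow_succ]
      linarith
  refine memℓp_gen' (C := 3) fun s => ?_
  obtain ⟨I, hI⟩ := ((eventually_all_finset s).2 fun g _ =>
    show ∀ᶠ I in atTop, ‖a g‖ ^ 2 ≠ 0 → g ∈ T.W I from by
      by_cases h : ∃ I, g ∈ T.W I
      · obtain ⟨n, hn⟩ := h
        exact (eventually_ge_atTop n).mono fun I hI _ => T.W_mono hI hn
      · push Not at h
        exact Eventually.of_forall fun I hI => absurd (by simp [h1 g h]) hI).exists
  simp only [ENNReal.toReal_ofNat, Real.rpow_ofNat]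
  rw [← sum_filter_ne_zero]
  refine (sum_le_sum_of_subset_of_nonneg (fun g hg => hI g (mem_filter.1 hg).1 (mem_filter.1 hg).2)
    fun _ _ _ => sq_nonneg _).trans ((h3 I).trans (sub_le_self _ (by positivity)))

theorem quasi_ff : Quasi T.ff := by
  intro ε hε
  obtain ⟨J, hJ⟩ := exists_nat_ge (((ε / 2) ^ 2)⁻¹)
  have hpJ : pw J ≤ (ε / 2) ^ 2 := by
    unfold pw
    rw [inv_le_comm₀ (by positivity) (by positivity)]
    linarith
  have hm : pw J ^ (4 * J + 2) ≤ (ε / 2) ^ (4 * J + 2 + 2) :=
    (pow_le_pow_of_le_one (pw_pos J).le (pw_le_one J) (show 2 * J + 2 ≤ _ by omega)).trans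
      ((pow_le_pow_left₀ (pw_pos J).le hpJ _).trans_eq (by rw [← pow_mul]; congr 1; omega))
  have hB := (measure_Bad J _).trans hm
  generalize hm' : 4 * J + 2 + 2 = m at hB
  have hi : ∀ g, Integrable (fun S : Fin m → ℕ → Bool => ∏ l, T.rho g (S l))
      (Measure.pi fun _ => PS) := fun g =>
    Integrable.fintype_prod (f := fun _ => T.rho g) fun _ => T.integrable_rho g
  have hn : ∀ (g : Γ) (c : ℝ), 0 ≤ c → (∀ S ∈ (Bad J m)ᶜ, ‖∏ l, T.rho g (S l)‖ ≤ c) →
      ‖∫ S in (Bad J m)ᶜ, ∏ l, T.rho g (S l) ∂(Measure.pi fun _ => PS)‖ ≤ c := fun g c hc h =>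
    (norm_setIntegral_le_of_norm_le_const (measure_lt_top _ _) h).trans
      (mul_le_of_le_one_right hc measureReal_le_one)
  refine (approx_of_memℓp (ε := (ε / 2) ^ m) (T.memℓp_of_new
    (a := fun g => ∫ S in (Bad J m)ᶜ, ∏ l, T.rho g (S l) ∂(Measure.pi fun _ => PS))
    (hn 0 1 zero_le_one fun S _ => by simp [rho_one])
    (fun g hg => norm_le_zero_iff.1 (hn g 0 le_rfl fun S _ => by
      rw [prod_eq_zero (mem_univ ⟨0, by omega⟩) (by simp [rho, T.lim_eq_zero hg]), norm_zero]))
    fun I g a ha hg hg' => ?_) (by positivity)).elim fun b ⟨hb, hs⟩ => ?_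
  swap
  · refine ⟨m, by omega, b, hb, ((((PD.integral ((Measure.pi fun _ => PS).restrict (Bad J m))
      (fun S => PD.prod univ fun l _ => T.pd_rho (S l)) fun g => (hi g).restrict).small
      (ε := (ε / 2) ^ m) (by simpa [rho_one] using hB)).add hs).congr fun g => ?_).mono ?_⟩
    · have e := integral_fintype_prod_eq_pow (ι := Fin m) (μ := PS) (T.rho g)
      rw [Fintype.card_fin, ← integral_add_compl (measurableSet_Bad J m) (hi g)] at e
      simp only [Pi.sub_apply, Pi.pow_apply, Pi.add_apply, ff, ← e]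
      ring
    · rw [div_pow, ← two_mul, mul_div_assoc', div_le_iff₀ (by positivity), mul_comm]
      exact mul_le_mul_of_nonneg_left (le_self_pow₀ one_le_two (by omega)) (by positivity)
  · have h0 : 0 ≤ T.η I a := le_trans (by positivity) ((T.lev I).avg a _ (T.hist_lt 0 I))
    refine hn g _ (pow_nonneg h0 _) fun S hS => ?_
    rcases le_or_gt J (cl I) with h | h
    · obtain ⟨n, hn⟩ := Nat.exists_eq_add_of_le h
      obtain ⟨l, hl⟩ : ∃ l, S l (cl I) = false := by
        by_contra hc
        push Not at hc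
        exact hS (Set.mem_iUnion.2 ⟨n, fun l _ => by simpa [hn] using hc l⟩)
      have h1 := T.rho_new ha hg hg' (S l)
      rw [ind_false hl, zero_mul, norm_le_zero_iff] at h1
      rw [prod_eq_zero (mem_univ l) h1, norm_zero]
      exact pow_nonneg h0 _
    · rw [norm_prod]
      refine (prod_le_prod (g := fun _ => T.η I a) (fun _ _ => norm_nonneg _) fun l _ =>
        (T.rho_new ha hg hg' (S l)).trans (mul_le_of_le_one_left h0 (ind_le_one _ _))).trans ?_
      rw [prod_const, card_univ, Fintype.card_fin]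
      exact pow_le_pow_of_le_one h0 ((T.lev I).le_one a) (by omega)

end Tree

end Pool.Agent.P.MP_849d05_an.Ab
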