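import Pool.Agent.P.MP_849d05_an.AbTree

set_option autoImplicit false
set_option linter.unusedSectionVars false

open scoped ComplexConjugate
open Finset MeasureTheory Filter

namespace Pool.Agent.P.MP_849d05_an.Ab

variable {Γ : Type} [AddCommGroup Γ] [Countable Γ] [DecidableEq Γ]

/-- The Fejer kernel of a finite set of frequencies. -/
noncomputable def fej (B : Finset Γ) (y : Kd Γ) : ℝ := ‖∑ b ∈ B, chi b y‖ ^ 2 / #B

theorem continuous_fej (B : Finset Γ) : Continuous (fej B) :=
  ((continuous_finsetSum _ fun b _ => continuous_chi b).norm.pow 2).div_const _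

theorem fej_eq (B : Finset Γ) (y : Kd Γ) : (fej B y : ℂ) = ∑ a ∈ dif B, cB B a * chi a y := by
  have e := normSq_trig B (fun b => b) (fun _ => 1) y
  simp only [one_mul, map_one] at e
  rw [fej, Complex.ofReal_div, e, ← sum_product' B B fun u v => chi (-u + v) y,
    sum_comp (fun a => chi a y) fun p : Γ × Γ => -p.1 + p.2, sum_div]
  refine sum_congr rfl fun a _ => ?_
  rw [cB, nsmul_eq_mul]
  push_cast
  ring

theorem cB_nonneg (B : Finset Γ) (a : Γ) : 0 ≤ cB B a := by unfold cB; positivity

theorem cB_le_one (B : Finset Γ) (a : Γ) : cB B a ≤ 1 := by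
  refine div_le_one_of_le₀ (Nat.cast_le.2 (card_le_card_of_injOn Prod.fst
    (fun p hp => (mem_product.1 (mem_filter.1 hp).1).1) fun p hp q hq e => Prod.ext e ?_))
    (by positivity)
  have h := (mem_filter.1 hp).2.trans (mem_filter.1 hq).2.symm
  rw [e] at h
  exact add_left_cancel h

theorem cB_zero {B : Finset Γ} (hB : B.Nonempty) : cB B 0 = 1 := by
  refine le_antisymm (cB_le_one B 0) ?_
  rw [cB, one_le_div (by exact_mod_cast card_pos.2 hB)]
  exact Nat.cast_le.2 (card_le_card_of_injOn (fun b => (b, b))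
    (fun b hb => mem_coe.2 (mem_filter.2 ⟨mem_product.2 ⟨hb, hb⟩, neg_add_cancel b⟩))
    fun _ _ _ _ e => congrArg Prod.fst e)

/-- The indicator of a chosen class. -/
noncomputable def ind (S : ℕ → Bool) (j : ℕ) : ℝ := if S j then 1 else 0

theorem ind_true {S : ℕ → Bool} {j : ℕ} (h : S j = true) : ind S j = 1 := if_pos h

theorem ind_false {S : ℕ → Bool} {j : ℕ} (h : S j = false) : ind S j = 0 := if_neg (by simp [h])

theorem ind_nonneg (S : ℕ → Bool) (j : ℕ) : 0 ≤ ind S j := by
  unfold ind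
  split_ifs <;> norm_num

theorem ind_le_one (S : ℕ → Bool) (j : ℕ) : ind S j ≤ 1 := by
  unfold ind
  split_ifs <;> norm_num

theorem continuous_ind (j : ℕ) : Continuous fun S => ind S j :=
  (continuous_of_discreteTopology (f := fun b : Bool => if b then (1 : ℝ) else 0)).comp
    (continuous_apply j)

namespace Tree

variable (T : Tree Γ)

/-- The parameter space. -/
abbrev Om : Type := (ℕ → Bool) × T.X

/-- The densities. -/
noncomputable def den (I : ℕ) (ω : T.Om) (y : Kd Γ) : ℝ :=
  ∏ i ∈ range I, (ind ω.1 (cl i) * fej (T.B i) (y - T.pt ω.2 i) + (1 - ind ω.1 (cl i)))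

theorem den_nonneg (I : ℕ) (ω : T.Om) (y : Kd Γ) : 0 ≤ T.den I ω y :=
  prod_nonneg fun i _ => add_nonneg (mul_nonneg (ind_nonneg _ _) (by unfold fej; positivity))
    (sub_nonneg.2 (ind_le_one _ _))

theorem continuous_den (I : ℕ) : Continuous fun p : Kd Γ × T.Om => T.den I p.2 p.1 := by
  refine continuous_finsetProd _ fun i _ => ?_
  have h := (continuous_ind (cl i)).comp (continuous_fst.comp (continuous_snd (X := Kd Γ) (Y := T.Om)))
  exact (h.mul ((continuous_fej _).comp (continuous_fst.sub ((T.continuous_pt i).comp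
    (continuous_snd.comp continuous_snd))))).add (continuous_const.sub h)

theorem continuous_den' (I : ℕ) (ω : T.Om) : Continuous (T.den I ω) :=
  (T.continuous_den I).comp (continuous_id.prodMk continuous_const)

/-- The Fourier coefficients of the densities. -/
noncomputable def rr (I : ℕ) (g : Γ) (ω : T.Om) : ℂ := ∫ y, chi g y * T.den I ω y ∂(haar Γ)

theorem rr_zero (g : Γ) (ω : T.Om) : T.rr 0 g ω = if g = 0 then 1 else 0 := by
  simp only [rr, den, range_zero, prod_empty, Complex.ofReal_one, mul_one, integral_chi_haar]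
  congr

theorem rr_succ (I : ℕ) (g : Γ) (ω : T.Om) : T.rr (I + 1) g ω = ind ω.1 (cl I) *
    ∑ a ∈ dif (T.B I), cB (T.B I) a * conj (chi a (T.pt ω.2 I)) * T.rr I (g + a) ω +
      (1 - ind ω.1 (cl I)) * T.rr I g ω := by
  have hi : ∀ g, Integrable (fun y => chi g y * T.den I ω y) (haar Γ) := fun g =>
    integrable_cts ((continuous_chi g).mul
      (Complex.continuous_ofReal.comp (T.continuous_den' I ω))) _
  simp only [rr, ← integral_const_mul]
  rw [← integral_finsetSum _ fun a _ => (hi _).const_mul _, ← integral_const_mul, ← integral_add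
    ((integrable_finsetSum _ fun a _ => (hi _).const_mul _).const_mul _) ((hi _).const_mul _)]
  refine integral_congr_ae (Eventually.of_forall fun y => ?_)
  have e : T.den (I + 1) ω y = T.den I ω y * (ind ω.1 (cl I) * fej (T.B I) (y - T.pt ω.2 I) +
      (1 - ind ω.1 (cl I))) := prod_range_succ _ _
  have e2 : ∑ a ∈ dif (T.B I), cB (T.B I) a * conj (chi a (T.pt ω.2 I)) *
      (chi (g + a) y * T.den I ω y) = chi g y * T.den I ω y * fej (T.B I) (y - T.pt ω.2 I) := by
    rw [fej_eq, mul_sum]
    refine sum_congr rfl fun a _ => ?_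
    rw [sub_eq_add_neg, chi_add_right, chi_neg_right, chi_add_left]
    ring
  simp only
  rw [e, e2]
  push_cast
  ring

theorem rr_eq_zero {I : ℕ} : ∀ {g : Γ}, g ∉ T.W I → ∀ ω, T.rr I g ω = 0 := by
  induction I with
  | zero =>
    intro g hg ω
    rw [rr_zero, if_neg (by simpa [T.W0] using hg)]
  | succ I ih =>
    intro g hg ω
    rw [rr_succ, ih fun h => hg (T.W_mono (Nat.le_succ I) h), sum_eq_zero fun a ha => by
      rw [ih fun h => hg ((T.Ws I g).2 ⟨a, ha, h⟩), mul_zero]]
    simp

theorem rr_step {I : ℕ} {g a : Γ} (ha : a ∈ dif (T.B I)) (hg : g + a ∈ T.W I) (ω : T.Om) :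
    T.rr (I + 1) g ω = ind ω.1 (cl I) * (cB (T.B I) a * conj (chi a (T.pt ω.2 I)) *
      T.rr I (g + a) ω) + (1 - ind ω.1 (cl I)) * T.rr I g ω := by
  rw [rr_succ, sum_eq_single_of_mem a ha fun b hb hne => by
    rw [T.rr_eq_zero fun h => hne ((T.lev I).dis g b hb a ha h hg), mul_zero]]

theorem rr_stable {I I' : ℕ} {g : Γ} (hg : g ∈ T.W I) (h : I ≤ I') (ω : T.Om) :
    T.rr I' g ω = T.rr I g ω := by
  induction I', h using Nat.le_induction with
  | base => rfl
  | succ n hn ih =>
    rw [T.rr_step (T.zero_mem_dif n) (by rw [add_zero]; exact T.W_mono hn hg), add_zero, ih,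
      cB_zero (T.lev n).ne, chi_zero_left, map_one]
    push_cast
    ring

theorem rr_one (I : ℕ) (ω : T.Om) : T.rr I 0 ω = 1 := by
  rw [T.rr_stable (T.zero_mem_W 0) (Nat.zero_le I), rr_zero, if_pos rfl]

theorem pd_rr (I : ℕ) (ω : T.Om) : PD fun g => T.rr I g ω :=
  PD.of_integral (haar Γ) measurable_id (integrable_cts (T.continuous_den' I ω) _)
    (T.den_nonneg I ω)

theorem norm_rr_le (I : ℕ) (g : Γ) (ω : T.Om) : ‖T.rr I g ω‖ ≤ 1 := by
  simpa [rr_one] using (T.pd_rr I ω).norm_le g

theorem continuous_rr (I : ℕ) : ∀ g, Continuous (T.rr I g) := by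
  induction I with
  | zero => exact fun g => (funext (T.rr_zero g) ▸ continuous_const :)
  | succ I ih =>
    intro g
    have h := Complex.continuous_ofReal.comp
      ((continuous_ind (cl I)).comp (continuous_fst (X := ℕ → Bool) (Y := T.X)))
    rw [funext (T.rr_succ I g)]
    exact (h.mul (continuous_finsetSum _ fun a _ => (continuous_const.mul
      (Complex.continuous_conj.comp ((continuous_chi a).comp ((T.continuous_pt I).comp
        continuous_snd)))).mul (ih _))).add ((continuous_const.sub h).mul (ih g))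

theorem rr_congr {I : ℕ} (g : Γ) (S : ℕ → Bool) {x x' : T.X} (h : ∀ i < I, x i = x' i) :
    T.rr I g (S, x) = T.rr I g (S, x') := by
  refine integral_congr_ae (Eventually.of_forall fun y => ?_)
  refine congrArg (fun t : ℝ => chi g y * t) (prod_congr rfl fun i hi => ?_)
  simp only [pt]
  rw [T.hist_congr fun j hj => h j (by have := mem_range.1 hi; omega)]

theorem exists_lv (g : Γ) : ∃ I, ∀ I', I ≤ I' → ∀ ω, T.rr I' g ω = T.rr I g ω := by
  by_cases h : ∃ I, g ∈ T.W I
  · exact h.imp fun I hI I' h ω => T.rr_stable hI h ω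
  · push Not at h
    exact ⟨0, fun I' _ ω => by rw [T.rr_eq_zero (h _), T.rr_eq_zero (h _)]⟩

/-- The limit of the Fourier coefficients. -/
noncomputable def lim (g : Γ) (ω : T.Om) : ℂ := T.rr (T.exists_lv g).choose g ω

theorem eventually_rr (g : Γ) : ∀ᶠ I in atTop, ∀ ω, T.rr I g ω = T.lim g ω :=
  eventually_atTop.2 ⟨_, (T.exists_lv g).choose_spec⟩

theorem lim_eq {I : ℕ} {g : Γ} (hg : g ∈ T.W I) (ω : T.Om) : T.lim g ω = T.rr I g ω := by
  obtain ⟨n, h1, h2⟩ := ((T.eventually_rr g).and (eventually_ge_atTop I)).exists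
  rw [← h1, T.rr_stable hg h2]

theorem lim_eq_zero {g : Γ} (hg : ∀ I, g ∉ T.W I) (ω : T.Om) : T.lim g ω = 0 :=
  T.rr_eq_zero (hg _) ω

theorem continuous_lim (g : Γ) : Continuous (T.lim g) := T.continuous_rr _ g

theorem norm_lim_le (g : Γ) (ω : T.Om) : ‖T.lim g ω‖ ≤ 1 := T.norm_rr_le _ g ω

theorem lim_one (ω : T.Om) : T.lim 0 ω = 1 := T.rr_one _ ω

theorem pd_lim (ω : T.Om) : PD fun g => T.lim g ω :=
  PD.of_tendsto (l := atTop) (Eventually.of_forall fun I => T.pd_rr I ω) fun g =>
    tendsto_const_nhds.congr' ((T.eventually_rr g).mono fun _ h => (h ω).symm)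

/-- The average over the branches. -/
noncomputable def rho (g : Γ) (S : ℕ → Bool) : ℂ := ∫ x, T.lim g (S, x) ∂(hm T.X)

theorem integrable_lim (g : Γ) (S : ℕ → Bool) : Integrable (fun x => T.lim g (S, x)) (hm T.X) :=
  integrable_cts ((T.continuous_lim g).comp (continuous_const.prodMk continuous_id)) _

theorem pd_rho (S : ℕ → Bool) : PD fun g => T.rho g S :=
  PD.integral _ (fun x => T.pd_lim (S, x)) fun g => T.integrable_lim g S

theorem rho_one (S : ℕ → Bool) : T.rho 0 S = 1 := by simp [rho, lim_one]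

theorem norm_rho_le (g : Γ) (S : ℕ → Bool) : ‖T.rho g S‖ ≤ 1 := by
  simpa [rho_one] using (T.pd_rho S).norm_le g

theorem measurable_rho (g : Γ) : StronglyMeasurable (T.rho g) :=
  (T.continuous_lim g).stronglyMeasurable.integral_prod_right'

theorem rho_new {I : ℕ} {g a : Γ} (ha : a ∈ dif (T.B I)) (hg : g + a ∈ T.W I) (hn : g ∉ T.W I)
    (S : ℕ → Bool) : ‖T.rho g S‖ ≤ ind S (cl I) * T.η I a := by
  have h1 : ∀ x, T.lim g (S, x) = ind S (cl I) * cB (T.B I) a *
      (conj (chi a (T.pt x I)) * T.rr I (g + a) (S, x)) := fun x => by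
    rw [T.lim_eq ((T.Ws I g).2 ⟨a, ha, hg⟩), T.rr_step ha hg, T.rr_eq_zero hn]
    ring
  have c1 : Continuous fun x : T.X => conj (chi a (T.pt x I)) * T.rr I (g + a) (S, x) :=
    (Complex.continuous_conj.comp ((continuous_chi a).comp (T.continuous_pt I))).mul
      ((T.continuous_rr I _).comp (continuous_const.prodMk continuous_id))
  have h2 : ∀ x : T.X, ‖∑ t : Fin (T.r I + 1), conj (chi a (T.pt (Pi.single I t + x) I)) *
      T.rr I (g + a) (S, Pi.single I t + x)‖ ≤ (T.r I + 1) * T.η I a := fun x => by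
    have e : ∀ t : Fin (T.r I + 1), ∀ i < I, (Pi.single I t + x : T.X) i = x i := fun t i hi => by
      rw [Pi.add_apply, Pi.single_eq_of_ne hi.ne, zero_add]
    have h3 := (T.lev I).avg a _ (T.hist_lt x I)
    rw [div_le_iff₀' (by positivity), ← Fin.sum_univ_eq_sum_range fun t =>
      chi a (T.θ I (T.hist x I * (T.r I + 1) + t)), ← Equiv.sum_comp (Equiv.addRight (x I))] at h3
    simp only [fun t => T.rr_congr (g + a) S (e t), ← sum_mul, ← map_sum, norm_mul,
      Complex.norm_conj, pt, hist_succ, fun t => T.hist_congr (e t), Pi.add_apply,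
      Pi.single_eq_same]
    exact (mul_le_of_le_one_right (norm_nonneg _) (T.norm_rr_le _ _ _)).trans h3
  have h3 := norm_integral_le_of_norm_le_const (μ := hm T.X) (Eventually.of_forall h2)
  have c2 : ∀ t : Fin (T.r I + 1), Integrable (fun x : T.X =>
      conj (chi a (T.pt (Pi.single I t + x) I)) * T.rr I (g + a) (S, Pi.single I t + x)) (hm T.X) :=
    fun t => integrable_cts (c1.comp (continuous_const_add _)) _
  rw [integral_finsetSum _ fun t _ => c2 t] at h3
  simp only [integral_add_left_eq_self fun x : T.X =>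
    conj (chi a (T.pt x I)) * T.rr I (g + a) (S, x), sum_const, card_univ, Fintype.card_fin,
    nsmul_eq_mul, norm_mul, Complex.norm_natCast, probReal_univ, mul_one] at h3
  push_cast at h3
  simp only [rho, h1, integral_const_mul, norm_mul, Complex.norm_real,
    Real.norm_of_nonneg (ind_nonneg _ _), Real.norm_of_nonneg (cB_nonneg _ _), mul_assoc]
  exact mul_le_mul_of_nonneg_left ((mul_le_of_le_one_left (norm_nonneg _) (cB_le_one _ _)).trans
    (le_of_mul_le_mul_left h3 (by positivity))) (ind_nonneg _ _)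

end Tree

end Pool.Agent.P.MP_849d05_an.Ab
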