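import Pool.Agent.P.MP_849d05_an.AbPD

set_option autoImplicit false
set_option linter.unusedSectionVars false

open scoped ComplexConjugate ComplexOrder ENNReal NNReal Topology
open Filter MeasureTheory

namespace Pool.Agent.P.MP_849d05_an.Ab

variable {Γ : Type} [AddCommGroup Γ] [Countable Γ]

/-- `s` is a combination of positive definite functions of total mass at most `ε`. -/
def Small (s : Γ → ℂ) (ε : ℝ) : Prop :=
  ∃ (ι : Type) (_ : Fintype ι) (c : ι → ℂ) (φ : ι → Γ → ℂ), (∀ i, PD (φ i)) ∧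
    (∀ g, s g = ∑ i, c i * φ i g) ∧ ∑ i, ‖c i‖ * (φ i 0).re ≤ ε

theorem Small.mono {s : Γ → ℂ} {ε ε' : ℝ} (h : Small s ε) (hε : ε ≤ ε') : Small s ε' := by
  obtain ⟨ι, _, c, φ, h1, h2, h3⟩ := h
  exact ⟨ι, _, c, φ, h1, h2, h3.trans hε⟩

theorem Small.congr {s t : Γ → ℂ} {ε : ℝ} (h : Small s ε) (e : ∀ g, t g = s g) : Small t ε := by
  rwa [funext e]

theorem PD.small {φ : Γ → ℂ} (h : PD φ) {ε : ℝ} (hε : (φ 0).re ≤ ε) : Small φ ε :=
  ⟨Unit, inferInstance, fun _ => 1, fun _ => φ, fun _ => h, by simp, by simpa using hε⟩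

theorem Small.add {s t : Γ → ℂ} {ε ε' : ℝ} (h : Small s ε) (h' : Small t ε') :
    Small (s + t) (ε + ε') := by
  obtain ⟨ι, _, c, φ, h1, h2, h3⟩ := h
  obtain ⟨ι', _, c', φ', h1', h2', h3'⟩ := h'
  refine ⟨ι ⊕ ι', inferInstance, Sum.elim c c', Sum.elim φ φ', ?_, fun g => ?_, ?_⟩
  · rintro (i | i)
    exacts [h1 i, h1' i]
  · simp [Fintype.sum_sum_type, h2, h2']
  · simpa [Fintype.sum_sum_type] using add_le_add h3 h3'

theorem Small.smul {s : Γ → ℂ} {ε : ℝ} (h : Small s ε) (z : ℂ) :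
    Small (fun g => z * s g) (‖z‖ * ε) := by
  obtain ⟨ι, _, c, φ, h1, h2, h3⟩ := h
  refine ⟨ι, inferInstance, fun i => z * c i, φ, h1, fun g => ?_, ?_⟩
  · simp only [h2, Finset.mul_sum, mul_assoc]
  · simp only [norm_mul, mul_assoc, ← Finset.mul_sum]
    exact mul_le_mul_of_nonneg_left h3 (norm_nonneg _)

theorem Small.norm_le {s : Γ → ℂ} {ε : ℝ} (h : Small s ε) (g : Γ) : ‖s g‖ ≤ ε := by
  obtain ⟨ι, _, c, φ, h1, h2, h3⟩ := h
  rw [h2]
  refine (norm_sum_le _ _).trans (le_trans (Finset.sum_le_sum fun i _ => ?_) h3)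
  rw [norm_mul]
  exact mul_le_mul_of_nonneg_left ((h1 i).norm_le g) (norm_nonneg _)

theorem Small.nonneg {s : Γ → ℂ} {ε : ℝ} (h : Small s ε) : 0 ≤ ε :=
  (norm_nonneg _).trans (h.norm_le 0)

theorem Small.mul {s t : Γ → ℂ} {ε ε' : ℝ} (h : Small s ε) (h' : Small t ε') :
    Small (s * t) (ε * ε') := by
  have h0 := h.nonneg
  obtain ⟨ι, _, c, φ, h1, h2, h3⟩ := h
  obtain ⟨ι', _, c', φ', h1', h2', h3'⟩ := h'
  refine ⟨ι × ι', inferInstance, fun p => c p.1 * c' p.2, fun p => φ p.1 * φ' p.2,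
    fun p => (h1 _).mul (h1' _), fun g => ?_, ?_⟩
  · rw [Pi.mul_apply, h2, h2', Finset.sum_mul_sum, Fintype.sum_prod_type]
    exact Finset.sum_congr rfl fun _ _ => Finset.sum_congr rfl fun _ _ => by
      simp only [Pi.mul_apply]
      ring
  · refine le_trans (le_of_eq ?_) (mul_le_mul h3 h3' (Finset.sum_nonneg fun i _ =>
      mul_nonneg (norm_nonneg _) (h1' i).re_zero_nonneg) h0)
    rw [Finset.sum_mul_sum, Fintype.sum_prod_type]
    refine Finset.sum_congr rfl fun i _ => Finset.sum_congr rfl fun j _ => ?_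
    simp only [Pi.mul_apply, Complex.mul_re, (h1 i).im_zero, norm_mul]
    ring

theorem Small.pow {s : Γ → ℂ} {ε : ℝ} (h : Small s ε) (k : ℕ) : Small (s ^ k) (ε ^ k) := by
  induction k with
  | zero => simpa using PD.one.small (by simp)
  | succ k ih => rw [pow_succ, pow_succ]; exact ih.mul h

theorem small_real {w : Kd Γ → ℝ} (hw : Integrable w (haar Γ)) :
    Small (fun g => ∫ x, chi g x * w x ∂(haar Γ)) (∫ x, |w x| ∂(haar Γ)) := by
  have p1 := PD.of_integral (haar Γ) measurable_id hw.pos_part (fun x => le_max_right _ _)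
  have p2 := PD.of_integral (haar Γ) measurable_id hw.neg_part (fun x => le_max_right _ _)
  refine (((p1.small le_rfl).add ((p2.small le_rfl).smul (-1))).congr fun g => ?_).mono ?_
  · have i1 : Integrable (fun y => chi g y * ((max (w y) 0 : ℝ) : ℂ)) (haar Γ) :=
      integrable_chi_mul measurable_id hw.pos_part.ofReal g
    have i2 : Integrable (fun y => chi g y * ((max (-w y) 0 : ℝ) : ℂ)) (haar Γ) :=
      integrable_chi_mul measurable_id hw.neg_part.ofReal g
    simp only [Pi.add_apply, id, neg_mul, one_mul, ← sub_eq_add_neg]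
    rw [← integral_sub i1 i2]
    refine integral_congr_ae (Eventually.of_forall fun x => ?_)
    simp only
    rw [← mul_sub, ← Complex.ofReal_sub, max_zero_sub_max_neg_zero_eq_self]
  · simp only [chi_zero_left, one_mul, integral_complex_ofReal, Complex.ofReal_re, norm_neg,
      norm_one]
    rw [← integral_add hw.pos_part hw.neg_part]
    simp only [max_zero_add_max_neg_zero_eq_abs_self, le_refl]

theorem small_L1 {k : Kd Γ → ℂ} (hk : Integrable k (haar Γ)) :
    Small (fun g => ∫ x, chi g x * k x ∂(haar Γ)) (2 * ∫ x, ‖k x‖ ∂(haar Γ)) := by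
  have hre : Integrable (fun x => (k x).re) (haar Γ) := hk.re
  have him : Integrable (fun x => (k x).im) (haar Γ) := hk.im
  refine (((small_real hre).add ((small_real him).smul Complex.I)).congr fun g => ?_).mono ?_
  · have i1 : Integrable (fun y => chi g y * (((k y).re : ℝ) : ℂ)) (haar Γ) :=
      integrable_chi_mul measurable_id hre.ofReal g
    have i2 : Integrable (fun y => chi g y * (((k y).im : ℝ) : ℂ)) (haar Γ) :=
      integrable_chi_mul measurable_id him.ofReal g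
    rw [Pi.add_apply, ← integral_const_mul, ← integral_add i1 (i2.const_mul _)]
    refine integral_congr_ae (Eventually.of_forall fun x => ?_)
    simp only
    linear_combination (-chi g x) * Complex.re_add_im (k x)
  · have h1 := integral_mono hre.abs hk.norm fun x => Complex.abs_re_le_norm (k x)
    have h2 := integral_mono him.abs hk.norm fun x => Complex.abs_im_le_norm (k x)
    rw [Complex.norm_I]
    linarith

theorem small_of_lp (ξ : lp (fun _ : Γ => ℂ) 2) {ε : ℝ} (hε : 0 < ε) (hn : ‖ξ‖ ≤ ε) :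
    Small (fun g => ξ g) (2 * ε) := by
  classical
  obtain ⟨k, hk, hb, he⟩ := plancherel (lp.single 2 (0 : Γ) (1 : ℂ)) (star ξ)
  refine ((small_L1 hk).congr fun g => ?_).mono ?_
  · rw [← he g, tsum_eq_single g]
    · simp
    · intro h hh
      rw [lp.single_apply, Pi.single_eq_of_ne fun h' => hh (neg_add_eq_zero.1 h').symm, zero_mul]
  · have h1 := hb ε hε
    rw [lp.norm_single (by norm_num), norm_star, norm_one, one_pow, mul_one] at h1
    have h4 : ‖ξ‖ ^ 2 / ε ≤ ε := by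
      rw [div_le_iff₀ hε, ← sq]
      exact pow_le_pow_left₀ (norm_nonneg _) hn 2
    linarith

variable (Γ) in
/-- The span of the positive definite functions. -/
def FSa : Submodule ℂ (Γ → ℂ) := Submodule.span ℂ {φ | PD φ}

theorem PD.mem {φ : Γ → ℂ} (h : PD φ) : φ ∈ FSa Γ := Submodule.subset_span h

theorem Small.mem {s : Γ → ℂ} {ε : ℝ} (h : Small s ε) : s ∈ FSa Γ := by
  obtain ⟨ι, _, c, φ, h1, h2, -⟩ := h
  have : s = ∑ i, c i • φ i := funext fun g => by simp [h2]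
  rw [this]
  exact Submodule.sum_mem _ fun i _ => Submodule.smul_mem _ _ (h1 i).mem

theorem small_of_mem {u : Γ → ℂ} (hu : u ∈ FSa Γ) : ∃ ε, Small u ε := by
  induction hu using Submodule.span_induction with
  | mem φ hφ => exact ⟨_, PD.small hφ le_rfl⟩
  | zero => exact ⟨_, PD.zero.small le_rfl⟩
  | add a b _ _ ha hb => exact ⟨_, ha.choose_spec.add hb.choose_spec⟩
  | smul c a _ ha => exact ⟨_, ha.choose_spec.smul c⟩

theorem FSa_mul {u v : Γ → ℂ} (hu : u ∈ FSa Γ) (hv : v ∈ FSa Γ) : u * v ∈ FSa Γ :=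
  ((small_of_mem hu).choose_spec.mul (small_of_mem hv).choose_spec).mem

theorem FSa_pow {u : Γ → ℂ} (hu : u ∈ FSa Γ) (n : ℕ) : u ^ n ∈ FSa Γ :=
  ((small_of_mem hu).choose_spec.pow n).mem

theorem memℓp_finite {u : Γ → ℂ} (hu : (Function.support u).Finite) : Memℓp u 2 :=
  (memℓp_zero hu).of_exponent_ge zero_le

theorem FSa_finite {u : Γ → ℂ} (hu : (Function.support u).Finite) : u ∈ FSa Γ :=
  (small_of_lp ⟨u, memℓp_finite hu⟩ (ε := ‖(⟨u, memℓp_finite hu⟩ : lp (fun _ : Γ => ℂ) 2)‖ + 1)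
    (by positivity) (by linarith)).mem

theorem Small.part {ι : Type} [Fintype ι] {c : ι → ℂ} {φ : ι → Γ → ℂ} (h1 : ∀ i, PD (φ i))
    {ε : ℝ} (h3 : ∑ i, ‖c i‖ * (φ i 0).re ≤ ε) (t : ι → ℝ) (ht : ∀ i, |t i| ≤ ‖c i‖) :
    PD (fun g => ∑ i, ((max (t i) 0 : ℝ) : ℂ) * φ i g) ∧
      (∑ i, ((max (t i) 0 : ℝ) : ℂ) * φ i 0).re ≤ ε := by
  refine ⟨PD.sum _ fun i _ => (h1 i).smul (le_max_right _ _), le_trans ?_ h3⟩
  rw [Complex.re_sum]
  refine Finset.sum_le_sum fun i _ => ?_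
  rw [Complex.re_ofReal_mul]
  exact mul_le_mul_of_nonneg_right (max_le ((le_abs_self _).trans (ht i)) (norm_nonneg _))
    (h1 i).re_zero_nonneg

theorem Small.four {s : Γ → ℂ} {ε : ℝ} (h : Small s ε) :
    ∃ p : Fin 4 → Γ → ℂ, (∀ i, PD (p i) ∧ (p i 0).re ≤ ε) ∧
      ∀ g, s g = p 0 g - p 1 g + Complex.I * (p 2 g - p 3 g) := by
  obtain ⟨ι, _, c, φ, h1, h2, h3⟩ := h
  let t : Fin 4 → ι → ℝ := ![fun i => (c i).re, fun i => -(c i).re, fun i => (c i).im,
    fun i => -(c i).im]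
  have ht : ∀ k i, |t k i| ≤ ‖c i‖ := by
    intro k i
    fin_cases k <;> simp [t, Complex.abs_re_le_norm, Complex.abs_im_le_norm]
  refine ⟨fun k g => ∑ i, ((max (t k i) 0 : ℝ) : ℂ) * φ i g,
    fun k => Small.part h1 h3 (t k) (ht k), fun g => ?_⟩
  rw [h2, ← Finset.sum_sub_distrib, ← Finset.sum_sub_distrib, Finset.mul_sum,
    ← Finset.sum_add_distrib]
  refine Finset.sum_congr rfl fun i _ => ?_
  have e1 : ((max (t 0 i) 0 : ℝ) : ℂ) - ((max (t 1 i) 0 : ℝ) : ℂ) = (c i).re := by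
    rw [← Complex.ofReal_sub]
    exact congrArg _ (max_zero_sub_max_neg_zero_eq_self _)
  have e2 : ((max (t 2 i) 0 : ℝ) : ℂ) - ((max (t 3 i) 0 : ℝ) : ℂ) = (c i).im := by
    rw [← Complex.ofReal_sub]
    exact congrArg _ (max_zero_sub_max_neg_zero_eq_self _)
  linear_combination (-φ i g) * Complex.re_add_im (c i) - φ i g * e1 - Complex.I * φ i g * e2

theorem FSa_series {s : ℕ → Γ → ℂ} {ε : ℕ → ℝ} (hs : ∀ k, Small (s k) (ε k))
    (hε : Summable ε) : (fun g => ∑' k, s k g) ∈ FSa Γ := by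
  choose p h1 h2 using fun k => (hs k).four
  have s1 : ∀ i g, Summable fun k => p k i g := fun i g =>
    Summable.of_norm_bounded hε fun k => ((h1 k i).1.norm_le g).trans (h1 k i).2
  have p1 : ∀ i, (fun g => ∑' k, p k i g) ∈ FSa Γ := fun i =>
    (PD.of_tendsto (l := atTop) (φ := fun n g => ∑ k ∈ Finset.range n, p k i g)
      (Eventually.of_forall fun n => PD.sum _ fun k _ => (h1 k i).1)
      (fun g => (s1 i g).hasSum.tendsto_sum_nat)).mem
  have e : (fun g => ∑' k, s k g) = ((fun g => ∑' k, p k 0 g) - fun g => ∑' k, p k 1 g) +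
      Complex.I • ((fun g => ∑' k, p k 2 g) - fun g => ∑' k, p k 3 g) := by
    funext g
    simp only [h2]
    exact (((s1 0 g).hasSum.sub (s1 1 g).hasSum).add
      (((s1 2 g).hasSum.sub (s1 3 g).hasSum).mul_left Complex.I)).tsum_eq
  rw [e]
  exact add_mem (sub_mem (p1 0) (p1 1)) (Submodule.smul_mem _ _ (sub_mem (p1 2) (p1 3)))

theorem FSa_neumann {s : Γ → ℂ} {r : ℝ} (hs : Small s r) {w : ℂ} (hw : r < ‖w‖) :
    (fun g => (w - s g)⁻¹) ∈ FSa Γ := by
  have hr := hs.nonneg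
  have hw0 : 0 < ‖w‖ := hr.trans_lt hw
  have hw1 : w ≠ 0 := norm_pos_iff.1 hw0
  have hq : r / ‖w‖ < 1 := (div_lt_one hw0).2 hw
  have hsum : Summable fun k : ℕ => ‖w‖⁻¹ * (r / ‖w‖) ^ k :=
    (summable_geometric_of_lt_one (by positivity) hq).mul_left _
  have m1 := FSa_series (s := fun k g => w⁻¹ ^ (k + 1) * (s ^ k) g)
    (fun k => ((hs.pow k).smul _).mono (le_of_eq (by
      rw [norm_pow, norm_inv, div_pow, inv_pow]
      field_simp
      ring))) hsum
  have e : (fun g => (w - s g)⁻¹) = fun g => ∑' k, w⁻¹ ^ (k + 1) * (s ^ k) g := by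
    funext g
    have hlt : ‖w⁻¹ * s g‖ < 1 := by
      rw [norm_mul, norm_inv, inv_mul_lt_iff₀ hw0, mul_one]
      exact (hs.norm_le g).trans_lt hw
    have h1 := (hasSum_geometric_of_norm_lt_one hlt).mul_left w⁻¹
    have h2 : w⁻¹ * (1 - w⁻¹ * s g)⁻¹ = (w - s g)⁻¹ := by
      rw [← mul_inv, mul_sub, mul_one, ← mul_assoc, mul_inv_cancel₀ hw1, one_mul]
    rw [← h2, ← h1.tsum_eq]
    refine tsum_congr fun k => ?_
    rw [Pi.pow_apply, mul_pow, ← mul_assoc, ← pow_succ']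
  rwa [e]

/-- The decomposition property that gives vanishing at infinity and natural spectrum. -/
def Quasi (f : Γ → ℂ) : Prop :=
  ∀ ε : ℝ, 0 < ε → ∃ m : ℕ, 0 < m ∧ ∃ a : Γ → ℂ, (Function.support a).Finite ∧
    Small (f ^ m - a) (ε ^ m)

theorem Quasi.tendsto {f : Γ → ℂ} (hf : Quasi f) : Tendsto f cofinite (𝓝 0) := by
  rw [Metric.tendsto_nhds]
  intro ε hε
  obtain ⟨m, hm, a, ha, hs⟩ := hf (ε / 2) (by positivity)
  rw [eventually_cofinite]
  refine ha.subset fun g hg => ?_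
  by_contra h0
  apply hg
  have h1 : a g = 0 := by simpa using h0
  have h2 := hs.norm_le g
  simp only [Pi.sub_apply, Pi.pow_apply, h1, sub_zero, norm_pow] at h2
  have h3 := (pow_le_pow_iff_left₀ (norm_nonneg _) (by positivity) hm.ne').1 h2
  rw [dist_zero_right]
  linarith

theorem Quasi.inv {f : Γ → ℂ} (hf : Quasi f) (hB : f ∈ FSa Γ) {z : ℂ} (hz0 : z ≠ 0)
    (hzf : ∀ g, z - f g ≠ 0) : ∃ u ∈ FSa Γ, ∀ g, (z - f g) * u g = 1 := by
  have hzp : 0 < ‖z‖ := norm_pos_iff.2 hz0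
  obtain ⟨m, hm, a, ha, hs⟩ := hf (‖z‖ / 2) (by positivity)
  have hlt : (‖z‖ / 2) ^ m < ‖z ^ m‖ := by
    rw [norm_pow]
    exact pow_lt_pow_left₀ (by linarith) (by positivity) hm.ne'
  have hw := FSa_neumann hs hlt
  have hne : ∀ g, z ^ m - (f ^ m - a) g ≠ 0 := by
    intro g hg
    have := hs.norm_le g
    rw [← sub_eq_zero.1 hg] at this
    linarith
  have hv : (∑ i ∈ Finset.range m, z ^ i • f ^ (m - 1 - i)) ∈ FSa Γ :=
    Submodule.sum_mem _ fun i _ => Submodule.smul_mem _ _ (FSa_pow hB _)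
  have hc : (fun g => a g * (z ^ m - (f ^ m - a) g)⁻¹ * (z - f g)⁻¹) ∈ FSa Γ := by
    refine FSa_finite (ha.subset fun g hg => ?_)
    intro h1
    apply hg
    simp [h1]
  refine ⟨_, add_mem (FSa_mul hv hw) hc, fun g => ?_⟩
  have e1 := (Commute.all z (f g)).geom_sum₂_mul m
  have e2 := mul_inv_cancel₀ (hne g)
  have e3 := mul_inv_cancel₀ (hzf g)
  simp only [Pi.add_apply, Pi.mul_apply, Pi.sub_apply, Pi.pow_apply, Finset.sum_apply,
    Pi.smul_apply, smul_eq_mul] at e2 ⊢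
  linear_combination (z ^ m - (f g ^ m - a g))⁻¹ * e1 + e2
    + a g * (z ^ m - (f g ^ m - a g))⁻¹ * e3

theorem approx_of_memℓp {a : Γ → ℂ} (ha : Memℓp a 2) {ε : ℝ} (hε : 0 < ε) :
    ∃ b : Γ → ℂ, (Function.support b).Finite ∧ Small (a - b) ε := by
  classical
  let ξ : lp (fun _ : Γ => ℂ) 2 := ⟨a, ha⟩
  have h1 := lp.hasSum_single (p := 2) (by norm_num) ξ
  obtain ⟨s, hs⟩ := ((Metric.tendsto_nhds.1 h1) (ε / 2) (by positivity)).exists
  have h2 : ∀ g, (∑ i ∈ s, lp.single 2 i (ξ i) : lp (fun _ : Γ => ℂ) 2) g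
      = if g ∈ s then a g else 0 := by
    intro g
    rw [lp.coeFn_sum, Finset.sum_apply]
    simp only [lp.single_apply]
    rw [Finset.sum_pi_single]
  refine ⟨fun g => if g ∈ s then a g else 0, s.finite_toSet.subset fun g hg => ?_, ?_⟩
  · by_contra h
    exact hg (if_neg h)
  · refine ((small_of_lp (ξ - ∑ i ∈ s, lp.single 2 i (ξ i)) (ε := ε / 2) (by positivity)
      (by rw [← dist_eq_norm, dist_comm]; exact hs.le)).congr fun g => ?_).mono (by linarith)
    rw [lp.coeFn_sub, Pi.sub_apply, Pi.sub_apply, h2]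

end Pool.Agent.P.MP_849d05_an.Ab
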