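import Pool.Agent.P.MP_849d05_an.AbQuasi

set_option autoImplicit false
set_option linter.unusedSectionVars false

open scoped ComplexConjugate Topology
open Finset MeasureTheory Filter

namespace Pool.Agent.P.MP_849d05_an.Ab

variable {Γ : Type} [AddCommGroup Γ] [Countable Γ] [DecidableEq Γ]

theorem tf_nonneg (G : Finset Γ) {w : ℝ} (hw : 0 ≤ w) (y : Kd Γ) : 0 ≤ tf G w y :=
  mul_nonneg hw (sum_nonneg fun _ _ => sq_nonneg _)

theorem tf_neg (G : Finset Γ) (w : ℝ) (y : Kd Γ) : tf G w (-y) = tf G w y := by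
  refine congrArg (w * ·) (sum_congr rfl fun g _ => ?_)
  rw [chi_neg_right, ← Complex.norm_conj, map_sub, Complex.conj_conj, map_one]

theorem tf_add (G : Finset Γ) {w : ℝ} (hw : 0 ≤ w) (y z : Kd Γ) :
    tf G w (y + z) ≤ 2 * tf G w y + 2 * tf G w z := by
  have h := mul_le_mul_of_nonneg_left (sum_le_sum (s := G) (f := fun g => ‖chi g (y + z) - 1‖ ^ 2)
    (g := fun g => 2 * ‖chi g y - 1‖ ^ 2 + 2 * ‖chi g z - 1‖ ^ 2) fun g _ => by
      rw [chi_add_right]
      refine (pow_le_pow_left₀ (norm_nonneg _) (norm_mul_sub_one (norm_chi _ _)) 2).trans ?_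
      nlinarith [sq_nonneg (‖chi g y - 1‖ - ‖chi g z - 1‖)]) hw
  rw [sum_add_distrib, ← mul_sum, ← mul_sum] at h
  unfold tf
  linarith

theorem continuous_tf (G : Finset Γ) (w : ℝ) : Continuous (tf G w) :=
  continuous_const.mul (continuous_finsetSum _ fun g _ =>
    ((continuous_chi g).sub continuous_const).norm.pow 2)

variable (Γ) in
/-- The diagonal embedding. -/
def dg : Kd Γ →+ (ℕ → Kd Γ) := Pi.constAddMonoidHom ℕ (Kd Γ)

theorem measurable_dg : Measurable (dg Γ) := measurable_pi_lambda _ fun _ => measurable_id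

namespace Tree

variable (T : Tree Γ)

/-- The sequences on which the test functions of a class are bounded. -/
def NN (j : ℕ) : AddSubgroup (ℕ → Kd Γ) where
  carrier := {z | ∃ C : ℕ, ∀ i, cl i = j → tf (T.G i) (T.w i) (z i) ≤ C}
  zero_mem' := ⟨0, fun i _ => by simp [tf]⟩
  add_mem' := fun ⟨C, h⟩ ⟨C', h'⟩ => ⟨2 * C + 2 * C', fun i hi => by
    refine (tf_add _ (T.lev i).w0 _ _).trans ?_
    push_cast
    linarith [h i hi, h' i hi]⟩
  neg_mem' := fun ⟨C, h⟩ => ⟨C, fun i hi => (tf_neg _ _ _).trans_le (h i hi)⟩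

theorem mem_NN {j : ℕ} {z : ℕ → Kd Γ} {C : ℝ}
    (h : ∀ᶠ i in atTop, cl i = j → tf (T.G i) (T.w i) (z i) ≤ C) : z ∈ T.NN j := by
  obtain ⟨n, hn⟩ := eventually_atTop.1 h
  obtain ⟨m, hm⟩ := exists_nat_ge (|C| + ∑ i ∈ range n, tf (T.G i) (T.w i) (z i))
  have h0 : ∀ i, 0 ≤ tf (T.G i) (T.w i) (z i) := fun i => tf_nonneg _ (T.lev i).w0 _
  refine ⟨m, fun i hi => le_trans ?_ hm⟩
  rcases le_or_gt n i with h1 | h1
  · linarith [hn i h1 hi, le_abs_self C, sum_nonneg fun i (_ : i ∈ range n) => h0 i]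
  · linarith [abs_nonneg C, single_le_sum (fun i _ => h0 i) (mem_range.2 h1)]

/-- The sumsets of the branch points, modulo the subgroup of a class. -/
def EE (j k : ℕ) : Set (ℕ → Kd Γ) := {z | ∃ x : Fin k → T.X, z - ∑ l, T.pt (x l) ∈ T.NN j}

theorem EE_zero (j : ℕ) : T.EE j 0 = T.NN j := by
  ext z
  simp [EE]

theorem invN_EE (j k : ℕ) : InvN (T.NN j) (T.EE j k) := fun _ hn _ ⟨x, hx⟩ =>
  ⟨x, by rw [add_sub_assoc]; exact add_mem hn hx⟩

theorem sum_EE (j k : ℕ) (y : Fin k → ℕ → Kd Γ) (h : ∀ l, y l ∈ T.EE j 1) :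
    ∑ l, y l ∈ T.EE j k := by
  choose x hx using h
  refine ⟨fun l => x l 0, ?_⟩
  rw [← sum_sub_distrib]
  exact sum_mem fun l _ => by simpa using hx l

theorem measurableSet_EE (j k : ℕ) : MeasurableSet (T.EE j k) := by
  have e : T.EE j k = ⋃ C : ℕ, Prod.fst '' ⋂ i, ⋂ _ : cl i = j,
      {p : (ℕ → Kd Γ) × (Fin k → T.X) |
        tf (T.G i) (T.w i) (p.1 i - ∑ l, T.pt (p.2 l) i) ≤ C} := by
    ext z
    simp only [EE, NN, Set.mem_ofPred_eq, AddSubgroup.mem_mk, AddSubmonoid.mem_mk,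
      AddSubsemigroup.mem_mk, Set.mem_iUnion, Set.mem_image, Set.mem_iInter, Prod.exists,
      exists_and_right, exists_eq_right, Pi.sub_apply, Finset.sum_apply]
    exact exists_comm
  rw [e]
  refine MeasurableSet.iUnion fun C => (IsCompact.image (IsClosed.isCompact (isClosed_iInter fun i =>
    isClosed_iInter fun _ => isClosed_le ((continuous_tf _ _).comp ?_) continuous_const))
      continuous_fst).isClosed.measurableSet
  exact ((continuous_apply i).comp continuous_fst).sub (continuous_finsetSum _ fun l _ =>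
    (T.continuous_pt i).comp ((continuous_apply l).comp continuous_snd))

theorem exists_common {j : ℕ} {A : Type} [Fintype A] (hj : 4 * Fintype.card A ≤ j)
    (a a' b b' : A → T.X) (h : ∑ l, T.pt (a l) - ∑ l, T.pt (a' l) +
      (-∑ l, T.pt (b l) + ∑ l, T.pt (b' l)) ∈ T.NN j)
    (h0 : ∑ l, T.pt (a l) - ∑ l, T.pt (a' l) ∉ T.NN j) :
    ∃ s s', Sum.elim a a' s = Sum.elim b b' s' := by
  by_contra hc
  push Not at hc
  obtain ⟨C, hC⟩ := h
  refine h0 (T.mem_NN (C := 0) ?_)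
  filter_upwards [eventually_all.2 fun s => eventually_all.2 fun s' => T.hist_ne (hc s s'),
    eventually_ge_atTop C] with i h1 h2 h3
  have h6 : ∀ x, T.hist x (i + 1) ∈ range (T.M i * (T.r i + 1)) := fun x =>
    mem_range.2 ((T.hist_lt x _).trans_eq (T.Ms i))
  have h4 := (T.lev i).gen (A ⊕ A) (A ⊕ A)
    (fun s => (T.hist (Sum.elim a a' s) (i + 1), Sum.elim (fun _ => 1) (fun _ => -1) s))
    (fun s => (T.hist (Sum.elim b b' s) (i + 1), Sum.elim (fun _ => -1) (fun _ => 1) s))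
    (by rw [Fintype.card_sum]; omega)
    (fun s => mem_product.2 ⟨h6 _, by rcases s with s | s <;> simp⟩)
    (fun s => mem_product.2 ⟨h6 _, by rcases s with s | s <;> simp⟩)
    h1
  have h5 := (hC i h3).trans (Nat.cast_le.2 h2)
  simp only [sg, Fintype.sum_sum_type, Sum.elim_inl, Sum.elim_inr, one_zsmul, neg_zsmul,
    sum_neg_distrib] at h4
  simp only [Pi.add_apply, Pi.neg_apply, Finset.sum_apply, pt, sub_eq_add_neg] at h5 ⊢
  exact (h4 h5).le

theorem stepN_EE {j k : ℕ} (hj : 4 * (k + 1) ≤ j) :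
    StepN (T.NN j) (T.EE j k) (T.EE j (k + 1)) := by
  intro c c' hne
  by_cases hex : ∃ y, c + y ∈ T.EE j (k + 1) ∧ c' + y ∈ T.EE j (k + 1)
  swap
  · exact ⟨∅, Set.countable_empty, fun y h1 h2 => absurd ⟨y, h1, h2⟩ hex⟩
  obtain ⟨y₀, ⟨a, ha⟩, ⟨a', ha'⟩⟩ := hex
  refine ⟨Set.range fun p : Bool × (Fin (k + 1) ⊕ Fin (k + 1)) =>
    (if p.1 then c else c') - T.pt (Sum.elim a a' p.2), Set.countable_range _, ?_⟩
  rintro y ⟨b, hb⟩ ⟨b', hb'⟩
  obtain ⟨s, s', h⟩ := T.exists_common (j := j) (by rwa [Fintype.card_fin]) a a' b b'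
    (by
      have := add_mem (sub_mem ha' ha) (sub_mem hb hb')
      exact (congrArg (· ∈ T.NN j) (by abel)).mp this)
    fun h => hne (by
      have := add_mem (sub_mem ha ha') h
      exact (congrArg (· ∈ T.NN j) (by abel)).mp this)
  rcases s' with q | q
  · refine ⟨_, ⟨(true, s), rfl⟩, fun l => b (q.succAbove l), ?_⟩
    rw [Fin.sum_univ_succAbove _ q] at hb
    simp only [if_true, h, Sum.elim_inl]
    exact (congrArg (· ∈ T.NN j) (by abel)).mp hb
  · refine ⟨_, ⟨(false, s), rfl⟩, fun l => b' (q.succAbove l), ?_⟩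
    rw [Fin.sum_univ_succAbove _ q] at hb'
    simp only [Bool.false_eq_true, if_false, h, Sum.elim_inr]
    exact (congrArg (· ∈ T.NN j) (by abel)).mp hb'

theorem kills_haar (j : ℕ) : Kills ((haar Γ).map (dg Γ)) (T.NN j) := by
  intro c
  rw [Measure.map_apply measurable_dg
    (measurableSet_tr (T.EE_zero j ▸ T.measurableSet_EE j 0) c)]
  refine measure_mono_null (t := ⋃ C : ℕ, {y | ∀ i, cl i = j →
    tf (T.G i) (T.w i) (c i + y) ≤ C}) (fun y hy => Set.mem_iUnion.2 hy)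
    (measure_iUnion_null fun C => ?_)
  rw [← measureReal_eq_zero_iff (measure_ne_top _ _)]
  refine le_antisymm (le_of_forall_pos_le_add fun ε hε => ?_) measureReal_nonneg
  obtain ⟨n, hn⟩ := exists_nat_ge (4 / ε)
  obtain ⟨i, hi, hj⟩ := exists_cl j (C + n)
  have hb := (T.lev i).big
  have h1 := mul_meas_ge_le_integral_of_nonneg (μ := haar Γ) (f := fun y => zz (T.B' i) (c i + y))
    (Eventually.of_forall fun y => zz_nonneg _ _)
    (integrable_cts ((continuous_zz _).comp (continuous_const_add _)) _) 1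
  rw [integral_zz _ _ (continuous_const_add _) 1 (fun x => ⟨x, fun y => by rw [one_zsmul]; abel⟩)
    (fun b _ b' _ e => by simpa using e), one_mul] at h1
  refine (measureReal_mono fun y hy => ?_).trans (h1.trans ?_)
  · exact one_le_zz (by omega) ((T.lev i).near _ ((hy i hj).trans (Nat.cast_le.2 (by omega))))
  · have h2 : (n : ℝ) ≤ #(T.B' i) := Nat.cast_le.2 (by omega)
    rw [zero_add, div_le_comm₀ (Nat.cast_pos.2 (by omega)) hε]
    linarith

theorem null_EE {ρ : Measure (Kd Γ)} [IsFiniteMeasure ρ] {h : Kd Γ → ℂ} (hi : Integrable h ρ)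
    (hne : ∀ᵐ x ∂ρ, h x ≠ 0) (k : ℕ) {κ : Kd Γ → ℂ} (hκ : Integrable κ (haar Γ))
    (he : ∀ g, (∫ x, chi g x * h x ∂ρ) ^ (k + 1) = ∫ x, chi g x * κ x ∂(haar Γ)) {j : ℕ}
    (hj : 4 * (k + 1) ≤ j) : ρ (dg Γ ⁻¹' T.EE j 1) = 0 :=
  orth (dg Γ) measurable_dg (T.kills_haar j) hi hne k hκ he (T.EE j) (T.measurableSet_EE j)
    (T.invN_EE j) (T.EE_zero j) (fun _ hl => T.stepN_EE (by omega)) (T.sum_EE j _)

end Tree

end Pool.Agent.P.MP_849d05_an.Ab
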