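import Pool.Agent.P.MP_849d05_an.AbLevel

set_option autoImplicit false
set_option linter.unusedSectionVars false

open scoped ComplexConjugate
open Finset MeasureTheory Filter

namespace Pool.Agent.P.MP_849d05_an.Ab

/-- The class of a level. -/
def cl (i : ℕ) : ℕ := (Nat.unpair i).1

theorem exists_cl (j n : ℕ) : ∃ i, n ≤ i ∧ cl i = j :=
  ⟨Nat.pair j n, Nat.right_le_pair _ _, congrArg Prod.fst (Nat.unpair_pair j n)⟩

variable {Γ : Type} [AddCommGroup Γ] [Countable Γ] [DecidableEq Γ]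

/-- A signed sum of points. -/
def sg (θ : ℕ → Kd Γ) {A : Type} [Fintype A] (u : A → ℕ × ℤ) : Kd Γ := ∑ s, (u s).2 • θ (u s).1

/-- The conditions on one level. -/
structure Level (i : ℕ) (W : Finset Γ) (M r : ℕ) (B B' G : Finset Γ) (w : ℝ) (θ : ℕ → Kd Γ)
    (η : Γ → ℝ) : Prop where
  ne : B.Nonempty
  w0 : 0 ≤ w
  dis : ∀ g, ∀ a ∈ dif B, ∀ a' ∈ dif B, g + a ∈ W → g + a' ∈ W → a = a'
  sub : ∀ g ∈ G, -g ∈ dif B
  conc : w * ∑ g ∈ G, (2 - 2 * cB B (-g)) ≤ (1 / 2) ^ i
  near : ∀ y, tf G w y ≤ i → ∀ b ∈ B', ‖chi b y - 1‖ ≤ 1 / 2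
  big : i < #B'
  avg : ∀ a, ∀ h < M, ‖∑ t ∈ range (r + 1), chi a (θ (h * (r + 1) + t))‖ / (r + 1) ≤ η a
  le_one : ∀ a, η a ≤ 1
  mom : #W * ∑ a ∈ (dif B).erase 0, η a ^ (2 * (4 * cl i + 1)) ≤ (1 / 2) ^ i
  gen : ∀ (A A' : Type) [Fintype A] [Fintype A'] (u : A → ℕ × ℤ) (v : A' → ℕ × ℤ),
    Fintype.card A + Fintype.card A' ≤ cl i →
    (∀ s, u s ∈ range (M * (r + 1)) ×ˢ ({1, -1} : Finset ℤ)) →
    (∀ s, v s ∈ range (M * (r + 1)) ×ˢ ({1, -1} : Finset ℤ)) →
    (∀ s s', (u s).1 ≠ (v s').1) → tf G w (sg θ u + sg θ v) ≤ i → tf G w (sg θ u) = 0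

theorem exists_Level [Infinite Γ] (i : ℕ) (W : Finset Γ) (M : ℕ) :
    ∃ r B B' G w θ η, 0 < M → Level i W M r B B' G w θ η := by
  classical
  rcases Nat.eq_zero_or_pos M with rfl | hM
  · exact ⟨0, ∅, ∅, ∅, 0, 0, 0, fun h => absurd h (lt_irrefl _)⟩
  obtain ⟨r, X, C, B, B', G, w, θ, hF, hX, h1, h2⟩ := exists_level
    ((W ×ˢ W).image fun p => p.1 - p.2) (cl i) i M hM (ε := (1 / 2) ^ i / (#W + 1)) (by positivity)
  choose h hh hm using fun a => exists_max_image (range M)
    (fun h => ‖∑ t ∈ range (r + 1), chi a (θ (h * (r + 1) + t))‖ / (r + 1))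
    (nonempty_range_iff.2 hM.ne')
  refine ⟨r, B, B', G, w, θ, fun a => ‖∑ t ∈ range (r + 1), chi a (θ (h a * (r + 1) + t))‖ / (r + 1),
    fun _ => ⟨hF.ne, hF.w0, fun g a ha a' ha' e e' => hF.dis a ha a' ha'
      (mem_image.2 ⟨(g + a, g + a'), mem_product.2 ⟨e, e'⟩, by simp⟩), hF.sub, hF.conc, hF.near,
      hX.trans_le hF.card', fun a t ht => hm a t (mem_range.2 ht), fun a => ?_, ?_, ?_⟩⟩
  · rw [div_le_one (by positivity)]
    refine (norm_sum_le _ _).trans (le_of_eq ?_)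
    simp [norm_chi]
  · rw [sum_comm, le_div_iff₀' (by positivity)] at h1
    refine le_trans (mul_le_mul (by linarith) (sum_le_sum fun a _ => ?_)
      (sum_nonneg fun _ _ => by positivity) (by positivity)) h1
    exact single_le_sum (f := fun h => (‖∑ t ∈ range (r + 1), chi a (θ (h * (r + 1) + t))‖ /
      (r + 1)) ^ (2 * (4 * cl i + 1))) (fun _ _ => by positivity) (hh a)
  · intro A A' _ _ u v hc hu hv hd ht
    let e := (Fintype.equivFin (A ⊕ A')).symm
    have h3 := h2 _ (by rwa [Fintype.card_sum]) (fun s => Sum.elim u v (e s))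
      (fun s => by rcases e s with s | s; exacts [hu s, hv s]) (by
        rw [e.sum_comp fun s => (Sum.elim u v s).2 • θ (Sum.elim u v s).1, Fintype.sum_sum_type]
        exact ht)
    have h4 : ∀ g ∈ G, chi g (sg θ u) = 1 := fun g hg => by
      rw [sg, ← sum_fiberwise_of_maps_to (t := univ.image fun s => (u s).1)
        (fun s hs => mem_image_of_mem _ hs), chi_sum_right]
      refine prod_eq_one fun t ht => ?_
      obtain ⟨s₀, -, rfl⟩ := mem_image.1 ht
      have h5 := h3 (u s₀).1 g hg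
      rw [e.sum_comp fun s => if (Sum.elim u v s).1 = (u s₀).1 then (Sum.elim u v s).2 else 0,
        Fintype.sum_sum_type] at h5
      simp only [Sum.elim_inl, Sum.elim_inr, fun s => (hd s₀ s).symm, if_false, sum_const_zero,
        add_zero] at h5
      rw [sum_congr rfl fun s hs => by rw [(mem_filter.1 hs).2], ← sum_smul, ← chi_zsmul,
        sum_filter]
      exact (congrArg (chi · _) ((congrArg (· • g) (sum_congr rfl fun _ _ => by congr)).trans
        h5)).trans (chi_zero_left _)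
    rw [tf, sum_eq_zero fun g hg => by rw [h4 g hg, sub_self, norm_zero, sq, mul_zero], mul_zero]

variable (Γ) in
/-- The data of all levels. -/
structure Tree where
  r : ℕ → ℕ
  M : ℕ → ℕ
  W : ℕ → Finset Γ
  B : ℕ → Finset Γ
  B' : ℕ → Finset Γ
  G : ℕ → Finset Γ
  w : ℕ → ℝ
  θ : ℕ → ℕ → Kd Γ
  η : ℕ → Γ → ℝ
  M0 : M 0 = 1
  Ms : ∀ i, M (i + 1) = M i * (r i + 1)
  W0 : W 0 = {0}
  Ws : ∀ i g, g ∈ W (i + 1) ↔ ∃ a ∈ dif (B i), g + a ∈ W i
  lev : ∀ i, Level i (W i) (M i) (r i) (B i) (B' i) (G i) (w i) (θ i) (η i)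

theorem exists_tree [Infinite Γ] : Nonempty (Tree Γ) := by
  choose r B B' G w θ η h using exists_Level (Γ := Γ)
  let st : ℕ → Finset Γ × ℕ := fun n => Nat.rec ({0}, 1) (fun i p =>
    ((p.1 ×ˢ dif (B i p.1 p.2)).image fun q => q.1 - q.2, p.2 * (r i p.1 p.2 + 1))) n
  have h0 : ∀ i, 0 < (st i).2 := fun i => by
    induction i with
    | zero => exact one_pos
    | succ i ih => exact Nat.mul_pos ih (Nat.succ_pos _)
  refine ⟨⟨fun i => r i (st i).1 (st i).2, fun i => (st i).2, fun i => (st i).1,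
    fun i => B i (st i).1 (st i).2, fun i => B' i (st i).1 (st i).2, fun i => G i (st i).1 (st i).2,
    fun i => w i (st i).1 (st i).2, fun i => θ i (st i).1 (st i).2, fun i => η i (st i).1 (st i).2,
    rfl, fun _ => rfl, rfl, fun i g => ?_, fun i => h _ _ _ (h0 i)⟩⟩
  refine mem_image.trans ⟨?_, ?_⟩
  · rintro ⟨q, hq, rfl⟩
    exact ⟨q.2, (mem_product.1 hq).2, by simpa using (mem_product.1 hq).1⟩
  · rintro ⟨a, ha, hg⟩
    exact ⟨(g + a, a), mem_product.2 ⟨hg, ha⟩, add_sub_cancel_right _ _⟩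

namespace Tree

variable (T : Tree Γ)

/-- The space of branches. -/
abbrev X : Type := (i : ℕ) → Fin (T.r i + 1)

/-- The number of the node of a branch at a given level. -/
def hist (x : T.X) (n : ℕ) : ℕ := Nat.rec 0 (fun i h => h * (T.r i + 1) + x i) n

theorem hist_zero (x : T.X) : T.hist x 0 = 0 := rfl

theorem hist_succ (x : T.X) (i : ℕ) : T.hist x (i + 1) = T.hist x i * (T.r i + 1) + x i := rfl

theorem hist_lt (x : T.X) (i : ℕ) : T.hist x i < T.M i := by
  induction i with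
  | zero => rw [T.M0]; exact one_pos
  | succ i ih =>
    rw [hist_succ, T.Ms]
    have := (x i).2
    nlinarith

theorem hist_congr {x x' : T.X} {I : ℕ} (h : ∀ i < I, x i = x' i) : T.hist x I = T.hist x' I := by
  induction I with
  | zero => rfl
  | succ I ih => rw [hist_succ, hist_succ, ih fun i hi => h i (by omega), h I (by omega)]

theorem hist_inj {x x' : T.X} {I : ℕ} (h : T.hist x I = T.hist x' I) : ∀ i < I, x i = x' i := by
  induction I with
  | zero => exact fun _ h => absurd h (by omega)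
  | succ I ih =>
    rw [hist_succ, hist_succ] at h
    have h1 : (x I : ℕ) = x' I := by
      have := congrArg (· % (T.r I + 1)) h
      simpa only [Nat.mul_add_mod_of_lt (x I).2, Nat.mul_add_mod_of_lt (x' I).2] using this
    have h2 := ih (Nat.eq_of_mul_eq_mul_right (Nat.succ_pos (T.r I))
      (Nat.add_right_cancel (h.trans (congrArg _ h1.symm))))
    intro i hi
    rcases Nat.lt_succ_iff_lt_or_eq.1 hi with hi | rfl
    exacts [h2 i hi, Fin.ext h1]

theorem hist_ne {x x' : T.X} (h : x ≠ x') :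
    ∀ᶠ i in atTop, T.hist x (i + 1) ≠ T.hist x' (i + 1) := by
  obtain ⟨n, hn⟩ := Function.ne_iff.1 h
  filter_upwards [eventually_ge_atTop n] with i hi e
  exact hn (T.hist_inj e n (by omega))

theorem continuous_hist (i : ℕ) : Continuous fun x : T.X => T.hist x i := by
  induction i with
  | zero => exact continuous_const
  | succ i ih =>
    exact (ih.mul continuous_const).add
      ((continuous_of_discreteTopology (f := fun t : Fin (T.r i + 1) => (t : ℕ))).comp
        (continuous_apply i))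

/-- The points attached to a branch. -/
def pt (x : T.X) (i : ℕ) : Kd Γ := T.θ i (T.hist x (i + 1))

theorem continuous_pt (i : ℕ) : Continuous fun x : T.X => T.pt x i :=
  (continuous_of_discreteTopology (f := T.θ i)).comp (T.continuous_hist _)

theorem zero_mem_dif (i : ℕ) : (0 : Γ) ∈ dif (T.B i) := by
  obtain ⟨b, hb⟩ := (T.lev i).ne
  exact mem_dif.2 ⟨b, hb, b, hb, neg_add_cancel b⟩

theorem W_mono : Monotone T.W :=
  monotone_nat_of_le_succ fun i g hg => (T.Ws i g).2 ⟨0, T.zero_mem_dif i, by rwa [add_zero]⟩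

theorem zero_mem_W (i : ℕ) : (0 : Γ) ∈ T.W i :=
  T.W_mono (Nat.zero_le i) (by rw [T.W0]; exact mem_singleton_self _)

end Tree

end Pool.Agent.P.MP_849d05_an.Ab
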