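import Mathlib

set_option autoImplicit false

open Polynomial

namespace Pool.Agent.P.MP_849d05_an

variable {R : Type} [CommRing R] [CharP R 2]

theorem dvd_psum_of_odd {ι : Type} [Fintype ι] (u : ι → R) (q : R) (D : ℕ)
    (h : ∀ l, l < D → q ∣ ∑ i, u i ^ (2 * l + 1)) :
    ∀ e, 1 ≤ e → e ≤ 2 * D → q ∣ ∑ i, u i ^ e := by
  intro e
  induction e using Nat.strong_induction_on with
  | _ e ih =>
    intro h1 h2
    rcases Nat.even_or_odd' e with ⟨l, rfl | rfl⟩
    · have := ih l (by omega) (by omega) (by omega)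
      have e1 : ∑ i, u i ^ (2 * l) = (∑ i, u i ^ l) ^ 2 := by
        rw [CharTwo.sum_sq]
        exact Finset.sum_congr rfl fun i _ => by ring
      rw [e1]
      exact dvd_pow this two_ne_zero
    · exact h l (by omega)

omit [CharP R 2] in
theorem dvd_sum_eval {ι : Type} [Fintype ι] (u : ι → R) (q : R) (M : ℕ)
    (h : ∀ e, 1 ≤ e → e ≤ M → q ∣ ∑ i, u i ^ e) (Q : R[X]) (hd : Q.natDegree ≤ M)
    (h0 : Q.coeff 0 = 0) : q ∣ ∑ i, Q.eval (u i) := by
  simp_rw [eval_eq_sum_range' (Nat.lt_succ_of_le hd)]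
  rw [Finset.sum_comm]
  refine Finset.dvd_sum fun e he => ?_
  rw [← Finset.mul_sum]
  rcases Nat.eq_zero_or_pos e with rfl | hpos
  · simp [h0]
  · exact (h e hpos (Nat.lt_succ_iff.1 (Finset.mem_range.1 he))).mul_left _

omit [CharP R 2] in
theorem dvd_lagrange {ι : Type} [Fintype ι] (u : ι → R) (q : R) (M : ℕ)
    (h : ∀ e, 1 ≤ e → e ≤ M → q ∣ ∑ i, u i ^ e) (S : Finset ι) (hS : S.card + 1 ≤ M) :
    q ∣ ∑ i, u i * ∏ j ∈ S, (u i - u j) := by
  rcases subsingleton_or_nontrivial R with hR | hR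
  · exact ⟨0, Subsingleton.elim _ _⟩
  have := dvd_sum_eval u q M h (X * ∏ j ∈ S, (X - C (u j))) (by
    refine natDegree_mul_le.trans ?_
    have := natDegree_prod_le S fun j => (X - C (u j) : R[X])
    simp only [natDegree_X_sub_C, Finset.sum_const, smul_eq_mul, mul_one] at this
    rw [natDegree_X]; omega) (by simp)
  simpa [eval_prod] using this

omit [CharP R 2] in
theorem mult_eq_zero [IsDomain R] [DecidableEq R] {ι : Type} [Fintype ι] (u : ι → R) (M : ℕ)
    (hM : Fintype.card ι ≤ M) (h : ∀ e, 1 ≤ e → e ≤ M → ∑ i, u i ^ e = 0) {v : R} (hv : v ≠ 0) :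
    ((Finset.univ.filter fun i => u i = v).card : R) = 0 := by
  classical
  by_cases hne : (Finset.univ.filter fun i => u i = v) = ∅
  · simp [hne]
  have hcard : (Finset.univ.filter fun i => ¬ u i = v).card + 1 ≤ M := by
    have h1 := Finset.card_filter_add_card_filter_not (s := Finset.univ) (fun i => u i = v)
    have h2 := Finset.card_pos.2 (Finset.nonempty_iff_ne_empty.2 hne)
    rw [Finset.card_univ] at h1
    omega
  have h1 := dvd_lagrange u 0 M (fun e h1 h2 => by rw [h e h1 h2]) _ hcard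
  rw [zero_dvd_iff, ← Finset.sum_filter_add_sum_filter_not Finset.univ (fun i => u i = v)] at h1
  have h2 : ∑ i ∈ Finset.univ.filter (fun i => ¬ u i = v),
      u i * ∏ j ∈ Finset.univ.filter (fun i => ¬ u i = v), (u i - u j) = 0 :=
    Finset.sum_eq_zero fun i hi => by
      rw [Finset.prod_eq_zero hi (sub_self _), mul_zero]
  have h3 : ∑ i ∈ Finset.univ.filter (fun i => u i = v),
      u i * ∏ j ∈ Finset.univ.filter (fun i => ¬ u i = v), (u i - u j)
      = ((Finset.univ.filter fun i => u i = v).card : R) *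
        (v * ∏ j ∈ Finset.univ.filter (fun i => ¬ u i = v), (v - u j)) := by
    rw [← nsmul_eq_mul, ← Finset.sum_const]
    exact Finset.sum_congr rfl fun i hi => by rw [(Finset.mem_filter.1 hi).2]
  rw [h2, h3, add_zero] at h1
  refine (mul_eq_zero.1 h1).resolve_right (mul_ne_zero hv ?_)
  exact Finset.prod_ne_zero_iff.2 fun j hj =>
    sub_ne_zero.2 fun h => (Finset.mem_filter.1 hj).2 h.symm

theorem psum_zero_of_disjoint [IsDomain R] {A B : Type} [Fintype A] [Fintype B]
    (α : A → R) (β : B → R) (D : ℕ) (hD : Fintype.card A + Fintype.card B ≤ 2 * D)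
    (h : ∀ l, l < D → ∑ a, α a ^ (2 * l + 1) = ∑ b, β b ^ (2 * l + 1))
    (hdis : ∀ a b, α a ≠ β b) (e : ℕ) (he : 1 ≤ e) : ∑ a, α a ^ e = 0 := by
  classical
  have h1 := dvd_psum_of_odd (Sum.elim α β) 0 D (fun l hl => by
    rw [Fintype.sum_sum_type]
    simp only [Sum.elim_inl, Sum.elim_inr, h l hl, CharTwo.add_self_eq_zero, dvd_refl])
  have h2 : ∀ a, α a ≠ 0 → ((Finset.univ.filter fun i => α i = α a).card : R) = 0 := by
    intro a ha
    have := mult_eq_zero (Sum.elim α β) (2 * D) (by simpa using hD)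
      (fun e h2 h3 => zero_dvd_iff.1 (h1 e h2 h3)) ha
    rw [← this]
    congr 1
    rw [Finset.card_filter, Finset.card_filter, Fintype.sum_sum_type]
    simp only [Sum.elim_inl, Sum.elim_inr, fun b => (hdis a b).symm, if_false,
      Finset.sum_const_zero, add_zero]
    exact Finset.sum_congr rfl fun x _ => by congr
  rw [Finset.sum_comp (fun v => v ^ e) α]
  refine Finset.sum_eq_zero fun v hv => ?_
  obtain ⟨a, -, rfl⟩ := Finset.mem_image.1 hv
  by_cases ha : α a = 0
  · rw [ha, zero_pow (by omega), smul_zero]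
  · rw [nsmul_eq_mul, h2 a ha, zero_mul]

omit [CharP R 2] in
theorem pow_sub_dvd_of_mul [IsDomain R] {p a b : R} (hp : Prime p) {N k : ℕ}
    (h : p ^ N ∣ a * b) (ha : ¬ p ^ k ∣ a) : p ^ (N - k) ∣ b := by
  rw [pow_dvd_iff_le_emultiplicity, emultiplicity_mul hp] at h
  rw [← emultiplicity_lt_iff_not_dvd] at ha
  rw [pow_dvd_iff_le_emultiplicity]
  generalize emultiplicity p a = x at *
  generalize emultiplicity p b = y at *
  induction y with
  | top => exact le_top
  | coe y =>
    induction x with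
    | top => exact absurd ha (by simp)
    | coe x =>
      norm_cast at *
      omega

omit [CharP R 2] in
theorem pow_sub_dvd_of_prod [IsDomain R] {p : R} (hp : Prime p) {ι : Type} (S : Finset ι)
    (a : ι → R) (k : ℕ) (ha : ∀ i ∈ S, ¬ p ^ k ∣ a i) :
    ∀ {N : ℕ} {b : R}, p ^ N ∣ (∏ i ∈ S, a i) * b → p ^ (N - S.card * k) ∣ b := by
  classical
  induction S using Finset.induction_on with
  | empty => intro N b h; simpa using h
  | insert i S hi ih =>
    intro N b h
    rw [Finset.prod_insert hi, mul_assoc] at h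
    have h1 := pow_sub_dvd_of_mul hp h (ha i (Finset.mem_insert_self _ _))
    have h2 := ih (fun j hj => ha j (Finset.mem_insert_of_mem hj)) h1
    rwa [Finset.card_insert_of_notMem hi, add_mul, one_mul, add_comm, ← Nat.sub_sub]

theorem close_of_psum [IsDomain R] {p : R} (hp : Prime p) (D k N : ℕ) (t s : Fin D → R)
    (ht0 : ∀ i, ¬ p ^ k ∣ t i) (ht : ∀ i j, i ≠ j → ¬ p ^ k ∣ t i - t j)
    (hs : ∀ i j, i ≠ j → ¬ p ^ k ∣ s i - s j)
    (h : ∀ l, l < D → p ^ N ∣ ∑ i, t i ^ (2 * l + 1) + ∑ i, s i ^ (2 * l + 1)) (i : Fin D) :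
    ∃ j, p ^ (N - 2 * D * k) ∣ t i - s j := by
  classical
  have h1 := dvd_psum_of_odd (Sum.elim t s) (p ^ N) D (fun l hl => by
    rw [Fintype.sum_sum_type]; exact h l hl)
  have h2 := dvd_lagrange (Sum.elim t s) (p ^ N) (2 * D) h1 (Finset.univ.erase (Sum.inl i)) (by
    rw [Finset.card_erase_add_one (Finset.mem_univ _)]
    simp; omega)
  rw [Finset.sum_eq_single (Sum.inl i) (fun j _ hj => by
    rw [Finset.prod_eq_zero (i := j) (Finset.mem_erase.2 ⟨hj, Finset.mem_univ _⟩) (sub_self _),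
      mul_zero]) (by simp)] at h2
  obtain ⟨j₀, hj₀⟩ : ∃ j₀, ∀ j, j ≠ j₀ → ¬ p ^ k ∣ t i - s j := by
    by_cases hex : ∃ j₀, p ^ k ∣ t i - s j₀
    · obtain ⟨j₀, h0⟩ := hex
      refine ⟨j₀, fun j hj hd => hs j₀ j hj.symm ?_⟩
      have := dvd_sub hd h0
      convert this using 1; ring
    · push Not at hex
      exact ⟨i, fun j _ => hex j⟩
  refine ⟨j₀, ?_⟩
  have hmem : (Sum.inr j₀ : Fin D ⊕ Fin D) ∈ Finset.univ.erase (Sum.inl i) := by simp
  rw [← Finset.prod_erase_mul _ _ hmem] at h2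
  have h3 := pow_sub_dvd_of_mul hp h2 (ht0 i)
  have h4 := pow_sub_dvd_of_prod hp _ _ k (fun x hx => by
    rcases x with j | j
    · refine ht i j ?_
      rintro rfl
      simp at hx
    · refine hj₀ j ?_
      rintro rfl
      simp at hx) h3
  refine (pow_dvd_pow p ?_).trans h4
  have hc : ((Finset.univ.erase (Sum.inl i : Fin D ⊕ Fin D)).erase (Sum.inr j₀)).card + 1 + 1
      = 2 * D := by
    rw [Finset.card_erase_add_one hmem, Finset.card_erase_add_one (Finset.mem_univ _)]
    simp; omega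
  rw [← hc]
  generalize ((Finset.univ.erase (Sum.inl i : Fin D ⊕ Fin D)).erase (Sum.inr j₀)).card = c
  have : (c + 1 + 1) * k = c * k + k + k := by ring
  omega

end Pool.Agent.P.MP_849d05_an
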