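import Mathlib

set_option autoImplicit false

open scoped ComplexConjugate ComplexOrder ENNReal Topology
open Filter MeasureTheory

namespace Pool.Agent.P.MP_849d05_an

abbrev Gp (I : Type) := I →₀ ZMod 2
abbrev Kp (I : Type) := I → ZMod 2

noncomputable def sgn (a : ZMod 2) : ℂ := if a = 0 then 1 else -1

theorem zmod2_cases (a : ZMod 2) : a = 0 ∨ a = 1 := by
  revert a; decide

@[simp] theorem sgn_zero : sgn 0 = 1 := by simp [sgn]
@[simp] theorem sgn_one : sgn 1 = -1 := by simp [sgn]

theorem zmod2_add_self (a : ZMod 2) : a + a = 0 := by revert a; decide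

theorem sgn_add (a b : ZMod 2) : sgn (a + b) = sgn a * sgn b := by
  rcases zmod2_cases a with rfl | rfl <;> rcases zmod2_cases b with rfl | rfl <;>
    simp [zmod2_add_self]

theorem conj_sgn (a : ZMod 2) : conj (sgn a) = sgn a := by
  rcases zmod2_cases a with rfl | rfl <;> simp

theorem norm_sgn (a : ZMod 2) : ‖sgn a‖ = 1 := by
  rcases zmod2_cases a with rfl | rfl <;> simp

theorem sgn_mul_self (a : ZMod 2) : sgn a * sgn a = 1 := by
  rw [← sgn_add, zmod2_add_self, sgn_zero]

theorem sgn_im (a : ZMod 2) : (sgn a).im = 0 := by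
  rcases zmod2_cases a with rfl | rfl <;> simp

variable {I : Type}

theorem Gp.add_self (g : Gp I) : g + g = 0 := by
  ext i; simp [zmod2_add_self]

theorem Gp.neg_eq (g : Gp I) : -g = g := by
  rw [neg_eq_iff_add_eq_zero, Gp.add_self]

theorem Kp.add_self (x : Kp I) : x + x = 0 := by
  ext i; simp [zmod2_add_self]

theorem Kp.neg_eq (x : Kp I) : -x = x := by
  rw [neg_eq_iff_add_eq_zero, Kp.add_self]

noncomputable def pair (g : Gp I) (x : Kp I) : ZMod 2 := g.sum fun i a => a * x i

theorem pair_add_left (g h : Gp I) (x : Kp I) : pair (g + h) x = pair g x + pair h x := by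
  unfold pair
  rw [Finsupp.sum_add_index']
  · simp
  · intro i a b; ring

theorem pair_add_right (g : Gp I) (x y : Kp I) : pair g (x + y) = pair g x + pair g y := by
  unfold pair
  simp only [Finsupp.sum, Pi.add_apply, mul_add, Finset.sum_add_distrib]

@[simp] theorem pair_zero_left (x : Kp I) : pair (0 : Gp I) x = 0 := by simp [pair]
@[simp] theorem pair_zero_right (g : Gp I) : pair g (0 : Kp I) = 0 := by simp [pair]

theorem pair_single (i : I) (a : ZMod 2) (x : Kp I) : pair (Finsupp.single i a) x = a * x i := by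
  simp [pair]

theorem pair_eq_sum (g : Gp I) (x : Kp I) (F : Finset I) (hF : g.support ⊆ F) :
    pair g x = ∑ i ∈ F, g i * x i := by
  unfold pair
  rw [Finsupp.sum_of_support_subset g hF]
  intro i _; simp

theorem pair_congr (g : Gp I) {x y : Kp I} (h : ∀ i ∈ g.support, x i = y i) :
    pair g x = pair g y := by
  unfold pair
  exact Finsupp.sum_congr fun i hi => by rw [h i hi]

theorem continuous_pair (g : Gp I) : Continuous (pair g) := by
  unfold pair Finsupp.sum
  refine continuous_finsetSum _ fun i _ => ?_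
  exact (continuous_of_discreteTopology (f := fun a : ZMod 2 => g i * a)).comp (continuous_apply i)

noncomputable def chi (g : Gp I) (x : Kp I) : ℂ := sgn (pair g x)

theorem chi_add_left (g h : Gp I) (x : Kp I) : chi (g + h) x = chi g x * chi h x := by
  simp [chi, pair_add_left, sgn_add]

theorem chi_add_right (g : Gp I) (x y : Kp I) : chi g (x + y) = chi g x * chi g y := by
  simp [chi, pair_add_right, sgn_add]

@[simp] theorem chi_zero_left (x : Kp I) : chi (0 : Gp I) x = 1 := by simp [chi]
@[simp] theorem chi_zero_right (g : Gp I) : chi g (0 : Kp I) = 1 := by simp [chi]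

theorem conj_chi (g : Gp I) (x : Kp I) : conj (chi g x) = chi g x := conj_sgn _
theorem norm_chi (g : Gp I) (x : Kp I) : ‖chi g x‖ = 1 := norm_sgn _
theorem chi_mul_self (g : Gp I) (x : Kp I) : chi g x * chi g x = 1 := sgn_mul_self _
theorem chi_im (g : Gp I) (x : Kp I) : (chi g x).im = 0 := sgn_im _

theorem chi_sum_right {ι : Type} (g : Gp I) (s : Finset ι) (x : ι → Kp I) :
    chi g (∑ i ∈ s, x i) = ∏ i ∈ s, chi g (x i) := by
  classical
  induction s using Finset.induction_on with
  | empty => simp
  | insert a s ha ih => rw [Finset.sum_insert ha, Finset.prod_insert ha, chi_add_right, ih]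

theorem chi_sum_left {ι : Type} (s : Finset ι) (g : ι → Gp I) (x : Kp I) :
    chi (∑ i ∈ s, g i) x = ∏ i ∈ s, chi (g i) x := by
  classical
  induction s using Finset.induction_on with
  | empty => simp
  | insert a s ha ih => rw [Finset.sum_insert ha, Finset.prod_insert ha, chi_add_left, ih]

theorem continuous_chi (g : Gp I) : Continuous (chi g) :=
  (continuous_of_discreteTopology (f := sgn)).comp (continuous_pair g)

theorem chi_congr (g : Gp I) {x y : Kp I} (h : ∀ i ∈ g.support, x i = y i) :
    chi g x = chi g y := by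
  unfold chi; rw [pair_congr g h]

theorem exists_chi_eq_neg_one {g : Gp I} (hg : g ≠ 0) : ∃ x : Kp I, chi g x = -1 := by
  classical
  obtain ⟨i, hi⟩ : ∃ i, g i ≠ 0 := by
    by_contra h
    push Not at h
    exact hg (Finsupp.ext h)
  have h1 : g i = 1 := (zmod2_cases _).resolve_left hi
  refine ⟨Pi.single i 1, ?_⟩
  have : pair g (Pi.single i 1) = 1 := by
    unfold pair
    rw [Finsupp.sum, Finset.sum_eq_single i]
    · simp [h1]
    · intro j _ hj; simp [hj]
    · intro h; simp at h; exact absurd h hi
  simp [chi, this]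

section Haar

variable [Countable I]

theorem measurable_chi (g : Gp I) : Measurable (chi g) := (continuous_chi g).measurable

variable (I) in
noncomputable def haar : Measure (Kp I) := Measure.addHaarMeasure ⊤

instance : IsProbabilityMeasure (haar I) :=
  ⟨by simpa [haar] using Measure.addHaarMeasure_self (G := Kp I) (K₀ := ⊤)⟩

instance : (haar I).IsAddHaarMeasure := by unfold haar; infer_instance

theorem integrable_chi (g : Gp I) (μ : Measure (Kp I)) [IsFiniteMeasure μ] :
    Integrable (chi g) μ :=
  Integrable.of_bound (measurable_chi g).aestronglyMeasurable 1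
    (Eventually.of_forall fun x => (norm_chi g x).le)

omit [Countable I] in
theorem integral_chi_of_invariant (μ : Measure (Kp I)) [μ.IsAddLeftInvariant] {g : Gp I}
    (hg : g ≠ 0) : ∫ x, chi g x ∂μ = 0 := by
  obtain ⟨y, hy⟩ := exists_chi_eq_neg_one hg
  have h := integral_add_left_eq_self (μ := μ) (chi g) y
  simp only [chi_add_right, hy, neg_mul, one_mul, integral_neg] at h
  linear_combination (-1 / 2 : ℂ) * h

open Classical in
theorem integral_chi_haar (g : Gp I) : ∫ x, chi g x ∂(haar I) = if g = 0 then 1 else 0 := by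
  split_ifs with hg
  · subst hg; simp
  · exact integral_chi_of_invariant _ hg

end Haar

/-- The finite subgroup of elements supported in `F`. -/
noncomputable def GF (F : Finset I) : Finset (Gp I) := by
  classical exact F.finsupp fun _ => Finset.univ

theorem mem_GF {F : Finset I} {g : Gp I} : g ∈ GF F ↔ g.support ⊆ F := by
  classical
  unfold GF
  rw [Finset.mem_finsupp_iff]
  simp

theorem card_GF (F : Finset I) : (GF F).card = 2 ^ F.card := by
  classical
  unfold GF
  rw [Finset.card_finsupp]
  simp

theorem zero_mem_GF (F : Finset I) : (0 : Gp I) ∈ GF F := by simp [mem_GF]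

theorem add_mem_GF {F : Finset I} {g h : Gp I} (hg : g ∈ GF F) (hh : h ∈ GF F) :
    g + h ∈ GF F := by
  classical
  rw [mem_GF] at *
  exact Finsupp.support_add.trans (Finset.union_subset hg hh)

theorem sum_GF_add {M : Type} [AddCommMonoid M] {F : Finset I} {h : Gp I} (hh : h ∈ GF F)
    (f : Gp I → M) : ∑ g ∈ GF F, f (h + g) = ∑ g ∈ GF F, f g := by
  refine Finset.sum_bij' (fun g _ => h + g) (fun g _ => h + g) (fun g hg => add_mem_GF hh hg)
    (fun g hg => add_mem_GF hh hg) ?_ ?_ ?_
  · intro g _; rw [← add_assoc, Gp.add_self, zero_add]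
  · intro g _; rw [← add_assoc, Gp.add_self, zero_add]
  · intro g _; rfl

open Classical in
theorem sum_chi_GF (F : Finset I) (x : Kp I) :
    ∑ g ∈ GF F, chi g x = if ∀ i ∈ F, x i = 0 then (2 : ℂ) ^ F.card else 0 := by
  split_ifs with h
  · have : ∀ g ∈ GF F, chi g x = 1 := by
      intro g hg
      rw [chi_congr g (y := 0) fun i hi => h i (mem_GF.1 hg hi)]
      simp
    rw [Finset.sum_congr rfl this]
    simp [card_GF]
  · push Not at h
    obtain ⟨i, hi, hx⟩ := h
    have h1 : x i = 1 := (zmod2_cases _).resolve_left hx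
    have hm : Finsupp.single i (1 : ZMod 2) ∈ GF F := by
      rw [mem_GF]
      exact Finsupp.support_single_subset.trans (by simpa using hi)
    have := sum_GF_add hm (fun g => chi g x)
    have hc : chi (Finsupp.single i (1 : ZMod 2)) x = -1 := by simp [chi, pair_single, h1]
    simp only [chi_add_left, hc, neg_mul, one_mul, Finset.sum_neg_distrib] at this
    linear_combination (-1 / 2 : ℂ) * this

/-- The cylinder set of points agreeing with `c` on `F`. -/
def cyl (F : Finset I) (c : Kp I) : Set (Kp I) := {x | ∀ i ∈ F, x i = c i}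

theorem isClosed_cyl (F : Finset I) (c : Kp I) : IsClosed (cyl F c) := by
  have : cyl F c = ⋂ i ∈ F, {x : Kp I | x i = c i} := by ext x; simp [cyl]
  rw [this]
  exact isClosed_biInter fun i _ => isClosed_eq (continuous_apply i) continuous_const

theorem isOpen_cyl (F : Finset I) (c : Kp I) : IsOpen (cyl F c) := by
  have : cyl F c = ⋂ i ∈ F, {x : Kp I | x i = c i} := by ext x; simp [cyl]
  rw [this]
  exact isOpen_biInter_finset fun i _ =>
    (isOpen_discrete {c i}).preimage (continuous_apply (A := fun _ : I => ZMod 2) i)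

theorem measurableSet_cyl [Countable I] (F : Finset I) (c : Kp I) : MeasurableSet (cyl F c) :=
  (isClosed_cyl F c).measurableSet

theorem indicator_cyl (F : Finset I) (c x : Kp I) :
    (cyl F c).indicator (fun _ => (1 : ℂ)) x
      = ∑ g ∈ GF F, (((2 : ℂ) ^ F.card)⁻¹ * chi g c) * chi g x := by
  classical
  have h1 : ∑ g ∈ GF F, (((2 : ℂ) ^ F.card)⁻¹ * chi g c) * chi g x
      = ((2 : ℂ) ^ F.card)⁻¹ * ∑ g ∈ GF F, chi g (c + x) := by
    rw [Finset.mul_sum]
    refine Finset.sum_congr rfl fun g _ => ?_
    rw [chi_add_right]; ring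
  rw [h1, sum_chi_GF]
  have h2 : (∀ i ∈ F, (c + x) i = 0) ↔ x ∈ cyl F c := by
    simp only [cyl, Pi.add_apply, Set.mem_ofPred_eq]
    refine forall₂_congr fun i _ => ?_
    generalize c i = a; generalize x i = b
    revert a b; decide
  by_cases hx : x ∈ cyl F c
  · rw [if_pos (h2.2 hx), Set.indicator_of_mem hx, inv_mul_cancel₀ (by positivity)]
  · rw [if_neg (fun h => hx (h2.1 h)), Set.indicator_of_notMem hx, mul_zero]

theorem measure_cyl_of_invariant [Countable I] (μ : Measure (Kp I)) [IsProbabilityMeasure μ]
    [μ.IsAddLeftInvariant] (F : Finset I) (c : Kp I) :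
    μ.real (cyl F c) = ((2 : ℝ) ^ F.card)⁻¹ := by
  classical
  have h1 : ∫ x, (cyl F c).indicator (fun _ => (1 : ℂ)) x ∂μ = (μ.real (cyl F c) : ℂ) := by
    rw [integral_indicator (measurableSet_cyl F c)]
    simp
  have h2 : ∫ x, (cyl F c).indicator (fun _ => (1 : ℂ)) x ∂μ = ((2 : ℂ) ^ F.card)⁻¹ := by
    simp_rw [indicator_cyl]
    rw [integral_finsetSum _ fun g _ => (integrable_chi g μ).const_mul _]
    simp_rw [integral_const_mul]
    rw [Finset.sum_eq_single 0]
    · simp
    · intro g _ hg; rw [integral_chi_of_invariant μ hg, mul_zero]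
    · intro h; exact absurd (zero_mem_GF F) h
  rw [h1] at h2
  apply Complex.ofReal_injective
  rw [h2]; push_cast; rfl

end Pool.Agent.P.MP_849d05_an
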