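import Pool.Agent.P.MP_849d05_an.Small
import Pool.Agent.P.MP_849d05_an.Sumset
import Pool.Agent.P.MP_849d05_an.Alg

set_option autoImplicit false

open scoped ComplexConjugate ComplexOrder ENNReal NNReal Topology
open Filter MeasureTheory PowerSeries

namespace Pool.Agent.P.MP_849d05_an

instance : CharP (PowerSeries (ZMod 2)) 2 :=
  charP_of_injective_algebraMap (R := ZMod 2) (PowerSeries.C_injective) 2

/-- The odd moment curve over the power series ring over the field with two elements. -/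
noncomputable def gam (D : ℕ) (x : Kp ℕ) : Kp (Fin D × ℕ) :=
  fun p => coeff p.2 ((PowerSeries.mk x) ^ (2 * (p.1 : ℕ) + 1))

theorem continuous_coeff_pow (e : ℕ) :
    ∀ n, Continuous fun x : Kp ℕ => coeff n ((PowerSeries.mk x) ^ e) := by
  induction e with
  | zero => intro n; simp only [pow_zero]; exact continuous_const
  | succ e ih =>
    intro n
    simp only [pow_succ, coeff_mul, coeff_mk]
    refine continuous_finsetSum _ fun p _ => ?_
    exact (continuous_of_discreteTopology (f := fun a : ZMod 2 × ZMod 2 => a.1 * a.2)).comp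
      ((ih p.1).prodMk (continuous_apply p.2))

theorem continuous_gam (D : ℕ) : Continuous (gam D) :=
  continuous_pi fun p => continuous_coeff_pow _ p.2

theorem sum_gam_apply {ι : Type} [Fintype ι] (D : ℕ) (t : ι → Kp ℕ) (l : Fin D) (n : ℕ) :
    (∑ i, gam D (t i)) (l, n) = coeff n (∑ i, (PowerSeries.mk (t i)) ^ (2 * (l : ℕ) + 1)) := by
  simp [gam, Finset.sum_apply]

theorem mk_add' (x y : Kp ℕ) : PowerSeries.mk (x + y) = PowerSeries.mk x + PowerSeries.mk y := by
  ext n; simp

theorem mk_inj' {x y : Kp ℕ} (h : PowerSeries.mk x = PowerSeries.mk y) : x = y := by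
  ext n
  simpa using congrArg (coeff n) h

theorem exists_common {A B : Type} [Fintype A] [Fintype B] (D : ℕ) (a : A → Kp ℕ) (b : B → Kp ℕ)
    (hD : Fintype.card A + Fintype.card B ≤ 2 * D)
    (h : ∑ i, gam D (a i) = ∑ j, gam D (b j)) (h0 : ∑ i, gam D (a i) ≠ 0) :
    ∃ i j, a i = b j := by
  by_contra hc
  push Not at hc
  apply h0
  ext ⟨l, n⟩
  rw [sum_gam_apply, psum_zero_of_disjoint (fun i => PowerSeries.mk (a i))
    (fun j => PowerSeries.mk (b j)) D hD ?_ (fun i j hij => hc i j (mk_inj' hij)) _ (by omega)]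
  · simp
  · intro l hl
    ext n
    rw [← sum_gam_apply D a ⟨l, hl⟩, ← sum_gam_apply D b ⟨l, hl⟩, h]

/-- The `k`-fold sumset of the curve. -/
def Esum (D k : ℕ) : Set (Kp (Fin D × ℕ)) := Set.range fun t : Fin k → Kp ℕ => ∑ i, gam D (t i)

theorem continuous_sum_gam (D k : ℕ) : Continuous fun t : Fin k → Kp ℕ => ∑ i, gam D (t i) :=
  continuous_finsetSum _ fun i _ => (continuous_gam D).comp (continuous_apply i)

theorem isClosed_Esum (D k : ℕ) : IsClosed (Esum D k) :=
  (isCompact_range (continuous_sum_gam D k)).isClosed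

theorem Esum_zero (D : ℕ) : Esum D 0 = {0} := by
  ext y; simp [Esum]

theorem gam_mem_Esum (D : ℕ) (x : Kp ℕ) : gam D x ∈ Esum D 1 := ⟨fun _ => x, by simp⟩

theorem Esum_sum (D k : ℕ) (y : Fin k → Kp (Fin D × ℕ)) (h : ∀ i, y i ∈ Esum D 1) :
    ∑ i, y i ∈ Esum D k := by
  choose t ht using h
  refine ⟨fun i => t i 0, Finset.sum_congr rfl fun i _ => ?_⟩
  simpa using ht i

theorem step_Esum (D k : ℕ) (hk : 4 * (k + 1) ≤ 2 * D) : Step (Esum D k) (Esum D (k + 1)) := by
  intro c c' hne
  by_cases hex : ∃ y, c + y ∈ Esum D (k + 1) ∧ c' + y ∈ Esum D (k + 1)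
  swap
  · exact ⟨∅, Set.countable_empty, fun y h1 h2 => absurd ⟨y, h1, h2⟩ hex⟩
  obtain ⟨y₀, ⟨a, ha⟩, ⟨a', ha'⟩⟩ := hex
  refine ⟨Set.range fun p : Bool × (Fin (k + 1) ⊕ Fin (k + 1)) =>
    (if p.1 then c else c') + gam D (Sum.elim a a' p.2), Set.countable_range _, ?_⟩
  rintro y ⟨b, hb⟩ ⟨b', hb'⟩
  simp only at ha ha' hb hb'
  have e1 : ∑ i, gam D (Sum.elim a a' i) = c + c' := by
    rw [Fintype.sum_sum_type]
    simp only [Sum.elim_inl, Sum.elim_inr, ha, ha']
    rw [show c + y₀ + (c' + y₀) = c + c' + (y₀ + y₀) by abel, Kp.add_self, add_zero]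
  have e2 : ∑ i, gam D (Sum.elim b b' i) = c + c' := by
    rw [Fintype.sum_sum_type]
    simp only [Sum.elim_inl, Sum.elim_inr, hb, hb']
    rw [show c + y + (c' + y) = c + c' + (y + y) by abel, Kp.add_self, add_zero]
  obtain ⟨i, j, hij⟩ := exists_common D (Sum.elim a a') (Sum.elim b b') (by simp; omega)
    (e1.trans e2.symm) (by
      rw [e1]; intro h0
      apply hne
      rw [← Kp.neg_eq c]; exact neg_eq_of_add_eq_zero_right h0)
  rcases j with j | j
  · refine ⟨_, ⟨(true, i), rfl⟩, fun l => b (j.succAbove l), ?_⟩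
    simp only [if_true, hij, Sum.elim_inl]
    rw [Fin.sum_univ_succAbove _ j] at hb
    rw [add_right_comm, ← hb, add_right_comm, Kp.add_self, zero_add]
  · refine ⟨_, ⟨(false, i), rfl⟩, fun l => b' (j.succAbove l), ?_⟩
    simp only [Bool.false_eq_true, if_false, hij, Sum.elim_inr]
    rw [Fin.sum_univ_succAbove _ j] at hb'
    rw [add_right_comm, ← hb', add_right_comm, Kp.add_self, zero_add]

theorem mem_cyl_range (k : ℕ) (x : Kp ℕ) :
    x ∈ cyl (Finset.range k) 0 ↔ X ^ k ∣ PowerSeries.mk x := by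
  simp [cyl, X_pow_dvd_iff]

/-- Tuples of parameters that are `k`-separated from each other and from zero. -/
def sep (D k : ℕ) : Set (Fin D → Kp ℕ) :=
  {t | (∀ i, t i ∉ cyl (Finset.range k) 0) ∧
    ∀ i j, i ≠ j → t i + t j ∉ cyl (Finset.range k) 0}

theorem compl_sep (D k : ℕ) : (sep D k)ᶜ =
    (⋃ i, (fun t : Fin D → Kp ℕ => t i) ⁻¹' cyl (Finset.range k) 0) ∪
      ⋃ p : {p : Fin D × Fin D // p.1 ≠ p.2},
        (fun t : Fin D → Kp ℕ => t p.1.1 + t p.1.2) ⁻¹' cyl (Finset.range k) 0 := by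
  ext t
  simp only [sep, Set.mem_compl_iff, Set.mem_ofPred_eq, Set.mem_union, Set.mem_iUnion,
    Set.mem_preimage, Subtype.exists, Prod.exists, exists_prop]
  rw [not_and_or]
  push Not
  rfl

theorem measurableSet_sep (D k : ℕ) : MeasurableSet (sep D k) := by
  rw [← compl_compl (sep D k), compl_sep]
  refine (MeasurableSet.union (MeasurableSet.iUnion fun i => ?_)
    (MeasurableSet.iUnion fun p => ?_)).compl
  · exact measurable_pi_apply i (measurableSet_cyl _ _)
  · have : Measurable fun t : Fin D → Kp ℕ => t p.1.1 + t p.1.2 :=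
      (measurable_pi_apply _).add (measurable_pi_apply _)
    exact this (measurableSet_cyl _ _)

/-- The parameter measure. -/
noncomputable def par (D : ℕ) : Measure (Fin D → Kp ℕ) := Measure.pi fun _ => haar ℕ

instance (D : ℕ) : IsProbabilityMeasure (par D) := by unfold par; infer_instance
instance (D : ℕ) : (par D).IsAddLeftInvariant := by unfold par; infer_instance

theorem par_preimage_cyl (D : ℕ) (ψ : (Fin D → Kp ℕ) →+ Kp ℕ) (hψ : Measurable ψ)
    (hs : Function.Surjective ψ) (F : Finset ℕ) (c : Kp ℕ) :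
    (par D).real (ψ ⁻¹' cyl F c) = ((2 : ℝ) ^ F.card)⁻¹ := by
  have : ((par D).map ψ).IsAddLeftInvariant := by
    refine ⟨fun c => ?_⟩
    obtain ⟨d, rfl⟩ := hs c
    rw [Measure.map_map (measurable_const_add _) hψ]
    conv_rhs => rw [← map_add_left_eq_self (par D) d, Measure.map_map hψ (measurable_const_add _)]
    congr 1
    ext x i
    simp
  have : IsProbabilityMeasure ((par D).map ψ) := Measure.isProbabilityMeasure_map hψ.aemeasurable
  rw [← map_measureReal_apply hψ (measurableSet_cyl F c)]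
  exact measure_cyl_of_invariant _ F c

theorem par_compl_sep (D k : ℕ) : (par D).real (sep D k)ᶜ ≤ (D + D * D) * ((2 : ℝ) ^ k)⁻¹ := by
  classical
  rw [compl_sep]
  refine (measureReal_union_le _ _).trans ?_
  rw [add_mul]
  refine add_le_add ((measureReal_iUnion_fintype_le _).trans ?_)
    ((measureReal_iUnion_fintype_le _).trans ?_)
  · have : ∀ i : Fin D, (par D).real ((fun t : Fin D → Kp ℕ => t i) ⁻¹' cyl (Finset.range k) 0)
        = ((2 : ℝ) ^ k)⁻¹ := by
      intro i
      have := par_preimage_cyl D (Pi.evalAddMonoidHom (fun _ => Kp ℕ) i) (measurable_pi_apply i)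
        (fun x => ⟨fun _ => x, rfl⟩) (Finset.range k) 0
      rwa [Finset.card_range] at this
    simp [this]
  · have : ∀ p : {p : Fin D × Fin D // p.1 ≠ p.2}, (par D).real
        ((fun t : Fin D → Kp ℕ => t p.1.1 + t p.1.2) ⁻¹' cyl (Finset.range k) 0)
        = ((2 : ℝ) ^ k)⁻¹ := by
      intro p
      have := par_preimage_cyl D (Pi.evalAddMonoidHom (fun _ => Kp ℕ) p.1.1 +
        Pi.evalAddMonoidHom (fun _ => Kp ℕ) p.1.2)
        ((measurable_pi_apply _).add (measurable_pi_apply _))
        (fun x => ⟨Pi.single p.1.1 x, by simp [p.2.symm]⟩) (Finset.range k) 0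
      rwa [Finset.card_range] at this
    simp only [this, Finset.sum_const, Finset.card_univ, nsmul_eq_mul]
    gcongr
    have := Fintype.card_subtype_le (fun p : Fin D × Fin D => p.1 ≠ p.2)
    simp only [Fintype.card_prod, Fintype.card_fin] at this
    exact_mod_cast this

theorem par_sep_cyl (D k N : ℕ) (c : Kp (Fin D × ℕ)) :
    (par D).real (((fun t : Fin D → Kp ℕ => ∑ i, gam D (t i)) ⁻¹'
      cyl (Finset.univ ×ˢ Finset.range N) c) ∩ sep D k)
      ≤ (D * (2 : ℝ) ^ (2 * D * k)) ^ D * ((2 : ℝ) ^ (D * N))⁻¹ := by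
  rcases Set.eq_empty_or_nonempty (((fun t : Fin D → Kp ℕ => ∑ i, gam D (t i)) ⁻¹'
      cyl (Finset.univ ×ˢ Finset.range N) c) ∩ sep D k) with h | ⟨s, hs1, hs2⟩
  · rw [h, measureReal_empty]; positivity
  have hsub : (((fun t : Fin D → Kp ℕ => ∑ i, gam D (t i)) ⁻¹'
      cyl (Finset.univ ×ˢ Finset.range N) c) ∩ sep D k)
      ⊆ Set.univ.pi fun _ => ⋃ j, cyl (Finset.range (N - 2 * D * k)) (s j) := by
    rintro t ⟨ht1, ht2⟩ i -
    have hsub : ∀ x y : Kp ℕ, PowerSeries.mk x - PowerSeries.mk y = PowerSeries.mk (x + y) :=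
      fun x y => by rw [mk_add', CharTwo.sub_eq_add]
    obtain ⟨j, hj⟩ := close_of_psum (X_prime (R := ZMod 2)) D k N
      (fun i => PowerSeries.mk (t i)) (fun i => PowerSeries.mk (s i))
      (fun i => by rw [← mem_cyl_range]; exact ht2.1 i)
      (fun i j hij => by rw [hsub, ← mem_cyl_range]; exact ht2.2 i j hij)
      (fun i j hij => by rw [hsub, ← mem_cyl_range]; exact hs2.2 i j hij)
      (fun l hl => by
        rw [X_pow_dvd_iff]
        intro n hn
        have e1 := ht1 (⟨l, hl⟩, n) (by simpa using hn)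
        have e2 := hs1 (⟨l, hl⟩, n) (by simpa using hn)
        simp only at e1 e2
        rw [map_add, ← sum_gam_apply D t ⟨l, hl⟩, ← sum_gam_apply D s ⟨l, hl⟩,
          e1, e2, zmod2_add_self]) i
    rw [hsub, ← mem_cyl_range] at hj
    refine Set.mem_iUnion.2 ⟨j, fun n hn => ?_⟩
    have := hj n hn
    simp only [Pi.add_apply, Pi.zero_apply] at this
    revert this
    generalize t i n = a; generalize s j n = b
    revert a b; decide
  refine (measureReal_mono hsub).trans ?_
  have h1 : (haar ℕ).real (⋃ j, cyl (Finset.range (N - 2 * D * k)) (s j))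
      ≤ D * (2 : ℝ) ^ (2 * D * k) * ((2 : ℝ) ^ N)⁻¹ := by
    refine (measureReal_iUnion_fintype_le _).trans ?_
    simp only [measure_cyl_of_invariant, Finset.card_range, Finset.sum_const, Finset.card_univ,
      Fintype.card_fin, nsmul_eq_mul]
    rw [mul_assoc (D : ℝ)]
    refine mul_le_mul_of_nonneg_left ?_ (by positivity)
    rw [← div_eq_mul_inv, le_div_iff₀ (by positivity), inv_mul_le_iff₀ (by positivity), ← pow_add]
    exact pow_le_pow_right₀ (by norm_num) (by omega)
  rw [par, Measure.real, Measure.pi_pi, Finset.prod_const, ENNReal.toReal_pow, Finset.card_univ,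
    Fintype.card_fin, mul_comm D N, pow_mul (2 : ℝ) N D, ← inv_pow _ D, ← mul_pow]
  exact pow_le_pow_left₀ ENNReal.toReal_nonneg h1 D

/-- The Fourier transform of the uniform measure on the curve. -/
noncomputable def sig (D : ℕ) (g : Gp (Fin D × ℕ)) : ℂ := ∫ x, chi g (gam D x) ∂(haar ℕ)

theorem sig_pow (D : ℕ) (g : Gp (Fin D × ℕ)) :
    sig D g ^ D = ∫ t, chi g (∑ i, gam D (t i)) ∂(par D) := by
  have := integral_fintype_prod_eq_pow (ι := Fin D) (μ := haar ℕ) (fun x => chi g (gam D x))
  rw [Fintype.card_fin] at this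
  simp only [chi_sum_right]
  exact this.symm

theorem PD_sig (D : ℕ) : PD (sig D) := by
  have := PD.of_integral (haar ℕ) (continuous_gam D).measurable (integrable_const (1 : ℝ))
    (fun _ => zero_le_one)
  simp only [Complex.ofReal_one, mul_one] at this
  exact this

theorem sig_zero (D : ℕ) : sig D 0 = 1 := by simp [sig]

/-- Approximability by finitely supported functions. -/
def Approx {I : Type} (a : Gp I → ℂ) : Prop :=
  ∀ ε : ℝ, 0 < ε → ∃ b : Gp I → ℂ, (Function.support b).Finite ∧ Small (a - b) ε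

theorem approx_of_memℓp {I : Type} [Countable I] {a : Gp I → ℂ} (ha : Memℓp a 2)
    (hr : ∀ g, (a g).im = 0) : Approx a := by
  classical
  intro ε hε
  let ξ : lp (fun _ : Gp I => ℂ) 2 := ⟨a, ha⟩
  have h1 := lp.hasSum_single (p := 2) (by norm_num) ξ
  obtain ⟨s, hs⟩ := ((Metric.tendsto_nhds.1 h1) ε hε).exists
  have h2 : ∀ g, (∑ i ∈ s, lp.single 2 i (ξ i) : lp (fun _ : Gp I => ℂ) 2) g
      = if g ∈ s then a g else 0 := by
    intro g
    rw [lp.coeFn_sum, Finset.sum_apply]
    simp only [lp.single_apply]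
    rw [Finset.sum_pi_single]
  refine ⟨fun g => if g ∈ s then a g else 0, s.finite_toSet.subset fun g hg => ?_, ?_⟩
  · by_contra h; apply hg; simp at h; simp [h]
  · have := small_of_lp (ξ - ∑ i ∈ s, lp.single 2 i (ξ i)) (fun g => by
      rw [lp.coeFn_sub, Pi.sub_apply, h2]
      split_ifs
      · simp [ξ]
      · simpa [ξ] using hr g) hε (by rw [← dist_eq_norm, dist_comm]; exact hs.le)
    convert this using 1
    ext g
    rw [lp.coeFn_sub, Pi.sub_apply, Pi.sub_apply, h2]

theorem approx_sig_pow (D : ℕ) : Approx (sig D ^ D) := by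
  classical
  intro ε hε
  obtain ⟨k, hk⟩ : ∃ k : ℕ, (D + D * D) * ((2 : ℝ) ^ k)⁻¹ ≤ ε / 2 := by
    have : Tendsto (fun k : ℕ => (D + D * D) * ((2 : ℝ) ^ k)⁻¹) atTop (𝓝 ((D + D * D) * 0)) :=
      (tendsto_inv_atTop_zero.comp (tendsto_pow_atTop_atTop_of_one_lt one_lt_two)).const_mul _
    rw [mul_zero] at this
    exact (this.eventually (ge_mem_nhds (by positivity))).exists
  have hΦ : Measurable fun t : Fin D → Kp ℕ => ∑ i, gam D (t i) :=
    (continuous_sum_gam D D).measurable
  have i1 : Integrable ((sep D k).indicator fun _ => (1 : ℝ)) (par D) :=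
    (integrable_const _).indicator (measurableSet_sep D k)
  have i2 : Integrable ((sep D k)ᶜ.indicator fun _ => (1 : ℝ)) (par D) :=
    (integrable_const _).indicator (measurableSet_sep D k).compl
  have j1 : Integrable (fun t => (((sep D k).indicator (fun _ => (1 : ℝ)) t : ℝ) : ℂ)) (par D) :=
    i1.ofReal
  have j2 : Integrable (fun t => (((sep D k)ᶜ.indicator (fun _ => (1 : ℝ)) t : ℝ) : ℂ)) (par D) :=
    i2.ofReal
  have p1 := PD.of_integral (par D) hΦ i1 (fun t => Set.indicator_nonneg (by simp) t)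
  have p2 := PD.of_integral (par D) hΦ i2 (fun t => Set.indicator_nonneg (by simp) t)
  set a : Gp (Fin D × ℕ) → ℂ := fun g => ∫ t, chi g (∑ i, gam D (t i)) *
    (((sep D k).indicator (fun _ => (1 : ℝ)) t : ℝ) : ℂ) ∂(par D) with ha
  set b : Gp (Fin D × ℕ) → ℂ := fun g => ∫ t, chi g (∑ i, gam D (t i)) *
    (((sep D k)ᶜ.indicator (fun _ => (1 : ℝ)) t : ℝ) : ℂ) ∂(par D) with hb
  have hab : sig D ^ D = a + b := by
    ext g
    rw [Pi.pow_apply, sig_pow, Pi.add_apply, ha, hb]
    simp only
    rw [← integral_add (integrable_chi_mul hΦ j1 g) (integrable_chi_mul hΦ j2 g)]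
    refine integral_congr_ae (Eventually.of_forall fun t => ?_)
    by_cases ht : t ∈ sep D k <;> simp [ht]
  have hbs : Small b (ε / 2) := by
    refine p2.small ?_
    simp only [hb, chi_zero_left, one_mul, integral_complex_ofReal, Complex.ofReal_re]
    rw [integral_indicator (measurableSet_sep D k).compl]
    simpa using (par_compl_sep D k).trans hk
  set C : ℝ := (D * (2 : ℝ) ^ (2 * D * k)) ^ D
  have hC : ∀ (N : ℕ) (c : Kp (Fin D × ℕ)),
      ‖∑ g ∈ GF (Finset.univ ×ˢ Finset.range N), chi g c * a g‖ ≤ C := by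
    intro N c
    have h1 := setIntegral_cyl hΦ j1 (Finset.univ ×ˢ Finset.range N) c
    have h2 := par_sep_cyl D k N c
    simp only [mul_assoc, ← Finset.mul_sum] at h1
    rw [integral_complex_ofReal, setIntegral_indicator (measurableSet_sep D k)] at h1
    simp only [Finset.card_product, Finset.card_univ, Fintype.card_fin, Finset.card_range,
      integral_const, MeasurableSet.univ, measureReal_restrict_apply, Set.univ_inter,
      smul_eq_mul, mul_one] at h1
    have h3 := congrArg norm h1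
    rw [norm_mul, norm_inv, norm_pow, Complex.norm_real, Real.norm_of_nonneg measureReal_nonneg,
      Complex.norm_ofNat] at h3
    rw [h3, mul_comm] at h2
    exact le_of_mul_le_mul_right h2 (by positivity)
  have hl2 : Memℓp a 2 := by
    refine memℓp_gen' (C := C) fun s => ?_
    obtain ⟨N, hN⟩ : ∃ N, s ⊆ GF (Finset.univ ×ˢ Finset.range N) := by
      obtain ⟨N, hN⟩ := ((s.biUnion fun g => g.support).image Prod.snd).exists_nat_subset_range
      refine ⟨N, fun g hg => mem_GF.2 fun p hp => ?_⟩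
      exact Finset.mem_product.2 ⟨Finset.mem_univ _,
        hN (Finset.mem_image_of_mem _ (Finset.mem_biUnion.2 ⟨g, hg, hp⟩))⟩
    refine (Finset.sum_le_sum_of_subset_of_nonneg hN fun _ _ _ => by positivity).trans ?_
    have h1 : ((∑ g ∈ GF (Finset.univ ×ˢ Finset.range N), ‖a g‖ ^ (2 : ℝ≥0∞).toReal : ℝ) : ℂ)
        = ∫ t, (∑ g ∈ GF (Finset.univ ×ˢ Finset.range N), chi g (∑ i, gam D (t i)) * a g) *
          (((sep D k).indicator (fun _ => (1 : ℝ)) t : ℝ) : ℂ) ∂(par D) := by
      simp_rw [Finset.sum_mul, mul_right_comm _ (a _)]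
      rw [integral_finsetSum _ fun g _ => (integrable_chi_mul hΦ j1 g).mul_const _]
      simp_rw [integral_mul_const]
      push_cast
      refine Finset.sum_congr rfl fun g _ => ?_
      have hr : conj (a g) = a g := Complex.conj_eq_iff_im.2 (p1.im_eq_zero g)
      change _ = a g * a g
      nth_rw 3 [← hr]
      rw [Complex.mul_conj']
      norm_num
    have h2 := congrArg norm h1
    rw [Complex.norm_real] at h2
    refine (le_abs_self _).trans ?_
    rw [← Real.norm_eq_abs, h2]
    refine (norm_integral_le_of_norm_le_const (C := C) (Eventually.of_forall fun t => ?_)).trans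
      (by simp)
    rw [norm_mul]
    have h3 := hC N (∑ i, gam D (t i))
    by_cases ht : t ∈ sep D k
    · simpa [ht] using h3
    · simpa [ht] using (norm_nonneg _).trans h3
  obtain ⟨a₀, h1, h2⟩ := approx_of_memℓp hl2 p1.im_eq_zero (ε / 2) (by positivity)
  refine ⟨a₀, h1, ?_⟩
  have := h2.add hbs
  rw [add_halves] at this
  convert this using 1
  rw [hab]; ring

end Pool.Agent.P.MP_849d05_an
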