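import Mathlib

set_option autoImplicit false

open scoped ComplexConjugate ComplexOrder ENNReal Topology
open Filter

namespace Pool.Agent.P.MP_849d05_an

variable (G : Type) [Group G]

/-- Positive definite functions on the discrete group `G`. -/
def IsPosDef (φ : G → ℂ) : Prop :=
  ∀ (s : Finset G) (c : G → ℂ), 0 ≤ ∑ g ∈ s, ∑ h ∈ s, conj (c g) * c h * φ (g⁻¹ * h)

/-- The Fourier-Stieltjes algebra `B(G)`: the linear span of the positive definite functions. -/
def FS : Set (G → ℂ) := Submodule.span ℂ {φ | IsPosDef G φ}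

/-- The elements of the group algebra of norm at most one in the full group C*-algebra. -/
def cstarBall : Set (G →₀ ℂ) :=
  {a | ∀ (H : Type) [NormedAddCommGroup H] [InnerProductSpace ℂ H] [CompleteSpace H]
    (π : G →* (H ≃ₗᵢ[ℂ] H)) (v : H), ‖a.sum fun g c => c • π g v‖ ≤ ‖v‖}

/-- The norm of `B(G)`, dual to the norm of the full group C*-algebra. -/
noncomputable def normFS (f : G → ℂ) : ℝ≥0∞ :=
  ⨆ a ∈ cstarBall G, ‖a.sum fun g c => c * f g‖ₑ

/-- The Fourier algebra `A(G)`: coefficient functions of the left regular representation. -/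
def FA : Set (G → ℂ) :=
  {f | ∃ ξ η : G → ℂ, (Summable fun h => ‖ξ h‖ ^ 2) ∧ (Summable fun h => ‖η h‖ ^ 2) ∧
    ∀ g, f g = ∑' h, ξ (g⁻¹ * h) * conj (η h)}

/-- The spectrum of `f` in the algebra `B(G)`. -/
def spec (f : G → ℂ) : Set ℂ := {z | ¬ ∃ u ∈ FS G, ∀ g, (z - f g) * u g = 1}

/-- The Zafran ideal: elements of `B(G)` vanishing at infinity and having natural spectrum. -/
def zafran : Set (G → ℂ) :=
  {f | f ∈ FS G ∧ Tendsto f cofinite (𝓝 0) ∧ spec G f = closure (Set.range f)}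

/-- The radical `r(A(G))` of the Fourier algebra in `B(G)`. -/
def radFA : Set (G → ℂ) := {f | f ∈ FS G ∧ ∃ n : ℕ, 0 < n ∧ f ^ n ∈ FA G}

/-- The closure of a subset of `B(G)` in the norm of `B(G)`. -/
def closureFS (S : Set (G → ℂ)) : Set (G → ℂ) :=
  {f | f ∈ FS G ∧ ∀ ε : ℝ≥0∞, 0 < ε → ∃ u ∈ S, normFS G (f - u) < ε}

end Pool.Agent.P.MP_849d05_an
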