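import Pool.Agent.P.MP_849d05_an.Curve

set_option autoImplicit false

open scoped ComplexConjugate ComplexOrder ENNReal NNReal Topology
open Filter MeasureTheory

namespace Pool.Agent.P.MP_849d05_an

abbrev Lv (j : ℕ) := Fin j × ℕ

instance : Infinite (Σ j : ℕ, Lv j) :=
  Infinite.of_injective (fun n : ℕ => (⟨1, (0, n)⟩ : Σ j : ℕ, Lv j)) fun a b h => by
    simpa using h

/-- An enumeration of the coordinates. -/
noncomputable def enum : (Σ j : ℕ, Lv j) ≃ ℕ := Classical.choice nonempty_equiv_of_countable

theorem enum_inj (j : ℕ) : Function.Injective fun p : Lv j => enum ⟨j, p⟩ :=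
  enum.injective.comp sigma_mk_injective

noncomputable def prj (j : ℕ) : Kp ℕ →+ Kp (Lv j) where
  toFun x := fun p => x (enum ⟨j, p⟩)
  map_zero' := rfl
  map_add' _ _ := rfl

noncomputable def res (j : ℕ) : Gp ℕ →+ Gp (Lv j) :=
  Finsupp.comapDomain.addMonoidHom (enum_inj j)

noncomputable def emb (j : ℕ) : Gp (Lv j) →+ Gp ℕ :=
  Finsupp.mapDomain.addMonoidHom fun p : Lv j => enum ⟨j, p⟩

noncomputable def glue (z : ∀ j, Kp (Lv j)) : Kp ℕ := fun i => Sigma.uncurry z (enum.symm i)

theorem res_apply (j : ℕ) (g : Gp ℕ) (p : Lv j) : res j g p = g (enum ⟨j, p⟩) := rfl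

theorem prj_glue (z : ∀ j, Kp (Lv j)) (j : ℕ) : prj j (glue z) = z j := by
  ext p
  change Sigma.uncurry z (enum.symm (enum ⟨j, p⟩)) = z j p
  rw [Equiv.symm_apply_apply]; rfl

theorem continuous_prj (j : ℕ) : Continuous (prj j) :=
  continuous_pi fun p => continuous_apply (enum ⟨j, p⟩)

theorem surjective_prj (j : ℕ) : Function.Surjective (prj j) := by
  classical
  intro y
  exact ⟨glue (Function.update 0 j y), by rw [prj_glue]; simp⟩

theorem measurable_glue : Measurable glue := by
  refine measurable_pi_iff.2 fun i => ?_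
  exact (measurable_pi_apply (enum.symm i).2).comp (measurable_pi_apply (enum.symm i).1)

theorem res_emb_self (j : ℕ) (h : Gp (Lv j)) : res j (emb j h) = h := by
  ext p
  rw [res_apply]
  exact Finsupp.mapDomain_apply (enum_inj j) h p

theorem res_emb_ne {j k : ℕ} (hjk : j ≠ k) (h : Gp (Lv k)) : res j (emb k h) = 0 := by
  ext p
  rw [res_apply]
  refine Finsupp.mapDomain_of_notMem_range _ _ ?_
  rintro ⟨q, hq⟩
  exact hjk (congrArg Sigma.fst (enum.injective hq)).symm

theorem eq_of_res {g h : Gp ℕ} (H : ∀ j, res j g = res j h) : g = h := by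
  ext i
  obtain ⟨⟨j, p⟩, rfl⟩ := enum.surjective i
  rw [← res_apply, ← res_apply, H]

noncomputable def trunc (J : ℕ) : Gp ℕ →+ Gp ℕ := ∑ j ∈ Finset.range J, (emb j).comp (res j)

theorem trunc_apply (J : ℕ) (g : Gp ℕ) :
    trunc J g = ∑ j ∈ Finset.range J, emb j (res j g) := by
  simp [trunc]

theorem res_trunc (J j : ℕ) (g : Gp ℕ) :
    res j (trunc J g) = if j < J then res j g else 0 := by
  rw [trunc_apply, map_sum]
  split_ifs with h
  · rw [Finset.sum_eq_single j, res_emb_self]
    · intro k _ hk; exact res_emb_ne hk.symm _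
    · intro hj; exact absurd (Finset.mem_range.2 h) hj
  · refine Finset.sum_eq_zero fun k hk => res_emb_ne ?_ _
    rintro rfl
    exact h (Finset.mem_range.1 hk)

theorem trunc_eq {J : ℕ} {g : Gp ℕ} (h : ∀ j, J ≤ j → res j g = 0) : trunc J g = g := by
  refine eq_of_res fun j => ?_
  rw [res_trunc]
  split_ifs with hj
  · rfl
  · exact (h j (by omega)).symm

theorem exists_bound (g : Gp ℕ) : ∃ M, ∀ j, M ≤ j → res j g = 0 := by
  obtain ⟨M, hM⟩ := (g.support.image fun i => (enum.symm i).1).exists_nat_subset_range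
  refine ⟨M, fun j hj => ?_⟩
  ext p
  rw [res_apply]
  by_contra h
  have := hM (Finset.mem_image_of_mem _ (Finsupp.mem_support_iff.2 h))
  simp at this
  omega

theorem chi_emb (j : ℕ) (h : Gp (Lv j)) (x : Kp ℕ) : chi (emb j h) x = chi h (prj j x) := by
  unfold chi pair
  congr 1
  exact Finsupp.sum_mapDomain_index (by simp) (fun _ _ _ => by ring)

theorem chi_glue {M : ℕ} {g : Gp ℕ} (h : ∀ j, M ≤ j → res j g = 0) (z : ∀ j, Kp (Lv j)) :
    chi g (glue z) = ∏ j ∈ Finset.range M, chi (res j g) (z j) := by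
  conv_lhs => rw [← trunc_eq h, trunc_apply, chi_sum_left]
  simp only [chi_emb, prj_glue]

/-- The weights. -/
noncomputable def pw (j : ℕ) : ℝ := ((j : ℝ) + 2)⁻¹

theorem pw_pos (j : ℕ) : 0 < pw j := by unfold pw; positivity

theorem pw_le_one (j : ℕ) : pw j ≤ 1 := by
  unfold pw
  exact inv_le_one_of_one_le₀ (by linarith [(Nat.cast_nonneg j : (0 : ℝ) ≤ j)])

/-- The factor measures. -/
noncomputable def muj (j : ℕ) : Measure (Kp (Lv j)) :=
  ENNReal.ofReal (pw j) • (haar ℕ).map (gam j) + ENNReal.ofReal (1 - pw j) • haar (Lv j)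

instance (j : ℕ) : IsProbabilityMeasure ((haar ℕ).map (gam j)) :=
  Measure.isProbabilityMeasure_map (continuous_gam j).measurable.aemeasurable

instance (j : ℕ) : IsProbabilityMeasure (muj j) := by
  constructor
  simp only [muj, Measure.add_apply, Measure.smul_apply, measure_univ, smul_eq_mul, mul_one]
  rw [← ENNReal.ofReal_add (pw_pos j).le (sub_nonneg.2 (pw_le_one j))]
  simp

open Classical in
noncomputable def del {I : Type} (g : Gp I) : ℂ := if g = 0 then 1 else 0

theorem PD_del {I : Type} [Countable I] : PD (del (I := I)) := PD.delta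

noncomputable def fj (j : ℕ) (h : Gp (Lv j)) : ℂ := pw j * sig j h + (1 - pw j : ℝ) * del h

theorem integral_muj (j : ℕ) (h : Gp (Lv j)) : ∫ x, chi h x ∂(muj j) = fj j h := by
  unfold muj
  rw [integral_add_measure ((integrable_chi h _).smul_measure ENNReal.ofReal_ne_top)
    ((integrable_chi h _).smul_measure ENNReal.ofReal_ne_top), integral_smul_measure,
    integral_smul_measure, integral_map (continuous_gam j).measurable.aemeasurable
      (measurable_chi h).aestronglyMeasurable, integral_chi_haar,
    ENNReal.toReal_ofReal (pw_pos j).le, ENNReal.toReal_ofReal (sub_nonneg.2 (pw_le_one j))]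
  simp only [Complex.real_smul]
  rfl

theorem muj_compl (j : ℕ) : muj j (Esum j 1)ᶜ ≤ ENNReal.ofReal (1 - pw j) := by
  have h1 : ((haar ℕ).map (gam j)) (Esum j 1)ᶜ = 0 := by
    rw [Measure.map_apply (continuous_gam j).measurable (isClosed_Esum j 1).measurableSet.compl]
    have : gam j ⁻¹' (Esum j 1)ᶜ = ∅ := by
      ext x; simp [gam_mem_Esum]
    rw [this, measure_empty]
  simp only [muj, Measure.add_apply, Measure.smul_apply, h1, smul_eq_mul, mul_zero, zero_add]
  exact mul_le_of_le_one_right (by simp) prob_le_one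

/-- The measure that gives the counterexample. -/
noncomputable def mu : Measure (Kp ℕ) := (Measure.infinitePi muj).map glue

instance : IsProbabilityMeasure mu :=
  Measure.isProbabilityMeasure_map measurable_glue.aemeasurable

/-- The function that gives the counterexample. -/
noncomputable def ff (g : Gp ℕ) : ℂ := ∫ x, chi g x ∂mu

theorem PD_ff : PD ff := PD.of_measure mu

theorem ff_eq {M : ℕ} {g : Gp ℕ} (h : ∀ j, M ≤ j → res j g = 0) :
    ff g = ∏ j ∈ Finset.range M, fj j (res j g) := by
  unfold ff mu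
  rw [integral_map measurable_glue.aemeasurable (measurable_chi g).aestronglyMeasurable]
  simp only [chi_glue h]
  have h1 := integral_restrict_infinitePi muj (s := Finset.range M)
    (f := fun y => ∏ j : Finset.range M, chi (res j g) (y j))
    (Finset.measurable_prod _ fun j _ =>
      (measurable_chi _).comp (measurable_pi_apply j)).aestronglyMeasurable
  rw [integral_fintype_prod_eq_prod (fun (j : Finset.range M) y => chi (res j g) y)] at h1
  simp only [integral_muj] at h1
  rw [Finset.prod_coe_sort (Finset.range M) (fun j => fj j (res j g))] at h1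
  rw [← h1]
  refine integral_congr_ae (Eventually.of_forall fun z => ?_)
  exact (Finset.prod_coe_sort (Finset.range M) (fun j => chi (res j g) (z j))).symm

theorem prod_one_sub_pw (a : ℕ) : ∀ n : ℕ,
    ∏ j ∈ Finset.Ico a (a + n), (1 - pw j) = ((a : ℝ) + 1) / (a + n + 1) := by
  intro n
  induction n with
  | zero => simp; field_simp
  | succ n ih =>
    rw [← add_assoc, Finset.prod_Ico_succ_top (by omega), ih, pw]
    push_cast
    field_simp
    ring

/-- The closed set on which `mu` is almost concentrated. -/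
def carrier (a b : ℕ) : Set (Kp ℕ) := ⋃ j ∈ Finset.Ico a b, prj j ⁻¹' Esum j 1

theorem isClosed_carrier (a b : ℕ) : IsClosed (carrier a b) :=
  isClosed_biUnion_finset fun j _ => (isClosed_Esum j 1).preimage (continuous_prj j)

theorem mu_compl_carrier (a n : ℕ) :
    mu.real (carrier a (a + n))ᶜ ≤ ((a : ℝ) + 1) / (a + n + 1) := by
  have h1 : glue ⁻¹' (carrier a (a + n))ᶜ
      = Set.pi (Finset.Ico a (a + n)) fun j => (Esum j 1)ᶜ := by
    ext z
    simp [carrier, prj_glue]
  rw [mu, Measure.real, Measure.map_apply measurable_glue (isClosed_carrier _ _).measurableSet.compl,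
    h1, Measure.infinitePi_pi _ fun j _ => (isClosed_Esum j 1).measurableSet.compl,
    ← prod_one_sub_pw, ENNReal.toReal_prod]
  refine Finset.prod_le_prod (fun _ _ => ENNReal.toReal_nonneg) fun j _ => ?_
  exact ENNReal.toReal_le_of_le_ofReal (sub_nonneg.2 (pw_le_one j)) (muj_compl j)

end Pool.Agent.P.MP_849d05_an
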