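import Pool.Agent.P.MP_849d05_an.PosDef
import Pool.Agent.P.MP_849d05_an.Sumset

set_option autoImplicit false

open scoped ComplexConjugate ComplexOrder ENNReal NNReal Topology
open Filter MeasureTheory

namespace Pool.Agent.P.MP_849d05_an

variable {I J : Type} [Countable I] [Countable J]

theorem exists_rep_aux {u : Gp I → ℂ} (hu : u ∈ Submodule.span ℂ {φ : Gp I → ℂ | PD φ}) :
    ∃ (ρ : Measure (Kp I)) (h : Kp I → ℂ), IsFiniteMeasure ρ ∧ Integrable h ρ ∧
      ∀ g, u g = ∫ x, chi g x * h x ∂ρ := by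
  induction hu using Submodule.span_induction with
  | mem φ hφ =>
    obtain ⟨ρ, hρ, h⟩ := bochner hφ
    exact ⟨ρ, fun _ => 1, hρ, integrable_const _, fun g => by simpa using h g⟩
  | zero => exact ⟨0, 0, inferInstance, integrable_zero_measure, fun g => by simp⟩
  | add a b _ _ ha hb =>
    obtain ⟨ρ, h, hρ, hi, he⟩ := ha
    obtain ⟨ρ', h', hρ', hi', he'⟩ := hb
    have a1 : ρ ≪ ρ + ρ' := Measure.AbsolutelyContinuous.rfl.add_right _
    have a2 : ρ' ≪ ρ + ρ' := Measure.AbsolutelyContinuous.rfl.add_right' _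
    have : SigmaFinite (ρ + ρ') := IsFiniteMeasure.toSigmaFinite _
    have : SigmaFinite ρ := IsFiniteMeasure.toSigmaFinite _
    have : SigmaFinite ρ' := IsFiniteMeasure.toSigmaFinite _
    have i1 := (integrable_rnDeriv_smul_iff a1).2 hi
    have i2 := (integrable_rnDeriv_smul_iff a2).2 hi'
    refine ⟨ρ + ρ', _, inferInstance, i1.add i2, fun g => ?_⟩
    have j1 : Integrable (fun x => chi g x * ((ρ.rnDeriv (ρ + ρ') x).toReal • h x)) (ρ + ρ') :=
      integrable_chi_mul measurable_id i1 g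
    have j2 : Integrable (fun x => chi g x * ((ρ'.rnDeriv (ρ + ρ') x).toReal • h' x)) (ρ + ρ') :=
      integrable_chi_mul measurable_id i2 g
    simp only [Pi.add_apply, mul_add]
    rw [integral_add j1 j2, he, he', ← integral_rnDeriv_smul a1, ← integral_rnDeriv_smul a2]
    simp only [mul_smul_comm]
  | smul c a _ ha =>
    obtain ⟨ρ, h, hρ, hi, he⟩ := ha
    refine ⟨ρ, fun x => c * h x, hρ, hi.const_mul c, fun g => ?_⟩
    rw [Pi.smul_apply, he, smul_eq_mul, ← integral_const_mul]
    refine integral_congr_ae (Eventually.of_forall fun x => ?_)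
    simp only; ring

theorem exists_rep {u : Gp I → ℂ} (hu : u ∈ Submodule.span ℂ {φ : Gp I → ℂ | PD φ}) :
    ∃ (ρ : Measure (Kp I)) (h : Kp I → ℂ), IsFiniteMeasure ρ ∧ Integrable h ρ ∧
      (∀ᵐ x ∂ρ, h x ≠ 0) ∧ ∀ g, u g = ∫ x, chi g x * h x ∂ρ := by
  obtain ⟨ρ, h, hρ, hi, he⟩ := exists_rep_aux hu
  have hm := hi.aestronglyMeasurable.stronglyMeasurable_mk.measurable
  have hae := hi.aestronglyMeasurable.ae_eq_mk
  set h' := hi.aestronglyMeasurable.mk h
  have hS : MeasurableSet {x | h' x ≠ 0} := (hm (measurableSet_singleton 0)).compl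
  refine ⟨ρ.restrict {x | h' x ≠ 0}, h', inferInstance, (hi.congr hae).restrict,
    ae_restrict_mem hS, fun g => ?_⟩
  rw [setIntegral_eq_integral_of_forall_compl_eq_zero, he]
  · refine integral_congr_ae ?_
    filter_upwards [hae] with x hx
    rw [hx]
  · intro x hx
    have : h' x = 0 := by simpa using hx
    simp [this]

theorem null_of_ae_eq (π : Kp I →+ Kp J) (hπ : Measurable π) {ρ : Measure (Kp I)}
    [IsFiniteMeasure ρ] {h : Kp I → ℂ} (hi : Integrable h ρ) (hne : ∀ᵐ x ∂ρ, h x ≠ 0) (k : ℕ)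
    {κ : Kp I → ℂ} (hκ : Integrable κ (haar I))
    (he : ∀ g, (∫ x, chi g x * h x ∂ρ) ^ (k + 1) = ∫ x, chi g x * κ x ∂(haar I))
    {S T : Set (Kp J)} (hS : MeasurableSet S) (hT : MeasurableSet T)
    (hT0 : haar I (π ⁻¹' T) = 0)
    (hae : ∀ᵐ y ∂(Measure.pi fun _ : Fin (k + 1) => ρ.map π), (∀ i, y i ∈ S) ↔ ∑ i, y i ∈ T) :
    ρ (π ⁻¹' S) = 0 := by
  have hae' : ∀ᵐ y ∂(Measure.pi fun _ : Fin (k + 1) => ρ),
      (∀ i, π (y i) ∈ S) ↔ π (∑ i, y i) ∈ T := by
    have hmp := measurePreserving_pi (fun _ : Fin (k + 1) => ρ) (fun _ => ρ.map π)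
      (f := fun _ => π) (fun _ => ⟨hπ, rfl⟩)
    filter_upwards [hmp.quasiMeasurePreserving.ae hae] with y hy
    rw [map_sum]; exact hy
  have h0 : ∀ g₀, ∫ x, chi g₀ x * h x ∂(ρ.restrict (π ⁻¹' S)) = 0 := by
    intro g₀
    have hi' : Integrable (fun x => chi g₀ x * h x) ρ := integrable_chi_mul measurable_id hi g₀
    have hH : Integrable (fun y : Fin (k + 1) → Kp I => ∏ i, chi g₀ (y i) * h (y i))
        (Measure.pi fun _ => ρ) :=
      Integrable.fintype_prod (f := fun _ x => chi g₀ x * h x) fun _ => hi'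
    have hu := uniq (P := Measure.pi fun _ : Fin (k + 1) => ρ) (P' := haar I)
      (measurable_sum_fin (k + 1)) measurable_id hH (integrable_chi_mul measurable_id hκ g₀)
      (fun g => by
        have e1 := integral_fintype_prod_eq_pow (ι := Fin (k + 1)) (μ := ρ)
          (fun x => chi (g + g₀) x * h x)
        rw [Fintype.card_fin, he] at e1
        simp only [id, ← mul_assoc, ← chi_add_left]
        rw [← e1]
        refine integral_congr_ae (Eventually.of_forall fun y => ?_)
        simp only [chi_sum_right, ← Finset.prod_mul_distrib, chi_add_left, mul_assoc])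
      (π ⁻¹' T) (hπ hT)
    rw [Set.preimage_id, setIntegral_measure_zero _ hT0,
      ← integral_indicator (measurable_sum_fin (k + 1) (hπ hT))] at hu
    have e2 := integral_fintype_prod_eq_pow (ι := Fin (k + 1)) (μ := ρ)
      ((π ⁻¹' S).indicator fun x => chi g₀ x * h x)
    rw [Fintype.card_fin, integral_indicator (hπ hS)] at e2
    have e3 : (∫ x in π ⁻¹' S, chi g₀ x * h x ∂ρ) ^ (k + 1) = 0 := by
      rw [← e2, ← hu]
      refine integral_congr_ae ?_
      filter_upwards [hae'] with y hy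
      by_cases hy1 : ∀ i, π (y i) ∈ S
      · rw [Set.indicator_of_mem (by exact hy.1 hy1)]
        exact Finset.prod_congr rfl fun i _ => Set.indicator_of_mem (by exact hy1 i) _
      · rw [Set.indicator_of_notMem (by exact fun h => hy1 (hy.2 h))]
        push Not at hy1
        obtain ⟨i, hi⟩ := hy1
        exact Finset.prod_eq_zero (Finset.mem_univ i) (Set.indicator_of_notMem (by exact hi) _)
    exact pow_eq_zero_iff (Nat.succ_ne_zero k) |>.1 e3
  have h1 := ae_zero_of_chi hi.restrict h0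
  have h2 : ∀ᵐ x ∂(ρ.restrict (π ⁻¹' S)), False := by
    filter_upwards [h1, ae_restrict_of_ae hne] with x hx hx'
    exact hx' hx
  rw [eventually_false_iff_eq_bot, ae_eq_bot] at h2
  exact Measure.restrict_eq_zero.1 h2

omit [Countable J] in
theorem invariant_map (π : Kp I →+ Kp J) (hπ : Measurable π) (hs : Function.Surjective π) :
    ((haar I).map π).IsAddLeftInvariant := by
  refine ⟨fun c => ?_⟩
  obtain ⟨d, rfl⟩ := hs c
  rw [Measure.map_map (measurable_const_add _) hπ]
  conv_rhs => rw [← map_add_left_eq_self (haar I) d, Measure.map_map hπ (measurable_const_add _)]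
  congr 1
  ext x i
  simp

theorem orth [Uncountable (Kp J)] (π : Kp I →+ Kp J) (hπ : Measurable π)
    (hs : Function.Surjective π) {ρ : Measure (Kp I)}
    [IsFiniteMeasure ρ] {h : Kp I → ℂ} (hi : Integrable h ρ) (hne : ∀ᵐ x ∂ρ, h x ≠ 0) (k : ℕ)
    {κ : Kp I → ℂ} (hκ : Integrable κ (haar I))
    (he : ∀ g, (∫ x, chi g x * h x ∂ρ) ^ (k + 1) = ∫ x, chi g x * κ x ∂(haar I))
    (E : ℕ → Set (Kp J)) (hE : ∀ j, MeasurableSet (E j)) (hE0 : E 0 = {0})
    (hstep : ∀ j, j < k + 1 → Step (E j) (E (j + 1)))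
    (hsum : ∀ y : Fin (k + 1) → Kp J, (∀ i, y i ∈ E 1) → ∑ i, y i ∈ E (k + 1)) :
    ρ (π ⁻¹' E 1) = 0 := by
  have := invariant_map π hπ hs
  have hm0 : Kills ((haar I).map π) {0} :=
    (kills_empty _).of_invariant _ (measurableSet_singleton 0) step_empty_zero
  have hmj : ∀ j, j ≤ k + 1 → Kills ((haar I).map π) (E j) := by
    intro j
    induction j with
    | zero => intro _; rw [hE0]; exact hm0
    | succ j ih => intro hj; exact (ih (by omega)).of_invariant _ (hE _) (hstep j (by omega))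
  -- first step: the projection of `ρ` has no atoms
  have hC0 := (kills_empty (ρ.map π)).countable (measurableSet_singleton 0) step_empty_zero
  obtain ⟨D0, hD0, hae0⟩ := ae_eq_sum (ρ.map π) k (A := {0}) (B := {0}) hC0
    (measurableSet_singleton 0) (fun y hy => by
      simp only [Set.mem_singleton_iff] at hy ⊢
      simp [hy])
    ((kills_restrict_compl _ (measurableSet_singleton 0) subset_rfl).conv_any
      (measurableSet_singleton 0) _)
  have hT0 := measurableSet_trUnion hD0 (measurableSet_singleton (0 : Kp J))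
  have hS0 := measurableSet_trUnion hC0 (measurableSet_singleton (0 : Kp J))
  have n0 := null_of_ae_eq π hπ hi hne k hκ he hS0 hT0
    (by rw [← Measure.map_apply hπ hT0]; exact hm0.trUnion hD0) hae0
  rw [← Measure.map_apply hπ hS0] at n0
  have hk0 : Kills (ρ.map π) {0} := by
    intro c
    by_contra hc
    exact hc (measure_mono_null (Set.subset_biUnion_of_mem (u := fun c => {y | c + y ∈ {0}})
      (show c ∈ {c | 0 < (ρ.map π) {y | c + y ∈ ({0} : Set (Kp J))}} from pos_iff_ne_zero.2 hc))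
      n0)
  have : NullSingletonClass (ρ.map π) := ⟨fun x => by
    have := hk0 x
    convert this using 2
    ext y
    simp only [Set.mem_singleton_iff, Set.mem_ofPred_eq]
    rw [add_eq_zero_iff_neg_eq, Kp.neg_eq, eq_comm]⟩
  -- second step
  have hC1 : {c | 0 < (ρ.map π) {y | c + y ∈ E 1}}.Countable :=
    hk0.countable (hE 1) (by rw [← hE0]; exact hstep 0 (by omega))
  have hk1 := Kills.sumLaw (ρ.map π) E hE k 1 _
    (kills_restrict_compl (ρ.map π) (hE 1) subset_rfl) (fun j hj => hstep j (by omega))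
  rw [add_comm 1 k] at hk1
  obtain ⟨D1, hD1, hae1⟩ := ae_eq_sum (ρ.map π) k hC1 (hE (k + 1)) hsum hk1
  have hT1 := measurableSet_trUnion hD1 (hE (k + 1))
  have hS1 := measurableSet_trUnion hC1 (hE 1)
  have n1 := null_of_ae_eq π hπ hi hne k hκ he hS1 hT1
    (by rw [← Measure.map_apply hπ hT1]; exact (hmj _ le_rfl).trUnion hD1) hae1
  rw [← Measure.map_apply hπ hS1] at n1
  rw [← Measure.map_apply hπ (hE 1)]
  by_contra hc
  refine hc (measure_mono_null ?_ n1)
  intro y hy
  refine Set.mem_biUnion (x := 0) ?_ (by simpa using hy)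
  simpa using pos_iff_ne_zero.2 hc

end Pool.Agent.P.MP_849d05_an
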