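import Pool.Agent.P.MP_849d05_an.Levels

set_option autoImplicit false

open scoped ComplexConjugate ComplexOrder ENNReal NNReal Topology
open Filter MeasureTheory

namespace Pool.Agent.P.MP_849d05_an

section General

variable {I : Type} [Countable I]

omit [Countable I] in
theorem Approx.of_finite {a : Gp I → ℂ} (h : (Function.support a).Finite) : Approx a := by
  intro ε hε
  refine ⟨a, h, ?_⟩
  rw [sub_self]
  exact PD.zero.small (by simpa using hε.le)

omit [Countable I] in
theorem Approx.add {a b : Gp I → ℂ} (ha : Approx a) (hb : Approx b) : Approx (a + b) := by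
  intro ε hε
  obtain ⟨a', h1, h2⟩ := ha (ε / 2) (by positivity)
  obtain ⟨b', h3, h4⟩ := hb (ε / 2) (by positivity)
  refine ⟨a' + b', (h1.union h3).subset (Function.support_add _ _), ?_⟩
  have := h2.add h4
  rw [add_halves] at this
  convert this using 1; ring

theorem Approx.mul {a φ : Gp I → ℂ} (ha : Approx a) (hφ : Small φ 1) : Approx (a * φ) := by
  intro ε hε
  obtain ⟨a', h1, h2⟩ := ha ε hε
  refine ⟨a' * φ, h1.subset (Function.support_mul_subset_left _ _), ?_⟩
  have := h2.mul hφ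
  rw [mul_one] at this
  convert this using 1; ring

omit [Countable I] in
theorem small_const {t : ℝ} (ht : |t| ≤ 1) : Small (fun _ : Gp I => (t : ℂ)) 1 := by
  have := ((PD.one (I := I)).small (ε := 1) (by simp)).smul t
  simp only [Pi.one_apply, mul_one] at this
  exact this.mono ht

omit [Countable I] in
theorem finite_del : (Function.support (del (I := I))).Finite :=
  (Set.finite_singleton 0).subset fun g hg => by
    by_contra h
    exact hg (by simp only [Set.mem_singleton_iff] at h; simp [del, h])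

theorem PD.prod_sub {ι : Type} (s : Finset ι) {A B : ι → Gp I → ℂ} (hB : ∀ i, PD (B i))
    (hAB : ∀ i, PD (A i - B i)) : PD (fun g => ∏ i ∈ s, A i g - ∏ i ∈ s, B i g) := by
  classical
  have hA : ∀ i, PD (A i) := fun i => by simpa using (hAB i).add (hB i)
  induction s using Finset.induction_on with
  | empty => simp only [Finset.prod_empty, sub_self]; exact PD.zero
  | insert a s ha ih =>
    have := ((hAB a).mul (PD.prod s fun i _ => hA i)).add ((hB a).mul ih)
    convert this using 1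
    ext g
    simp only [Finset.prod_insert ha, Pi.add_apply, Pi.mul_apply, Pi.sub_apply]
    ring

end General

theorem one_sub_sum_le_prod {ι : Type} (s : Finset ι) (x : ι → ℝ) (h0 : ∀ i, 0 ≤ x i)
    (h1 : ∀ i, x i ≤ 1) : 1 - ∑ i ∈ s, x i ≤ ∏ i ∈ s, (1 - x i) := by
  classical
  induction s using Finset.induction_on with
  | empty => simp
  | insert a s ha ih =>
    rw [Finset.sum_insert ha, Finset.prod_insert ha]
    have h2 : 0 ≤ ∑ i ∈ s, x i := Finset.sum_nonneg fun i _ => h0 i
    have h3 := mul_le_mul_of_nonneg_left ih (sub_nonneg.2 (h1 a))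
    nlinarith [h0 a]

theorem sum_pw_sq (J : ℕ) : ∀ n : ℕ,
    ∑ j ∈ Finset.Ico J (J + n), pw j ^ 2 ≤ ((J : ℝ) + 1)⁻¹ - ((J : ℝ) + n + 1)⁻¹ := by
  intro n
  induction n with
  | zero => simp
  | succ n ih =>
    rw [← add_assoc, Finset.sum_Ico_succ_top (by omega), pw]
    push_cast
    have : (((J : ℝ) + n + 2)⁻¹) ^ 2 ≤ ((J : ℝ) + n + 1)⁻¹ - ((J : ℝ) + (n + 1) + 1)⁻¹ := by
      have e : ((J : ℝ) + n + 1)⁻¹ - ((J : ℝ) + (n + 1) + 1)⁻¹
          = ((J : ℝ) + n + 1)⁻¹ * ((J : ℝ) + n + 2)⁻¹ := by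
        field_simp; ring
      rw [e, sq]
      gcongr
      linarith
    linarith

theorem sum_pw_pow (J M m : ℕ) : ∑ j ∈ Finset.Ico J M, pw j ^ (m + 2) ≤ pw J ^ m := by
  rcases le_total M J with h | h
  · rw [Finset.Ico_eq_empty_of_le h, Finset.sum_empty]
    exact pow_nonneg (pw_pos J).le _
  obtain ⟨n, rfl⟩ := Nat.exists_eq_add_of_le h
  have h1 : ∑ j ∈ Finset.Ico J (J + n), pw j ^ (m + 2)
      ≤ ∑ j ∈ Finset.Ico J (J + n), pw J ^ m * pw j ^ 2 := by
    refine Finset.sum_le_sum fun j hj => ?_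
    rw [pow_add]
    refine mul_le_mul_of_nonneg_right (pow_le_pow_left₀ (pw_pos j).le ?_ m) (by positivity)
    unfold pw
    have : (J : ℝ) ≤ j := by exact_mod_cast (Finset.mem_Ico.1 hj).1
    gcongr
  rw [← Finset.mul_sum] at h1
  refine h1.trans (mul_le_of_le_one_right (pow_nonneg (pw_pos J).le _) ?_)
  refine (sum_pw_sq J n).trans ?_
  have h2 : ((J : ℝ) + 1)⁻¹ ≤ 1 :=
    inv_le_one_of_one_le₀ (by linarith [(Nat.cast_nonneg J : (0 : ℝ) ≤ J)])
  have h3 : 0 ≤ ((J : ℝ) + n + 1)⁻¹ := by positivity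
  linarith

theorem fj_zero (j : ℕ) : fj j 0 = 1 := by simp [fj, sig_zero, del]

theorem fj_pow (j : ℕ) {m : ℕ} (_hm : m ≠ 0) (h : Gp (Lv j)) :
    fj j h ^ m = (pw j ^ m : ℝ) * sig j h ^ m + (1 - pw j ^ m : ℝ) * del h := by
  by_cases h0 : h = 0
  · subst h0; simp [fj_zero, sig_zero, del]
  · simp [fj, del, h0, mul_pow]

theorem PD_fj (j : ℕ) : PD (fj j) :=
  ((PD_sig j).smul (pw_pos j).le).add (PD_del.smul (sub_nonneg.2 (pw_le_one j)))

theorem approx_fj_pow {j m : ℕ} (hm : m ≠ 0) (hj : j ≤ m) : Approx (fj j ^ m) := by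
  have hp0 : 0 ≤ pw j ^ m := pow_nonneg (pw_pos j).le _
  have hp1 : pw j ^ m ≤ 1 := pow_le_one₀ (pw_pos j).le (pw_le_one j)
  have h1 := ((approx_sig_pow j).mul (((PD_sig j).pow (m - j)).small (ε := 1)
    (by simp [sig_zero]))).mul (small_const (t := pw j ^ m) (by rw [abs_of_nonneg hp0]; exact hp1))
  have h2 := (Approx.of_finite (finite_del (I := Lv j))).mul
    (small_const (t := 1 - pw j ^ m) (by rw [abs_of_nonneg (by linarith)]; linarith))
  convert h1.add h2 using 1
  ext h
  simp only [Pi.pow_apply, Pi.add_apply, Pi.mul_apply, fj_pow j hm]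
  rw [← pow_add, Nat.add_sub_cancel' hj]
  ring

open Classical in
noncomputable def eJ (J : ℕ) (g : Gp ℕ) : ℂ := if ∀ j, J ≤ j → res j g = 0 then 1 else 0

theorem prod_del_eq {J M : ℕ} {g : Gp ℕ} (h : ∀ j, M ≤ j → res j g = 0) :
    ∏ j ∈ Finset.Ico J M, del (res j g) = eJ J g := by
  unfold eJ
  split_ifs with h1
  · exact Finset.prod_eq_one fun j hj => by simp [del, h1 j (Finset.mem_Ico.1 hj).1]
  · push Not at h1
    obtain ⟨j, hj, h2⟩ := h1
    refine Finset.prod_eq_zero (i := j) (Finset.mem_Ico.2 ⟨hj, ?_⟩) (by simp [del, h2])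
    by_contra h3
    exact h2 (h j (by omega))

theorem PD_eJ (J : ℕ) : PD (eJ J) := by
  refine PD.of_tendsto (l := atTop) (φ := fun M g => ∏ j ∈ Finset.Ico J M, del (res j g))
    (Eventually.of_forall fun M => PD.prod _ fun j _ => PD_del.comp (res j)) fun g => ?_
  obtain ⟨M, hM⟩ := exists_bound g
  refine tendsto_const_nhds.congr' ?_
  filter_upwards [eventually_ge_atTop M] with N hN
  exact (prod_del_eq fun j hj => hM j (hN.trans hj)).symm

theorem eJ_zero (J : ℕ) : eJ J 0 = 1 := by simp [eJ]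

noncomputable def head (m J : ℕ) (g : Gp ℕ) : ℂ := ∏ j ∈ Finset.range J, fj j (res j g) ^ m

theorem PD_head (m J : ℕ) : PD (head m J) :=
  PD.prod _ fun j _ => ((PD_fj j).pow m).comp (res j)

theorem head_zero (m J : ℕ) : head m J 0 = 1 := by simp [head, fj_zero]

theorem approx_head {m : ℕ} (hm : m ≠ 0) : ∀ J, J ≤ m → Approx (head m J * eJ J) := by
  intro J
  induction J with
  | zero =>
    intro _
    refine Approx.of_finite ((Set.finite_singleton 0).subset fun g hg => ?_)
    have h1 : eJ 0 g ≠ 0 := fun h => hg (by simp [h])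
    have h2 : ∀ j, 0 ≤ j → res j g = 0 := by
      by_contra h; exact h1 (by unfold eJ; rw [if_neg h])
    exact eq_of_res fun j => by rw [h2 j (Nat.zero_le _), map_zero]
  | succ J ih =>
    intro hJ ε hε
    obtain ⟨b, hb1, hb2⟩ := ih (by omega) (ε / 2) (by positivity)
    obtain ⟨a, ha1, ha2⟩ := approx_fj_pow hm (show J ≤ m by omega) (ε / (2 + ε)) (by positivity)
    have hb3 : Small b (1 + ε / 2) := by
      have := (((PD_head m J).mul (PD_eJ J)).small (ε := 1)
        (by simp [head_zero, eJ_zero])).add hb2.neg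
      convert this using 1; ring
    refine ⟨fun g => b (trunc J g) * a (res J g) * eJ (J + 1) g, ?_, ?_⟩
    · refine ((hb1.prod ha1).image fun p => p.1 + emb J p.2).subset fun g hg => ?_
      simp only [Function.mem_support, ne_eq, mul_eq_zero, not_or] at hg
      refine ⟨(trunc J g, res J g), ⟨hg.1.1, hg.1.2⟩, ?_⟩
      have h2 : ∀ j, J + 1 ≤ j → res j g = 0 := by
        by_contra h; exact hg.2 (by unfold eJ; rw [if_neg h])
      have := trunc_eq h2
      rw [trunc_apply, Finset.sum_range_succ, ← trunc_apply] at this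
      exact this
    · have s1 := (hb2.comp (trunc J)).mul
        ((((PD_fj J).pow m).comp (res J)).small (ε := 1) (by simp [fj_zero]))
      have s2 := (hb3.comp (trunc J)).mul (ha2.comp (res J))
      have s3 := (s1.add s2).mul ((PD_eJ (J + 1)).small (ε := 1) (by simp [eJ_zero]))
      have e : (ε / 2 * 1 + (1 + ε / 2) * (ε / (2 + ε))) * 1 = ε := by
        field_simp; ring
      rw [e] at s3
      convert s3 using 1
      ext g
      have e1 : head m J (trunc J g) = head m J g :=
        Finset.prod_congr rfl fun j hj => by rw [res_trunc, if_pos (Finset.mem_range.1 hj)]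
      have e2 : eJ J (trunc J g) = 1 := by
        unfold eJ
        rw [if_pos]
        intro j hj
        rw [res_trunc, if_neg (by omega)]
      have e3 : head m (J + 1) g = head m J g * fj J (res J g) ^ m := Finset.prod_range_succ _ _
      simp only [Pi.sub_apply, Pi.mul_apply, Pi.add_apply, Pi.pow_apply, e1, e2, e3]
      ring

theorem PD_tail (J m : ℕ) :
    PD (fun g => ff g ^ (m + 2) - ((1 - pw J ^ m : ℝ) : ℂ) * (head (m + 2) J * eJ J) g) := by
  have hp0 : ∀ j, 0 ≤ pw j ^ (m + 2) := fun j => pow_nonneg (pw_pos j).le _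
  have hp1 : ∀ j, pw j ^ (m + 2) ≤ 1 := fun j => pow_le_one₀ (pw_pos j).le (pw_le_one j)
  refine PD.of_tendsto (l := atTop) (φ := fun M g => head (m + 2) J g *
      (∏ j ∈ Finset.Ico J M, fj j (res j g) ^ (m + 2)
        - ((1 - pw J ^ m : ℝ) : ℂ) * ∏ j ∈ Finset.Ico J M, del (res j g)))
    (Eventually.of_forall fun M => (PD_head _ _).mul ?_) fun g => ?_
  · have h1 := PD.prod_sub (Finset.Ico J M) (A := fun j g => fj j (res j g) ^ (m + 2))
      (B := fun j g => ((1 - pw j ^ (m + 2) : ℝ) : ℂ) * del (res j g))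
      (fun j => (PD_del.comp (res j)).smul (sub_nonneg.2 (hp1 j))) (fun j => by
        have := (((PD_sig j).pow (m + 2)).comp (res j)).smul (hp0 j)
        convert this using 1
        ext g
        simp only [Pi.sub_apply, Pi.pow_apply, fj_pow j (show m + 2 ≠ 0 by omega)]
        ring)
    have h2 := (PD.prod (Finset.Ico J M) fun j _ => PD_del.comp (res j)).smul
      (t := ∏ j ∈ Finset.Ico J M, (1 - pw j ^ (m + 2)) - (1 - pw J ^ m)) (by
        have := one_sub_sum_le_prod (Finset.Ico J M) _ hp0 hp1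
        have := sum_pw_pow J M m
        linarith)
    convert h1.add h2 using 1
    ext g
    simp only [Pi.add_apply, Finset.prod_mul_distrib]
    push_cast
    ring
  · obtain ⟨M, hM⟩ := exists_bound g
    refine tendsto_const_nhds.congr' ?_
    filter_upwards [eventually_ge_atTop M, eventually_ge_atTop J] with N hN hN'
    have h1 : ∀ j, N ≤ j → res j g = 0 := fun j hj => hM j (hN.trans hj)
    rw [prod_del_eq h1, ff_eq h1, ← Finset.prod_pow, ← Finset.prod_range_mul_prod_Ico _ hN']
    simp only [Pi.mul_apply, head]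
    ring

theorem quasi_ff : Quasi ff := by
  intro ε hε
  obtain ⟨J, hJ⟩ := exists_nat_ge (((ε / 2) ^ 2)⁻¹)
  have hpJ : pw J ≤ (ε / 2) ^ 2 := by
    unfold pw
    rw [inv_le_comm₀ (by positivity) (by positivity)]
    linarith
  have hm : pw J ^ (2 * J + 2) ≤ (ε / 2) ^ (2 * J + 2 + 2) := by
    calc pw J ^ (2 * J + 2) ≤ pw J ^ (J + 2) :=
          pow_le_pow_of_le_one (pw_pos J).le (pw_le_one J) (by omega)
      _ ≤ ((ε / 2) ^ 2) ^ (J + 2) := pow_le_pow_left₀ (pw_pos J).le hpJ _
      _ = _ := by rw [← pow_mul]; congr 1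
  have hp0 : 0 ≤ pw J ^ (2 * J + 2) := pow_nonneg (pw_pos J).le _
  have hp1 : pw J ^ (2 * J + 2) ≤ 1 := pow_le_one₀ (pw_pos J).le (pw_le_one J)
  obtain ⟨a, ha1, ha2⟩ := ((approx_head (m := 2 * J + 2 + 2) (by omega) J (by omega)).mul
    (small_const (t := 1 - pw J ^ (2 * J + 2)) (by rw [abs_of_nonneg (by linarith)]; linarith)))
    ((ε / 2) ^ (2 * J + 2 + 2)) (by positivity)
  refine ⟨2 * J + 2 + 2, by omega, a, ha1, ?_⟩
  have h1 := (PD_tail J (2 * J + 2)).small (ε := (ε / 2) ^ (2 * J + 2 + 2)) (by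
    have : ff 0 = 1 := by simp [ff]
    simp only [this, one_pow, Pi.mul_apply, head_zero, eJ_zero, mul_one, Complex.sub_re,
      Complex.one_re, Complex.ofReal_re]
    linarith)
  have h2 := h1.add ha2
  refine Small.mono (ε := (ε / 2) ^ (2 * J + 2 + 2) + (ε / 2) ^ (2 * J + 2 + 2)) ?_ ?_
  · convert h2 using 1
    ext g
    simp only [Pi.sub_apply, Pi.pow_apply, Pi.add_apply, Pi.mul_apply]
    ring
  · rw [div_pow, ← two_mul, pow_succ (2 : ℝ) (2 * J + 2 + 1)]
    have h3 : (1 : ℝ) ≤ 2 ^ (2 * J + 2 + 1) := one_le_pow₀ (by norm_num)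
    have h4 : 0 < ε ^ (2 * J + 2 + 2) := by positivity
    rw [mul_div_assoc', div_le_iff₀ (by positivity)]
    nlinarith

end Pool.Agent.P.MP_849d05_an
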