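import Pool.Agent.P.MP_849d05_an.Defs
import Pool.Agent.P.MP_849d05_an.Quasi
import Pool.Agent.P.MP_849d05_an.Orth

set_option autoImplicit false

open scoped ComplexConjugate ComplexOrder ENNReal NNReal Topology InnerProductSpace
open Filter MeasureTheory

namespace Pool.Agent.P.MP_849d05_an

theorem uncountable_Kp {j : ℕ} (hj : 0 < j) : Uncountable (Kp (Lv j)) := by
  have : Nonempty (Fin j) := ⟨⟨0, hj⟩⟩
  rw [← Cardinal.aleph0_lt_mk_iff]
  simp only [Cardinal.mk_pi, Cardinal.prod_const, Cardinal.lift_id, Cardinal.mk_fintype,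
    ZMod.card, Cardinal.mk_eq_aleph0, Nat.cast_ofNat]
  exact Cardinal.cantor _

/-- The points that agree with a point of `U` on the first `N` coordinates. -/
def nbhd (U : Set (Kp ℕ)) (N : ℕ) : Set (Kp ℕ) := ⋃ y ∈ U, cyl (Finset.range N) y

theorem measurableSet_nbhd (U : Set (Kp ℕ)) (N : ℕ) : MeasurableSet (nbhd U N) :=
  (isOpen_biUnion fun y _ => isOpen_cyl _ y).measurableSet

theorem subset_nbhd (U : Set (Kp ℕ)) (N : ℕ) : U ⊆ nbhd U N :=
  fun _ hy => Set.mem_biUnion hy fun _ _ => rfl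

theorem antitone_nbhd (U : Set (Kp ℕ)) : Antitone (nbhd U) := by
  intro N M h x hx
  obtain ⟨y, hy, h1⟩ := Set.mem_iUnion₂.1 hx
  exact Set.mem_biUnion hy fun i hi => h1 i (Finset.range_subset_range.2 h hi)

theorem iInter_nbhd {U : Set (Kp ℕ)} (hU : IsClosed U) : ⋂ N, nbhd U N = U := by
  refine Set.Subset.antisymm (fun x hx => ?_) (Set.subset_iInter (subset_nbhd U))
  have h1 : ∀ N, ∃ y ∈ U, x ∈ cyl (Finset.range N) y := fun N => by
    simpa [nbhd] using Set.mem_iInter.1 hx N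
  choose y hy h2 using h1
  refine hU.mem_of_tendsto (f := y) (b := atTop) ?_ (Eventually.of_forall hy)
  rw [tendsto_pi_nhds]
  intro i
  refine tendsto_const_nhds.congr' ?_
  filter_upwards [eventually_gt_atTop i] with N hN
  exact h2 N i (Finset.mem_range.2 hN)

theorem indicator_nbhd_mem (U : Set (Kp ℕ)) (N : ℕ) :
    (nbhd U N).indicator (fun _ => (1 : ℂ)) ∈ Submodule.span ℂ (Set.range (chi (I := ℕ))) := by
  classical
  have h1 : (nbhd U N).indicator (fun _ => (1 : ℂ))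
      = ∑ c ∈ GF (Finset.range N), (nbhd U N).indicator (fun _ => (1 : ℂ)) c •
          ∑ g ∈ GF (Finset.range N), (((2 : ℂ) ^ (Finset.range N).card)⁻¹ * chi g c) • chi g := by
    ext x
    simp only [Finset.sum_apply, Pi.smul_apply, smul_eq_mul, ← indicator_cyl]
    let c₀ : Gp ℕ := Finsupp.onFinset (Finset.range N)
      (fun i => if i ∈ Finset.range N then x i else 0) (fun i hi => by
        by_contra h; exact hi (if_neg h))
    have hc₀ : ∀ i ∈ Finset.range N, c₀ i = x i := fun i hi => if_pos hi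
    have hm : c₀ ∈ GF (Finset.range N) := mem_GF.2 Finsupp.support_onFinset_subset
    rw [Finset.sum_eq_single c₀]
    · rw [Set.indicator_of_mem (s := cyl _ _) (fun i hi => (hc₀ i hi).symm), mul_one]
      have : x ∈ nbhd U N ↔ (c₀ : Kp ℕ) ∈ nbhd U N := by
        simp only [nbhd, Set.mem_iUnion, cyl, Set.mem_ofPred_eq]
        refine exists₂_congr fun y _ => forall₂_congr fun i hi => ?_
        rw [hc₀ i hi]
      by_cases hx : x ∈ nbhd U N
      · rw [Set.indicator_of_mem hx, Set.indicator_of_mem (this.1 hx)]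
      · rw [Set.indicator_of_notMem hx, Set.indicator_of_notMem (fun h => hx (this.2 h))]
    · intro c hc hne
      rw [Set.indicator_of_notMem (s := cyl _ _), mul_zero]
      intro h
      apply hne
      ext i
      by_cases hi : i ∈ Finset.range N
      · rw [hc₀ i hi, h i hi]
      · rw [Finsupp.notMem_support_iff.1 fun h => hi (mem_GF.1 hc h),
          Finsupp.notMem_support_iff.1 fun h => hi (mem_GF.1 hm h)]
    · intro h; exact absurd hm h
  rw [h1]
  exact Submodule.sum_mem _ fun c _ => Submodule.smul_mem _ _ (Submodule.sum_mem _ fun g _ =>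
    Submodule.smul_mem _ _ (Submodule.subset_span (Set.mem_range_self g)))

theorem far {u : Gp ℕ → ℂ} (hu : u ∈ FSa ℕ) {n : ℕ} (hn : 0 < n)
    (ξ η : lp (fun _ : Gp ℕ => ℂ) 2) (he : ∀ g, u g ^ n = ∑' h, ξ (g + h) * conj (η h))
    {δ : ℝ} (hδ : 0 < δ) :
    ∃ a : Gp ℕ →₀ ℂ, (∀ x, ‖a.sum fun g c => c * chi g x‖ ≤ 1) ∧
      1 - δ ≤ ‖a.sum fun g c => c * (ff g - u g)‖ := by
  obtain ⟨k, rfl⟩ : ∃ k, n = k + 1 := ⟨n - 1, by omega⟩
  obtain ⟨ρ, h, hρ, hi, hne, hrep⟩ := exists_rep hu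
  obtain ⟨κ, hκ, -, hpl⟩ := plancherel ξ η
  have h0 : ∀ j, 2 * (k + 1) ≤ j → ρ (prj j ⁻¹' Esum j 1) = 0 := by
    intro j hj
    have := uncountable_Kp (show 0 < j by omega)
    exact orth (prj j) (continuous_prj j).measurable (surjective_prj j) hi hne k hκ
      (fun g => by rw [← hrep, he, hpl]) (Esum j) (fun i => (isClosed_Esum j i).measurableSet)
      (Esum_zero j) (fun i hi => step_Esum j i (by omega)) (Esum_sum j (k + 1))
  obtain ⟨M, hM⟩ : ∃ M : ℕ, (((2 * (k + 1) : ℕ) : ℝ) + 1) / ((2 * (k + 1) : ℕ) + M + 1) ≤ δ / 2 := by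
    obtain ⟨M, hM⟩ := exists_nat_ge ((((2 * (k + 1) : ℕ) : ℝ) + 1) / (δ / 2))
    refine ⟨M, ?_⟩
    rw [div_le_iff₀ (by positivity)] at hM ⊢
    have : (0 : ℝ) ≤ ((2 * (k + 1) : ℕ) : ℝ) := by positivity
    nlinarith
  set U := carrier (2 * (k + 1)) (2 * (k + 1) + M)
  have hU : IsClosed U := isClosed_carrier _ _
  have hρU : ρ U = 0 :=
    (measure_biUnion_null_iff (Finset.countable_toSet _)).2 fun j hj =>
      h0 j (Finset.mem_Ico.1 hj).1
  have hμU : mu.real Uᶜ ≤ δ / 2 := (mu_compl_carrier _ M).trans hM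
  have ht := tendsto_setIntegral_of_antitone (μ := ρ) (f := fun x => ‖h x‖)
    (measurableSet_nbhd U) (antitone_nbhd U) ⟨0, hi.norm.integrableOn⟩
  rw [iInter_nbhd hU, setIntegral_measure_zero _ hρU] at ht
  obtain ⟨N, hN⟩ := (ht.eventually (ge_mem_nhds (show 0 < δ / 2 by positivity))).exists
  obtain ⟨a, ha⟩ := Finsupp.mem_span_range_iff_exists_finsupp.1 (indicator_nbhd_mem U N)
  have ha' : ∀ x, (a.sum fun g c => c * chi g x) = (nbhd U N).indicator (fun _ => (1 : ℂ)) x := by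
    intro x
    rw [← ha]
    simp [Finsupp.sum, Finset.sum_apply]
  refine ⟨a, fun x => ?_, ?_⟩
  · rw [ha']
    by_cases hx : x ∈ nbhd U N <;> simp [hx]
  · have e1 : (a.sum fun g c => c * ff g) = (mu.real (nbhd U N) : ℂ) := by
      simp only [Finsupp.sum, ff, ← integral_const_mul] at ha' ⊢
      rw [← integral_finsetSum _ fun g _ => (integrable_chi g mu).const_mul _]
      simp only [ha']
      rw [integral_indicator (measurableSet_nbhd U N)]
      simp
    have e2 : (a.sum fun g c => c * u g) = ∫ x in nbhd U N, h x ∂ρ := by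
      have i1 : ∀ g, Integrable (fun x => chi g x * h x) ρ := fun g =>
        integrable_chi_mul measurable_id hi g
      simp only [Finsupp.sum, hrep, ← integral_const_mul] at ha' ⊢
      rw [← integral_finsetSum _ fun g _ => (i1 g).const_mul _,
        ← integral_indicator (measurableSet_nbhd U N)]
      refine integral_congr_ae (Eventually.of_forall fun x => ?_)
      simp only [← mul_assoc, ← Finset.sum_mul, ha']
      by_cases hx : x ∈ nbhd U N <;> simp [hx]
    have e3 : (a.sum fun g c => c * (ff g - u g))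
        = (mu.real (nbhd U N) : ℂ) - ∫ x in nbhd U N, h x ∂ρ := by
      rw [← e1, ← e2]
      simp only [Finsupp.sum, mul_sub, Finset.sum_sub_distrib]
    rw [e3]
    have n1 := norm_sub_norm_le (mu.real (nbhd U N) : ℂ) (∫ x in nbhd U N, h x ∂ρ)
    have n2 : ‖∫ x in nbhd U N, h x ∂ρ‖ ≤ δ / 2 := (norm_integral_le_integral_norm _).trans hN
    rw [Complex.norm_real, Real.norm_of_nonneg measureReal_nonneg] at n1
    have n3 : mu.real U ≤ mu.real (nbhd U N) := measureReal_mono (subset_nbhd U N)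
    have n4 := measureReal_add_measureReal_compl (μ := mu) hU.measurableSet
    rw [probReal_univ] at n4
    linarith

abbrev Gam := Multiplicative (ℕ →₀ ZMod 2)

theorem inv_mul_Gam (g h : Gam) : g⁻¹ * h = Multiplicative.ofAdd (g.toAdd + h.toAdd) := by
  change Multiplicative.ofAdd (-g.toAdd + h.toAdd) = _
  rw [Gp.neg_eq]

theorem isPosDef_iff (φ : Gam → ℂ) : IsPosDef Gam φ ↔ PD (I := ℕ) φ := by
  unfold IsPosDef PD
  simp only [inv_mul_Gam]
  rfl

theorem mem_FS (u : Gam → ℂ) : u ∈ FS Gam ↔ u ∈ FSa ℕ := by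
  unfold FS FSa
  simp only [isPosDef_iff]
  rfl

theorem mem_cstarBall (a : Gp ℕ →₀ ℂ) (ha : ∀ x, ‖a.sum fun g c => c * chi g x‖ ≤ 1) :
    Finsupp.equivMapDomain Multiplicative.ofAdd a ∈ cstarBall Gam := by
  intro H _ _ _ π v
  rw [Finsupp.sum_equivMapDomain]
  let φ : Gp ℕ → ℂ := fun g => ⟪v, π (Multiplicative.ofAdd g) v⟫_ℂ
  have h1 : ∀ g h : Gp ℕ, φ (g + h) = ⟪π (Multiplicative.ofAdd g) v,
      π (Multiplicative.ofAdd h) v⟫_ℂ := by
    intro g h
    have e := (π (Multiplicative.ofAdd g)).inner_map_map v (π (Multiplicative.ofAdd (g + h)) v)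
    have e2 : π (Multiplicative.ofAdd g) (π (Multiplicative.ofAdd (g + h)) v)
        = π (Multiplicative.ofAdd h) v := by
      change (π (Multiplicative.ofAdd g) * π (Multiplicative.ofAdd (g + h))) v = _
      rw [← map_mul, ← ofAdd_add, ← add_assoc, Gp.add_self, zero_add]
    rw [e2] at e
    exact e.symm
  have h2 : ∀ (s : Finset (Gp ℕ)) (c : Gp ℕ → ℂ),
      ∑ g ∈ s, ∑ h ∈ s, conj (c g) * c h * φ (g + h)
        = ((‖∑ g ∈ s, c g • π (Multiplicative.ofAdd g) v‖ ^ 2 : ℝ) : ℂ) := by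
    intro s c
    have e : ∀ w : H, ((‖w‖ ^ 2 : ℝ) : ℂ) = ⟪w, w⟫_ℂ := fun w => by
      rw [inner_self_eq_norm_sq_to_K]; push_cast; rfl
    rw [e, sum_inner]
    refine Finset.sum_congr rfl fun g _ => ?_
    rw [inner_sum]
    refine Finset.sum_congr rfl fun h _ => ?_
    rw [inner_smul_left, inner_smul_right, h1]; ring
  have h3 : PD φ := fun s c => by rw [h2]; exact Complex.zero_le_real.2 (sq_nonneg _)
  obtain ⟨ρ, hρ, h4⟩ := bochner h3
  have h5 := h2 a.support a
  simp only [h4] at h5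
  rw [ft_sq ρ a.support (fun g => g) a] at h5
  have h6 := Complex.ofReal_injective h5
  have h7 : ρ.real Set.univ = ‖v‖ ^ 2 := by
    have := h4 0
    simp only [φ, ofAdd_zero, map_one, LinearIsometryEquiv.coe_one, id,
      inner_self_eq_norm_sq_to_K, chi_zero_left, integral_const, Complex.real_smul,
      mul_one] at this
    apply Complex.ofReal_injective
    rw [← this]; push_cast; rfl
  have h8 : ∫ x, ‖∑ i ∈ a.support, a i * chi i x‖ ^ 2 ∂ρ ≤ ‖v‖ ^ 2 := by
    refine (le_abs_self _).trans ?_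
    rw [← Real.norm_eq_abs, ← h7]
    refine (norm_integral_le_of_norm_le_const (C := 1) (Eventually.of_forall fun x => ?_)).trans
      (by simp)
    rw [norm_pow, norm_norm]
    exact pow_le_one₀ (norm_nonneg _) (ha x)
  rw [h6] at h8
  rw [Finsupp.sum]
  exact (pow_le_pow_iff_left₀ (norm_nonneg _) (norm_nonneg _) two_ne_zero).1 h8

/-- The counterexample as a function on the multiplicative group. -/
noncomputable def ffm (g : Gam) : ℂ := ff g.toAdd

theorem ff_mem_zafran : ffm ∈ zafran Gam := by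
  refine ⟨(mem_FS _).2 PD_ff.mem, quasi_ff.tendsto, ?_⟩
  ext z
  have := quasi_ff.inv_iff PD_ff.mem z
  unfold spec
  simp only [mem_FS]
  exact this

theorem one_le_norm (u : Gam → ℂ) (hu : u ∈ radFA Gam) : 1 ≤ normFS Gam (ffm - u) := by
  obtain ⟨hB, n, hn, ξ, η, hξ, hη, he⟩ := hu
  rw [mem_FS] at hB
  have hl : ∀ ζ : Gam → ℂ, (Summable fun h => ‖ζ h‖ ^ 2) → Memℓp (α := Gp ℕ) ζ 2 := fun ζ hζ =>
    memℓp_gen (by simp only [ENNReal.toReal_ofNat, Real.rpow_ofNat]; exact hζ)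
  refine ENNReal.le_of_forall_pos_le_add fun δ hδ _ => ?_
  obtain ⟨a, h1, h2⟩ := far (u := fun g => u (Multiplicative.ofAdd g)) hB hn
    ⟨ξ, hl ξ hξ⟩ ⟨η, hl η hη⟩ (fun g => by
    have := he (Multiplicative.ofAdd g)
    simp only [inv_mul_Gam] at this
    exact this) (δ := δ) (by exact_mod_cast hδ)
  have h3 : ‖(Finsupp.equivMapDomain Multiplicative.ofAdd a).sum
      fun g c => c * (ffm - u) g‖ₑ ≤ normFS Gam (ffm - u) :=
    le_iSup₂_of_le (f := fun (a : Gam →₀ ℂ) (_ : a ∈ cstarBall Gam) =>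
      ‖a.sum fun g c => c * (ffm - u) g‖ₑ) _ (mem_cstarBall a h1) le_rfl
  rw [Finsupp.sum_equivMapDomain] at h3
  refine le_trans ?_ (add_le_add h3 le_rfl)
  rw [← ofReal_norm, ← ENNReal.ofReal_coe_nnreal,
    ← ENNReal.ofReal_add (norm_nonneg _) δ.coe_nonneg, ← ENNReal.ofReal_one]
  apply ENNReal.ofReal_le_ofReal
  simp only [Pi.sub_apply, ffm, toAdd_ofAdd]
  linarith

theorem main : ∃ f ∈ zafran Gam, f ∉ closureFS Gam (radFA Gam) := by
  refine ⟨ffm, ff_mem_zafran, fun h1 => ?_⟩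
  obtain ⟨u, hu, h2⟩ := h1.2 1 zero_lt_one
  exact absurd (one_le_norm u hu) (not_le.2 h2)

end Pool.Agent.P.MP_849d05_an
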