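import Pool.Agent.P.MP_849d05_an.PosDef

set_option autoImplicit false

open scoped ComplexConjugate ComplexOrder ENNReal NNReal Topology InnerProductSpace
open Filter MeasureTheory

namespace Pool.Agent.P.MP_849d05_an

variable {I : Type} [Countable I]

noncomputable def chiL (g : Gp I) : Lp ℂ 2 (haar I) :=
  ContinuousMap.toLp 2 (haar I) ℂ ⟨chi g, continuous_chi g⟩

theorem chiL_ae (g : Gp I) : chiL g =ᵐ[haar I] chi g :=
  ContinuousMap.coeFn_toLp (p := 2) (𝕜 := ℂ) (haar I) ⟨chi g, continuous_chi g⟩

theorem orthonormal_chiL : Orthonormal ℂ (chiL (I := I)) := by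
  classical
  rw [orthonormal_iff_ite]
  intro g h
  unfold chiL
  rw [ContinuousMap.inner_toLp]
  simp only [ContinuousMap.coe_mk, conj_chi, ← chi_add_left, integral_chi_haar]
  congr 1
  rw [eq_iff_iff]
  constructor
  · intro h0
    have := Gp.neg_eq h
    rw [← this]
    exact (neg_eq_of_add_eq_zero_right h0).symm
  · rintro rfl; exact Gp.add_self _

noncomputable def planch : lp (fun _ : Gp I => ℂ) 2 →ₗᵢ[ℂ] Lp ℂ 2 (haar I) :=
  (orthonormal_chiL (I := I)).orthogonalFamily.linearIsometry

theorem hasSum_planch (ξ : lp (fun _ : Gp I => ℂ) 2) :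
    HasSum (fun h => ξ h • chiL h) (planch ξ) := by
  have := (orthonormal_chiL (I := I)).orthogonalFamily.hasSum_linearIsometry ξ
  simp only [LinearIsometry.toSpanSingleton_apply] at this
  exact this

theorem inner_planch_chiL (η : lp (fun _ : Gp I => ℂ) 2) (k : Gp I) :
    ⟪planch η, chiL k⟫_ℂ = conj (η k) := by
  classical
  have h1 : planch (lp.single 2 k (1 : ℂ)) = chiL k := by
    unfold planch
    rw [OrthogonalFamily.linearIsometry_apply_single]
    simp
  rw [← h1, LinearIsometry.inner_map_map, lp.inner_single_right]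
  simp

theorem integral_norm_sq_L2 (X : Lp ℂ 2 (haar I)) : ∫ x, ‖X x‖ ^ 2 ∂(haar I) = ‖X‖ ^ 2 := by
  have h := L2.inner_def (𝕜 := ℂ) X X
  simp only [inner_self_eq_norm_sq_to_K] at h
  apply Complex.ofReal_injective
  rw [← integral_complex_ofReal]
  push_cast
  exact h.symm

theorem plancherel (ξ η : lp (fun _ : Gp I => ℂ) 2) :
    ∃ k : Kp I → ℂ, Integrable k (haar I) ∧
      (∀ t : ℝ, 0 < t → ∫ x, ‖k x‖ ∂(haar I) ≤ (t * ‖ξ‖ ^ 2 + ‖η‖ ^ 2 / t) / 2) ∧
      ∀ g, ∑' h, ξ (g + h) * conj (η h) = ∫ x, chi g x * k x ∂(haar I) := by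
  have hint : Integrable (fun x => planch ξ x * conj (planch η x)) (haar I) := by
    have := L2.integrable_inner (𝕜 := ℂ) (planch η) (planch ξ)
    simpa using this
  refine ⟨fun x => planch ξ x * conj (planch η x), hint, fun t ht => ?_, fun g => ?_⟩
  · have h1 := integral_norm_sq_L2 (planch ξ)
    have h2 := integral_norm_sq_L2 (planch η)
    rw [LinearIsometry.norm_map] at h1 h2
    have i1 : Integrable (fun x => ‖planch ξ x‖ ^ 2) (haar I) :=
      (Lp.memLp (planch ξ)).integrable_norm_pow (by norm_num)
    have i2 : Integrable (fun x => ‖planch η x‖ ^ 2) (haar I) :=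
      (Lp.memLp (planch η)).integrable_norm_pow (by norm_num)
    rw [← h1, ← h2, ← integral_const_mul, ← integral_div, ← integral_add (i1.const_mul _)
      (i2.div_const _), ← integral_div]
    refine integral_mono hint.norm (((i1.const_mul _).add (i2.div_const _)).div_const _)
      fun x => ?_
    simp only [norm_mul, RCLike.norm_conj]
    set a := ‖planch ξ x‖
    set b := ‖planch η x‖
    have : 0 ≤ (t * a - b) ^ 2 / t := by positivity
    have e : (t * a - b) ^ 2 / t = t * a ^ 2 + b ^ 2 / t - 2 * (a * b) := by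
      field_simp; ring
    linarith
  · have hm : MemLp (fun x => chi g x * planch η x) 2 (haar I) := by
      refine (Lp.memLp (planch η)).of_le
        ((measurable_chi g).aestronglyMeasurable.mul (Lp.aestronglyMeasurable _))
        (Eventually.of_forall fun x => ?_)
      simp [norm_chi]
    have h1 : ⟪hm.toLp _, planch ξ⟫_ℂ
        = ∫ x, chi g x * (planch ξ x * conj (planch η x)) ∂(haar I) := by
      rw [L2.inner_def]
      refine integral_congr_ae ?_
      filter_upwards [hm.coeFn_toLp] with x hx
      rw [hx]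
      simp only [RCLike.inner_apply, map_mul, conj_chi]; ring
    have h2 : ∀ h, ⟪hm.toLp _, chiL h⟫_ℂ = conj (η (g + h)) := by
      intro h
      rw [← inner_planch_chiL, L2.inner_def, L2.inner_def]
      refine integral_congr_ae ?_
      filter_upwards [hm.coeFn_toLp, chiL_ae h, chiL_ae (g + h)] with x hx h1 h2
      rw [hx, h1, h2]
      simp only [RCLike.inner_apply, map_mul, conj_chi, chi_add_left]; ring
    have h3 := (hasSum_planch ξ).mapL (innerSL ℂ (hm.toLp _))
    simp only [innerSL_apply_apply, inner_smul_right, h2, h1] at h3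
    rw [← h3.tsum_eq, ← (Equiv.addLeft g).tsum_eq]
    refine tsum_congr fun h => ?_
    simp only [Equiv.coe_addLeft]
    rw [← add_assoc, Gp.add_self, zero_add]

end Pool.Agent.P.MP_849d05_an
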