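import Pool.Agent.P.MP_849d05_an.Uniq

set_option autoImplicit false

open scoped ComplexConjugate ComplexOrder ENNReal NNReal Topology BoundedContinuousFunction
open Filter MeasureTheory

namespace Pool.Agent.P.MP_849d05_an

variable {I : Type}

/-- Positive definite functions on the additive group `Gp I` of exponent two. -/
def PD (φ : Gp I → ℂ) : Prop :=
  ∀ (s : Finset (Gp I)) (c : Gp I → ℂ), 0 ≤ ∑ g ∈ s, ∑ h ∈ s, conj (c g) * c h * φ (g + h)

noncomputable def dens (φ : Gp I → ℂ) (F : Finset I) (x : Kp I) : ℂ :=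
  ∑ g ∈ GF F, φ g * chi g x

theorem dens_nonneg {φ : Gp I → ℂ} (hφ : PD φ) (F : Finset I) (x : Kp I) : 0 ≤ dens φ F x := by
  have h := hφ (GF F) (fun g => chi g x)
  have h2 : ∀ g ∈ GF F, ∑ h ∈ GF F, conj (chi g x) * chi h x * φ (g + h) = dens φ F x := by
    intro g hg
    unfold dens
    rw [← sum_GF_add hg (fun h => φ h * chi h x)]
    refine Finset.sum_congr rfl fun h _ => ?_
    rw [conj_chi, chi_add_left]; ring
  rw [Finset.sum_congr rfl h2, Finset.sum_const, card_GF, nsmul_eq_mul] at h
  have hpos : (0 : ℂ) ≤ (((2 ^ F.card : ℕ) : ℂ))⁻¹ := by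
    have : (0 : ℝ) ≤ (((2 ^ F.card : ℕ) : ℝ))⁻¹ := by positivity
    have h3 := Complex.zero_le_real.2 this
    rwa [Complex.ofReal_inv, Complex.ofReal_natCast] at h3
  have := mul_nonneg hpos h
  rwa [← mul_assoc, inv_mul_cancel₀ (by positivity), one_mul] at this

theorem continuous_dens (φ : Gp I → ℂ) (F : Finset I) : Continuous (dens φ F) := by
  unfold dens
  exact continuous_finsetSum _ fun g _ => (continuous_chi g).const_mul _

variable [Countable I]

theorem integral_withDensity_re {Y : Type} [MeasurableSpace Y] {P : Measure Y} {w : Y → ℝ}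
    (hw : AEMeasurable w P) (h0 : ∀ y, 0 ≤ w y) (ψ : Y → ℂ) :
    ∫ y, ψ y ∂(P.withDensity fun y => ENNReal.ofReal (w y)) = ∫ y, ψ y * w y ∂P := by
  rw [integral_withDensity_eq_integral_toReal_smul₀ hw.ennreal_ofReal
    (Eventually.of_forall fun _ => ENNReal.ofReal_lt_top)]
  refine integral_congr_ae (Eventually.of_forall fun y => ?_)
  simp only [ENNReal.toReal_ofReal (h0 y), Complex.real_smul]; ring

noncomputable def approxMeas (φ : Gp I → ℂ) (F : Finset I) : FiniteMeasure (Kp I) :=
  ⟨(haar I).withDensity fun x => ENNReal.ofReal (dens φ F x).re,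
    isFiniteMeasure_withDensity_ofReal
      ((Complex.continuous_re.comp (continuous_dens φ F)).integrable_of_hasCompactSupport
        (HasCompactSupport.of_compactSpace _)).2⟩

theorem integral_approxMeas {φ : Gp I → ℂ} (hφ : PD φ) (F : Finset I) {g : Gp I}
    (hg : g ∈ GF F) : ∫ x, chi g x ∂(approxMeas φ F : Measure (Kp I)) = φ g := by
  classical
  change ∫ x, chi g x ∂((haar I).withDensity fun x => ENNReal.ofReal (dens φ F x).re) = φ g
  rw [integral_withDensity_re (w := fun x => (dens φ F x).re)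
    (Complex.continuous_re.comp (continuous_dens φ F)).measurable.aemeasurable
    (fun x => (Complex.nonneg_iff.1 (dens_nonneg hφ F x)).1)]
  have h1 : ∀ x, chi g x * (((dens φ F x).re : ℝ) : ℂ)
      = ∑ h ∈ GF F, φ h * chi (g + h) x := by
    intro x
    have : (((dens φ F x).re : ℝ) : ℂ) = dens φ F x :=
      Complex.ext (by simp) (by simpa using (Complex.nonneg_iff.1 (dens_nonneg hφ F x)).2)
    rw [this, dens, Finset.mul_sum]
    refine Finset.sum_congr rfl fun h _ => ?_
    rw [chi_add_left]; ring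
  simp only [h1]
  rw [integral_finsetSum _ fun h _ => (integrable_chi _ _).const_mul _]
  simp_rw [integral_const_mul, integral_chi_haar]
  rw [Finset.sum_eq_single g]
  · simp [Gp.add_self]
  · intro h _ hne
    rw [if_neg, mul_zero]
    intro h0
    apply hne
    have := Gp.neg_eq g
    rw [← this]
    exact (neg_eq_of_add_eq_zero_right h0).symm
  · intro h; exact absurd hg h

theorem bochner {φ : Gp I → ℂ} (hφ : PD φ) :
    ∃ ρ : Measure (Kp I), IsFiniteMeasure ρ ∧ ∀ g, φ g = ∫ x, chi g x ∂ρ := by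
  classical
  let C : ℝ≥0 := (φ 0).re.toNNReal
  have hmass : ∀ F, approxMeas φ F ∈ {μ : FiniteMeasure (Kp I) | μ.mass ≤ C} := by
    intro F
    have h := integral_approxMeas hφ F (zero_mem_GF F)
    simp only [chi_zero_left, integral_const, Complex.real_smul, mul_one] at h
    have h2 : ((approxMeas φ F).mass : ℝ) = (φ 0).re := by
      rw [← h, Complex.ofReal_re]
      rfl
    change (approxMeas φ F).mass ≤ C
    rw [← NNReal.coe_le_coe, h2]
    exact Real.le_coe_toNNReal _
  let U : Ultrafilter (Finset I) := Ultrafilter.of atTop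
  have hU : (U : Filter (Finset I)) ≤ atTop := Ultrafilter.of_le _
  obtain ⟨ρ, -, hρ⟩ :=
    (isCompact_setOfPred_finiteMeasure_le_of_compactSpace (Kp I) C).ultrafilter_le_nhds'
      (U.map (approxMeas φ)) (Ultrafilter.mem_map.2 (Filter.univ_mem' hmass))
  refine ⟨ρ, inferInstance, fun g => ?_⟩
  have ht : Tendsto (approxMeas φ) U (𝓝 ρ) := hρ
  have h1 := (FiniteMeasure.tendsto_iff_forall_integral_rclike_tendsto ℂ).1 ht
    (BoundedContinuousFunction.mkOfCompact ⟨chi g, continuous_chi g⟩)
  have h2 : Tendsto (fun F => ∫ x, chi g x ∂(approxMeas φ F : Measure (Kp I))) U (𝓝 (φ g)) := by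
    refine tendsto_const_nhds.congr' ?_
    filter_upwards [hU (eventually_ge_atTop g.support)] with F hF
    exact (integral_approxMeas hφ F (mem_GF.2 hF)).symm
  exact tendsto_nhds_unique h2 h1

theorem ft_sq (ρ : Measure (Kp I)) [IsFiniteMeasure ρ] {ι : Type} (s : Finset ι)
    (g : ι → Gp I) (c : ι → ℂ) :
    ∑ i ∈ s, ∑ j ∈ s, conj (c i) * c j * ∫ x, chi (g i + g j) x ∂ρ
      = ((∫ x, ‖∑ i ∈ s, c i * chi (g i) x‖ ^ 2 ∂ρ : ℝ) : ℂ) := by
  rw [← integral_complex_ofReal]
  simp_rw [← integral_const_mul]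
  rw [← Finset.sum_product', ← integral_finsetSum _ fun p _ => (integrable_chi _ _).const_mul _]
  refine integral_congr_ae (Eventually.of_forall fun x => ?_)
  simp only
  rw [Finset.sum_product' (f := fun i j => conj (c i) * c j * chi (g i + g j) x)]
  push_cast
  rw [← Complex.conj_mul', map_sum, Finset.sum_mul_sum]
  refine Finset.sum_congr rfl fun i _ => Finset.sum_congr rfl fun j _ => ?_
  rw [map_mul, conj_chi, chi_add_left]; ring

theorem PD.of_measure (ρ : Measure (Kp I)) [IsFiniteMeasure ρ] :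
    PD (fun g => ∫ x, chi g x ∂ρ) := by
  intro s c
  rw [ft_sq ρ s (fun g => g) c]
  exact_mod_cast integral_nonneg fun x => by positivity

theorem PD.family {φ : Gp I → ℂ} (hφ : PD φ) {ι : Type} (s : Finset ι) (g : ι → Gp I)
    (c : ι → ℂ) : 0 ≤ ∑ i ∈ s, ∑ j ∈ s, conj (c i) * c j * φ (g i + g j) := by
  obtain ⟨ρ, hρ, h⟩ := bochner hφ
  simp_rw [h]
  rw [ft_sq ρ s g c]
  exact_mod_cast integral_nonneg fun x => by positivity

theorem PD.of_integral {Y : Type} [MeasurableSpace Y] (P : Measure Y) {s : Y → Kp I}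
    (hs : Measurable s) {w : Y → ℝ} (hw : Integrable w P) (h0 : ∀ y, 0 ≤ w y) :
    PD (fun g => ∫ y, chi g (s y) * w y ∂P) := by
  have := isFiniteMeasure_withDensity_ofReal hw.2
  have := PD.of_measure ((P.withDensity fun y => ENNReal.ofReal (w y)).map s)
  convert this using 2 with g
  rw [integral_map hs.aemeasurable (measurable_chi g).aestronglyMeasurable,
    integral_withDensity_re hw.aemeasurable h0]

theorem PD.norm_le {φ : Gp I → ℂ} (hφ : PD φ) (g : Gp I) : ‖φ g‖ ≤ (φ 0).re := by
  obtain ⟨ρ, hρ, h⟩ := bochner hφ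
  rw [h g, h 0]
  simp only [chi_zero_left, integral_const, Complex.real_smul, mul_one, Complex.ofReal_re]
  refine (norm_integral_le_of_norm_le_const (C := 1)
    (Eventually.of_forall fun x => (norm_chi g x).le)).trans (by simp)

theorem PD.re_zero_nonneg {φ : Gp I → ℂ} (hφ : PD φ) : 0 ≤ (φ 0).re :=
  (norm_nonneg _).trans (hφ.norm_le 0)

theorem PD.im_eq_zero {φ : Gp I → ℂ} (hφ : PD φ) (g : Gp I) : (φ g).im = 0 := by
  obtain ⟨ρ, hρ, h⟩ := bochner hφ
  rw [h g]
  have := integral_im (integrable_chi g ρ)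
  simp only [RCLike.im_to_complex, chi_im, integral_zero] at this
  exact this.symm

omit [Countable I] in
theorem PD.add {φ ψ : Gp I → ℂ} (hφ : PD φ) (hψ : PD ψ) : PD (φ + ψ) := by
  intro s c
  have := add_nonneg (hφ s c) (hψ s c)
  simpa only [Pi.add_apply, mul_add, Finset.sum_add_distrib] using this

omit [Countable I] in
theorem PD.smul {φ : Gp I → ℂ} (hφ : PD φ) {t : ℝ} (ht : 0 ≤ t) :
    PD (fun g => (t : ℂ) * φ g) := by
  intro s c
  have := mul_nonneg (show (0 : ℂ) ≤ t by exact_mod_cast ht) (hφ s c)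
  simp only [Finset.mul_sum] at this
  convert this using 3
  ring

omit [Countable I] in
theorem PD.zero : PD (0 : Gp I → ℂ) := by
  intro s c; simp

omit [Countable I] in
theorem PD.one : PD (1 : Gp I → ℂ) := by
  intro s c
  simp only [Pi.one_apply, mul_one]
  rw [← Finset.sum_mul_sum, ← map_sum, Complex.conj_mul']
  positivity

theorem PD.mul {φ ψ : Gp I → ℂ} (hφ : PD φ) (hψ : PD ψ) : PD (φ * ψ) := by
  obtain ⟨ρ, hρ, h⟩ := bochner hφ
  intro s c
  have h1 : ∑ g ∈ s, ∑ k ∈ s, conj (c g) * c k * (φ * ψ) (g + k)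
      = ∫ x, ∑ g ∈ s, ∑ k ∈ s,
          conj (c g * chi g x) * (c k * chi k x) * ψ (g + k) ∂ρ := by
    have hi : ∀ g k, Integrable
        (fun x => conj (c g * chi g x) * (c k * chi k x) * ψ (g + k)) ρ := by
      intro g k
      have := ((integrable_chi (g + k) ρ).const_mul (conj (c g) * c k)).mul_const (ψ (g + k))
      refine this.congr (Eventually.of_forall fun x => ?_)
      simp only [map_mul, conj_chi, chi_add_left]; ring
    rw [integral_finsetSum _ fun g _ => integrable_finsetSum _ fun k _ => hi g k]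
    refine Finset.sum_congr rfl fun g _ => ?_
    rw [integral_finsetSum _ fun k _ => hi g k]
    refine Finset.sum_congr rfl fun k _ => ?_
    rw [Pi.mul_apply, h, ← mul_assoc, ← integral_const_mul, ← integral_mul_const]
    refine integral_congr_ae (Eventually.of_forall fun x => ?_)
    simp only [map_mul, conj_chi, chi_add_left]; ring
  rw [h1]
  exact integral_nonneg fun x => hψ s fun g => c g * chi g x

theorem PD.pow {φ : Gp I → ℂ} (hφ : PD φ) (n : ℕ) : PD (φ ^ n) := by
  induction n with
  | zero => simpa using PD.one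
  | succ n ih => rw [pow_succ]; exact ih.mul hφ

theorem PD.prod {ι : Type} (s : Finset ι) {φ : ι → Gp I → ℂ} (hφ : ∀ i ∈ s, PD (φ i)) :
    PD (fun g => ∏ i ∈ s, φ i g) := by
  classical
  induction s using Finset.induction_on with
  | empty => simp only [Finset.prod_empty]; exact PD.one
  | insert a s ha ih =>
    simp only [Finset.prod_insert ha]
    exact (hφ a (Finset.mem_insert_self _ _)).mul
      (ih fun i hi => hφ i (Finset.mem_insert_of_mem hi))

theorem PD.comp {J : Type} {φ : Gp I → ℂ} (hφ : PD φ) (r : Gp J →+ Gp I) :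
    PD (fun g => φ (r g)) := by
  intro s c
  simp only [map_add]
  exact hφ.family s r c

omit [Countable I] in
theorem PD.of_tendsto {ι : Type} {l : Filter ι} [l.NeBot] {φ : ι → Gp I → ℂ} {ψ : Gp I → ℂ}
    (hφ : ∀ᶠ i in l, PD (φ i)) (h : ∀ g, Tendsto (fun i => φ i g) l (𝓝 (ψ g))) : PD ψ := by
  intro s c
  refine ge_of_tendsto (x := l)
    (f := fun i => ∑ g ∈ s, ∑ k ∈ s, conj (c g) * c k * φ i (g + k)) ?_ ?_
  · exact tendsto_finsetSum _ fun g _ => tendsto_finsetSum _ fun k _ => (h _).const_mul _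
  · filter_upwards [hφ] with i hi using hi s c

open Classical in
theorem PD.delta : PD (fun g : Gp I => if g = 0 then (1 : ℂ) else 0) := by
  have := PD.of_measure (haar I)
  simpa only [integral_chi_haar] using this

end Pool.Agent.P.MP_849d05_an
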