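import Pool.Agent.P.MP_849d05_an.Planch

set_option autoImplicit false

open scoped ComplexConjugate ComplexOrder ENNReal NNReal Topology
open Filter MeasureTheory

namespace Pool.Agent.P.MP_849d05_an

variable {I : Type} [Countable I]

/-- `s` is a difference of two positive definite functions of total mass at most `ε`. -/
def Small (s : Gp I → ℂ) (ε : ℝ) : Prop :=
  ∃ φ ψ : Gp I → ℂ, PD φ ∧ PD ψ ∧ s = φ - ψ ∧ (φ 0).re + (ψ 0).re ≤ ε

omit [Countable I] in
theorem Small.mono {s : Gp I → ℂ} {ε ε' : ℝ} (h : Small s ε) (hε : ε ≤ ε') : Small s ε' := by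
  obtain ⟨φ, ψ, h1, h2, h3, h4⟩ := h
  exact ⟨φ, ψ, h1, h2, h3, h4.trans hε⟩

omit [Countable I] in
theorem PD.small {φ : Gp I → ℂ} (h : PD φ) {ε : ℝ} (hε : (φ 0).re ≤ ε) : Small φ ε :=
  ⟨φ, 0, h, PD.zero, by simp, by simpa using hε⟩

omit [Countable I] in
theorem Small.add {s t : Gp I → ℂ} {ε ε' : ℝ} (h : Small s ε) (h' : Small t ε') :
    Small (s + t) (ε + ε') := by
  obtain ⟨φ, ψ, h1, h2, rfl, h4⟩ := h
  obtain ⟨φ', ψ', h1', h2', rfl, h4'⟩ := h'
  refine ⟨φ + φ', ψ + ψ', h1.add h1', h2.add h2', by ring, ?_⟩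
  simp only [Pi.add_apply, Complex.add_re]; linarith

omit [Countable I] in
theorem Small.neg {s : Gp I → ℂ} {ε : ℝ} (h : Small s ε) : Small (-s) ε := by
  obtain ⟨φ, ψ, h1, h2, rfl, h4⟩ := h
  exact ⟨ψ, φ, h2, h1, by ring, by linarith⟩

theorem Small.norm_le {s : Gp I → ℂ} {ε : ℝ} (h : Small s ε) (g : Gp I) : ‖s g‖ ≤ ε := by
  obtain ⟨φ, ψ, h1, h2, rfl, h4⟩ := h
  have := norm_sub_le (φ g) (ψ g)
  have := h1.norm_le g
  have := h2.norm_le g
  simp only [Pi.sub_apply]; linarith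

theorem Small.nonneg {s : Gp I → ℂ} {ε : ℝ} (h : Small s ε) : 0 ≤ ε :=
  (norm_nonneg _).trans (h.norm_le 0)

theorem Small.mul {s t : Gp I → ℂ} {ε ε' : ℝ} (h : Small s ε) (h' : Small t ε') :
    Small (s * t) (ε * ε') := by
  obtain ⟨φ, ψ, h1, h2, rfl, h4⟩ := h
  obtain ⟨φ', ψ', h1', h2', rfl, h4'⟩ := h'
  refine ⟨φ * φ' + ψ * ψ', φ * ψ' + ψ * φ', (h1.mul h1').add (h2.mul h2'),
    (h1.mul h2').add (h2.mul h1'), by ring, ?_⟩
  simp only [Pi.add_apply, Pi.mul_apply, Complex.add_re, Complex.mul_re, h1.im_eq_zero,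
    h2.im_eq_zero, zero_mul, sub_zero]
  have a1 := h1.re_zero_nonneg
  have a2 := h2.re_zero_nonneg
  have a3 := h1'.re_zero_nonneg
  have a4 := h2'.re_zero_nonneg
  calc _ = ((φ 0).re + (ψ 0).re) * ((φ' 0).re + (ψ' 0).re) := by ring
    _ ≤ ε * ε' := mul_le_mul h4 h4' (by positivity) (by linarith)

theorem Small.pow {s : Gp I → ℂ} {ε : ℝ} (h : Small s ε) (k : ℕ) : Small (s ^ k) (ε ^ k) := by
  induction k with
  | zero => simpa using PD.one.small (by simp)
  | succ k ih => rw [pow_succ, pow_succ]; exact ih.mul h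

omit [Countable I] in
theorem Small.smul_nonneg {s : Gp I → ℂ} {ε : ℝ} (h : Small s ε) {t : ℝ} (ht : 0 ≤ t) :
    Small (fun g => (t : ℂ) * s g) (t * ε) := by
  obtain ⟨φ, ψ, h1, h2, rfl, h4⟩ := h
  refine ⟨_, _, h1.smul ht, h2.smul ht, ?_, ?_⟩
  · ext g; simp [mul_sub]
  · simp only [Complex.re_ofReal_mul]
    rw [← mul_add]; exact mul_le_mul_of_nonneg_left h4 ht

omit [Countable I] in
theorem Small.smul {s : Gp I → ℂ} {ε : ℝ} (h : Small s ε) (t : ℝ) :
    Small (fun g => (t : ℂ) * s g) (|t| * ε) := by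
  rcases le_total 0 t with ht | ht
  · rw [abs_of_nonneg ht]; exact h.smul_nonneg ht
  · rw [abs_of_nonpos ht]
    have := (h.smul_nonneg (neg_nonneg.2 ht)).neg
    convert this using 1
    ext g; simp

theorem Small.comp {J : Type} {s : Gp I → ℂ} {ε : ℝ} (h : Small s ε) (r : Gp J →+ Gp I) :
    Small (fun g => s (r g)) ε := by
  obtain ⟨φ, ψ, h1, h2, rfl, h4⟩ := h
  exact ⟨_, _, h1.comp r, h2.comp r, rfl, by simpa using h4⟩

theorem small_of_lp (ξ : lp (fun _ : Gp I => ℂ) 2) (hξ : ∀ g, (ξ g).im = 0) {ε : ℝ} (hε : 0 < ε)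
    (hn : ‖ξ‖ ≤ ε) : Small (fun g => ξ g) ε := by
  classical
  obtain ⟨k, hk, hb, he⟩ := plancherel ξ (lp.single 2 (0 : Gp I) (1 : ℂ))
  have he' : ∀ g, ξ g = ∫ x, chi g x * (((k x).re : ℝ) : ℂ) ∂(haar I) := by
    intro g
    have h1 : ξ g = ∫ x, chi g x * k x ∂(haar I) := by
      rw [← he g, tsum_eq_single 0]
      · simp
      · intro h hh; simp [lp.single_apply, hh]
    have h2 : ξ g = ((ξ g).re : ℂ) := Complex.ext (by simp) (by simp [hξ g])
    rw [h2, h1]
    have h3 := integral_re (integrable_chi_mul measurable_id hk g)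
    simp only [RCLike.re_to_complex, id] at h3
    rw [← h3, ← integral_complex_ofReal]
    refine integral_congr_ae (Eventually.of_forall fun x => ?_)
    apply Complex.ext <;> simp [chi_im]
  have hre : Integrable (fun x => (k x).re) (haar I) := hk.re
  refine ⟨_, _, PD.of_integral (haar I) measurable_id hre.pos_part (fun x => le_max_right _ _),
    PD.of_integral (haar I) measurable_id hre.neg_part (fun x => le_max_right _ _), ?_, ?_⟩
  · ext g
    simp only [Pi.sub_apply, id]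
    have i1 : Integrable (fun y => chi g y * ((max (k y).re 0 : ℝ) : ℂ)) (haar I) :=
      integrable_chi_mul measurable_id hre.pos_part.ofReal g
    have i2 : Integrable (fun y => chi g y * ((max (-(k y).re) 0 : ℝ) : ℂ)) (haar I) :=
      integrable_chi_mul measurable_id hre.neg_part.ofReal g
    rw [he' g, ← integral_sub i1 i2]
    refine integral_congr_ae (Eventually.of_forall fun x => ?_)
    simp only
    rw [← mul_sub, ← Complex.ofReal_sub]
    congr 2
    exact (max_zero_sub_max_neg_zero_eq_self _).symm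
  · simp only [chi_zero_left, one_mul, integral_complex_ofReal, Complex.ofReal_re]
    rw [← integral_add hre.pos_part hre.neg_part]
    have h1 := hb ε⁻¹ (by positivity)
    have h2 : ‖(lp.single 2 (0 : Gp I) (1 : ℂ) : lp (fun _ : Gp I => ℂ) 2)‖ = 1 := by
      rw [lp.norm_single (by norm_num)]; simp
    rw [h2] at h1
    have h3 : ∫ x, (max (k x).re 0 + max (-(k x).re) 0) ∂(haar I) ≤ ∫ x, ‖k x‖ ∂(haar I) := by
      refine integral_mono (hre.pos_part.add hre.neg_part) hk.norm fun x => ?_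
      have := Complex.abs_re_le_norm (k x)
      simp only
      rw [max_zero_add_max_neg_zero_eq_abs_self]; exact this
    have h4 : ε⁻¹ * ‖ξ‖ ^ 2 ≤ ε := by
      rw [inv_mul_le_iff₀ hε, ← sq]
      exact pow_le_pow_left₀ (norm_nonneg _) hn 2
    have h5 : (1 : ℝ) ^ 2 / ε⁻¹ = ε := by simp
    linarith

variable (I) in
/-- The span of the positive definite functions. -/
def FSa : Submodule ℂ (Gp I → ℂ) := Submodule.span ℂ {φ | PD φ}

omit [Countable I] in
theorem PD.mem {φ : Gp I → ℂ} (h : PD φ) : φ ∈ FSa I := Submodule.subset_span h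

omit [Countable I] in
theorem Small.mem {s : Gp I → ℂ} {ε : ℝ} (h : Small s ε) : s ∈ FSa I := by
  obtain ⟨φ, ψ, h1, h2, rfl, -⟩ := h
  exact sub_mem h1.mem h2.mem

theorem FSa_mul {u v : Gp I → ℂ} (hu : u ∈ FSa I) (hv : v ∈ FSa I) : u * v ∈ FSa I := by
  induction hu using Submodule.span_induction with
  | mem φ hφ =>
    induction hv using Submodule.span_induction with
    | mem ψ hψ => exact (PD.mul hφ hψ).mem
    | zero => simp
    | add a b _ _ ha hb => rw [mul_add]; exact add_mem ha hb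
    | smul c a _ ha => rw [mul_smul_comm]; exact Submodule.smul_mem _ _ ha
  | zero => simp
  | add a b _ _ ha hb => rw [add_mul]; exact add_mem ha hb
  | smul c a _ ha => rw [smul_mul_assoc]; exact Submodule.smul_mem _ _ ha

theorem FSa_pow {u : Gp I → ℂ} (hu : u ∈ FSa I) (n : ℕ) : u ^ n ∈ FSa I := by
  induction n with
  | zero => simpa using PD.one.mem
  | succ n ih => rw [pow_succ]; exact FSa_mul ih hu

theorem FSa_bounded {u : Gp I → ℂ} (hu : u ∈ FSa I) : ∃ M : ℝ, ∀ g, ‖u g‖ ≤ M := by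
  induction hu using Submodule.span_induction with
  | mem φ hφ => exact ⟨_, PD.norm_le hφ⟩
  | zero => exact ⟨0, by simp⟩
  | add a b _ _ ha hb =>
    obtain ⟨M, hM⟩ := ha
    obtain ⟨N, hN⟩ := hb
    exact ⟨M + N, fun g => (norm_add_le _ _).trans (add_le_add (hM g) (hN g))⟩
  | smul c a _ ha =>
    obtain ⟨M, hM⟩ := ha
    exact ⟨‖c‖ * M, fun g => by
      rw [Pi.smul_apply, norm_smul]; exact mul_le_mul_of_nonneg_left (hM g) (norm_nonneg _)⟩

theorem FSa_single [DecidableEq (Gp I)] (k : Gp I) : (Pi.single k (1 : ℂ) : Gp I → ℂ) ∈ FSa I := by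
  have := small_of_lp (lp.single 2 k (1 : ℂ)) (fun g => by
    by_cases h : g = k
    · subst h; simp
    · simp [lp.single_apply, h]) one_pos (by rw [lp.norm_single (by norm_num)]; simp)
  convert this.mem using 1
  ext g
  simp [lp.single_apply]

theorem FSa_finite {u : Gp I → ℂ} (hu : (Function.support u).Finite) : u ∈ FSa I := by
  classical
  have : u = ∑ k ∈ hu.toFinset, u k • (Pi.single k (1 : ℂ) : Gp I → ℂ) := by
    ext g
    simp only [Finset.sum_apply, Pi.smul_apply, smul_eq_mul]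
    rw [Finset.sum_eq_single g]
    · simp
    · intro k _ hk; simp [hk.symm]
    · intro h; simpa using h
  rw [this]
  exact Submodule.sum_mem _ fun k _ => Submodule.smul_mem _ _ (FSa_single k)

omit [Countable I] in
theorem PD.sum {ι : Type} (s : Finset ι) {φ : ι → Gp I → ℂ} (hφ : ∀ i ∈ s, PD (φ i)) :
    PD (fun g => ∑ i ∈ s, φ i g) := by
  classical
  induction s using Finset.induction_on with
  | empty => simp only [Finset.sum_empty]; exact PD.zero
  | insert a s ha ih =>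
    simp only [Finset.sum_insert ha]
    exact (hφ a (Finset.mem_insert_self _ _)).add
      (ih fun i hi => hφ i (Finset.mem_insert_of_mem hi))

theorem FSa_series {s : ℕ → Gp I → ℂ} {ε : ℕ → ℝ} (hs : ∀ k, Small (s k) (ε k))
    (hε : Summable ε) : (fun g => ∑' k, s k g) ∈ FSa I := by
  choose φ ψ h1 h2 h3 h4 using hs
  have s1 : ∀ g, Summable fun k => φ k g := fun g =>
    Summable.of_norm_bounded hε fun k => by
      have := (h1 k).norm_le g
      have := (h2 k).re_zero_nonneg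
      have := h4 k
      linarith
  have s2 : ∀ g, Summable fun k => ψ k g := fun g =>
    Summable.of_norm_bounded hε fun k => by
      have := (h2 k).norm_le g
      have := (h1 k).re_zero_nonneg
      have := h4 k
      linarith
  have p1 : PD (fun g => ∑' k, φ k g) :=
    PD.of_tendsto (l := atTop) (φ := fun n g => ∑ k ∈ Finset.range n, φ k g)
      (Eventually.of_forall fun n => PD.sum _ fun k _ => h1 k)
      (fun g => (s1 g).hasSum.tendsto_sum_nat)
  have p2 : PD (fun g => ∑' k, ψ k g) :=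
    PD.of_tendsto (l := atTop) (φ := fun n g => ∑ k ∈ Finset.range n, ψ k g)
      (Eventually.of_forall fun n => PD.sum _ fun k _ => h2 k)
      (fun g => (s2 g).hasSum.tendsto_sum_nat)
  have := sub_mem p1.mem p2.mem
  convert this using 1
  ext g
  simp only [Pi.sub_apply]
  rw [← (s1 g).tsum_sub (s2 g)]
  simp [h3]

theorem FSa_neumann {s : Gp I → ℂ} {r : ℝ} (hs : Small s r) {w : ℂ} (hw : r < ‖w‖) :
    (fun g => (w - s g)⁻¹) ∈ FSa I := by
  have hr := hs.nonneg
  have hw0 : 0 < ‖w‖ := hr.trans_lt hw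
  have hw1 : w ≠ 0 := norm_pos_iff.1 hw0
  have hq : r / ‖w‖ < 1 := (div_lt_one hw0).2 hw
  have hsum : Summable fun k : ℕ => ‖w‖⁻¹ * (r / ‖w‖) ^ k :=
    (summable_geometric_of_lt_one (by positivity) hq).mul_left _
  have key : ∀ t : ℕ → ℝ, (∀ k, |t k| ≤ ‖w⁻¹ ^ (k + 1)‖) →
      ∀ k, Small (fun g => (t k : ℂ) * (s ^ k) g) (‖w‖⁻¹ * (r / ‖w‖) ^ k) := by
    intro t ht k
    refine ((hs.pow k).smul (t k)).mono ?_
    calc |t k| * r ^ k ≤ ‖w⁻¹ ^ (k + 1)‖ * r ^ k := by gcongr; exact ht k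
      _ = _ := by rw [norm_pow, norm_inv, div_pow, inv_pow]; field_simp; ring
  have k1 := key (fun k => (w⁻¹ ^ (k + 1)).re) fun k => Complex.abs_re_le_norm _
  have k2 := key (fun k => (w⁻¹ ^ (k + 1)).im) fun k => Complex.abs_im_le_norm _
  have m1 := FSa_series k1 hsum
  have m2 := FSa_series k2 hsum
  have := add_mem m1 (Submodule.smul_mem _ Complex.I m2)
  convert this using 1
  ext g
  have s1 : Summable fun k => (((w⁻¹ ^ (k + 1)).re : ℝ) : ℂ) * (s ^ k) g :=
    Summable.of_norm_bounded hsum fun k => (k1 k).norm_le g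
  have s2 : Summable fun k => (((w⁻¹ ^ (k + 1)).im : ℝ) : ℂ) * (s ^ k) g :=
    Summable.of_norm_bounded hsum fun k => (k2 k).norm_le g
  simp only [Pi.add_apply, Pi.smul_apply, smul_eq_mul]
  rw [← tsum_mul_left, ← s1.tsum_add (s2.mul_left _)]
  have hlt : ‖w⁻¹ * s g‖ < 1 := by
    rw [norm_mul, norm_inv, inv_mul_lt_iff₀ hw0, mul_one]
    exact (hs.norm_le g).trans_lt hw
  have h1 := (hasSum_geometric_of_norm_lt_one hlt).mul_left w⁻¹
  have h2 : w⁻¹ * (1 - w⁻¹ * s g)⁻¹ = (w - s g)⁻¹ := by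
    rw [← mul_inv, mul_sub, mul_one, ← mul_assoc, mul_inv_cancel₀ hw1, one_mul]
  rw [← h2, ← h1.tsum_eq]
  refine tsum_congr fun k => ?_
  have := Complex.re_add_im (w⁻¹ ^ (k + 1))
  simp only [Pi.pow_apply]
  rw [mul_pow, ← mul_assoc, ← pow_succ']
  linear_combination (-(s g) ^ k) * this

/-- The decomposition property that gives vanishing at infinity and natural spectrum. -/
def Quasi (f : Gp I → ℂ) : Prop :=
  ∀ ε : ℝ, 0 < ε → ∃ m : ℕ, 0 < m ∧ ∃ a : Gp I → ℂ, (Function.support a).Finite ∧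
    Small (f ^ m - a) (ε ^ m)

theorem Quasi.tendsto {f : Gp I → ℂ} (hf : Quasi f) : Tendsto f cofinite (𝓝 0) := by
  rw [Metric.tendsto_nhds]
  intro ε hε
  obtain ⟨m, hm, a, ha, hs⟩ := hf (ε / 2) (by positivity)
  rw [eventually_cofinite]
  refine ha.subset fun g hg => ?_
  by_contra h0
  apply hg
  have h1 : a g = 0 := by simpa using h0
  have h2 := hs.norm_le g
  simp only [Pi.sub_apply, Pi.pow_apply, h1, sub_zero, norm_pow] at h2
  have h3 := (pow_le_pow_iff_left₀ (norm_nonneg _) (by positivity) hm.ne').1 h2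
  rw [dist_zero_right]; linarith

theorem Quasi.inv_iff [Infinite (Gp I)] {f : Gp I → ℂ} (hf : Quasi f) (hB : f ∈ FSa I) (z : ℂ) :
    (¬ ∃ u ∈ FSa I, ∀ g, (z - f g) * u g = 1) ↔ z ∈ closure (Set.range f) := by
  constructor
  · intro h
    by_contra hz
    apply h
    have h0 : (0 : ℂ) ∈ closure (Set.range f) :=
      mem_closure_of_tendsto hf.tendsto (Eventually.of_forall fun g => Set.mem_range_self g)
    have hz0 : z ≠ 0 := by rintro rfl; exact hz h0
    have hzf : ∀ g, z - f g ≠ 0 := fun g hg =>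
      hz (subset_closure ⟨g, (sub_eq_zero.1 hg).symm⟩)
    have hzp : 0 < ‖z‖ := norm_pos_iff.2 hz0
    obtain ⟨m, hm, a, ha, hs⟩ := hf (‖z‖ / 2) (by positivity)
    have hlt : (‖z‖ / 2) ^ m < ‖z ^ m‖ := by
      rw [norm_pow]
      exact pow_lt_pow_left₀ (by linarith) (by positivity) hm.ne'
    have hw := FSa_neumann hs hlt
    have hne : ∀ g, z ^ m - (f ^ m - a) g ≠ 0 := by
      intro g hg
      have := hs.norm_le g
      rw [← sub_eq_zero.1 hg] at this
      linarith
    have hv : (fun g => ∑ i ∈ Finset.range m, z ^ i * f g ^ (m - 1 - i)) ∈ FSa I := by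
      have := Submodule.sum_mem (FSa I) (t := Finset.range m)
        (f := fun i => z ^ i • f ^ (m - 1 - i))
        fun i _ => Submodule.smul_mem _ _ (FSa_pow hB _)
      convert this using 1
      ext g; simp
    have hc : (fun g => a g * (z ^ m - (f ^ m - a) g)⁻¹ * (z - f g)⁻¹) ∈ FSa I := by
      refine FSa_finite (ha.subset fun g hg => ?_)
      intro h1
      apply hg
      simp [h1]
    refine ⟨_, add_mem (FSa_mul hv hw) hc, fun g => ?_⟩
    have e1 := (Commute.all z (f g)).geom_sum₂_mul m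
    have e2 := mul_inv_cancel₀ (hne g)
    have e3 := mul_inv_cancel₀ (hzf g)
    simp only [Pi.add_apply, Pi.mul_apply, Pi.sub_apply, Pi.pow_apply] at e2 ⊢
    linear_combination (z ^ m - (f g ^ m - a g))⁻¹ * e1 + e2
      + a g * (z ^ m - (f g ^ m - a g))⁻¹ * e3
  · rintro hz ⟨u, hu, h⟩
    obtain ⟨M, hM⟩ := FSa_bounded hu
    have hM0 : 0 ≤ M := (norm_nonneg _).trans (hM 0)
    obtain ⟨_, ⟨g, rfl⟩, hg⟩ := Metric.mem_closure_iff.1 hz (1 / (M + 1)) (by positivity)
    have h1 := congrArg norm (h g)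
    rw [norm_mul, norm_one, ← dist_eq_norm] at h1
    have h2 : dist z (f g) * ‖u g‖ ≤ 1 / (M + 1) * M :=
      mul_le_mul hg.le (hM g) (norm_nonneg _) (by positivity)
    have h3 : 1 / (M + 1) * M < 1 := by
      rw [div_mul_eq_mul_div, one_mul, div_lt_one (by positivity)]; linarith
    linarith

end Pool.Agent.P.MP_849d05_an
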