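import Pool.Agent.P.MP_849d05_an.Char

set_option autoImplicit false

open scoped ComplexConjugate ComplexOrder ENNReal Topology
open Filter MeasureTheory

namespace Pool.Agent.P.MP_849d05_an

variable {I : Type}

theorem isPiSystem_cyl : IsPiSystem {T : Set (Kp I) | ∃ F c, T = cyl F c} := by
  classical
  rintro _ ⟨F, c, rfl⟩ _ ⟨F', c', rfl⟩ ⟨z, hz, hz'⟩
  refine ⟨F ∪ F', z, ?_⟩
  ext x
  simp only [cyl, Set.mem_inter_iff, Set.mem_ofPred_eq, Finset.mem_union] at *
  constructor
  · rintro ⟨h1, h2⟩ i (hi | hi)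
    · rw [h1 i hi, hz i hi]
    · rw [h2 i hi, hz' i hi]
  · intro h
    exact ⟨fun i hi => by rw [h i (Or.inl hi), hz i hi],
      fun i hi => by rw [h i (Or.inr hi), hz' i hi]⟩

theorem generateFrom_cyl [Countable I] :
    (inferInstance : MeasurableSpace (Kp I))
      = MeasurableSpace.generateFrom {T : Set (Kp I) | ∃ F c, T = cyl F c} := by
  apply le_antisymm
  · refine iSup_le fun i => ?_
    rw [MeasurableSpace.comap_le_iff_le_map]
    intro t _
    have : Measurable[MeasurableSpace.generateFrom {T : Set (Kp I) | ∃ F c, T = cyl F c}]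
        (fun x : Kp I => x i) := by
      refine @measurable_to_countable' _ _ _ _
        (MeasurableSpace.generateFrom {T : Set (Kp I) | ∃ F c, T = cyl F c}) _ fun a => ?_
      apply MeasurableSpace.measurableSet_generateFrom
      refine ⟨{i}, fun _ => a, ?_⟩
      ext x; simp [cyl]
    exact this (by trivial)
  · refine MeasurableSpace.generateFrom_le ?_
    rintro _ ⟨F, c, rfl⟩
    exact measurableSet_cyl F c

theorem integrable_chi_mul [Countable I] {Y : Type} [MeasurableSpace Y] {P : Measure Y}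
    {s : Y → Kp I} (hs : Measurable s) {H : Y → ℂ} (hH : Integrable H P) (g : Gp I) :
    Integrable (fun y => chi g (s y) * H y) P :=
  hH.bdd_mul ((measurable_chi g).comp hs).aestronglyMeasurable
    (Eventually.of_forall fun y => (norm_chi g (s y)).le)

theorem setIntegral_cyl [Countable I] {Y : Type} [MeasurableSpace Y] {P : Measure Y}
    {s : Y → Kp I} (hs : Measurable s) {H : Y → ℂ} (hH : Integrable H P) (F : Finset I)
    (c : Kp I) :
    ∫ y in s ⁻¹' cyl F c, H y ∂P
      = ∑ g ∈ GF F, (((2 : ℂ) ^ F.card)⁻¹ * chi g c) * ∫ y, chi g (s y) * H y ∂P := by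
  rw [← integral_indicator (hs (measurableSet_cyl F c))]
  have : ∀ y, (s ⁻¹' cyl F c).indicator H y
      = ∑ g ∈ GF F, (((2 : ℂ) ^ F.card)⁻¹ * chi g c) * (chi g (s y) * H y) := by
    intro y
    have h1 := indicator_cyl F c (s y)
    simp_rw [← mul_assoc]
    rw [← Finset.sum_mul, ← h1]
    by_cases hy : s y ∈ cyl F c
    · rw [Set.indicator_of_mem hy, Set.indicator_of_mem (by exact hy), one_mul]
    · rw [Set.indicator_of_notMem hy, Set.indicator_of_notMem (by exact hy), zero_mul]
  simp_rw [this]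
  rw [integral_finsetSum _ fun g _ => (integrable_chi_mul hs hH g).const_mul _]
  simp_rw [integral_const_mul]

theorem uniq [Countable I] {Y Y' : Type} [MeasurableSpace Y] [MeasurableSpace Y']
    {P : Measure Y} {P' : Measure Y'} {s : Y → Kp I} {s' : Y' → Kp I}
    (hs : Measurable s) (hs' : Measurable s') {H : Y → ℂ} {H' : Y' → ℂ}
    (hH : Integrable H P) (hH' : Integrable H' P')
    (h : ∀ g, ∫ y, chi g (s y) * H y ∂P = ∫ y, chi g (s' y) * H' y ∂P')
    (T : Set (Kp I)) (hT : MeasurableSet T) :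
    ∫ y in s ⁻¹' T, H y ∂P = ∫ y in s' ⁻¹' T, H' y ∂P' := by
  refine MeasurableSpace.induction_on_inter
    (C := fun T _ => ∫ y in s ⁻¹' T, H y ∂P = ∫ y in s' ⁻¹' T, H' y ∂P')
    generateFrom_cyl isPiSystem_cyl ?_ ?_ ?_ ?_ T hT
  · simp
  · intro T hT
    obtain ⟨F, c, rfl⟩ := hT
    rw [setIntegral_cyl hs hH, setIntegral_cyl hs' hH']
    simp_rw [h]
  · intro T hT ih
    have h0 := h 0
    simp only [chi_zero_left, one_mul] at h0
    have e1 := integral_add_compl (hs hT) hH
    have e2 := integral_add_compl (hs' hT) hH'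
    rw [Set.preimage_compl, Set.preimage_compl]
    linear_combination e1 - e2 + h0 - ih
  · intro f hd hm ih
    rw [Set.preimage_iUnion, Set.preimage_iUnion,
      integral_iUnion (fun i => hs (hm i)) (fun i j hij => (hd hij).preimage s) hH.integrableOn,
      integral_iUnion (fun i => hs' (hm i)) (fun i j hij => (hd hij).preimage s') hH'.integrableOn]
    exact tsum_congr ih

theorem ae_zero_of_chi [Countable I] {ρ : Measure (Kp I)} {h : Kp I → ℂ} (hh : Integrable h ρ)
    (h0 : ∀ g, ∫ x, chi g x * h x ∂ρ = 0) : h =ᵐ[ρ] 0 := by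
  refine hh.ae_eq_zero_of_forall_setIntegral_eq_zero fun T hT _ => ?_
  have := uniq (P := ρ) (P' := ρ) measurable_id measurable_id hh (H' := 0) (integrable_zero _ _ _)
    (fun g => by simpa using h0 g) T hT
  simpa using this

end Pool.Agent.P.MP_849d05_an
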