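import Pool.Agent.P.MP_849d05_an.Main

namespace Pool.Agent.P.MP_849d05_an.VariantCounterexample

open Pool.Agent.P.MP_849d05_an

theorem result :
    ∃ f ∈ zafran (Multiplicative (ℕ →₀ ZMod 2)),
      f ∉ closureFS (Multiplicative (ℕ →₀ ZMod 2)) (radFA (Multiplicative (ℕ →₀ ZMod 2))) :=
  Pool.Agent.P.MP_849d05_an.main

end Pool.Agent.P.MP_849d05_an.VariantCounterexample
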